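import Pool.Agent.helper14.EX1.Defs2

/-!
# EX1-Defs3: policies with finite look-ahead (for the lower bound)
-/

namespace Pool.Agent.helper14.EX1

open Finset

/-- The reward of a word after a letter with parity `par`: `Sc` for each end of a circuit, cost `A` for each halving,
`B` for each letter. -/
def rew (Sc A B : ℤ) : ℕ → List ℕ → ℤ
  | _, [] => 0
  | par, k :: v => Sc * rr par k - A * k + B + rew Sc A B (k % 2) v

/-- A policy: the letter is a function of the parity of the previous letter and of `x` modulo `3 ^ D`; `h` is the potential,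
`g` the gain. -/
structure Pol (D Kp : ℕ) (Sc A B g H : ℤ) (pol : ℕ → ℤ → ℕ) (h : ℕ → ℤ → ℤ) : Prop where
  D1 : 1 ≤ D
  per : ∀ par x y, pol par (x + 3 ^ D * y) = pol par x
  hper : ∀ par x y, h par (x + 3 ^ D * y) = h par x
  al : ∀ par x, par < 2 → Al (pol par x) x
  one : ∀ par x, par < 2 → 1 ≤ pol par x
  le : ∀ par x, par < 2 → pol par x ≤ Kp
  bd : ∀ par x, par < 2 → |h par x| ≤ H
  sub : ∀ par x, par < 2 → 3 * (h par x + g) ≤ ∑ d ∈ range 3,
    (Sc * rr par (pol par x) - A * pol par x + B +
      h (pol par x % 2) (Tk (pol par x) (x + 3 ^ D * (d : ℤ))))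

/-- The word of length `n` chosen by the policy. -/
def walk (pol : ℕ → ℤ → ℕ) : ℕ → ℕ → ℤ → List ℕ
  | 0, _, _ => []
  | n + 1, par, x => pol par x :: walk pol n (pol par x % 2) (Tk (pol par x) x)

/-- The even and the odd letter in `{2, …, 7}` at `x`. -/
def spe (x : ℤ) : ℕ := if x % 3 = 0 then 2 else if x % 3 = 1 then 4 else 6

/-- The odd letter in `{2, …, 7}` at `x`. -/
def spo (x : ℤ) : ℕ := if x % 3 = 0 then 3 else if x % 3 = 1 then 5 else 7

/-- `n` even letters. -/
def swalk : ℕ → ℤ → List ℕ
  | 0, _ => []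
  | n + 1, x => spe x :: swalk n (Tk (spe x) x)

/-- The block with the free bit `b`: `M` letters of the policy, `D` simple letters, a letter of the parity `b`, and a letter which
makes the sum even. -/
def blk (pol : ℕ → ℤ → ℕ) (D M : ℕ) (b : Bool) (x : ℤ) : List ℕ :=
  let u := walk pol M 1 x ++ swalk D (nd x (walk pol M 1 x))
  let z := nd x u
  let k1 := if b then spo z else spe z
  let k2 := if (u.sum + k1) % 2 = 0 then spe (Tk k1 z) else spo (Tk k1 z)
  u ++ [k1, k2]

/-- The words of length `m` with even sum. -/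
def V3 (K m : ℕ) : Finset (List ℕ) := (lw K m).filter (fun v => Even v.sum)

/-- The system of the blocks: each block has two words with probability `1/2`. -/
noncomputable def sys3 (pol : ℕ → ℤ → ℕ) (K D M : ℕ) : Sys (V3 K (M + D + 2)) where
  m := M + D + 2
  e := fun v => v.1.sum / 2
  g := fun v => Gw v.1
  p := fun v x => (if v.1 = blk pol D M false x then 1 / 2 else 0) +
    (if v.1 = blk pol D M true x then 1 / 2 else 0)

/-- The reward inside a block. -/
noncomputable def rin (Sc A B : ℤ) (v : List ℕ) : ℝ := Sc * Rw v - A * v.sum + B * v.length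

end Pool.Agent.helper14.EX1
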