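import Pool.Agent.helper14.EX1.Bas

/-!
# EX1-Lett: the letters
-/

namespace Pool.Agent.helper14.EX1

open Finset

theorem Lett_four (j : ℕ) : ∃ t : ℤ, (4 : ℤ) ^ j = 1 + 3 * t := by
  have h : ((4 : ℤ) - 1) ∣ 4 ^ j - 1 ^ j := sub_dvd_pow_sub_pow _ _ _
  obtain ⟨t, ht⟩ := h
  rw [one_pow] at ht
  exact ⟨t, by linarith⟩

theorem Lett_two (k : ℕ) : ((2 : ℤ) ^ k) % 3 = 1 ∨ ((2 : ℤ) ^ k) % 3 = 2 := by
  obtain ⟨j, rfl | rfl⟩ := Nat.even_or_odd' k
  · obtain ⟨t, ht⟩ := Lett_four j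
    rw [pow_mul]
    norm_num
    omega
  · obtain ⟨t, ht⟩ := Lett_four j
    rw [pow_succ, pow_mul]
    norm_num
    omega

/-- `2 ^ (k + 1) ≡ 1, 2 mod 3` for `k` odd, even. -/
theorem three_tk {k : ℕ} (hk : 1 ≤ k) :
    3 * tk k = 2 ^ (k + 1) - (if k % 2 = 1 then 1 else 2) - 6 := by
  have h : (3 : ℤ) ∣ 2 ^ (k + 1) - (if k % 2 = 1 then 1 else 2) - 6 := by
    obtain ⟨j, rfl | rfl⟩ := Nat.even_or_odd' k
    · obtain ⟨t, ht⟩ := Lett_four j
      have h1 : ((2 : ℤ) ^ (2 * j + 1)) = 2 * 4 ^ j := by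
        rw [pow_succ, pow_mul]
        norm_num
        ring
      rw [if_neg (by omega), h1, ht]
      exact ⟨2 * t - 2, by ring⟩
    · obtain ⟨t, ht⟩ := Lett_four j
      have h1 : ((2 : ℤ) ^ (2 * j + 1 + 1)) = 4 * 4 ^ j := by
        rw [pow_succ, pow_succ, pow_mul]
        norm_num
        ring
      rw [if_pos (by omega), h1, ht]
      exact ⟨4 * t - 1, by ring⟩
  exact Int.mul_ediv_cancel' h

theorem tk_nn {k : ℕ} (hk : 2 ≤ k) : 0 ≤ tk k := by
  have h1 := three_tk (k := k) (by omega)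
  have h2 : (2 : ℤ) ^ 3 ≤ 2 ^ (k + 1) := pow_le_pow_right₀ (by norm_num) (by omega)
  split_ifs at h1 <;> omega

theorem tk_abs {k : ℕ} (hk : 1 ≤ k) : |(tk k : ℝ)| ≤ 2 ^ k := by
  have h1 := three_tk hk
  have h2 : (2 : ℤ) ^ 1 ≤ 2 ^ k := pow_le_pow_right₀ (by norm_num) hk
  have h3 : (2 : ℤ) ^ (k + 1) = 2 * 2 ^ k := by ring
  have h4 : |tk k| ≤ 2 ^ k := by
    rw [abs_le]
    constructor <;> split_ifs at h1 <;> omega
  exact_mod_cast h4

theorem al_congr (k : ℕ) {x y : ℤ} (h : (3 : ℤ) ∣ x - y) : Al k x ↔ Al k y := by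
  unfold Al
  have h1 : (2 ^ k * x + tk k) - (2 ^ k * y + tk k) = 2 ^ k * (x - y) := by ring
  have h2 : (3 : ℤ) ∣ (2 ^ k * x + tk k) - (2 ^ k * y + tk k) := by
    rw [h1]
    exact Dvd.dvd.mul_left h _
  constructor
  · intro h3
    exact (Int.dvd_iff_dvd_of_dvd_sub h2).1 h3
  · intro h3
    exact (Int.dvd_iff_dvd_of_dvd_sub h2).2 h3

/-- Each letter is allowed for exactly one residue modulo `3`. -/
theorem al_sum {k : ℕ} (hk : 1 ≤ k) :
    ∑ x ∈ range 3, (if Al k (x : ℤ) then (1 : ℝ) else 0) = 1 := by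
  rw [sum_range_succ, sum_range_succ, sum_range_one]
  have e0 : Al k ((0 : ℕ) : ℤ) ↔ tk k % 3 = 0 := by
    unfold Al
    rw [Int.dvd_iff_emod_eq_zero]
    simp
  have e1 : Al k ((1 : ℕ) : ℤ) ↔ (2 ^ k + tk k) % 3 = 0 := by
    unfold Al
    rw [Int.dvd_iff_emod_eq_zero]
    simp
  have e2 : Al k ((2 : ℕ) : ℤ) ↔ (2 ^ k * 2 + tk k) % 3 = 0 := by
    unfold Al
    rw [Int.dvd_iff_emod_eq_zero]
    simp
  have h2 := Lett_two k
  simp only [e0, e1, e2]
  generalize (2 : ℤ) ^ k = a at *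
  generalize tk k = b at *
  have hb : b % 3 = 0 ∨ b % 3 = 1 ∨ b % 3 = 2 := by omega
  rcases h2 with h2 | h2 <;> rcases hb with hb | hb | hb
  · rw [if_pos (by omega), if_neg (by omega), if_neg (by omega)]; norm_num
  · rw [if_neg (by omega), if_neg (by omega), if_pos (by omega)]; norm_num
  · rw [if_neg (by omega), if_pos (by omega), if_neg (by omega)]; norm_num
  · rw [if_pos (by omega), if_neg (by omega), if_neg (by omega)]; norm_num
  · rw [if_neg (by omega), if_pos (by omega), if_neg (by omega)]; norm_num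
  · rw [if_neg (by omega), if_neg (by omega), if_pos (by omega)]; norm_num

theorem al_zero {x : ℤ} (h : x % 3 = 0) : Al 2 x ∧ Al 3 x := by
  have e2 : tk 2 = 0 := by decide
  have e3 : tk 3 = 3 := by decide
  unfold Al
  rw [e2, e3]
  norm_num
  omega

theorem al_one {x : ℤ} (h : x % 3 = 1) : Al 4 x ∧ Al 5 x := by
  have e2 : tk 4 = 8 := by decide
  have e3 : tk 5 = 19 := by decide
  unfold Al
  rw [e2, e3]
  norm_num
  omega

theorem al_two {x : ℤ} (h : x % 3 = 2) : Al 1 x ∧ Al 6 x ∧ Al 7 x := by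
  have e1 : tk 1 = -1 := by decide
  have e2 : tk 6 = 40 := by decide
  have e3 : tk 7 = 83 := by decide
  unfold Al
  rw [e1, e2, e3]
  norm_num
  omega

theorem Tk_eq {k : ℕ} {x : ℤ} (h : Al k x) : 3 * Tk k x = 2 ^ k * x + tk k :=
  Int.mul_ediv_cancel' h

/-- `(a + 3 b) / 3 = a / 3 + b` (no hypothesis is needed). -/
theorem Tk_shift (k n : ℕ) (x y : ℤ) : Tk k (x + 3 ^ (n + 1) * y) = Tk k x + 3 ^ n * (2 ^ k * y) := by
  unfold Tk
  have h : (2 : ℤ) ^ k * (x + 3 ^ (n + 1) * y) + tk k =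
      (2 ^ k * x + tk k) + 3 * (3 ^ n * (2 ^ k * y)) := by ring
  rw [h, Int.add_mul_ediv_left _ _ (by norm_num)]

/-- In terms of the nodes `a = 3 x + 2`: `3 a' = 2 ^ k a - c`. -/
theorem Tk_node {k : ℕ} (hk : 1 ≤ k) {x : ℤ} (h : Al k x) :
    3 * (3 * Tk k x + 2) = 2 ^ k * (3 * x + 2) - (if k % 2 = 1 then 1 else 2) := by
  have h1 := Tk_eq h
  have h2 := three_tk hk
  have h3 : (2 : ℤ) ^ (k + 1) = 2 * 2 ^ k := by ring
  rw [h3] at h2
  linear_combination 3 * h1 + h2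

theorem th_pos {K : ℕ} (hK : 1 ≤ K) : 0 < th K := by
  unfold th
  have : ((1 : ℝ) / 2) ^ K < 1 := pow_lt_one₀ (by norm_num) (by norm_num) (by omega)
  linarith

theorem th_lt_one (K : ℕ) : th K < 1 := by
  unfold th
  have : (0 : ℝ) < (1 / 2) ^ K := by positivity
  linarith

theorem th_eq (K : ℕ) : ∑ k ∈ Icc 1 K, (1 / 2 : ℝ) ^ k = th K := by
  unfold th
  induction K with
  | zero => simp
  | succ K ih =>
    rw [← Finset.insert_Icc_right_eq_Icc_add_one (by omega), sum_insert (by simp), ih]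
    ring

theorem qn_pos {K : ℕ} (hK : 1 ≤ K) (k : ℕ) : 0 < qn K k := by
  unfold qn
  have := th_pos hK
  positivity

/-- `∑_k q_k = 3`. -/
theorem qn_sum {K : ℕ} (hK : 1 ≤ K) : ∑ k ∈ Icc 1 K, qn K k = 3 := by
  have h := th_pos hK
  have h1 : ∀ k ∈ Icc 1 K, qn K k = (3 / th K) * (1 / 2 : ℝ) ^ k := by
    intro k _
    unfold qn
    rw [one_div, inv_pow]
    field_simp
  rw [sum_congr rfl h1, ← mul_sum, th_eq]
  field_simp

end Pool.Agent.helper14.EX1
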