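import Pool.Agent.helper14.EX1.Crt3Chk
import Pool.Agent.helper14.EX1.Defs3
import Pool.Agent.helper14.EX1.Lett

/-!
# EX1-Crt3: a certificate with the constant `3` (`D = 9`, letters `1, …, 7`, gain `4`)
-/

namespace Pool.Agent.helper14.EX1

open Finset

/-- The policy. -/
def Crt3_pol (par : ℕ) (x : ℤ) : ℕ := Crt3_p par (x % 19683).toNat

/-- The potential. -/
def Crt3_hh (par : ℕ) (x : ℤ) : ℤ := (Crt3_h par (x % 19683).toNat : ℕ)

theorem Crt3_mod (x y : ℤ) : (x + 3 ^ 9 * y) % 19683 = x % 19683 := by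
  omega

theorem Crt3_tk {k : ℕ} (h1 : 1 ≤ k) (h7 : k ≤ 7) : (Crt3_t k : ℤ) = tk k + 59049 := by
  interval_cases k <;> decide

theorem Crt3_next {k : ℕ} (h1 : 1 ≤ k) (h7 : k ≤ 7) (y : ℕ) :
    ((Tk k (y : ℤ)) % 19683).toNat = Crt3_n k y := by
  have h := Crt3_tk h1 h7
  have e : ((Crt3_n k y : ℕ) : ℤ) = (Tk k (y : ℤ)) % 19683 := by
    unfold Crt3_n Tk
    push_cast
    rw [h]
    have e2 : (2 : ℤ) ^ k * (y : ℤ) + (tk k + 59049) = (2 ^ k * (y : ℤ) + tk k) + 19683 * 3 := by ring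
    rw [e2, Int.add_mul_ediv_right _ _ (by norm_num)]
    omega
  omega

theorem Crt3_periodic (k : ℕ) (y t : ℤ) :
    Crt3_hh (k % 2) (Tk k (y + 3 ^ 9 * (t + 3))) = Crt3_hh (k % 2) (Tk k (y + 3 ^ 9 * t)) := by
  have e : y + 3 ^ 9 * (t + 3) = (y + 3 ^ 9 * t) + 3 ^ (9 + 1) * 1 := by ring
  rw [e, Tk_shift]
  unfold Crt3_hh
  rw [Crt3_mod]

theorem Crt3_par (k x : ℕ) : Crt3_h (k % 2) x = Crt3_h k x := by
  unfold Crt3_h Crt3_H
  rw [Nat.mod_mod]

theorem Crt3_main {par : ℕ} (hp : par < 2) (x : ℤ) :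
    1 ≤ Crt3_pol par x ∧ Crt3_pol par x ≤ 7 ∧ Al (Crt3_pol par x) x ∧
      3 * (Crt3_hh par x + 4) ≤ ∑ d ∈ range 3, (1000 * (rr par (Crt3_pol par x) : ℤ) -
        2080 * (Crt3_pol par x : ℤ) + 3295 +
        Crt3_hh (Crt3_pol par x % 2) (Tk (Crt3_pol par x) (x + 3 ^ 9 * (d : ℤ)))) := by
  have hx0 : 0 ≤ x % 19683 := by omega
  have hx1 : (x % 19683).toNat < 19683 := by omega
  have hc := Crt3_all hp hx1
  obtain ⟨y, hy⟩ : ∃ y : ℕ, y = (x % 19683).toNat := ⟨_, rfl⟩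
  obtain ⟨q, hq⟩ : ∃ q : ℤ, x = (y : ℤ) + 3 ^ 9 * q := ⟨x / 19683, by rw [hy]; norm_num; omega⟩
  unfold Crt3_chk at hc
  have e1 : Crt3_pol par x = Crt3_p par y := by rw [hy]; rfl
  have e2 : Crt3_hh par x = (Crt3_h par y : ℕ) := by rw [hy]; rfl
  rw [← hy] at hc
  rw [e1, e2]
  generalize Crt3_p par y = k at hc ⊢
  unfold Crt3_c at hc
  simp only [Bool.and_eq_true, Nat.ble_eq, Nat.beq_eq] at hc
  obtain ⟨⟨⟨h1, h7⟩, h3⟩, h4⟩ := hc
  refine ⟨h1, h7, ?_, ?_⟩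
  · unfold Al
    have ht := Crt3_tk h1 h7
    have h5 : (3 : ℤ) ∣ 2 ^ k * (y : ℤ) + Crt3_t k := by
      have : (3 : ℕ) ∣ 2 ^ k * y + Crt3_t k := Nat.dvd_of_mod_eq_zero h3
      exact_mod_cast this
    rw [ht] at h5
    rw [hq]
    have e3 : (2 : ℤ) ^ k * ((y : ℤ) + 3 ^ 9 * q) + tk k =
        (2 ^ k * (y : ℤ) + (tk k + 59049)) + 3 * (2 ^ k * 3 ^ 8 * q - 19683) := by ring
    rw [e3]
    exact dvd_add h5 (dvd_mul_right _ _)
  · have hn : ∀ t : ℕ, Crt3_hh (k % 2) (Tk k ((y : ℤ) + 3 ^ 9 * (t : ℤ))) =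
        (Crt3_h k (Crt3_n k (y + 19683 * t)) : ℕ) := by
      intro t
      have e3 : (y : ℤ) + 3 ^ 9 * (t : ℤ) = ((y + 19683 * t : ℕ) : ℤ) := by push_cast; norm_num
      rw [e3]
      unfold Crt3_hh
      rw [Crt3_next h1 h7, Crt3_par]
    have hn0 := hn 0
    have hn1 := hn 1
    have hn2 := hn 2
    simp only [Nat.cast_zero, mul_zero, add_zero, Nat.cast_one, mul_one, Nat.cast_ofNat] at hn0 hn1 hn2
    have hsum : ∑ d ∈ range 3, Crt3_hh (k % 2) (Tk k (x + 3 ^ 9 * (d : ℤ))) =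
        (Crt3_h k (Crt3_n k y) : ℕ) + (Crt3_h k (Crt3_n k (y + 19683)) : ℕ) +
          (Crt3_h k (Crt3_n k (y + 39366)) : ℕ) := by
      have hF : ∀ s : ℤ, Crt3_hh (k % 2) (Tk k (x + 3 ^ 9 * s)) =
          Crt3_hh (k % 2) (Tk k ((y : ℤ) + 3 ^ 9 * (q + s))) := by
        intro s
        rw [hq]
        congr 2
        ring
      have hP : ∀ (t s : ℤ), Crt3_hh (k % 2) (Tk k ((y : ℤ) + 3 ^ 9 * (s + 3 * t))) =
          Crt3_hh (k % 2) (Tk k ((y : ℤ) + 3 ^ 9 * s)) := by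
        intro t
        induction t using Int.induction_on with
        | zero => intro s; simp
        | succ i ih =>
          intro s
          rw [show s + 3 * ((i : ℤ) + 1) = (s + 3 * (i : ℤ)) + 3 by ring, Crt3_periodic, ih]
        | pred i ih =>
          intro s
          rw [← Crt3_periodic, show s + 3 * (-(i : ℤ) - 1) + 3 = s + 3 * (-(i : ℤ)) by ring, ih]
      have h0 : Crt3_hh (k % 2) (Tk k (y : ℤ)) = (Crt3_h k (Crt3_n k y) : ℕ) := by
        simpa using hn0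
      rw [sum_range_succ, sum_range_succ, sum_range_one, hF, hF, hF]
      have hq3 : q % 3 = 0 ∨ q % 3 = 1 ∨ q % 3 = 2 := by omega
      have z0 : Crt3_hh (k % 2) (Tk k ((y : ℤ) + 3 ^ 9 * 0)) = (Crt3_h k (Crt3_n k y) : ℕ) := by
        rw [mul_zero, add_zero]
        exact h0
      have z1 : Crt3_hh (k % 2) (Tk k ((y : ℤ) + 3 ^ 9 * 1)) = (Crt3_h k (Crt3_n k (y + 19683)) : ℕ) := by
        rw [mul_one]
        exact hn1
      have z2 : Crt3_hh (k % 2) (Tk k ((y : ℤ) + 3 ^ 9 * 2)) = (Crt3_h k (Crt3_n k (y + 39366)) : ℕ) := by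
        have := hn2
        norm_num at this ⊢
        exact this
      rcases hq3 with h | h | h
      · obtain ⟨t, rfl⟩ : ∃ t, q = 3 * t := ⟨q / 3, by omega⟩
        have c0 := hP t 0
        have c1 := hP t 1
        have c2 := hP t 2
        simp only [Nat.cast_zero, Nat.cast_one, Nat.cast_ofNat]
        rw [show 3 * t + 0 = 0 + 3 * t by ring, show 3 * t + 1 = 1 + 3 * t by ring,
          show 3 * t + 2 = 2 + 3 * t by ring, c0, c1, c2, z0, z1, z2]
      · obtain ⟨t, rfl⟩ : ∃ t, q = 3 * t + 1 := ⟨q / 3, by omega⟩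
        have c0 := hP t 1
        have c1 := hP t 2
        have c2 := hP (t + 1) 0
        simp only [Nat.cast_zero, Nat.cast_one, Nat.cast_ofNat]
        rw [show 3 * t + 1 + 0 = 1 + 3 * t by ring, show 3 * t + 1 + 1 = 2 + 3 * t by ring,
          show 3 * t + 1 + 2 = 0 + 3 * (t + 1) by ring, c0, c1, c2, z0, z1, z2]
        ring
      · obtain ⟨t, rfl⟩ : ∃ t, q = 3 * t + 2 := ⟨q / 3, by omega⟩
        have c0 := hP t 2
        have c1 := hP (t + 1) 0
        have c2 := hP (t + 1) 1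
        simp only [Nat.cast_zero, Nat.cast_one, Nat.cast_ofNat]
        rw [show 3 * t + 2 + 0 = 2 + 3 * t by ring, show 3 * t + 2 + 1 = 0 + 3 * (t + 1) by ring,
          show 3 * t + 2 + 2 = 1 + 3 * (t + 1) by ring, c0, c1, c2, z0, z1, z2]
        ring
    rw [sum_add_distrib, hsum, sum_const, card_range, nsmul_eq_mul]
    have hr : (Crt3_r par k : ℤ) = 1000 * (rr par k : ℤ) + 3295 := by
      unfold Crt3_r rr
      rcases Nat.lt_or_ge 2 k with h2 | h2
      · have hb : Nat.ble k 2 = false := by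
          rw [Bool.eq_false_iff]
          intro hb
          have := Nat.le_of_ble_eq_true hb
          omega
        rw [hb, if_neg (by omega)]
        norm_num
      · have hb : Nat.ble k 2 = true := Nat.ble_eq_true_of_le h2
        rw [hb]
        obtain rfl | rfl : par = 0 ∨ par = 1 := by omega
        · rw [if_neg (by omega)]
          rfl
        · rw [if_pos ⟨h2, by norm_num⟩]
          rfl
    push_cast
    have h4' : (3 : ℤ) * ((Crt3_h par y : ℤ) + 4) + 3 * (2080 * (k : ℤ)) ≤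
        3 * (Crt3_r par k : ℤ) + (((Crt3_h k (Crt3_n k y) : ℤ) +
          (Crt3_h k (Crt3_n k (y + 19683)) : ℤ)) + (Crt3_h k (Crt3_n k (y + 39366)) : ℤ)) := by
      exact_mod_cast h4
    rw [hr] at h4'
    linarith

theorem crt3 : ∃ (D Kp : ℕ) (Sc A B g H : ℤ) (pol : ℕ → ℤ → ℕ) (h : ℕ → ℤ → ℤ),
    Pol D Kp Sc A B g H pol h ∧ 0 < Sc ∧ 0 < g ∧ 0 ≤ B ∧ (Sc : ℝ) * 3 * Real.log 2 ≤ A ∧
      (B : ℝ) ≤ Sc * 3 * Real.log 3 := by
  refine ⟨9, 7, 1000, 2080, 3295, 4, 32768, Crt3_pol, Crt3_hh, ⟨by norm_num, ?_, ?_, ?_, ?_, ?_, ?_, ?_⟩,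
    by norm_num, by norm_num, by norm_num, ?_, ?_⟩
  · intro par x y
    unfold Crt3_pol
    rw [Crt3_mod]
  · intro par x y
    unfold Crt3_hh
    rw [Crt3_mod]
  · exact fun par x hp => (Crt3_main hp x).2.2.1
  · exact fun par x hp => (Crt3_main hp x).1
  · exact fun par x hp => (Crt3_main hp x).2.1
  · intro par x _
    unfold Crt3_hh Crt3_h
    rw [Nat.abs_cast]
    have : (Crt3_H par >>> (15 * (x % 19683).toNat)) % 32768 < 32768 := Nat.mod_lt _ (by norm_num)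
    exact_mod_cast this.le
  · exact fun par x hp => (Crt3_main hp x).2.2.2
  · have := Real.log_two_lt_d9
    push_cast
    linarith
  · have h2 := Real.log_two_gt_d9
    have h3 : 84 * Real.log 2 ≤ 53 * Real.log 3 := by
      have h := Real.log_le_log (by norm_num) (by norm_num : (2 : ℝ) ^ 84 ≤ 3 ^ 53)
      rw [Real.log_pow, Real.log_pow] at h
      exact_mod_cast h
    push_cast
    linarith

end Pool.Agent.helper14.EX1
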