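import Pool.Agent.helper14.EX1.Wrd

/-!
# EX1-Mom: most words are good

`p v = ww v / th K ^ n / 3 ^ n = ∏ (2 ^ (-k) / th K)` is a probability on `lw K n` (`sum_lw_succ`, `th_eq`).
(1) `s v = Gw v / 2 ^ v.sum`: `s (k :: v) = tk k / 2 ^ k + 3 / 2 ^ k * s v`, `|tk k / 2 ^ k| ≤ 1`, so
`sqrt |s (k :: v)| ≤ 1 + sqrt (3 / 2 ^ k) * sqrt |s v|` and `M_n = ∑_v p v * sqrt |s v|` satisfies
`M_{n+1} ≤ 1 + κ M_n` with `κ = ∑_{k ≤ K} (2 ^ (-k) / th K) * sqrt (3 / 2 ^ k) ≤ 0.96` for `K ≥ 7`: use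
`sqrt (3/2) ≤ 1.2248`, `sqrt (3/4) ≤ 0.8661`, `sqrt (3/8) ≤ 0.6124`, `sqrt (3/16) ≤ 0.4331`, and `≤ 0.3063` for `k ≥ 5`,
`th K ≥ 127/128`, `∑_{k ≥ 5} 2 ^ (-k) ≤ 1/16`.  So `M_n ≤ 25`; Markov: `p (|s| > 65536) ≤ 25/256`.
(2) `∑_v p v * sqrt (3 ^ n / 2 ^ v.sum) = κ ^ n ≤ 1`, so `p (3 ^ n > 65536 * 2 ^ v.sum) ≤ 1/256`.
(3) `∑_v p v * v.sum ≤ 2 n` since `∑_{k ≤ K} k 2 ^ (-k) ≤ 2 th K`; so `p (v.sum > 16 n) ≤ 1/8`.
-/

namespace Pool.Agent.helper14.EX1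

open Finset

theorem Mom_w {K : ℕ} (hK : 7 ≤ K) (n k : ℕ) (v : List ℕ) :
    ww (k :: v) / th K ^ (n + 1) / 3 ^ (n + 1) =
      ((1 / 2) ^ k / th K) * (ww v / th K ^ n / 3 ^ n) := by
  have h := th_pos (K := K) (by omega)
  rw [ww_cons, one_div, inv_pow, pow_succ, pow_succ]
  field_simp

theorem Mom_succ {K : ℕ} (hK : 7 ≤ K) (n : ℕ) (F : List ℕ → ℝ) :
    ∑ v ∈ lw K (n + 1), ww v / th K ^ (n + 1) / 3 ^ (n + 1) * F v =
      ∑ k ∈ Icc 1 K, ((1 / 2) ^ k / th K) * ∑ v ∈ lw K n, ww v / th K ^ n / 3 ^ n * F (k :: v) := by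
  rw [sum_lw_succ]
  refine sum_congr rfl fun k _ => ?_
  rw [mul_sum]
  refine sum_congr rfl fun v _ => ?_
  rw [Mom_w hK]
  ring

theorem Mom_wpos {K : ℕ} (hK : 7 ≤ K) (n : ℕ) (v : List ℕ) : 0 ≤ ww v / th K ^ n / 3 ^ n := by
  have h := th_pos (K := K) (by omega)
  have := ww_pos v
  positivity

theorem Mom_ppos {K : ℕ} (hK : 7 ≤ K) (k : ℕ) : 0 ≤ (1 / 2 : ℝ) ^ k / th K := by
  have h := th_pos (K := K) (by omega)
  positivity

theorem Mom_psum {K : ℕ} (hK : 7 ≤ K) : ∑ k ∈ Icc 1 K, (1 / 2 : ℝ) ^ k / th K = 1 := by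
  have h := th_pos (K := K) (by omega)
  rw [← sum_div, th_eq]
  exact div_self h.ne'

theorem Mom_total {K : ℕ} (hK : 7 ≤ K) (n : ℕ) :
    ∑ v ∈ lw K n, ww v / th K ^ n / 3 ^ n = 1 := by
  induction n with
  | zero => simp [lw, ww_nil]
  | succ n ih =>
    have h := Mom_succ hK n (fun _ => 1)
    simp only [mul_one] at h
    rw [h, ih]
    simp only [mul_one]
    exact Mom_psum hK

theorem Mom_sqrt_le {x y : ℝ} (hy : 0 ≤ y) (h : x ≤ y ^ 2) : Real.sqrt x ≤ y := by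
  calc Real.sqrt x ≤ Real.sqrt (y ^ 2) := Real.sqrt_le_sqrt h
    _ = y := Real.sqrt_sq hy

theorem Mom_ktail {K : ℕ} (hK : 4 ≤ K) :
    ∑ k ∈ Icc 1 K, (1 / 2 : ℝ) ^ k * Real.sqrt (3 / 2 ^ k) ≤
      0.93254375 + 0.3063 * (1 / 16 - (1 / 2) ^ K) := by
  induction K, hK using Nat.le_induction with
  | base =>
    have e : ∑ k ∈ Icc 1 4, (1 / 2 : ℝ) ^ k * Real.sqrt (3 / 2 ^ k) =
        (1 / 2 : ℝ) ^ 1 * Real.sqrt (3 / 2 ^ 1) + (1 / 2 : ℝ) ^ 2 * Real.sqrt (3 / 2 ^ 2) +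
        (1 / 2 : ℝ) ^ 3 * Real.sqrt (3 / 2 ^ 3) + (1 / 2 : ℝ) ^ 4 * Real.sqrt (3 / 2 ^ 4) := by
      rw [show Icc 1 4 = ({1, 2, 3, 4} : Finset ℕ) by rfl]
      rw [sum_insert (by decide), sum_insert (by decide), sum_insert (by decide), sum_singleton]
      ring
    rw [e]
    have h1 : Real.sqrt (3 / 2 ^ 1) ≤ 1.2248 := Mom_sqrt_le (by norm_num) (by norm_num)
    have h2 : Real.sqrt (3 / 2 ^ 2) ≤ 0.8661 := Mom_sqrt_le (by norm_num) (by norm_num)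
    have h3 : Real.sqrt (3 / 2 ^ 3) ≤ 0.6124 := Mom_sqrt_le (by norm_num) (by norm_num)
    have h4 : Real.sqrt (3 / 2 ^ 4) ≤ 0.4331 := Mom_sqrt_le (by norm_num) (by norm_num)
    norm_num at h1 h2 h3 h4 ⊢
    linarith
  | succ K hK ih =>
    rw [← Finset.insert_Icc_right_eq_Icc_add_one (by omega), sum_insert (by simp)]
    have h5 : Real.sqrt (3 / 2 ^ (K + 1)) ≤ 0.3063 := by
      refine Mom_sqrt_le (by norm_num) ?_
      have h6 : (2 : ℝ) ^ 5 ≤ 2 ^ (K + 1) := pow_le_pow_right₀ (by norm_num) (by omega)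
      have h7 : (3 : ℝ) / 2 ^ (K + 1) ≤ 3 / 2 ^ 5 :=
        div_le_div_of_nonneg_left (by norm_num) (by norm_num) h6
      refine h7.trans ?_
      norm_num
    have h8 : (0 : ℝ) ≤ (1 / 2) ^ (K + 1) := by positivity
    have h9 : (1 / 2 : ℝ) ^ K = 2 * (1 / 2) ^ (K + 1) := by ring
    rw [h9] at ih
    nlinarith [mul_le_mul_of_nonneg_left h5 h8]

theorem Mom_th {K : ℕ} (hK : 7 ≤ K) : 127 / 128 ≤ th K := by
  unfold th
  have h : (1 / 2 : ℝ) ^ K ≤ (1 / 2) ^ 7 := pow_le_pow_of_le_one (by norm_num) (by norm_num) hK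
  norm_num at h ⊢
  linarith

theorem Mom_kappa {K : ℕ} (hK : 7 ≤ K) :
    ∑ k ∈ Icc 1 K, (1 / 2 : ℝ) ^ k / th K * Real.sqrt (3 / 2 ^ k) ≤ 24 / 25 := by
  have h := th_pos (K := K) (by omega)
  have h1 := Mom_ktail (K := K) (by omega)
  have h2 := Mom_th hK
  have h3 : (0 : ℝ) ≤ (1 / 2) ^ K := by positivity
  have e : ∑ k ∈ Icc 1 K, (1 / 2 : ℝ) ^ k / th K * Real.sqrt (3 / 2 ^ k) =
      (∑ k ∈ Icc 1 K, (1 / 2 : ℝ) ^ k * Real.sqrt (3 / 2 ^ k)) / th K := by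
    rw [sum_div]
    refine sum_congr rfl fun k _ => ?_
    ring
  rw [e, div_le_iff₀ h]
  norm_num at h1 ⊢
  linarith

theorem Mom_kappa_nn {K : ℕ} (hK : 7 ≤ K) :
    0 ≤ ∑ k ∈ Icc 1 K, (1 / 2 : ℝ) ^ k / th K * Real.sqrt (3 / 2 ^ k) :=
  sum_nonneg fun k _ => mul_nonneg (Mom_ppos hK k) (Real.sqrt_nonneg _)

/-- The square root of the size of the constant of a word. -/
noncomputable def Mom_s (v : List ℕ) : ℝ := Real.sqrt (|(Gw v : ℝ)| / 2 ^ v.sum)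

theorem Mom_s_cons {k : ℕ} (hk : 1 ≤ k) (v : List ℕ) :
    Mom_s (k :: v) ≤ 1 + Real.sqrt (3 / 2 ^ k) * Mom_s v := by
  unfold Mom_s
  have h2 : (0 : ℝ) < 2 ^ v.sum := by positivity
  have h3 : (0 : ℝ) < 2 ^ k := by positivity
  have e : (Gw (k :: v) : ℝ) = 2 ^ v.sum * (tk k : ℝ) + 3 * (Gw v : ℝ) := by
    simp only [Gw]
    push_cast
    ring
  have h4 : |(Gw (k :: v) : ℝ)| / 2 ^ (k :: v).sum ≤ 1 + 3 / 2 ^ k * (|(Gw v : ℝ)| / 2 ^ v.sum) := by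
    rw [e, List.sum_cons, pow_add, div_le_iff₀ (by positivity)]
    have h5 : |2 ^ v.sum * (tk k : ℝ) + 3 * (Gw v : ℝ)| ≤
        2 ^ v.sum * 2 ^ k + 3 * |(Gw v : ℝ)| := by
      refine (abs_add_le _ _).trans ?_
      rw [abs_mul, abs_mul, abs_of_pos h2, abs_of_pos (by norm_num : (0 : ℝ) < 3)]
      have := mul_le_mul_of_nonneg_left (tk_abs hk) h2.le
      linarith
    refine h5.trans (le_of_eq ?_)
    field_simp
  calc Real.sqrt (|(Gw (k :: v) : ℝ)| / 2 ^ (k :: v).sum)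
      ≤ Real.sqrt (1 + 3 / 2 ^ k * (|(Gw v : ℝ)| / 2 ^ v.sum)) := Real.sqrt_le_sqrt h4
    _ ≤ 1 + Real.sqrt (3 / 2 ^ k * (|(Gw v : ℝ)| / 2 ^ v.sum)) := by
        have q0 : 0 ≤ 3 / 2 ^ k * (|(Gw v : ℝ)| / 2 ^ v.sum) := by positivity
        refine Mom_sqrt_le (by positivity) ?_
        have q1 := Real.sq_sqrt q0
        have q2 := Real.sqrt_nonneg (3 / 2 ^ k * (|(Gw v : ℝ)| / 2 ^ v.sum))
        nlinarith
    _ = 1 + Real.sqrt (3 / 2 ^ k) * Real.sqrt (|(Gw v : ℝ)| / 2 ^ v.sum) := by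
        rw [Real.sqrt_mul (by positivity)]

theorem Mom_one {K : ℕ} (hK : 7 ≤ K) (n : ℕ) :
    ∑ v ∈ lw K n, ww v / th K ^ n / 3 ^ n * Mom_s v ≤ 25 := by
  induction n with
  | zero => simp [lw, ww_nil, Mom_s, Gw]
  | succ n ih =>
    rw [Mom_succ hK]
    have h1 : ∀ k ∈ Icc 1 K, ((1 / 2 : ℝ) ^ k / th K) *
        ∑ v ∈ lw K n, ww v / th K ^ n / 3 ^ n * Mom_s (k :: v) ≤
        (1 / 2 : ℝ) ^ k / th K + ((1 / 2 : ℝ) ^ k / th K * Real.sqrt (3 / 2 ^ k)) * 25 := by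
      intro k hk
      rw [mem_Icc] at hk
      have h2 : ∑ v ∈ lw K n, ww v / th K ^ n / 3 ^ n * Mom_s (k :: v) ≤
          1 + Real.sqrt (3 / 2 ^ k) * 25 := by
        calc ∑ v ∈ lw K n, ww v / th K ^ n / 3 ^ n * Mom_s (k :: v)
            ≤ ∑ v ∈ lw K n, (ww v / th K ^ n / 3 ^ n +
                Real.sqrt (3 / 2 ^ k) * (ww v / th K ^ n / 3 ^ n * Mom_s v)) := by
              refine sum_le_sum fun v _ => ?_
              have := mul_le_mul_of_nonneg_left (Mom_s_cons hk.1 v) (Mom_wpos hK n v)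
              refine this.trans (le_of_eq ?_)
              ring
          _ = 1 + Real.sqrt (3 / 2 ^ k) * ∑ v ∈ lw K n, ww v / th K ^ n / 3 ^ n * Mom_s v := by
              rw [sum_add_distrib, Mom_total hK, ← mul_sum]
          _ ≤ 1 + Real.sqrt (3 / 2 ^ k) * 25 := by
              have := mul_le_mul_of_nonneg_left ih (Real.sqrt_nonneg (3 / 2 ^ k))
              linarith
      refine (mul_le_mul_of_nonneg_left h2 (Mom_ppos hK k)).trans (le_of_eq ?_)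
      ring
    refine (sum_le_sum h1).trans ?_
    rw [sum_add_distrib, Mom_psum hK, ← sum_mul]
    have := Mom_kappa hK
    linarith

theorem Mom_two {K : ℕ} (hK : 7 ≤ K) (n : ℕ) :
    ∑ v ∈ lw K n, ww v / th K ^ n / 3 ^ n * Real.sqrt (3 ^ n / 2 ^ v.sum) ≤ 1 := by
  induction n with
  | zero => simp [lw, ww_nil]
  | succ n ih =>
    rw [Mom_succ hK]
    have h1 : ∀ k ∈ Icc 1 K, ((1 / 2 : ℝ) ^ k / th K) *
        ∑ v ∈ lw K n, ww v / th K ^ n / 3 ^ n * Real.sqrt (3 ^ (n + 1) / 2 ^ (k :: v).sum) ≤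
        (1 / 2 : ℝ) ^ k / th K * Real.sqrt (3 / 2 ^ k) := by
      intro k hk
      refine mul_le_mul_of_nonneg_left ?_ (Mom_ppos hK k)
      have e : ∀ v ∈ lw K n, ww v / th K ^ n / 3 ^ n * Real.sqrt (3 ^ (n + 1) / 2 ^ (k :: v).sum) =
          Real.sqrt (3 / 2 ^ k) * (ww v / th K ^ n / 3 ^ n * Real.sqrt (3 ^ n / 2 ^ v.sum)) := by
        intro v _
        have e1 : (3 : ℝ) ^ (n + 1) / 2 ^ (k :: v).sum = 3 / 2 ^ k * (3 ^ n / 2 ^ v.sum) := by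
          rw [List.sum_cons, pow_add, pow_succ]
          field_simp
          try rw [pow_add]
        rw [e1, Real.sqrt_mul (by positivity)]
        ring
      rw [sum_congr rfl e, ← mul_sum]
      have := mul_le_mul_of_nonneg_left ih (Real.sqrt_nonneg (3 / 2 ^ k))
      linarith
    refine (sum_le_sum h1).trans ?_
    have := Mom_kappa hK
    linarith

theorem Mom_mean (K : ℕ) :
    ∑ k ∈ Icc 1 K, (1 / 2 : ℝ) ^ k * (k : ℝ) = 2 - ((K : ℝ) + 2) * (1 / 2) ^ K := by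
  induction K with
  | zero => norm_num
  | succ K ih =>
    rw [← Finset.insert_Icc_right_eq_Icc_add_one (by omega), sum_insert (by simp), ih]
    push_cast
    ring

theorem Mom_mean_le {K : ℕ} (hK : 7 ≤ K) :
    ∑ k ∈ Icc 1 K, (1 / 2 : ℝ) ^ k / th K * (k : ℝ) ≤ 2 := by
  have h := th_pos (K := K) (by omega)
  have e : ∑ k ∈ Icc 1 K, (1 / 2 : ℝ) ^ k / th K * (k : ℝ) =
      (∑ k ∈ Icc 1 K, (1 / 2 : ℝ) ^ k * (k : ℝ)) / th K := by
    rw [sum_div]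
    refine sum_congr rfl fun k _ => ?_
    ring
  rw [e, div_le_iff₀ h, Mom_mean]
  unfold th
  have h1 : (0 : ℝ) ≤ (K : ℝ) * (1 / 2) ^ K := by positivity
  linarith

theorem Mom_three {K : ℕ} (hK : 7 ≤ K) (n : ℕ) :
    ∑ v ∈ lw K n, ww v / th K ^ n / 3 ^ n * (v.sum : ℝ) ≤ 2 * n := by
  induction n with
  | zero => simp [lw, ww_nil]
  | succ n ih =>
    rw [Mom_succ hK]
    have h1 : ∀ k ∈ Icc 1 K, ((1 / 2 : ℝ) ^ k / th K) *
        ∑ v ∈ lw K n, ww v / th K ^ n / 3 ^ n * ((k :: v).sum : ℝ) ≤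
        (1 / 2 : ℝ) ^ k / th K * (k : ℝ) + (1 / 2 : ℝ) ^ k / th K * (2 * n) := by
      intro k hk
      rw [← mul_add]
      refine mul_le_mul_of_nonneg_left ?_ (Mom_ppos hK k)
      have e : ∀ v ∈ lw K n, ww v / th K ^ n / 3 ^ n * ((k :: v).sum : ℝ) =
          (k : ℝ) * (ww v / th K ^ n / 3 ^ n) + ww v / th K ^ n / 3 ^ n * (v.sum : ℝ) := by
        intro v _
        rw [List.sum_cons]
        push_cast
        ring
      rw [sum_congr rfl e, sum_add_distrib, ← mul_sum, Mom_total hK]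
      linarith
    refine (sum_le_sum h1).trans ?_
    rw [sum_add_distrib, ← sum_mul, Mom_psum hK]
    have := Mom_mean_le hK
    push_cast
    linarith

theorem Mom_point {n : ℕ} (hn : 1 ≤ n) (v : List ℕ) (h : ¬ good n v) :
    1 ≤ Mom_s v / 256 + Real.sqrt (3 ^ n / 2 ^ v.sum) / 256 + (v.sum : ℝ) / (16 * n) := by
  have h2 : (0 : ℝ) < 2 ^ v.sum := by positivity
  have hn' : (0 : ℝ) < n := by exact_mod_cast hn
  have p1 : 0 ≤ Mom_s v / 256 := div_nonneg (Real.sqrt_nonneg _) (by norm_num)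
  have p2 : 0 ≤ Real.sqrt (3 ^ n / 2 ^ v.sum) / 256 := div_nonneg (Real.sqrt_nonneg _) (by norm_num)
  have p3 : 0 ≤ (v.sum : ℝ) / (16 * n) := by positivity
  have hs : Real.sqrt 65536 = 256 := by
    rw [show (65536 : ℝ) = 256 ^ 2 by norm_num, Real.sqrt_sq (by norm_num)]
  unfold good at h
  by_cases c1 : |(Gw v : ℝ)| ≤ 65536 * 2 ^ v.sum
  · by_cases c2 : (3 : ℝ) ^ n ≤ 65536 * 2 ^ v.sum
    · have c3 : ¬ v.sum ≤ 16 * n := fun c3 => h ⟨c1, c2, c3⟩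
      have c4 : (16 * n : ℝ) ≤ v.sum := by
        have : 16 * n ≤ v.sum := by omega
        exact_mod_cast this
      have c5 : 1 ≤ (v.sum : ℝ) / (16 * n) := by
        rw [le_div_iff₀ (by positivity)]
        linarith
      linarith
    · push Not at c2
      have c4 : (65536 : ℝ) ≤ 3 ^ n / 2 ^ v.sum := by
        rw [le_div_iff₀ h2]
        exact c2.le
      have c5 := Real.sqrt_le_sqrt c4
      rw [hs] at c5
      linarith
  · push Not at c1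
    have c4 : (65536 : ℝ) ≤ |(Gw v : ℝ)| / 2 ^ v.sum := by
      rw [le_div_iff₀ h2]
      exact c1.le
    have c5 := Real.sqrt_le_sqrt c4
    rw [hs] at c5
    have c6 : 256 ≤ Mom_s v := c5
    linarith

open Classical in
theorem bad_small {K : ℕ} (hK : 7 ≤ K) (n : ℕ) :
    ∑ v ∈ lw K n, (if good n v then 0 else ww v / th K ^ n / 3 ^ n) ≤ 1 / 4 := by
  rcases Nat.eq_zero_or_pos n with rfl | hn
  · have hg : good 0 [] := by
      unfold good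
      simp [Gw]
    simp [lw, hg]
  · have hn' : (0 : ℝ) < n := by exact_mod_cast hn
    have h1 : ∀ v ∈ lw K n, (if good n v then 0 else ww v / th K ^ n / 3 ^ n) ≤
        (ww v / th K ^ n / 3 ^ n * Mom_s v) * (1 / 256) +
        (ww v / th K ^ n / 3 ^ n * Real.sqrt (3 ^ n / 2 ^ v.sum)) * (1 / 256) +
        (ww v / th K ^ n / 3 ^ n * (v.sum : ℝ)) * (1 / (16 * n)) := by
      intro v _
      have hw := Mom_wpos hK n v
      split_ifs with hg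
      · have q1 : 0 ≤ Mom_s v := Real.sqrt_nonneg _
        have q2 : 0 ≤ Real.sqrt (3 ^ n / 2 ^ v.sum) := Real.sqrt_nonneg _
        positivity
      · have := mul_le_mul_of_nonneg_left (Mom_point hn v hg) hw
        rw [mul_one] at this
        refine this.trans (le_of_eq ?_)
        ring
    refine (sum_le_sum h1).trans ?_
    rw [sum_add_distrib, sum_add_distrib, ← sum_mul, ← sum_mul, ← sum_mul]
    have m1 := Mom_one hK n
    have m2 := Mom_two hK n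
    have m3 := Mom_three hK n
    have m4 : (∑ v ∈ lw K n, ww v / th K ^ n / 3 ^ n * (v.sum : ℝ)) * (1 / (16 * n)) ≤ 1 / 8 := by
      have := mul_le_mul_of_nonneg_right m3 (show (0 : ℝ) ≤ 1 / (16 * n) by positivity)
      refine this.trans (le_of_eq ?_)
      field_simp
      norm_num
    linarith

end Pool.Agent.helper14.EX1
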