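import Pool.Agent.helper14.EX1.InjZ

/-!
# EX1-Pt: the good part of the partition function is at most linear, everywhere

Split by `N = v.sum ≤ 16 n`.  For fixed `N` the map `v ↦ nd x v` is injective on the allowed good words with
`v.sum = N` (`nd_inj`), and by `nd_eq` its values are integers in the interval with centre `2 ^ N x / 3 ^ n` and radius
`65536 * 2 ^ N / 3 ^ n`, so there are at most `2 * 65536 * 2 ^ N / 3 ^ n + 1` of them; each has weight
`ww v / th K ^ n ≤ 2 * 3 ^ n / 2 ^ N`, and if there is one then `3 ^ n / 2 ^ N ≤ 65536`.  So each `N` contributes at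
most `6 * 65536 = 393216`, and there are at most `17 n` values of `N`.
-/

namespace Pool.Agent.helper14.EX1

open Finset

/-- Counting integers in an interval. -/
theorem Pt_card (c ρ : ℝ) (hρ : 0 ≤ ρ) : ((Icc ⌈c - ρ⌉ ⌊c + ρ⌋).card : ℝ) ≤ 2 * ρ + 1 := by
  rw [Int.card_Icc]
  rcases le_total (⌊c + ρ⌋ + 1 - ⌈c - ρ⌉) 0 with h | h
  · rw [Int.toNat_of_nonpos h]
    push_cast
    linarith
  · have h1 : (((⌊c + ρ⌋ + 1 - ⌈c - ρ⌉).toNat : ℤ) : ℝ) = ((⌊c + ρ⌋ + 1 - ⌈c - ρ⌉ : ℤ) : ℝ) := by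
      rw [Int.toNat_of_nonneg h]
    have h2 : (((⌊c + ρ⌋ + 1 - ⌈c - ρ⌉).toNat : ℕ) : ℝ) = ((⌊c + ρ⌋ + 1 - ⌈c - ρ⌉ : ℤ) : ℝ) := by
      rw [← h1]; norm_cast
    rw [h2]
    push_cast
    have h3 := Int.floor_le (c + ρ)
    have h4 := Int.le_ceil (c - ρ)
    linarith

/-- The contribution of one value of the sum. -/
theorem Pt_one {K n : ℕ} (h : 1 / 2 ≤ th K ^ n) (x : ℤ) (N : ℕ) (S : Finset (List ℕ))
    (hS : ∀ v ∈ S, v ∈ lw K n ∧ Ala x v ∧ good n v ∧ v.sum = N) :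
    ∑ v ∈ S, ww v / th K ^ n ≤ 393216 := by
  classical
  rcases S.eq_empty_or_nonempty with rfl | ⟨v0, hv0⟩
  · norm_num
  have h2N : (0 : ℝ) < 2 ^ N := by positivity
  have h3n : (0 : ℝ) < 3 ^ n := by positivity
  have hth : 0 < th K ^ n := lt_of_lt_of_le (by norm_num) h
  have hw : (3 : ℝ) ^ n / 2 ^ N ≤ 65536 := by
    obtain ⟨_, _, hg, hs⟩ := hS v0 hv0
    have := hg.2.1
    rw [hs] at this
    rw [div_le_iff₀ h2N]
    exact this
  set w : ℝ := 3 ^ n / 2 ^ N with hwdef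
  have hw0 : 0 < w := by positivity
  set c : ℝ := 2 ^ N * (x : ℝ) / 3 ^ n with hc
  set ρ : ℝ := 65536 / w with hρ
  have hρ0 : 0 ≤ ρ := by positivity
  have hmaps : ∀ v ∈ S, nd x v ∈ Icc ⌈c - ρ⌉ ⌊c + ρ⌋ := by
    intro v hv
    obtain ⟨hv1, hv2, hv3, hv4⟩ := hS v hv
    have hlen : v.length = n := (mem_lw.1 hv1).1
    have e := nd_eq hv2
    rw [hlen, hv4] at e
    have e' : (3 : ℝ) ^ n * (nd x v : ℝ) = 2 ^ N * (x : ℝ) + (Gw v : ℝ) := by exact_mod_cast e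
    have hG := hv3.1
    rw [hv4, abs_le] at hG
    have e2 : (nd x v : ℝ) = c + (Gw v : ℝ) / 3 ^ n := by
      rw [hc]
      field_simp
      linarith
    have hρe : ρ = 65536 * 2 ^ N / 3 ^ n := by
      rw [hρ, hwdef]
      field_simp
    have h5 : (Gw v : ℝ) / 3 ^ n ≤ ρ := by
      rw [hρe]
      exact div_le_div_of_nonneg_right hG.2 h3n.le
    have h6 : -ρ ≤ (Gw v : ℝ) / 3 ^ n := by
      rw [hρe, ← neg_div]
      exact div_le_div_of_nonneg_right hG.1 h3n.le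
    rw [mem_Icc, Int.ceil_le, Int.le_floor]
    constructor
    · rw [e2]; linarith
    · rw [e2]; linarith
  have hinj : Set.InjOn (nd x) (S : Set (List ℕ)) := by
    intro v hv v' hv' e
    obtain ⟨hv1, hv2, _, _⟩ := hS v hv
    obtain ⟨hw1, hw2, _, _⟩ := hS v' hv'
    have m1 := mem_lw.1 hv1
    have m2 := mem_lw.1 hw1
    exact nd_inj (m1.1.trans m2.1.symm) (fun k hk => (m1.2 k hk).1) (fun k hk => (m2.2 k hk).1)
      hv2 hw2 e
  have hcard : (S.card : ℝ) ≤ 2 * ρ + 1 := by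
    have h1 : S.card ≤ (Icc ⌈c - ρ⌉ ⌊c + ρ⌋).card := Finset.card_le_card_of_injOn (nd x) hmaps hinj
    exact le_trans (by exact_mod_cast h1) (Pt_card c ρ hρ0)
  have hterm : ∀ v ∈ S, ww v / th K ^ n ≤ 2 * w := by
    intro v hv
    obtain ⟨hv1, _, _, hv4⟩ := hS v hv
    have hlen : v.length = n := (mem_lw.1 hv1).1
    have e : ww v = w := by rw [ww, hlen, hv4]
    rw [e, div_le_iff₀ hth]
    nlinarith
  calc ∑ v ∈ S, ww v / th K ^ n ≤ ∑ v ∈ S, 2 * w := Finset.sum_le_sum hterm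
    _ = S.card * (2 * w) := by rw [Finset.sum_const, nsmul_eq_mul]
    _ ≤ (2 * ρ + 1) * (2 * w) := mul_le_mul_of_nonneg_right hcard (by positivity)
    _ = 4 * (ρ * w) + 2 * w := by ring
    _ = 4 * 65536 + 2 * w := by
        rw [hρ, div_mul_cancel₀ _ hw0.ne']
    _ ≤ 393216 := by linarith

open Classical in
theorem good_pt {K n : ℕ} (hn : 1 ≤ n) (h : 1 / 2 ≤ th K ^ n) (x : ℤ) :
    ∑ v ∈ lw K n, (if Ala x v ∧ good n v then ww v / th K ^ n else 0) ≤ 6684672 * n := by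
  rw [← Finset.sum_filter]
  set S : Finset (List ℕ) := (lw K n).filter (fun v => Ala x v ∧ good n v) with hS
  have hmaps : ∀ v ∈ S, v.sum ∈ range (16 * n + 1) := by
    intro v hv
    have h1 := (Finset.mem_filter.1 hv).2.2.2.2
    rw [Finset.mem_range]
    omega
  rw [← Finset.sum_fiberwise_of_maps_to hmaps]
  have h1 : ∀ N ∈ range (16 * n + 1), ∑ v ∈ S with v.sum = N, ww v / th K ^ n ≤ 393216 := by
    intro N _
    refine Pt_one h x N _ fun v hv => ?_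
    obtain ⟨h2, h3⟩ := Finset.mem_filter.1 hv
    obtain ⟨h4, h5⟩ := Finset.mem_filter.1 h2
    exact ⟨h4, h5.1, h5.2, h3⟩
  refine (Finset.sum_le_sum h1).trans ?_
  rw [Finset.sum_const, Finset.card_range, nsmul_eq_mul]
  push_cast
  have hn' : (1 : ℝ) ≤ n := by exact_mod_cast hn
  linarith

end Pool.Agent.helper14.EX1
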