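import Pool.Agent.helper14.EX1.Vil
import Pool.Agent.helper14.EX1.Mom
import Pool.Agent.helper14.EX1.Pt

/-!
# EX1-Aliv: the martingale stays above `1/2` up to time `n` with probability at least `c / n`

`th K ^ n ≥ 1 - n 2 ^ (-K) ≥ 1/2` (`one_add_mul_le_pow`).  `fn_eq`: `fn = good part + bad part`, `good part ≤ 6684672 n`
(`good_pt`), `avg n (bad part) ≤ ∑_{v not good} (ww v / th ^ n) / 3 ^ n ≤ 1/4` (`avg_ala`, `bad_small`).
`1/2 ≤ avg (fn 1_alive) ≤ 6684672 n * al K n + 1/4` (`ville`).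
-/

namespace Pool.Agent.helper14.EX1

open Finset

theorem Aliv_th {K n : ℕ} (hK : 1 ≤ K) (h : n ≤ 2 ^ (K - 1)) : 1 / 2 ≤ th K ^ n := by
  have h0 : (1 / 2 : ℝ) ^ K ≤ 1 := pow_le_one₀ (by norm_num) (by norm_num)
  have h1 : (-2 : ℝ) ≤ -(1 / 2) ^ K := by linarith
  have h2 := one_add_mul_le_pow h1 n
  have h3 : (n : ℝ) * (1 / 2) ^ K ≤ 1 / 2 := by
    have h4 : (n : ℝ) ≤ 2 ^ (K - 1) := by exact_mod_cast h
    obtain ⟨k, rfl⟩ : ∃ k, K = k + 1 := ⟨K - 1, by omega⟩
    rw [Nat.add_sub_cancel] at h4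
    calc (n : ℝ) * (1 / 2) ^ (k + 1) ≤ 2 ^ k * (1 / 2) ^ (k + 1) :=
          mul_le_mul_of_nonneg_right h4 (by positivity)
      _ = 1 / 2 := by
        rw [pow_succ, ← mul_assoc, ← mul_pow]
        norm_num
  have h5 : th K = 1 + -(1 / 2) ^ K := by
    unfold th
    ring
  rw [h5]
  linarith

theorem Aliv_sum (n : ℕ) {κ : Type} (s : Finset κ) (F : κ → ℤ → ℝ) :
    avg n (fun x => ∑ v ∈ s, F v x) = ∑ v ∈ s, avg n (F v) := by
  unfold avg
  rw [Finset.sum_comm, Finset.sum_div]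

open Classical in
/-- the average of the bad part -/
theorem Aliv_bad {K : ℕ} (hK : 7 ≤ K) (n : ℕ) :
    avg n (fun x => ∑ v ∈ lw K n, if Ala x v ∧ ¬ good n v then ww v / th K ^ n else 0) ≤ 1 / 4 := by
  rw [Aliv_sum]
  refine le_trans (le_of_eq (Finset.sum_congr rfl fun v hv => ?_)) (bad_small hK n)
  obtain ⟨hl, hk⟩ := mem_lw.1 hv
  by_cases hg : good n v
  · rw [if_pos hg]
    have e : (fun x : ℤ => if Ala x v ∧ ¬ good n v then ww v / th K ^ n else 0) = fun _ => (0 : ℝ) := by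
      funext x
      rw [if_neg (fun h => h.2 hg)]
    rw [e, avg_const]
  · rw [if_neg hg]
    have e : (fun x : ℤ => if Ala x v ∧ ¬ good n v then ww v / th K ^ n else 0) =
        fun x => ww v / th K ^ n * (if Ala x v then (1 : ℝ) else 0) := by
      funext x
      by_cases ha : Ala x v
      · rw [if_pos ⟨ha, hg⟩, if_pos ha, mul_one]
      · rw [if_neg (fun h => ha h.1), if_neg ha, mul_zero]
    rw [e, avg_smul]
    have h1 := avg_ala v (fun k hk' => (hk k hk').1)
    rw [hl] at h1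
    rw [h1]
    ring

open Classical in
/-- good part and bad part -/
theorem Aliv_split (K n : ℕ) (x : ℤ) : fn K n x =
    (∑ v ∈ lw K n, if Ala x v ∧ good n v then ww v / th K ^ n else 0) +
      ∑ v ∈ lw K n, if Ala x v ∧ ¬ good n v then ww v / th K ^ n else 0 := by
  rw [fn_eq, ← Finset.sum_add_distrib]
  refine Finset.sum_congr rfl fun v _ => ?_
  by_cases ha : Ala x v
  · by_cases hg : good n v
    · rw [if_pos ha, if_pos ⟨ha, hg⟩, if_neg (fun h => h.2 hg), add_zero]
    · rw [if_pos ha, if_neg (fun h => hg h.2), if_pos ⟨ha, hg⟩, zero_add]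
  · rw [if_neg ha, if_neg (fun h => ha h.1), if_neg (fun h => ha h.1), add_zero]

theorem al_low {K n : ℕ} (hK : 7 ≤ K) (hn : 1 ≤ n) (h : n ≤ 2 ^ (K - 1)) :
    1 / (26738688 * (n : ℝ)) ≤ al K n := by
  classical
  have hth := Aliv_th (by omega : 1 ≤ K) h
  have hthp : 0 < th K ^ n := by linarith
  have hn0 : (0 : ℝ) < n := by exact_mod_cast hn
  have h1 := ville (by omega : 1 ≤ K) n
  have h2 : avg n (fun x => if alive K n x then fn K n x else 0) ≤
      avg n (fun x => 6684672 * n * (if alive K n x then (1 : ℝ) else 0) +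
        ∑ v ∈ lw K n, if Ala x v ∧ ¬ good n v then ww v / th K ^ n else 0) := by
    refine avg_mono fun x => ?_
    have hb : 0 ≤ ∑ v ∈ lw K n, if Ala x v ∧ ¬ good n v then ww v / th K ^ n else 0 := by
      refine Finset.sum_nonneg fun v _ => ?_
      split_ifs
      · exact div_nonneg (ww_pos v).le hthp.le
      · exact le_rfl
    by_cases ha : alive K n x
    · rw [if_pos ha, if_pos ha, Aliv_split]
      have := good_pt (K := K) hn hth x
      linarith
    · rw [if_neg ha, if_neg ha]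
      linarith
  rw [avg_add, avg_smul] at h2
  have h3 := Aliv_bad hK n
  have h4 : avg n (fun x => if alive K n x then (1 : ℝ) else 0) = al K n := rfl
  rw [h4] at h2
  rw [div_le_iff₀ (by positivity)]
  nlinarith [h1, h2, h3]

end Pool.Agent.helper14.EX1
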