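import Pool.Agent.helper14.EX1.Ker

/-!
# EX1-Atom: small masses, because different words have different ends

Take `emax` with `e v ≤ emax`, `gmax` with `|g v| ≤ gmax`; then `ee w ≤ emax * n` and
`|GG w| ≤ C ^ n`, `C = gmax + 3 ^ m + 4 ^ emax`, `length w = n`.  Choose `A` with
`2 * C < 3 ^ A` (so `2 * C ^ n < 3 ^ (A n)` for `n ≥ 1`).  By `iter_eq`
`(K^[n] (ind (A n) c)) x = ∑_{w ∈ wds n, nd x w ≡ c} path x w`.  For each value `k = ee w ≤ emax n` at most one word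
with `path x w ≠ 0` is in the class: `3 ^ (m n) (nd x w - nd x w') = GG w - GG w'` (`nd_eq`), divisible by
`3 ^ (A n)`, of absolute value `< 3 ^ (A n)`, so `nd x w = nd x w'` and `w = w'` (`Ok.inj`).  Each path is
`≤ ρ ^ n` (`path_le`).  So `B = emax`.
-/

namespace Pool.Agent.helper14.EX1

open Finset

variable {ι : Type} [Fintype ι] {S : Sys ι}

theorem Atom_ee_le (S : Sys ι) (w : List ι) : S.ee w ≤ (univ.sup S.e) * w.length := by
  induction w with
  | nil => simp [Sys.ee]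
  | cons v w ih =>
    have h1 : S.ee (v :: w) = S.e v + S.ee w := by simp [Sys.ee]
    have h2 : S.e v ≤ univ.sup S.e := Finset.le_sup (mem_univ v)
    rw [h1, List.length_cons, Nat.mul_succ]
    omega

/-- the base of the bound for the constants -/
def Atom_C (S : Sys ι) : ℕ :=
  univ.sup (fun v => (S.g v).natAbs) + 3 ^ S.m + 4 ^ (univ.sup S.e)

theorem Atom_GG_le (S : Sys ι) (w : List ι) : |S.GG w| ≤ (Atom_C S : ℤ) ^ w.length := by
  induction w with
  | nil => simp [Sys.GG]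
  | cons v w ih =>
    have hg : |S.g v| ≤ ((univ.sup (fun v => (S.g v).natAbs) : ℕ) : ℤ) := by
      rw [Int.abs_eq_natAbs]
      exact_mod_cast Finset.le_sup (f := fun v => (S.g v).natAbs) (mem_univ v)
    have hC4 : (4 : ℤ) ^ (univ.sup S.e) ≤ (Atom_C S : ℤ) := by
      unfold Atom_C
      push_cast
      have h1 : (0 : ℤ) ≤ ((univ.sup (fun v => (S.g v).natAbs) : ℕ) : ℤ) := Int.natCast_nonneg _
      have h2 : (0 : ℤ) ≤ 3 ^ S.m := by positivity
      linarith
    have hCg : ((univ.sup (fun v => (S.g v).natAbs) : ℕ) : ℤ) + 3 ^ S.m ≤ (Atom_C S : ℤ) := by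
      unfold Atom_C
      push_cast
      have h2 : (0 : ℤ) ≤ 4 ^ (univ.sup S.e) := by positivity
      linarith
    have he : (4 : ℤ) ^ S.ee w ≤ (Atom_C S : ℤ) ^ w.length := by
      calc (4 : ℤ) ^ S.ee w ≤ 4 ^ (univ.sup S.e * w.length) :=
            pow_le_pow_right₀ (by norm_num) (Atom_ee_le S w)
        _ = (4 ^ (univ.sup S.e)) ^ w.length := pow_mul _ _ _
        _ ≤ (Atom_C S : ℤ) ^ w.length := pow_le_pow_left₀ (by positivity) hC4 _
    have hCn : (0 : ℤ) ≤ (Atom_C S : ℤ) ^ w.length := by positivity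
    show |4 ^ S.ee w * S.g v + 3 ^ S.m * S.GG w| ≤ _
    have h3 : |(4 : ℤ) ^ S.ee w * S.g v| ≤
        (Atom_C S : ℤ) ^ w.length * ((univ.sup (fun v => (S.g v).natAbs) : ℕ) : ℤ) := by
      rw [abs_mul, abs_of_nonneg (by positivity : (0 : ℤ) ≤ 4 ^ S.ee w)]
      exact mul_le_mul he hg (abs_nonneg _) hCn
    have h4 : |(3 : ℤ) ^ S.m * S.GG w| ≤ 3 ^ S.m * (Atom_C S : ℤ) ^ w.length := by
      rw [abs_mul, abs_of_nonneg (by positivity : (0 : ℤ) ≤ 3 ^ S.m)]
      exact mul_le_mul_of_nonneg_left ih (by positivity)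
    calc |4 ^ S.ee w * S.g v + 3 ^ S.m * S.GG w|
        ≤ |(4 : ℤ) ^ S.ee w * S.g v| + |(3 : ℤ) ^ S.m * S.GG w| := abs_add_le _ _
      _ ≤ (Atom_C S : ℤ) ^ w.length * ((univ.sup (fun v => (S.g v).natAbs) : ℕ) : ℤ) +
          3 ^ S.m * (Atom_C S : ℤ) ^ w.length := add_le_add h3 h4
      _ = (Atom_C S : ℤ) ^ w.length *
          (((univ.sup (fun v => (S.g v).natAbs) : ℕ) : ℤ) + 3 ^ S.m) := by ring
      _ ≤ (Atom_C S : ℤ) ^ w.length * (Atom_C S : ℤ) := mul_le_mul_of_nonneg_left hCg hCn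
      _ = (Atom_C S : ℤ) ^ (v :: w).length := by rw [List.length_cons, pow_succ]

theorem Atom_eq (hS : S.Ok) {x c : ℤ} {w w' : List ι} (hl : w.length = w'.length)
    (hp : S.path x w ≠ 0) (hp' : S.path x w' ≠ 0) (he : S.ee w = S.ee w')
    (hc : (3 : ℤ) ^ ((2 * Atom_C S + 1) * w.length) ∣ S.nd x w - c)
    (hc' : (3 : ℤ) ^ ((2 * Atom_C S + 1) * w.length) ∣ S.nd x w' - c) : w = w' := by
  refine hS.inj x w w' hl hp hp' ?_
  rcases Nat.eq_zero_or_pos w.length with h0 | hn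
  · have h1 : w = [] := List.length_eq_zero_iff.1 h0
    have h2 : w' = [] := List.length_eq_zero_iff.1 (by rw [← hl, h0])
    rw [h1, h2]
  have e1 := Sys.nd_eq hS hp
  have e2 := Sys.nd_eq hS hp'
  rw [← hl] at e2
  rw [he] at e1
  have e3 : 3 ^ (S.m * w.length) * (S.nd x w - S.nd x w') = S.GG w - S.GG w' := by
    rw [mul_sub, e1, e2]
    ring
  have hd : (3 : ℤ) ^ ((2 * Atom_C S + 1) * w.length) ∣ S.nd x w - S.nd x w' := by
    have := dvd_sub hc hc'
    rwa [sub_sub_sub_cancel_right] at this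
  by_contra hne
  have hne' : S.nd x w - S.nd x w' ≠ 0 := sub_ne_zero.2 hne
  have h3 : (3 : ℤ) ^ ((2 * Atom_C S + 1) * w.length) ≤ |S.nd x w - S.nd x w'| :=
    Int.le_of_dvd (abs_pos.2 hne') ((dvd_abs _ _).2 hd)
  have h4 : |S.GG w - S.GG w'| ≤ 2 * (Atom_C S : ℤ) ^ w.length := by
    have a1 := Atom_GG_le S w
    have a2 := Atom_GG_le S w'
    rw [← hl] at a2
    have a3 := abs_sub (S.GG w) (S.GG w')
    linarith
  have h5 : |S.nd x w - S.nd x w'| ≤ |S.GG w - S.GG w'| := by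
    rw [← e3, abs_mul]
    have h6 : (1 : ℤ) ≤ |(3 : ℤ) ^ (S.m * w.length)| := by
      rw [abs_of_pos (by positivity)]
      exact one_le_pow₀ (by norm_num)
    nlinarith [abs_nonneg (S.nd x w - S.nd x w')]
  have h6 : 2 * (Atom_C S : ℤ) ^ w.length < (3 : ℤ) ^ ((2 * Atom_C S + 1) * w.length) := by
    have b1 : 2 * Atom_C S < 3 ^ (2 * Atom_C S + 1) :=
      (Nat.lt_succ_self _).trans (Nat.lt_pow_self (by norm_num))
    have b2 : (2 * Atom_C S) ^ w.length < (3 ^ (2 * Atom_C S + 1)) ^ w.length :=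
      Nat.pow_lt_pow_left b1 hn.ne'
    have b3 : 2 * Atom_C S ^ w.length ≤ (2 * Atom_C S) ^ w.length := by
      rw [mul_pow]
      refine Nat.mul_le_mul_right _ ?_
      calc 2 = 2 ^ 1 := rfl
        _ ≤ 2 ^ w.length := Nat.pow_le_pow_right (by norm_num) hn
    have b4 : 2 * Atom_C S ^ w.length < 3 ^ ((2 * Atom_C S + 1) * w.length) := by
      rw [pow_mul]
      exact b3.trans_lt b2
    exact_mod_cast b4
  linarith

theorem atom (hS : S.Ok) : ∃ (A B : ℕ) (ρ : ℝ), 0 < ρ ∧ ρ < 1 ∧ 1 ≤ A ∧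
    ∀ (n : ℕ) (x c : ℤ), (S.K^[n] (ind (A * n) c)) x ≤ (B * n + 1) * ρ ^ n := by
  classical
  obtain ⟨ρ, hρ0, hρ1, hρ⟩ := hS.rho
  refine ⟨2 * Atom_C S + 1, univ.sup S.e, ρ, hρ0, hρ1, by omega, fun n x c => ?_⟩
  rw [Sys.iter_eq]
  set W : Finset (List ι) := (S.wds n).filter
    (fun w => S.path x w ≠ 0 ∧ (3 : ℤ) ^ ((2 * Atom_C S + 1) * n) ∣ S.nd x w - c) with hW
  have h1 : ∑ w ∈ S.wds n, S.path x w * ind ((2 * Atom_C S + 1) * n) c (S.nd x w) =
      ∑ w ∈ W, S.path x w := by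
    rw [hW, sum_filter]
    refine sum_congr rfl fun w _ => ?_
    unfold ind
    by_cases hp : S.path x w = 0
    · simp [hp]
    · by_cases hd : (3 : ℤ) ^ ((2 * Atom_C S + 1) * n) ∣ S.nd x w - c
      · simp [hp, hd]
      · simp [hd]
  rw [h1]
  have hlen : ∀ w ∈ W, w.length = n := fun w hw => Sys.mem_wds.1 (mem_filter.1 hw).1
  have hcard : W.card ≤ univ.sup S.e * n + 1 := by
    have h2 : W.card ≤ (range (univ.sup S.e * n + 1)).card := by
      refine card_le_card_of_injOn S.ee (fun w hw => ?_) ?_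
      · have h3 := Atom_ee_le S w
        rw [hlen w hw] at h3
        exact mem_coe.2 (mem_range.2 (Nat.lt_succ_of_le h3))
      · intro w hw w' hw' he
        have hw1 := mem_filter.1 (mem_coe.1 hw)
        have hw2 := mem_filter.1 (mem_coe.1 hw')
        have hl := hlen w (mem_coe.1 hw)
        have hl' := hlen w' (mem_coe.1 hw')
        exact Atom_eq hS (c := c) (by rw [hl, hl']) hw1.2.1 hw2.2.1 he (by rw [hl]; exact hw1.2.2)
          (by rw [hl]; exact hw2.2.2)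
    rwa [card_range] at h2
  calc ∑ w ∈ W, S.path x w ≤ ∑ _w ∈ W, ρ ^ n := sum_le_sum fun w hw => by
        have := Sys.path_le hS hρ0.le hρ x w
        rwa [hlen w hw] at this
    _ = W.card * ρ ^ n := by rw [sum_const, nsmul_eq_mul]
    _ ≤ ((univ.sup S.e : ℕ) * n + 1) * ρ ^ n := by
        refine mul_le_mul_of_nonneg_right ?_ (by positivity)
        exact_mod_cast hcard

end Pool.Agent.helper14.EX1
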