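import Pool.Agent.helper14.EX1.Wrd

/-!
# EX1-Avc: averages of the transfer operator, the martingale `fn`

`avc`: induction on `j` for all `B`: `(L^{j+1} φ)(B + 3^(j+1) y) = ∑_k [Al k B] q_k (L^j φ)(Tk k B + 3^j (2^k y))`
(`Function.iterate_succ_apply'`, `al_congr`, `Tk_shift`); the function `y ↦ (L^j φ)(C + 3^j y)` is periodic mod `3 ^ n`
(`iterL_per`), so `sum_affine` removes the factor `2 ^ k`.
`fn_mart`: `fn (n+1) = L^n (fn 1)` (`Function.iterate_succ_apply`), `avc` with `φ = fn 1`, and `∑_{z<3} fn 1 z = ∑_k q_k = 3`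
(`al_sum`, `qn_sum`).  `fn_quarter`: `fn (n+1) = L^n (L 1)` and `L 1 ≥ 1/4`: the classes `0, 1, 2` have the letters
`{2,3}`, `{4,5}`, `{1}`, and `qn K k ≥ 3 / 2^k`; `3/16 + 3/32 = 9/32 ≥ 1/4`.
-/

namespace Pool.Agent.helper14.EX1

open Finset

theorem L_mono {K : ℕ} {q : ℕ → ℝ} (hq : ∀ k, 0 ≤ q k) {φ ψ : ℤ → ℝ} (h : ∀ x, φ x ≤ ψ x) (x : ℤ) :
    L K q φ x ≤ L K q ψ x := by
  unfold L
  refine Finset.sum_le_sum fun k _ => ?_
  split_ifs
  · exact mul_le_mul_of_nonneg_left (h _) (hq k)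
  · exact le_rfl

theorem iterL_mono {K : ℕ} {q : ℕ → ℝ} (hq : ∀ k, 0 ≤ q k) (n : ℕ) {φ ψ : ℤ → ℝ}
    (h : ∀ x, φ x ≤ ψ x) (x : ℤ) : ((L K q)^[n] φ) x ≤ ((L K q)^[n] ψ) x := by
  induction n generalizing x with
  | zero => exact h x
  | succ n ih =>
    rw [Function.iterate_succ_apply', Function.iterate_succ_apply']
    exact L_mono hq ih x

theorem Avc_L_apply (K : ℕ) (q : ℕ → ℝ) (φ : ℤ → ℝ) (x : ℤ) :
    L K q φ x = ∑ k ∈ Icc 1 K, if Al k x then q k * φ (Tk k x) else 0 := rfl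

theorem Avc_L_add (K : ℕ) (q : ℕ → ℝ) (φ ψ : ℤ → ℝ) (x : ℤ) :
    L K q (fun x => φ x + ψ x) x = L K q φ x + L K q ψ x := by
  unfold L
  rw [← Finset.sum_add_distrib]
  refine Finset.sum_congr rfl fun k _ => ?_
  split_ifs
  · exact mul_add _ _ _
  · exact (add_zero _).symm

theorem Avc_L_smul (K : ℕ) (q : ℕ → ℝ) (c : ℝ) (φ : ℤ → ℝ) (x : ℤ) :
    L K q (fun x => c * φ x) x = c * L K q φ x := by
  unfold L
  rw [Finset.mul_sum]
  refine Finset.sum_congr rfl fun k _ => ?_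
  split_ifs
  · ring
  · exact (mul_zero _).symm

theorem iterL_add (K : ℕ) (q : ℕ → ℝ) (n : ℕ) (φ ψ : ℤ → ℝ) (x : ℤ) :
    ((L K q)^[n] (fun x => φ x + ψ x)) x = ((L K q)^[n] φ) x + ((L K q)^[n] ψ) x := by
  induction n generalizing x with
  | zero => rfl
  | succ n ih =>
    rw [Function.iterate_succ_apply', Function.iterate_succ_apply', Function.iterate_succ_apply',
      funext ih]
    exact Avc_L_add K q _ _ x

theorem iterL_smul (K : ℕ) (q : ℕ → ℝ) (n : ℕ) (c : ℝ) (φ : ℤ → ℝ) (x : ℤ) :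
    ((L K q)^[n] (fun x => c * φ x)) x = c * ((L K q)^[n] φ) x := by
  induction n generalizing x with
  | zero => rfl
  | succ n ih =>
    rw [Function.iterate_succ_apply', Function.iterate_succ_apply', funext ih]
    exact Avc_L_smul K q _ _ x

theorem Avc_al_shift (k n : ℕ) (x y : ℤ) : Al k (x + 3 ^ (n + 1) * y) ↔ Al k x := by
  apply al_congr
  refine ⟨3 ^ n * y, ?_⟩
  ring

theorem iterL_per (K : ℕ) (q : ℕ → ℝ) (j : ℕ) {n : ℕ} {φ : ℤ → ℝ} (hφ : Per n φ) :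
    Per (n + j) ((L K q)^[j] φ) := by
  induction j with
  | zero => exact hφ
  | succ j ih =>
    intro x
    rw [Function.iterate_succ_apply']
    unfold L
    refine Finset.sum_congr rfl fun k _ => ?_
    have e1 : x + 3 ^ (n + (j + 1)) = x + 3 ^ (n + j + 1) * 1 := by rw [mul_one]; rfl
    have h1 : Al k (x + 3 ^ (n + (j + 1))) ↔ Al k x := by
      rw [e1]
      exact Avc_al_shift k (n + j) x 1
    have h2 : ((L K q)^[j] φ) (Tk k (x + 3 ^ (n + (j + 1)))) = ((L K q)^[j] φ) (Tk k x) := by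
      rw [e1, Tk_shift]
      exact per_mul ih _ _
    by_cases h : Al k x
    · rw [if_pos (h1.2 h), if_pos h]
      exact congrArg (fun t => q k * t) h2
    · rw [if_neg (fun h' => h (h1.1 h')), if_neg h]

theorem Avc_not_dvd (k : ℕ) : ¬ (3 : ℤ) ∣ 2 ^ k := by
  intro h
  have h1 : (3 : ℤ) ∣ 2 := Int.Prime.dvd_pow' (by norm_num) h
  norm_num at h1

theorem avc (K : ℕ) (q : ℕ → ℝ) (j n : ℕ) {φ : ℤ → ℝ} (hφ : Per n φ) (B : ℤ) :
    ∑ y ∈ range (3 ^ n), ((L K q)^[j] φ) (B + 3 ^ j * (y : ℤ)) =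
      ((L K q)^[j] (fun _ => 1)) B * ∑ z ∈ range (3 ^ n), φ (z : ℤ) := by
  induction j generalizing B with
  | zero =>
    have h1 : ∀ y ∈ range (3 ^ n), ((L K q)^[0] φ) (B + 3 ^ 0 * (y : ℤ)) = φ ((y : ℤ) + B) := by
      intro y _
      rw [pow_zero, one_mul, add_comm B]
      rfl
    rw [Finset.sum_congr rfl h1, sum_shift hφ B]
    exact (one_mul _).symm
  | succ j ih =>
    rw [Function.iterate_succ_apply', Function.iterate_succ_apply']
    have h1 : ∀ y ∈ range (3 ^ n), L K q ((L K q)^[j] φ) (B + 3 ^ (j + 1) * (y : ℤ)) =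
        ∑ k ∈ Icc 1 K, if Al k B then q k * ((L K q)^[j] φ) (Tk k B + 3 ^ j * (2 ^ k * (y : ℤ)))
          else 0 := by
      intro y _
      refine Finset.sum_congr rfl fun k _ => ?_
      by_cases h : Al k B
      · rw [if_pos ((Avc_al_shift k j B y).2 h), if_pos h, Tk_shift]
      · rw [if_neg (fun h' => h ((Avc_al_shift k j B y).1 h')), if_neg h]
    rw [Finset.sum_congr rfl h1, Finset.sum_comm, Avc_L_apply, Finset.sum_mul]
    refine Finset.sum_congr rfl fun k _ => ?_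
    by_cases h : Al k B
    · simp only [if_pos h]
      rw [← Finset.mul_sum]
      have hper : Per n (fun y => ((L K q)^[j] φ) (Tk k B + 3 ^ j * y)) := by
        intro y
        have e : Tk k B + 3 ^ j * (y + 3 ^ n) = (Tk k B + 3 ^ j * y) + 3 ^ (n + j) * 1 := by
          ring
        change ((L K q)^[j] φ) (Tk k B + 3 ^ j * (y + 3 ^ n)) = _
        rw [e]
        exact per_mul (iterL_per K q j hφ) _ _
      have hs := sum_affine hper (Avc_not_dvd k) 0
      simp only [add_zero] at hs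
      rw [hs, ih (Tk k B)]
      ring
    · simp only [if_neg h]
      rw [Finset.sum_const_zero, zero_mul]

theorem fn_zero (K : ℕ) (x : ℤ) : fn K 0 x = 1 := rfl

theorem fn_add (K m n : ℕ) : fn K (m + n) = (L K (qn K))^[m] (fn K n) := by
  unfold fn
  rw [Function.iterate_add_apply]

theorem fn_per (K n : ℕ) : Per n (fn K n) := by
  have h := iterL_per K (qn K) n (per_const 0 1)
  rw [zero_add] at h
  exact h

theorem Avc_fn_one (K : ℕ) (x : ℤ) :
    fn K 1 x = ∑ k ∈ Icc 1 K, if Al k x then qn K k else 0 := by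
  change L K (qn K) (fun _ => 1) x = _
  unfold L
  refine Finset.sum_congr rfl fun k _ => ?_
  rw [mul_one]

theorem Avc_fn_one_sum {K : ℕ} (hK : 1 ≤ K) : ∑ z ∈ range 3, fn K 1 (z : ℤ) = 3 := by
  have h0 : ∀ z ∈ range 3, fn K 1 ((z : ℕ) : ℤ) =
      ∑ k ∈ Icc 1 K, if Al k ((z : ℕ) : ℤ) then qn K k else 0 := fun z _ => Avc_fn_one K (z : ℤ)
  rw [Finset.sum_congr rfl h0, Finset.sum_comm, ← qn_sum hK]
  refine Finset.sum_congr rfl fun k hk => ?_
  have h := al_sum (mem_Icc.1 hk).1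
  have h2 : ∀ z ∈ range 3, (if Al k (z : ℤ) then qn K k else 0) =
      qn K k * (if Al k (z : ℤ) then (1 : ℝ) else 0) := by
    intro z _
    split_ifs
    · exact (mul_one _).symm
    · exact (mul_zero _).symm
  rw [Finset.sum_congr rfl h2, ← Finset.mul_sum, h, mul_one]

theorem fn_mart {K : ℕ} (hK : 1 ≤ K) (n : ℕ) (B : ℤ) :
    ∑ d ∈ range 3, fn K (n + 1) (B + 3 ^ n * (d : ℤ)) = 3 * fn K n B := by
  have h := avc K (qn K) n 1 (fn_per K 1) B
  rw [pow_one, Avc_fn_one_sum hK, ← fn_add K n 1] at h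
  rw [h, mul_comm]
  rfl

theorem avg_fn {K : ℕ} (hK : 1 ≤ K) (n : ℕ) : avg n (fn K n) = 1 := by
  induction n with
  | zero =>
    unfold avg
    simp [fn_zero]
  | succ n ih =>
    unfold avg at *
    rw [sum_split n 1 (fn K (n + 1)), pow_one]
    have h0 : ∀ B ∈ range (3 ^ n),
        ∑ W ∈ range 3, fn K (n + 1) (((B : ℕ) : ℤ) + 3 ^ n * ((W : ℕ) : ℤ)) = 3 * fn K n (B : ℤ) :=
      fun B _ => fn_mart hK n (B : ℤ)
    rw [Finset.sum_congr rfl h0, ← Finset.mul_sum, pow_succ']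
    rw [mul_div_mul_left _ _ (by norm_num : (3 : ℝ) ≠ 0)]
    exact ih

theorem Avc_qn_ge {K : ℕ} (hK : 1 ≤ K) (k : ℕ) : 3 / 2 ^ k ≤ qn K k := by
  unfold qn
  rw [le_div_iff₀ (th_pos hK)]
  have h1 : (0 : ℝ) ≤ 3 / 2 ^ k := by positivity
  calc (3 : ℝ) / 2 ^ k * th K ≤ 3 / 2 ^ k * 1 := mul_le_mul_of_nonneg_left (th_lt_one K).le h1
    _ = 3 / 2 ^ k := mul_one _

theorem Avc_one_le {K k : ℕ} (h1 : 1 ≤ k) (h2 : k ≤ K) {x : ℤ} (h : Al k x) :
    3 / 2 ^ k ≤ fn K 1 x := by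
  rw [Avc_fn_one]
  have hK : 1 ≤ K := h1.trans h2
  have hs := Finset.single_le_sum (f := fun k => if Al k x then qn K k else 0)
    (fun i _ => by
      show 0 ≤ if Al i x then qn K i else 0
      split_ifs
      · exact (qn_pos hK i).le
      · exact le_rfl) (mem_Icc.2 ⟨h1, h2⟩)
  simp only [if_pos h] at hs
  exact (Avc_qn_ge hK k).trans hs

theorem Avc_two_le {K : ℕ} (hK : 5 ≤ K) {x : ℤ} (h4 : Al 4 x) (h5 : Al 5 x) :
    1 / 4 ≤ fn K 1 x := by
  rw [Avc_fn_one]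
  have hK1 : 1 ≤ K := by omega
  have hs := Finset.sum_le_sum_of_subset_of_nonneg (s := {4, 5}) (t := Icc 1 K)
    (f := fun k => if Al k x then qn K k else 0)
    (by
      intro i hi
      simp only [Finset.mem_insert, Finset.mem_singleton] at hi
      rw [mem_Icc]
      omega)
    (fun i _ _ => by
      show 0 ≤ if Al i x then qn K i else 0
      split_ifs
      · exact (qn_pos hK1 i).le
      · exact le_rfl)
  rw [Finset.sum_pair (by norm_num)] at hs
  simp only [if_pos h4, if_pos h5] at hs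
  have e4 := Avc_qn_ge hK1 4
  have e5 := Avc_qn_ge hK1 5
  norm_num at e4 e5
  refine le_trans ?_ hs
  linarith

theorem Avc_fn_one_ge {K : ℕ} (hK : 5 ≤ K) (x : ℤ) : 1 / 4 ≤ fn K 1 x := by
  have h3 : x % 3 = 0 ∨ x % 3 = 1 ∨ x % 3 = 2 := by omega
  rcases h3 with h | h | h
  · have := Avc_one_le (K := K) (k := 2) (by norm_num) (by omega) (al_zero h).1
    refine le_trans ?_ this
    norm_num
  · exact Avc_two_le hK (al_one h).1 (al_one h).2
  · have := Avc_one_le (K := K) (k := 1) (by norm_num) (by omega) (al_two h).1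
    refine le_trans ?_ this
    norm_num

theorem fn_quarter {K : ℕ} (hK : 5 ≤ K) (n : ℕ) (x : ℤ) : fn K n x ≤ 4 * fn K (n + 1) x := by
  have hK1 : 1 ≤ K := by omega
  have h1 := iterL_mono (K := K) (fun k => (qn_pos hK1 k).le) n
    (φ := fun x => 1 / 4 * (fun _ : ℤ => (1 : ℝ)) x) (ψ := fn K 1)
    (fun x => by
      change 1 / 4 * 1 ≤ fn K 1 x
      rw [mul_one]
      exact Avc_fn_one_ge hK x) x
  rw [iterL_smul, ← fn_add K n 1] at h1
  change 1 / 4 * fn K n x ≤ fn K (n + 1) x at h1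
  linarith

theorem fn_low {K : ℕ} (hK : 5 ≤ K) (n : ℕ) (x : ℤ) : (1 / 4) ^ n ≤ fn K n x := by
  induction n with
  | zero =>
    rw [fn_zero, pow_zero]
  | succ n ih =>
    have h := fn_quarter hK n x
    rw [pow_succ]
    linarith

theorem fn_pos {K : ℕ} (hK : 5 ≤ K) (n : ℕ) (x : ℤ) : 0 < fn K n x :=
  lt_of_lt_of_le (by positivity) (fn_low hK n x)

end Pool.Agent.helper14.EX1
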