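import Pool.Agent.helper14.EX1.Defs

/-!
# EX1-Bas: periodic functions, indicators, sums over residues, averages
-/

namespace Pool.Agent.helper14.EX1

open Finset

theorem per_mul {q : ℕ} {φ : ℤ → ℝ} (hφ : Per q φ) (x y : ℤ) : φ (x + 3 ^ q * y) = φ x := by
  have h : Function.Periodic φ ((3 : ℤ) ^ q) := hφ
  have := h.int_mul y x
  rw [mul_comm]
  exact this

theorem per_dvd {q : ℕ} {φ : ℤ → ℝ} (hφ : Per q φ) {x y : ℤ} (h : (3 : ℤ) ^ q ∣ x - y) :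
    φ x = φ y := by
  obtain ⟨k, hk⟩ := h
  have hx : x = y + 3 ^ q * k := by linarith
  rw [hx]
  exact per_mul hφ y k

theorem per_mono {q q' : ℕ} (h : q ≤ q') {φ : ℤ → ℝ} (hφ : Per q φ) : Per q' φ := by
  intro x
  apply per_dvd hφ
  have : x + 3 ^ q' - x = (3 : ℤ) ^ q' := by ring
  rw [this]
  exact pow_dvd_pow 3 h

theorem per_const (q : ℕ) (c : ℝ) : Per q (fun _ => c) := fun _ => rfl

theorem per_add {q : ℕ} {φ ψ : ℤ → ℝ} (hφ : Per q φ) (hψ : Per q ψ) :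
    Per q (fun x => φ x + ψ x) := by
  intro x
  show φ (x + 3 ^ q) + ψ (x + 3 ^ q) = φ x + ψ x
  rw [hφ x, hψ x]

theorem per_mulf {q : ℕ} {φ ψ : ℤ → ℝ} (hφ : Per q φ) (hψ : Per q ψ) :
    Per q (fun x => φ x * ψ x) := by
  intro x
  show φ (x + 3 ^ q) * ψ (x + 3 ^ q) = φ x * ψ x
  rw [hφ x, hψ x]

theorem per_smul {q : ℕ} {φ : ℤ → ℝ} (c : ℝ) (hφ : Per q φ) : Per q (fun x => c * φ x) := by
  intro x
  show c * φ (x + 3 ^ q) = c * φ x
  rw [hφ x]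

theorem per_sum {κ : Type} {q : ℕ} (s : Finset κ) {F : κ → ℤ → ℝ} (hF : ∀ i ∈ s, Per q (F i)) :
    Per q (fun x => ∑ i ∈ s, F i x) := by
  intro x
  exact Finset.sum_congr rfl (fun i hi => hF i hi x)

/-- A function of a periodic function is periodic. -/
theorem per_comp {q : ℕ} {φ : ℤ → ℝ} (hφ : Per q φ) (h : ℝ → ℝ) : Per q (fun x => h (φ x)) := by
  intro x
  show h (φ (x + 3 ^ q)) = h (φ x)
  rw [hφ x]

theorem Bas_dvd_iff {N a b : ℤ} (h : N ∣ a - b) : N ∣ a ↔ N ∣ b := by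
  constructor
  · intro ha
    have := dvd_sub ha h
    simpa using this
  · intro hb
    have := dvd_add h hb
    simpa using this

theorem ind_per (q : ℕ) (c : ℤ) : Per q (ind q c) := by
  intro x
  unfold ind
  have : ((3 : ℤ) ^ q ∣ x + 3 ^ q - c) ↔ ((3 : ℤ) ^ q ∣ x - c) := by
    apply Bas_dvd_iff
    have : x + 3 ^ q - c - (x - c) = (3 : ℤ) ^ q := by ring
    rw [this]
  simp only [this]

theorem ind_nn (q : ℕ) (c x : ℤ) : 0 ≤ ind q c x := by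
  unfold ind
  split_ifs <;> norm_num

theorem ind_le_one (q : ℕ) (c x : ℤ) : ind q c x ≤ 1 := by
  unfold ind
  split_ifs <;> norm_num

theorem ind_congr {q : ℕ} {c c' : ℤ} (h : (3 : ℤ) ^ q ∣ c - c') : ind q c = ind q c' := by
  funext x
  unfold ind
  have : ((3 : ℤ) ^ q ∣ x - c) ↔ ((3 : ℤ) ^ q ∣ x - c') := by
    apply Bas_dvd_iff
    have e : x - c - (x - c') = -(c - c') := by ring
    rw [e]
    exact (dvd_neg).2 h
  simp only [this]

theorem ind_add (q : ℕ) (c y : ℤ) : ind q (c + 3 ^ q * y) = ind q c := by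
  apply ind_congr
  have : c + 3 ^ q * y - c = 3 ^ q * y := by ring
  rw [this]
  exact dvd_mul_right _ _

/-- `ind` is also periodic in the class. -/
theorem ind_swap (q : ℕ) (c x : ℤ) : ind q c x = ind q x c := by
  unfold ind
  have : ((3 : ℤ) ^ q ∣ x - c) ↔ ((3 : ℤ) ^ q ∣ c - x) := dvd_sub_comm
  simp only [this]

theorem ind_zero (c x : ℤ) : ind 0 c x = 1 := by
  unfold ind
  simp

theorem Bas_toNat (q : ℕ) (x : ℤ) :
    (x % 3 ^ q).toNat ∈ range (3 ^ q) ∧ (((x % 3 ^ q).toNat : ℕ) : ℤ) = x % 3 ^ q := by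
  have hp : (0 : ℤ) < 3 ^ q := by positivity
  have h0 : 0 ≤ x % 3 ^ q := Int.emod_nonneg _ hp.ne'
  have h1 : x % 3 ^ q < 3 ^ q := Int.emod_lt_of_pos _ hp
  have h2 : (((x % 3 ^ q).toNat : ℕ) : ℤ) = x % 3 ^ q := Int.toNat_of_nonneg h0
  refine ⟨?_, h2⟩
  rw [mem_range]
  have : (((x % 3 ^ q).toNat : ℕ) : ℤ) < ((3 ^ q : ℕ) : ℤ) := by
    rw [h2]; push_cast; exact h1
  exact_mod_cast this

theorem Bas_eq_of_dvd {q : ℕ} {a b : ℕ} (ha : a ∈ range (3 ^ q)) (hb : b ∈ range (3 ^ q))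
    (h : (3 : ℤ) ^ q ∣ (a : ℤ) - b) : a = b := by
  rw [mem_range] at ha hb
  have h2 : (a : ℤ) ≡ b [ZMOD (3 : ℤ) ^ q] := (Int.modEq_iff_dvd.2 (by rwa [dvd_sub_comm] at h))
  have h3 : a ≡ b [MOD 3 ^ q] := by
    rw [← Int.natCast_modEq_iff]
    push_cast
    exact h2
  exact Nat.ModEq.eq_of_lt_of_lt h3 ha hb

theorem Bas_ind_self {q : ℕ} {c x : ℤ} (h : (3 : ℤ) ^ q ∣ x - c) : ind q c x = 1 := by
  unfold ind
  rw [if_pos h]

theorem Bas_ind_zero {q : ℕ} {c x : ℤ} (h : ¬ (3 : ℤ) ^ q ∣ x - c) : ind q c x = 0 := by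
  unfold ind
  rw [if_neg h]

/-- Every integer is in exactly one class. -/
theorem ind_sum_one (q : ℕ) (x : ℤ) : ∑ c ∈ range (3 ^ q), ind q (c : ℤ) x = 1 := by
  obtain ⟨hm, he⟩ := Bas_toNat q x
  rw [Finset.sum_eq_single (x % 3 ^ q).toNat]
  · apply Bas_ind_self
    rw [he]
    exact Int.dvd_self_sub_emod
  · intro c hc hne
    apply Bas_ind_zero
    intro hd
    apply hne
    apply Bas_eq_of_dvd hc hm
    rw [he]
    have h1 : (3 : ℤ) ^ q ∣ x - x % 3 ^ q := Int.dvd_self_sub_emod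
    have : (c : ℤ) - x % 3 ^ q = (x - x % 3 ^ q) - (x - c) := by ring
    rw [this]
    exact dvd_sub h1 hd
  · intro h
    exact absurd hm h

theorem per_decomp {q : ℕ} {φ : ℤ → ℝ} (hφ : Per q φ) (x : ℤ) :
    φ x = ∑ c ∈ range (3 ^ q), φ (c : ℤ) * ind q (c : ℤ) x := by
  have h : ∀ c ∈ range (3 ^ q), φ (c : ℤ) * ind q (c : ℤ) x = φ x * ind q (c : ℤ) x := by
    intro c _
    by_cases hd : (3 : ℤ) ^ q ∣ x - c
    · rw [per_dvd hφ hd]
    · rw [Bas_ind_zero hd, mul_zero, mul_zero]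
  rw [Finset.sum_congr rfl h, ← Finset.mul_sum, ind_sum_one, mul_one]

/-- Digits: `x = B + 3 ^ q * W`. -/
theorem sum_split (q r : ℕ) (φ : ℤ → ℝ) :
    ∑ x ∈ range (3 ^ (q + r)), φ (x : ℤ) =
      ∑ B ∈ range (3 ^ q), ∑ W ∈ range (3 ^ r), φ ((B : ℤ) + 3 ^ q * (W : ℤ)) := by
  have hp : 0 < 3 ^ q := by positivity
  rw [← Finset.sum_product' (f := fun B W : ℕ => φ ((B : ℤ) + 3 ^ q * (W : ℤ)))]
  refine Finset.sum_nbij' (fun x => (x % 3 ^ q, x / 3 ^ q)) (fun z => z.1 + 3 ^ q * z.2)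
    ?_ ?_ ?_ ?_ ?_
  · intro x hx
    rw [mem_range, pow_add] at hx
    simp only [mem_product, mem_range]
    exact ⟨Nat.mod_lt _ hp, Nat.div_lt_of_lt_mul hx⟩
  · intro z hz
    simp only [mem_product, mem_range] at hz
    rw [mem_range, pow_add]
    obtain ⟨h1, h2⟩ := hz
    calc z.1 + 3 ^ q * z.2 < 3 ^ q + 3 ^ q * z.2 := by omega
      _ = 3 ^ q * (z.2 + 1) := by ring
      _ ≤ 3 ^ q * 3 ^ r := Nat.mul_le_mul_left _ h2
  · intro x _
    exact Nat.mod_add_div x (3 ^ q)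
  · intro z hz
    simp only [mem_product, mem_range] at hz
    obtain ⟨h1, h2⟩ := hz
    apply Prod.ext
    · show (z.1 + 3 ^ q * z.2) % 3 ^ q = z.1
      rw [Nat.add_mul_mod_self_left, Nat.mod_eq_of_lt h1]
    · show (z.1 + 3 ^ q * z.2) / 3 ^ q = z.2
      rw [Nat.add_mul_div_left _ _ hp, Nat.div_eq_of_lt h1, zero_add]
  · intro x _
    show φ (x : ℤ) = φ (((x % 3 ^ q : ℕ) : ℤ) + 3 ^ q * ((x / 3 ^ q : ℕ) : ℤ))
    congr 1
    have := Nat.mod_add_div x (3 ^ q)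
    exact_mod_cast this.symm

/-- A class modulo `3 ^ q` is the disjoint union of the classes modulo `3 ^ (q + r)` in it. -/
theorem ind_split (q r : ℕ) (c x : ℤ) :
    ind q c x = ∑ W ∈ range (3 ^ r), ind (q + r) (c + 3 ^ q * (W : ℤ)) x := by
  have hq : (3 : ℤ) ^ q ≠ 0 := by positivity
  by_cases h : (3 : ℤ) ^ q ∣ x - c
  · rw [Bas_ind_self h]
    obtain ⟨y, hy⟩ := h
    rw [← ind_sum_one r y]
    apply Finset.sum_congr rfl
    intro W _
    unfold ind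
    have : ((3 : ℤ) ^ r ∣ y - W) ↔ ((3 : ℤ) ^ (q + r) ∣ x - (c + 3 ^ q * (W : ℤ))) := by
      have e : x - (c + 3 ^ q * (W : ℤ)) = 3 ^ q * (y - W) := by
        rw [mul_sub, ← hy]; ring
      rw [e, pow_add]
      exact (mul_dvd_mul_iff_left hq).symm
    simp only [this]
  · rw [Bas_ind_zero h]
    symm
    apply Finset.sum_eq_zero
    intro W _
    apply Bas_ind_zero
    intro hd
    apply h
    have h1 : (3 : ℤ) ^ q ∣ x - (c + 3 ^ q * (W : ℤ)) :=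
      (pow_dvd_pow 3 (Nat.le_add_right q r)).trans hd
    have e : x - c = (x - (c + 3 ^ q * (W : ℤ))) + 3 ^ q * (W : ℤ) := by ring
    rw [e]
    exact dvd_add h1 (dvd_mul_right _ _)

/-- `x ↦ u x + a` permutes the residues modulo `3 ^ q` if `u` is prime to `3`. -/
theorem sum_affine {q : ℕ} {φ : ℤ → ℝ} (hφ : Per q φ) {u : ℤ} (hu : ¬ (3 : ℤ) ∣ u) (a : ℤ) :
    ∑ x ∈ range (3 ^ q), φ (u * (x : ℤ) + a) = ∑ x ∈ range (3 ^ q), φ (x : ℤ) := by
  have hcop : IsCoprime ((3 : ℤ) ^ q) u := by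
    apply IsCoprime.pow_left
    exact (Prime.coprime_iff_not_dvd Int.prime_three).2 hu
  have hinj : Set.InjOn (fun x : ℕ => ((u * (x : ℤ) + a) % 3 ^ q).toNat)
      ((range (3 ^ q) : Finset ℕ) : Set ℕ) := by
    intro x hx y hy hxy
    have hx' : x ∈ range (3 ^ q) := by simpa using hx
    have hy' : y ∈ range (3 ^ q) := by simpa using hy
    have e1 := (Bas_toNat q (u * (x : ℤ) + a)).2
    have e2 := (Bas_toNat q (u * (y : ℤ) + a)).2
    have e3 : (u * (x : ℤ) + a) % 3 ^ q = (u * (y : ℤ) + a) % 3 ^ q := by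
      rw [← e1, ← e2]
      exact congrArg _ hxy
    apply Bas_eq_of_dvd hx' hy'
    have h4 : (3 : ℤ) ^ q ∣ (u * (x : ℤ) + a) - (u * (y : ℤ) + a) :=
      Int.ModEq.dvd (Int.ModEq.symm e3)
    have e : (u * (x : ℤ) + a) - (u * (y : ℤ) + a) = u * ((x : ℤ) - y) := by ring
    rw [e] at h4
    exact hcop.dvd_of_dvd_mul_left h4
  have hmap : ∀ x ∈ range (3 ^ q), ((u * (x : ℤ) + a) % 3 ^ q).toNat ∈ range (3 ^ q) :=
    fun x _ => (Bas_toNat q _).1
  refine Finset.sum_nbij (fun x : ℕ => ((u * (x : ℤ) + a) % 3 ^ q).toNat) hmap hinj ?_ ?_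
  · exact Finset.surjOn_of_injOn_of_card_le _ (fun x hx => hmap x (by simpa using hx)) hinj le_rfl
  · intro x _
    apply per_dvd hφ
    rw [(Bas_toNat q _).2]
    exact Int.dvd_self_sub_emod

theorem sum_shift {q : ℕ} {φ : ℤ → ℝ} (hφ : Per q φ) (a : ℤ) :
    ∑ x ∈ range (3 ^ q), φ ((x : ℤ) + a) = ∑ x ∈ range (3 ^ q), φ (x : ℤ) := by
  have h := sum_affine hφ (u := 1) (by norm_num) a
  simpa using h

theorem avg_up {q q' : ℕ} (h : q ≤ q') {φ : ℤ → ℝ} (hφ : Per q φ) : avg q' φ = avg q φ := by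
  obtain ⟨r, rfl⟩ := Nat.exists_eq_add_of_le h
  unfold avg
  rw [sum_split]
  have : ∀ B ∈ range (3 ^ q), ∑ W ∈ range (3 ^ r), φ ((B : ℤ) + 3 ^ q * (W : ℤ)) =
      3 ^ r * φ (B : ℤ) := by
    intro B _
    have h1 : ∀ W ∈ range (3 ^ r), φ ((B : ℤ) + 3 ^ q * (W : ℤ)) = φ (B : ℤ) :=
      fun W _ => per_mul hφ (B : ℤ) (W : ℤ)
    rw [Finset.sum_congr rfl h1, Finset.sum_const, card_range, nsmul_eq_mul]
    push_cast
    ring
  rw [Finset.sum_congr rfl this, ← Finset.mul_sum, pow_add]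
  have h3 : (3 : ℝ) ^ r ≠ 0 := by positivity
  have h4 : (3 : ℝ) ^ q ≠ 0 := by positivity
  field_simp

theorem avg_mono {q : ℕ} {φ ψ : ℤ → ℝ} (h : ∀ x, φ x ≤ ψ x) : avg q φ ≤ avg q ψ := by
  unfold avg
  apply div_le_div_of_nonneg_right _ (by positivity)
  exact Finset.sum_le_sum (fun x _ => h _)

theorem avg_add (q : ℕ) (φ ψ : ℤ → ℝ) : avg q (fun x => φ x + ψ x) = avg q φ + avg q ψ := by
  unfold avg
  rw [Finset.sum_add_distrib, add_div]

theorem avg_smul (q : ℕ) (c : ℝ) (φ : ℤ → ℝ) : avg q (fun x => c * φ x) = c * avg q φ := by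
  unfold avg
  rw [← Finset.mul_sum, mul_div_assoc]

theorem avg_const (q : ℕ) (c : ℝ) : avg q (fun _ => c) = c := by
  unfold avg
  rw [Finset.sum_const, card_range, nsmul_eq_mul]
  have h4 : (3 : ℝ) ^ q ≠ 0 := by positivity
  push_cast
  field_simp

theorem avg_nn {q : ℕ} {φ : ℤ → ℝ} (h : ∀ x, 0 ≤ φ x) : 0 ≤ avg q φ := by
  unfold avg
  exact div_nonneg (Finset.sum_nonneg (fun x _ => h _)) (by positivity)

end Pool.Agent.helper14.EX1
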