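import Pool.Agent.helper14.EX1.Nod
import Pool.Agent.helper41.Coll.Exist
import Pool.Agent.helper41.Coll.Back

/-!
# EX1-BaseG: starting nodes

`baseG`: from `x0 ≥ 1` take `s` letters, at each node the letter `3`, `5` or `7` (classes `0, 1, 2` of `x` modulo `3`); each step at
least doubles the node, so the end is `≥ 2 ^ s`.
`startG`: `m` not divisible by `3` which reaches `1`.  `m ≡ 2 mod 3`, `m ≥ 5`: `3 x0 + 2 = m`.  `m ≡ 1 mod 3`, `m ≥ 4`: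
`3 x0 + 2 = 2 m`.  `m = 1`, `m = 2`: `x0 = 1` (`5 → 8 → 4 → 2 → 1`).  `HasC` exists: `exists_hasC` of helper41.Coll.Exist.
-/

namespace Pool.Agent.helper14.EX1

open Pool.Agent.helper41.Coll

/-- An allowed letter which increases the node. -/
theorem BaseG_letter {x : ℤ} (hx : 1 ≤ x) : ∃ k : ℕ, 1 ≤ k ∧ Al k x ∧ x + 1 ≤ Tk k x := by
  have key : ∀ k : ℕ, 3 ≤ k → Al k x → x + 1 ≤ Tk k x := by
    intro k hk h
    have h1 := Tk_node (by omega) h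
    have h2 : (8 : ℤ) ≤ 2 ^ k := by
      calc (8 : ℤ) = 2 ^ 3 := by norm_num
        _ ≤ 2 ^ k := pow_le_pow_right₀ (by norm_num) hk
    have h3 : (8 : ℤ) * (3 * x + 2) ≤ 2 ^ k * (3 * x + 2) :=
      mul_le_mul_of_nonneg_right h2 (by linarith)
    have h4 : (2 : ℤ) ^ k * (3 * x + 2) - 2 ≤ 3 * (3 * Tk k x + 2) := by
      rw [h1]
      split_ifs <;> linarith
    omega
  have hm : x % 3 = 0 ∨ x % 3 = 1 ∨ x % 3 = 2 := by omega
  rcases hm with h | h | h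
  · exact ⟨3, by norm_num, (al_zero h).2, key 3 (by norm_num) (al_zero h).2⟩
  · exact ⟨5, by norm_num, (al_one h).2, key 5 (by norm_num) (al_one h).2⟩
  · exact ⟨7, by norm_num, (al_two h).2.2, key 7 (by norm_num) (al_two h).2.2⟩

theorem BaseG_iter (s : ℕ) : ∀ x : ℤ, 1 ≤ x → ∃ u : List ℕ, (∀ k ∈ u, 1 ≤ k) ∧ Ala x u ∧
    x + s ≤ nd x u := by
  induction s with
  | zero =>
    intro x hx
    exact ⟨[], by simp, trivial, by simp [nd]⟩
  | succ s ih =>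
    intro x hx
    obtain ⟨k, hk, h1, h2⟩ := BaseG_letter hx
    obtain ⟨u, hu, h3, h4⟩ := ih (Tk k x) (by linarith)
    refine ⟨k :: u, ?_, ⟨h1, h3⟩, ?_⟩
    · intro j hj
      rcases List.mem_cons.1 hj with h | h
      · rw [h]; exact hk
      · exact hu j h
    · show x + ((s + 1 : ℕ) : ℤ) ≤ nd (Tk k x) u
      push_cast
      linarith

theorem baseG {x0 : ℤ} (hx : 1 ≤ x0) (A0 : ℝ) : ∃ u : List ℕ, (∀ k ∈ u, 1 ≤ k) ∧ Ala x0 u ∧
    A0 ≤ 3 * nd x0 u + 2 := by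
  obtain ⟨s, hs⟩ := exists_nat_ge A0
  obtain ⟨u, hu, h1, h2⟩ := BaseG_iter s x0 hx
  refine ⟨u, hu, h1, ?_⟩
  have h3 : ((x0 : ℝ) + s) ≤ (nd x0 u : ℝ) := by exact_mod_cast h2
  have h4 : (1 : ℝ) ≤ x0 := by exact_mod_cast hx
  have h5 : (0 : ℝ) ≤ s := Nat.cast_nonneg s
  linarith

theorem BaseG_five : f^[4] 5 = 1 ∧ f^[3] 5 = 2 := by
  constructor <;> rfl

theorem startG {m : ℕ} (h3 : ¬ 3 ∣ m) (h1 : ∃ i, f^[i] m = 1) : ∃ x0 : ℤ, 1 ≤ x0 ∧
    (∃ i, f^[i] (3 * x0 + 2).toNat = m) ∧ (∃ i, f^[i] (3 * x0 + 2).toNat = 1) ∧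
    ∃ c0 : ℕ, HasC (3 * x0 + 2).toNat c0 := by
  have key : ∃ x0 : ℤ, 1 ≤ x0 ∧ (∃ i, f^[i] (3 * x0 + 2).toNat = m) ∧
      (∃ i, f^[i] (3 * x0 + 2).toNat = 1) := by
    by_cases hm : m ≤ 2
    · have h5 : (3 * (1 : ℤ) + 2).toNat = 5 := rfl
      refine ⟨1, le_rfl, ?_, ⟨4, by rw [h5]; exact BaseG_five.1⟩⟩
      have hm' : m = 1 ∨ m = 2 := by omega
      rcases hm' with rfl | rfl
      · exact ⟨4, by rw [h5]; exact BaseG_five.1⟩
      · exact ⟨3, by rw [h5]; exact BaseG_five.2⟩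
    · have hmod : m % 3 = 1 ∨ m % 3 = 2 := by omega
      obtain ⟨i, hi⟩ := h1
      rcases hmod with h | h
      · refine ⟨((2 * m - 2) / 3 : ℕ), ?_, ?_, ?_⟩
        · have : 1 ≤ (2 * m - 2) / 3 := by omega
          exact_mod_cast this
        · refine ⟨1, ?_⟩
          have h5 : (3 * (((2 * m - 2) / 3 : ℕ) : ℤ) + 2).toNat = 2 * m := by omega
          rw [h5]
          exact f_even m
        · refine ⟨i + 1, ?_⟩
          have h5 : (3 * (((2 * m - 2) / 3 : ℕ) : ℤ) + 2).toNat = 2 * m := by omega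
          rw [h5, Function.iterate_add_apply]
          show f^[i] (f (2 * m)) = 1
          rw [f_even, hi]
      · have h5 : (3 * (((m - 2) / 3 : ℕ) : ℤ) + 2).toNat = m := by omega
        refine ⟨((m - 2) / 3 : ℕ), ?_, ⟨0, ?_⟩, ⟨i, ?_⟩⟩
        · have : 1 ≤ (m - 2) / 3 := by omega
          exact_mod_cast this
        · rw [h5]; rfl
        · rw [h5, hi]
  obtain ⟨x0, h0, h2, ⟨i, hi⟩⟩ := key
  exact ⟨x0, h0, h2, ⟨i, hi⟩, exists_hasC hi⟩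

end Pool.Agent.helper14.EX1
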