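import Pool.Agent.helper14.EX1.Gib

/-!
# EX1-Cat: the certificate in terms of words of letters

The concatenations of `T` words of `Vs K m`: define recursively `W_0 = {[]}`, `W_{t+1} =` image of `Vs K m ×ˢ W_t` under
append (injective, because the first words have the same length `m`).  By induction
`((Lg K m γ)^[t] 1) x = ∑_{V ∈ W_t} if Ala x V then ww V ^ γ else 0` (`ww_append`, `Real.mul_rpow`, `ala_append`).
`n = m * T`.
-/

namespace Pool.Agent.helper14.EX1

open Finset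

/-- The concatenations of `t` words of `Vs K m`. -/
def Cat_W (K m : ℕ) : ℕ → Finset (List ℕ)
  | 0 => {[]}
  | t + 1 => (Vs K m ×ˢ Cat_W K m t).image (fun z => z.1 ++ z.2)

theorem Cat_mem {K m : ℕ} {v : List ℕ} :
    v ∈ Vs K m ↔ (v.length = m ∧ ∀ k ∈ v, 1 ≤ k ∧ k ≤ K) ∧ (Even v.sum ∧ 39 * m ≤ 20 * v.sum) := by
  unfold Vs
  rw [mem_filter, mem_lw]

theorem Cat_sum (K m t : ℕ) (F : List ℕ → ℝ) :
    ∑ V ∈ Cat_W K m (t + 1), F V = ∑ v ∈ Vs K m, ∑ V ∈ Cat_W K m t, F (v ++ V) := by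
  have hinj : Set.InjOn (fun z : List ℕ × List ℕ => z.1 ++ z.2)
      ((Vs K m ×ˢ Cat_W K m t : Finset (List ℕ × List ℕ)) : Set (List ℕ × List ℕ)) := by
    rintro ⟨v, V⟩ h ⟨v', V'⟩ h' he
    rw [mem_coe, mem_product] at h h'
    have h1 := (Cat_mem.1 h.1).1.1
    have h2 := (Cat_mem.1 h'.1).1.1
    have h3 : v.length = v'.length := by
      simp only at h1 h2
      rw [h1, h2]
    obtain ⟨h4, h5⟩ := List.append_inj (by simpa using he) h3
    rw [h4, h5]
  rw [Cat_W, sum_image hinj, sum_product]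

theorem Cat_iter (K m : ℕ) (γ : ℝ) (t : ℕ) : ∀ x : ℤ,
    ((Lg K m γ)^[t] (fun _ => 1)) x = ∑ V ∈ Cat_W K m t, if Ala x V then ww V ^ γ else 0 := by
  induction t with
  | zero =>
    intro x
    simp [Cat_W, Ala, ww_nil]
  | succ t ih =>
    intro x
    rw [Function.iterate_succ_apply', Cat_sum]
    unfold Lg
    refine sum_congr rfl fun v _ => ?_
    by_cases h : Ala x v
    · rw [if_pos h]
      have e : (Lg K m γ)^[t] (fun _ => 1) (nd x v) =
          ∑ V ∈ Cat_W K m t, if Ala (nd x v) V then ww V ^ γ else 0 := ih (nd x v)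
      unfold Lg at e
      rw [e, mul_sum]
      refine sum_congr rfl fun V _ => ?_
      by_cases h2 : Ala (nd x v) V
      · rw [if_pos h2, if_pos ((ala_append x v V).2 ⟨h, h2⟩), ww_append,
          Real.mul_rpow (ww_pos v).le (ww_pos V).le]
      · rw [if_neg h2, if_neg (fun hh => h2 ((ala_append x v V).1 hh).2), mul_zero]
    · rw [if_neg h]
      symm
      refine sum_eq_zero fun V _ => ?_
      rw [if_neg (fun hh => h ((ala_append x v V).1 hh).1)]

theorem Cat_prop (K m t : ℕ) : ∀ V ∈ Cat_W K m t,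
    V.length = m * t ∧ (∀ k ∈ V, 1 ≤ k ∧ k ≤ K) ∧ 39 * (m * t) ≤ 20 * V.sum := by
  induction t with
  | zero =>
    intro V hV
    rw [Cat_W, mem_singleton] at hV
    subst hV
    simp
  | succ t ih =>
    intro V hV
    rw [Cat_W, mem_image] at hV
    obtain ⟨⟨v, U⟩, h, rfl⟩ := hV
    rw [mem_product] at h
    obtain ⟨⟨h1, h2⟩, -, h3⟩ := Cat_mem.1 h.1
    obtain ⟨h4, h5, h6⟩ := ih U h.2
    simp only at h1 h2 h3
    refine ⟨?_, ?_, ?_⟩
    · rw [List.length_append, h1, h4]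
      ring
    · intro k hk
      rcases List.mem_append.1 hk with h7 | h7
      · exact h2 k h7
      · exact h5 k h7
    · rw [List.sum_append]
      change 39 * (m * (t + 1)) ≤ 20 * (v.sum + U.sum)
      have : 39 * (m * (t + 1)) = 39 * m + 39 * (m * t) := by ring
      omega

theorem cert {γ : ℝ} (h0 : 0 < γ) (h1 : γ < 1) :
    ∃ (K n : ℕ) (W : Finset (List ℕ)), CertW γ K n W := by
  obtain ⟨K, m, T, hK, hm, hT, h⟩ := gibbs h0 h1
  refine ⟨K, m * T, Cat_W K m T, ?_⟩
  refine ⟨?_, ?_, ?_, ?_, ?_⟩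
  · exact Nat.mul_pos (by omega) (by omega)
  · exact fun V hV => (Cat_prop K m T V hV).1
  · exact fun V hV => (Cat_prop K m T V hV).2.1
  · exact fun V hV => (Cat_prop K m T V hV).2.2
  · intro x
    have := h x
    rwa [Cat_iter] at this

end Pool.Agent.helper14.EX1
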