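import Pool.Agent.helper14.EX1.Gib2

/-!
# EX1-Cat2: the certificate of version 2

Given `γ`, `e` (`e ≤ 1` without loss).  `e1 = min (e / 8) (1/20)`, `β = e / 32`, `C0 > 0` with `3 / (2 ^ γ - 1) ≤ exp C0`,
`κ = (C0 + 1) / β`, `m0 ≥ 8 / e`; `K, m, T0` from `gibbs2` for `e1`, `κ`, `m0`; `T ≥ T0`, `T ≥ 1`.
For a list `w` of `T` words of `V2 K m e1` let `b(w)` be the number of words which are not typical (for `e1`).  By induction on `T`,
`(Lg2^[T] 1) x = ∑_w [allowed] ww(flatten w) ^ γ * exp (-κ m b(w))`.  The part with `b(w) ≥ β T` is at most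
`exp (-κ m β T) * ∑_w [allowed] ww ^ γ ≤ exp (-κ m β T) (∑_{k ≥ 1} (3 / 2^k)^γ)^{m T} ≤ exp (-m T) ≤ 1`
(`(3/2^k)^γ ≤ 3 (2^γ)^(-k)`, geometric series `3 / (2^γ - 1)`).  So the part with `b(w) < β T` is `≥ 2 - 1 = 1`; drop the penalty.
`W` = the concatenations of these lists, `n = m T`.  Typical for `e`: `|N - 2 n| ≤ e1 n + 5 m β T ≤ e n`,
`|R - n/2| ≤ e1 n + m β T + T ≤ e n` (`T ≤ n e / 8`); `1 ≤ e n`.
-/

namespace Pool.Agent.helper14.EX1

open Finset

theorem Cat2_rr (k k' : ℕ) : rr k k' ≤ 1 := by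
  unfold rr
  split_ifs <;> omega

theorem Rw_append (u v : List ℕ) : Rw u + Rw v ≤ Rw (u ++ v) ∧ Rw (u ++ v) ≤ Rw u + Rw v + 1 := by
  induction u with
  | nil => simp [Rw]
  | cons k u ih =>
    cases u with
    | nil =>
      cases v with
      | nil => simp [Rw]
      | cons k' v =>
        have := Cat2_rr k k'
        simp only [List.cons_append, List.nil_append, Rw]
        omega
    | cons k' u =>
      simp only [List.cons_append, Rw] at ih ⊢
      omega

theorem Cat2_Rw_le (v : List ℕ) : Rw v ≤ v.length := by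
  induction v with
  | nil => simp [Rw]
  | cons k v ih =>
    cases v with
    | nil => simp [Rw]
    | cons k' v =>
      have := Cat2_rr k k'
      simp only [Rw, List.length_cons] at ih ⊢
      omega

theorem Cat2_mem {K m : ℕ} {e : ℝ} {v : List ℕ} :
    v ∈ V2 K m e ↔ (v.length = m ∧ ∀ k ∈ v, 1 ≤ k ∧ k ≤ K) ∧
      (Even v.sum ∧ (Typ e v ∨ ∀ k ∈ v, 2 ≤ k ∧ k ≤ 7)) := by
  classical
  rw [V2, mem_filter, mem_lw]

open Classical in
/-- `1` for the words which are not typical -/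
noncomputable def Cat2_b (e : ℝ) (v : List ℕ) : ℕ := if Typ e v then 0 else 1

/-- The concatenations of `t` words of `V2 K m e`, with the number of words which are not
typical. -/
noncomputable def Cat2_P (K m : ℕ) (e : ℝ) : ℕ → Finset (List ℕ × ℕ)
  | 0 => {([], 0)}
  | t + 1 => (V2 K m e ×ˢ Cat2_P K m e t).image
      (fun z => (z.1 ++ z.2.1, Cat2_b e z.1 + z.2.2))

theorem Cat2_sum (K m : ℕ) (e : ℝ) (t : ℕ) (F : List ℕ × ℕ → ℝ) :
    ∑ V ∈ Cat2_P K m e (t + 1), F V =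
      ∑ v ∈ V2 K m e, ∑ V ∈ Cat2_P K m e t, F (v ++ V.1, Cat2_b e v + V.2) := by
  have hinj : Set.InjOn (fun z : List ℕ × (List ℕ × ℕ) => (z.1 ++ z.2.1, Cat2_b e z.1 + z.2.2))
      ((V2 K m e ×ˢ Cat2_P K m e t : Finset (List ℕ × (List ℕ × ℕ))) :
        Set (List ℕ × (List ℕ × ℕ))) := by
    rintro ⟨v, V, b⟩ h ⟨v', V', b'⟩ h' he
    rw [mem_coe, mem_product] at h h'
    have h1 := (Cat2_mem.1 h.1).1.1
    have h2 := (Cat2_mem.1 h'.1).1.1
    have h3 : v.length = v'.length := by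
      simp only at h1 h2
      rw [h1, h2]
    simp only [Prod.mk.injEq] at he
    obtain ⟨h4, h5⟩ := List.append_inj he.1 h3
    subst h4 h5
    have h6 : b = b' := by omega
    rw [h6]
  rw [Cat2_P, sum_image hinj, sum_product]

theorem Cat2_pen {m : ℕ} {e κ : ℝ} {v : List ℕ} (hv : v.length = m) :
    pen e κ v = Real.exp (-(κ * m * (Cat2_b e v : ℝ))) := by
  unfold pen Cat2_b
  split_ifs
  · simp
  · rw [hv]
    congr 1
    push_cast
    ring

theorem Cat2_iter (K m : ℕ) (e κ γ : ℝ) (t : ℕ) : ∀ x : ℤ,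
    ((Lg2 K m e κ γ)^[t] (fun _ => 1)) x =
      ∑ V ∈ Cat2_P K m e t, if Ala x V.1 then ww V.1 ^ γ * Real.exp (-(κ * m * (V.2 : ℝ)))
        else 0 := by
  induction t with
  | zero =>
    intro x
    simp [Cat2_P, Ala, ww_nil]
  | succ t ih =>
    intro x
    rw [Function.iterate_succ_apply', Cat2_sum]
    have e0 : Lg2 K m e κ γ ((Lg2 K m e κ γ)^[t] (fun _ => 1)) x =
        ∑ v ∈ V2 K m e, if Ala x v then
          ww v ^ γ * pen e κ v * ((Lg2 K m e κ γ)^[t] (fun _ => 1)) (nd x v) else 0 := rfl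
    rw [e0]
    refine sum_congr rfl fun v hv => ?_
    by_cases h : Ala x v
    · rw [if_pos h, ih (nd x v), mul_sum]
      refine sum_congr rfl fun V _ => ?_
      by_cases h2 : Ala (nd x v) V.1
      · rw [if_pos h2, if_pos ((ala_append x v V.1).2 ⟨h, h2⟩), ww_append,
          Real.mul_rpow (ww_pos v).le (ww_pos V.1).le, Cat2_pen (Cat2_mem.1 hv).1.1]
        have e1 : Real.exp (-(κ * m * ((Cat2_b e v + V.2 : ℕ) : ℝ))) =
            Real.exp (-(κ * m * (Cat2_b e v : ℝ))) * Real.exp (-(κ * m * (V.2 : ℝ))) := by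
          rw [← Real.exp_add]
          congr 1
          push_cast
          ring
        rw [e1]
        ring
      · rw [if_neg h2, if_neg (fun hh => h2 ((ala_append x v V.1).1 hh).2), mul_zero]
    · rw [if_neg h]
      symm
      refine sum_eq_zero fun V _ => ?_
      rw [if_neg (fun hh => h ((ala_append x v V.1).1 hh).1)]

theorem Cat2_le7 (v : List ℕ) (h : ∀ k ∈ v, 2 ≤ k ∧ k ≤ 7) :
    2 * v.length ≤ v.sum ∧ v.sum ≤ 7 * v.length := by
  induction v with
  | nil => simp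
  | cons k v ih =>
    have h1 := h k (by simp)
    have h2 := ih (fun k' hk' => h k' (by simp [hk']))
    rw [List.length_cons, List.sum_cons]
    omega

theorem Cat2_prop (K m : ℕ) {e : ℝ} (he : 0 ≤ e) (t : ℕ) : ∀ V ∈ Cat2_P K m e t,
    V.1.length = m * t ∧ (∀ k ∈ V.1, 1 ≤ k ∧ k ≤ K) ∧
      |(V.1.sum : ℝ) - 2 * (m * t)| ≤ e * (m * t) + 5 * m * V.2 ∧
      |(Rw V.1 : ℝ) - (m * t) / 2| ≤ e * (m * t) + m * V.2 + t := by
  induction t with
  | zero =>
    intro V hV
    rw [Cat2_P, mem_singleton] at hV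
    subst hV
    simp [Rw]
  | succ t ih =>
    intro V hV
    rw [Cat2_P, mem_image] at hV
    obtain ⟨⟨v, U, b⟩, h, rfl⟩ := hV
    rw [mem_product] at h
    obtain ⟨⟨h1, h2⟩, -, h3⟩ := Cat2_mem.1 h.1
    obtain ⟨h4, h5, h6, h7⟩ := ih (U, b) h.2
    simp only at h1 h2 h3 h4 h5 h6 h7
    have hem : 0 ≤ e * m := by positivity
    -- the estimates for the word `v`
    have hs : |(v.sum : ℝ) - 2 * m| ≤ e * m + 5 * m * (Cat2_b e v : ℝ) ∧
        |(Rw v : ℝ) - m / 2| ≤ e * m + m * (Cat2_b e v : ℝ) := by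
      by_cases hT : Typ e v
      · have hb : Cat2_b e v = 0 := by
          unfold Cat2_b
          rw [if_pos hT]
        obtain ⟨g1, g2⟩ := hT
        rw [h1] at g1 g2
        rw [hb]
        constructor
        · simpa using g1
        · simpa using g2
      · have hb : Cat2_b e v = 1 := by
          unfold Cat2_b
          rw [if_neg hT]
        obtain ⟨g1, g2⟩ := Cat2_le7 v (h3.resolve_left hT)
        have g3 := Cat2_Rw_le v
        rw [h1] at g1 g2 g3
        have g1' : (2 : ℝ) * m ≤ v.sum := by exact_mod_cast g1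
        have g2' : (v.sum : ℝ) ≤ 7 * m := by exact_mod_cast g2
        have g3' : (Rw v : ℝ) ≤ m := by exact_mod_cast g3
        have g4 : (0 : ℝ) ≤ Rw v := Nat.cast_nonneg _
        have g5 : (0 : ℝ) ≤ m := Nat.cast_nonneg _
        rw [hb, Nat.cast_one, mul_one, mul_one]
        constructor
        · rw [abs_le]
          constructor <;> linarith
        · rw [abs_le]
          constructor <;> linarith
    obtain ⟨hs1, hs2⟩ := hs
    obtain ⟨ra1, ra2⟩ := Rw_append v U
    have ra1' : (Rw v : ℝ) + Rw U ≤ Rw (v ++ U) := by exact_mod_cast ra1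
    have ra2' : (Rw (v ++ U) : ℝ) ≤ Rw v + Rw U + 1 := by exact_mod_cast ra2
    rw [abs_le] at h6 h7 hs1 hs2
    refine ⟨?_, ?_, ?_, ?_⟩
    · rw [List.length_append, h1, h4]
      ring
    · intro k hk
      rcases List.mem_append.1 hk with h8 | h8
      · exact h2 k h8
      · exact h5 k h8
    · rw [List.sum_append, abs_le, Nat.cast_add v.sum U.sum, Nat.cast_add t 1,
        Nat.cast_add (Cat2_b e v) b, Nat.cast_one]
      constructor <;> linarith [h6.1, h6.2, hs1.1, hs1.2]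
    · rw [abs_le]
      push_cast
      constructor <;> linarith [h7.1, h7.2, hs2.1, hs2.2]

theorem Cat2_fst (K m : ℕ) (e : ℝ) (t : ℕ) : ∀ V ∈ Cat2_P K m e t, ∀ V' ∈ Cat2_P K m e t,
    V.1 = V'.1 → V = V' := by
  induction t with
  | zero =>
    intro V hV V' hV' _
    rw [Cat2_P, mem_singleton] at hV hV'
    rw [hV, hV']
  | succ t ih =>
    intro V hV V' hV' hVV
    rw [Cat2_P, mem_image] at hV hV'
    obtain ⟨⟨v, U⟩, h, rfl⟩ := hV
    obtain ⟨⟨v', U'⟩, h', rfl⟩ := hV'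
    rw [mem_product] at h h'
    have h1 := (Cat2_mem.1 h.1).1.1
    have h2 := (Cat2_mem.1 h'.1).1.1
    have h3 : v.length = v'.length := by
      simp only at h1 h2
      rw [h1, h2]
    simp only at hVV
    obtain ⟨h4, h5⟩ := List.append_inj hVV h3
    have h6 : U = U' := ih U h.2 U' h'.2 h5
    rw [h4, h6]

theorem Cat2_total (K m : ℕ) (e γ : ℝ) (t : ℕ) :
    ∑ V ∈ Cat2_P K m e t, ww V.1 ^ γ = (∑ v ∈ V2 K m e, ww v ^ γ) ^ t := by
  induction t with
  | zero => simp [Cat2_P, ww_nil]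
  | succ t ih =>
    rw [Cat2_sum, pow_succ', ← ih, sum_mul]
    refine sum_congr rfl fun v _ => ?_
    rw [mul_sum]
    refine sum_congr rfl fun V _ => ?_
    rw [ww_append, Real.mul_rpow (ww_pos v).le (ww_pos V.1).le]

theorem Cat2_lw (K m : ℕ) (γ : ℝ) :
    ∑ v ∈ lw K m, ww v ^ γ = (∑ k ∈ Icc 1 K, (3 / 2 ^ k : ℝ) ^ γ) ^ m := by
  induction m with
  | zero => simp [lw, ww_nil]
  | succ m ih =>
    rw [sum_lw_succ, pow_succ', ← ih, sum_mul]
    refine sum_congr rfl fun k _ => ?_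
    rw [mul_sum]
    refine sum_congr rfl fun v _ => ?_
    rw [ww_cons, Real.mul_rpow (by positivity) (ww_pos v).le]

theorem Cat2_geo {γ : ℝ} (h0 : 0 < γ) (h1 : γ < 1) (K : ℕ) :
    ∑ k ∈ Icc 1 K, (3 / 2 ^ k : ℝ) ^ γ ≤ 3 * (1 - (1 / 2 : ℝ) ^ γ)⁻¹ := by
  set r : ℝ := (1 / 2 : ℝ) ^ γ with hr
  have hr0 : 0 < r := by positivity
  have hr1 : r < 1 := Real.rpow_lt_one (by norm_num) (by norm_num) h0
  have h3 : (3 : ℝ) ^ γ ≤ 3 := by
    calc (3 : ℝ) ^ γ ≤ 3 ^ (1 : ℝ) := Real.rpow_le_rpow_of_exponent_le (by norm_num) h1.le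
      _ = 3 := Real.rpow_one 3
  have ht : ∀ k : ℕ, (3 / 2 ^ k : ℝ) ^ γ ≤ 3 * r ^ k := by
    intro k
    have e1 : (3 / 2 ^ k : ℝ) = 3 * (1 / 2) ^ k := by
      rw [one_div, inv_pow]
      ring
    have e2 : (((1 / 2 : ℝ) ^ k) : ℝ) ^ γ = r ^ k := by
      rw [hr, ← Real.rpow_natCast, ← Real.rpow_natCast, ← Real.rpow_mul (by norm_num),
        ← Real.rpow_mul (by norm_num), mul_comm]
    rw [e1, Real.mul_rpow (by norm_num) (by positivity), e2]
    gcongr
  calc ∑ k ∈ Icc 1 K, (3 / 2 ^ k : ℝ) ^ γ ≤ ∑ k ∈ Icc 1 K, 3 * r ^ k :=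
        sum_le_sum fun k _ => ht k
    _ = 3 * ∑ k ∈ Icc 1 K, r ^ k := by rw [mul_sum]
    _ ≤ 3 * ∑ k ∈ range (K + 1), r ^ k := by
        gcongr
        intro k hk
        rw [mem_Icc] at hk
        rw [mem_range]
        omega
    _ ≤ 3 * (1 - r)⁻¹ := by
        gcongr
        rw [← tsum_geometric_of_lt_one hr0.le hr1]
        exact (summable_geometric_of_lt_one hr0.le hr1).sum_le_tsum _
          (fun i _ => by positivity)

theorem Cat2_main {γ e : ℝ} (h0 : 0 < γ) (h1 : γ < 1) (he : 0 < e) :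
    ∃ (K n : ℕ) (W : Finset (List ℕ)), CertW2 γ e K n W := by
  classical
  set e1 : ℝ := min (e / 8) (1 / 20) with he1'
  have e1pos : 0 < e1 := lt_min (by positivity) (by norm_num)
  have e1le : e1 ≤ e / 8 := min_le_left _ _
  have e1le' : e1 ≤ 1 / 20 := min_le_right _ _
  set β : ℝ := e / 32 with hβ
  have hβ0 : 0 < β := by positivity
  set C0 : ℝ := 3 * (1 - (1 / 2 : ℝ) ^ γ)⁻¹ with hC0
  have hr1 : (1 / 2 : ℝ) ^ γ < 1 := Real.rpow_lt_one (by norm_num) (by norm_num) h0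
  have hC0pos : 0 < C0 := by
    have : 0 < 1 - (1 / 2 : ℝ) ^ γ := by linarith
    positivity
  set κ : ℝ := (C0 + 1) / β with hκ
  have hκ0 : 0 ≤ κ := by positivity
  have hκβ : κ * β = C0 + 1 := by
    rw [hκ]
    field_simp
  obtain ⟨m0, hm0⟩ := exists_nat_ge (8 / e)
  obtain ⟨K, m, T0, hK, hm, hmm, hT0⟩ := gibbs2 h0 h1 e1pos e1le' hκ0 m0
  set T := max T0 1 with hT
  have hT1 : 1 ≤ T := le_max_right _ _
  have hT1' : (1 : ℝ) ≤ T := by exact_mod_cast hT1
  have h2 := hT0 T (le_max_left _ _)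
  have hmr : 8 / e ≤ m := hm0.trans (by exact_mod_cast hmm)
  have hme : 8 ≤ e * m := by
    rw [div_le_iff₀ he] at hmr
    linarith
  set P := Cat2_P K m e1 T with hP
  set Q := P.filter (fun V => (V.2 : ℝ) < β * T) with hQ
  set n := m * T with hn
  have hnr : (n : ℝ) = m * T := by rw [hn]; push_cast; ring
  have hinj : Set.InjOn (Prod.fst : List ℕ × ℕ → List ℕ) (Q : Set (List ℕ × ℕ)) := by
    intro V hV V' hV' h
    rw [mem_coe, hQ, mem_filter] at hV hV'
    exact Cat2_fst K m e1 T V hV.1 V' hV'.1 h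
  refine ⟨K, n, Q.image Prod.fst, ?_, ?_, ?_, ?_, ?_⟩
  · rw [hnr]
    nlinarith
  · intro V hV
    obtain ⟨V', hV', rfl⟩ := mem_image.1 hV
    exact (Cat2_prop K m e1pos.le T V' (mem_filter.1 hV').1).1
  · intro V hV
    obtain ⟨V', hV', rfl⟩ := mem_image.1 hV
    exact (Cat2_prop K m e1pos.le T V' (mem_filter.1 hV').1).2.1
  · intro V hV
    obtain ⟨V', hV', rfl⟩ := mem_image.1 hV
    obtain ⟨hV1, hV2⟩ := mem_filter.1 hV'
    obtain ⟨g1, -, g3, g4⟩ := Cat2_prop K m e1pos.le T V' hV1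
    have hlen : (V'.1.length : ℝ) = m * T := by
      rw [g1]; push_cast; ring
    have hm0' : (0 : ℝ) ≤ m := Nat.cast_nonneg _
    have k1 : (m : ℝ) * V'.2 ≤ m * (β * T) := mul_le_mul_of_nonneg_left hV2.le hm0'
    have k2 : e1 * (m * T) ≤ e / 8 * (m * T) := mul_le_mul_of_nonneg_right e1le (by positivity)
    have k3 : (T : ℝ) ≤ e / 8 * (m * T) := by nlinarith
    have k4 : (m : ℝ) * (β * T) = e / 32 * (m * T) := by rw [hβ]; ring
    have k5 : 0 ≤ e * (m * T) := by positivity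
    unfold Typ
    rw [hlen]
    constructor
    · refine g3.trans ?_
      linarith
    · refine g4.trans ?_
      linarith
  · intro x
    have hsum : ∑ V ∈ Q.image Prod.fst, (if Ala x V then ww V ^ γ else 0) =
        ∑ V ∈ Q, if Ala x V.1 then ww V.1 ^ γ else 0 := sum_image hinj
    rw [hsum]
    have hx := h2 x
    rw [Cat2_iter] at hx
    rw [← sum_filter_add_sum_filter_not (Cat2_P K m e1 T) (fun V => (V.2 : ℝ) < β * T)] at hx
    have hA : ∑ V ∈ Q, (if Ala x V.1 then ww V.1 ^ γ * Real.exp (-(κ * m * (V.2 : ℝ))) else 0)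
        ≤ ∑ V ∈ Q, if Ala x V.1 then ww V.1 ^ γ else 0 := by
      refine sum_le_sum fun V _ => ?_
      split_ifs
      · have hw : 0 ≤ ww V.1 ^ γ := Real.rpow_nonneg (ww_pos _).le _
        have hexp : Real.exp (-(κ * m * (V.2 : ℝ))) ≤ 1 := by
          rw [Real.exp_le_one_iff]
          have : 0 ≤ κ * m * (V.2 : ℝ) := by positivity
          linarith
        nlinarith
      · exact le_rfl
    have hB : ∑ V ∈ (Cat2_P K m e1 T).filter (fun V => ¬ (V.2 : ℝ) < β * T),
        (if Ala x V.1 then ww V.1 ^ γ * Real.exp (-(κ * m * (V.2 : ℝ))) else 0) ≤ 1 := by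
      have hexp : ∀ V ∈ (Cat2_P K m e1 T).filter (fun V => ¬ (V.2 : ℝ) < β * T),
          (if Ala x V.1 then ww V.1 ^ γ * Real.exp (-(κ * m * (V.2 : ℝ))) else 0) ≤
            ww V.1 ^ γ * Real.exp (-((C0 + 1) * (m * T))) := by
        intro V hV
        have hV2 := not_lt.1 (mem_filter.1 hV).2
        have hw : 0 ≤ ww V.1 ^ γ := Real.rpow_nonneg (ww_pos _).le _
        split_ifs
        · refine mul_le_mul_of_nonneg_left ?_ hw
          apply Real.exp_le_exp.2
          have : (C0 + 1) * (m * T) ≤ κ * m * (V.2 : ℝ) := by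
            calc (C0 + 1) * (m * T) = κ * m * (β * T) := by rw [← hκβ]; ring
              _ ≤ κ * m * (V.2 : ℝ) := by gcongr
          linarith
        · positivity
      have hV2le : ∑ v ∈ V2 K m e1, ww v ^ γ ≤ Real.exp C0 ^ m := by
        calc ∑ v ∈ V2 K m e1, ww v ^ γ ≤ ∑ v ∈ lw K m, ww v ^ γ := by
              apply sum_le_sum_of_subset_of_nonneg
              · unfold V2
                exact filter_subset _ _
              · intro v _ _
                exact Real.rpow_nonneg (ww_pos _).le _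
          _ = (∑ k ∈ Icc 1 K, (3 / 2 ^ k : ℝ) ^ γ) ^ m := Cat2_lw K m γ
          _ ≤ Real.exp C0 ^ m := by
              gcongr
              refine (Cat2_geo h0 h1 K).trans ?_
              have := Real.add_one_le_exp C0
              linarith
      calc ∑ V ∈ (Cat2_P K m e1 T).filter (fun V => ¬ (V.2 : ℝ) < β * T),
            (if Ala x V.1 then ww V.1 ^ γ * Real.exp (-(κ * m * (V.2 : ℝ))) else 0)
          ≤ ∑ V ∈ (Cat2_P K m e1 T).filter (fun V => ¬ (V.2 : ℝ) < β * T),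
            ww V.1 ^ γ * Real.exp (-((C0 + 1) * (m * T))) := sum_le_sum hexp
        _ ≤ ∑ V ∈ Cat2_P K m e1 T, ww V.1 ^ γ * Real.exp (-((C0 + 1) * (m * T))) := by
            apply sum_le_sum_of_subset_of_nonneg (filter_subset _ _)
            intro V _ _
            have hw : 0 ≤ ww V.1 ^ γ := Real.rpow_nonneg (ww_pos _).le _
            positivity
        _ = (∑ v ∈ V2 K m e1, ww v ^ γ) ^ T * Real.exp (-((C0 + 1) * (m * T))) := by
            rw [← sum_mul, Cat2_total]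
        _ ≤ (Real.exp C0 ^ m) ^ T * Real.exp (-((C0 + 1) * (m * T))) := by
            gcongr
            exact sum_nonneg fun v _ => Real.rpow_nonneg (ww_pos _).le _
        _ = Real.exp (-(m * T)) := by
            rw [← Real.exp_nat_mul, ← Real.exp_nat_mul, ← Real.exp_add]
            congr 1
            ring
        _ ≤ 1 := by
            rw [Real.exp_le_one_iff]
            have : (0 : ℝ) ≤ m * T := by positivity
            linarith
    rw [hQ, hP] at hA ⊢
    linarith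

theorem cert2 {γ e : ℝ} (h0 : 0 < γ) (h1 : γ < 1) (he : 0 < e) :
    ∃ (K n : ℕ) (W : Finset (List ℕ)), CertW2 γ e K n W := by
  obtain ⟨K, n, W, hW⟩ := Cat2_main h0 h1 (lt_min he one_pos)
  have hle : min e 1 ≤ e := min_le_left e 1
  refine ⟨K, n, W, ?_, hW.len, hW.let1, ?_, hW.one⟩
  · refine hW.n1.trans ?_
    gcongr
  · intro V hV
    obtain ⟨g1, g2⟩ := hW.typ V hV
    refine ⟨g1.trans ?_, g2.trans ?_⟩
    · gcongr
    · gcongr

end Pool.Agent.helper14.EX1
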