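import Pool.Agent.helper14.EX1.Wrd

/-!
# EX1-Che: Chernoff bound for the words with small sum

`avg M (Low K M) = ∑_{v ∈ lw K M, 20 v.sum < 39 (M+1)} 2 ^ (-v.sum)` (`avg_ala`).  With `z = 38/39` and
`E = 39 (M+1) / 20` (real exponent) `1 ≤ z ^ (v.sum - E)`, so the sum is
`≤ z ^ (-E) (∑_{k ≥ 1} (z/2)^k)^M ≤ z ^ (-39/20) * (z ^ (-39/20) * 19/20) ^ M` since `(z/2)/(1 - z/2) = z/(2-z) = 19/20`.
`ρ = z ^ (-39/20) * 19/20`, `ρ ^ 20 = (39/38)^39 (19/20)^20 < 1` (a rational inequality, `= 0.987`), `z ^ (-39/20) ≤ 2`.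
-/

namespace Pool.Agent.helper14.EX1

open Finset

/-- The average of `Low` as a sum over the words with small sum. -/
theorem Che_avg (K M : ℕ) :
    avg M (Low K M) = ∑ v ∈ lw K M, if 20 * v.sum < 39 * (M + 1) then (1 / 2 : ℝ) ^ v.sum else 0 := by
  have h1 : avg M (Low K M)
      = ∑ v ∈ lw K M, (∑ x ∈ range (3 ^ M),
        (if Ala (x : ℤ) v ∧ 20 * v.sum < 39 * (M + 1) then ww v else 0)) / 3 ^ M := by
    unfold avg Low
    rw [sum_comm, sum_div]
  rw [h1]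
  refine sum_congr rfl fun v hv => ?_
  rw [mem_lw] at hv
  obtain ⟨hlen, hk⟩ := hv
  have h2 := avg_ala v (fun k hk' => (hk k hk').1)
  rw [hlen] at h2
  unfold avg at h2
  have h3 : (0 : ℝ) < 3 ^ M := by positivity
  by_cases hc : 20 * v.sum < 39 * (M + 1)
  · have h4 : ∀ x ∈ range (3 ^ M),
        (if Ala (x : ℤ) v ∧ 20 * v.sum < 39 * (M + 1) then ww v else 0)
          = ww v * (if Ala (x : ℤ) v then (1 : ℝ) else 0) := by
      intro x _
      by_cases ha : Ala (x : ℤ) v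
      · simp [ha, hc]
      · simp [ha]
    rw [sum_congr rfl h4, ← mul_sum, mul_div_assoc, h2, if_pos hc]
    unfold ww
    rw [hlen, one_div_pow]
    field_simp
  · have h4 : ∀ x ∈ range (3 ^ M),
        (if Ala (x : ℤ) v ∧ 20 * v.sum < 39 * (M + 1) then ww v else 0) = 0 := by
      intro x _
      rw [if_neg]
      exact fun h => hc h.2
    rw [sum_congr rfl h4, if_neg hc]
    simp

/-- The generating function of the sums of the words. -/
theorem Che_gen (K M : ℕ) (y : ℝ) :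
    ∑ v ∈ lw K M, y ^ v.sum = (∑ k ∈ Icc 1 K, y ^ k) ^ M := by
  induction M with
  | zero => simp [lw]
  | succ n ih =>
    rw [sum_lw_succ, pow_succ', sum_mul]
    refine sum_congr rfl fun k _ => ?_
    rw [← ih, mul_sum]
    refine sum_congr rfl fun v _ => ?_
    rw [List.sum_cons, pow_add]

/-- The geometric sum is at most `19 / 20`. -/
theorem Che_geo (K : ℕ) : ∑ k ∈ Icc 1 K, (19 / 39 : ℝ) ^ k ≤ 19 / 20 := by
  have h : ∑ k ∈ Icc 1 K, (19 / 39 : ℝ) ^ k = 19 / 20 * (1 - (19 / 39 : ℝ) ^ K) := by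
    induction K with
    | zero => simp
    | succ n ih =>
      rw [sum_Icc_succ_top (by omega), ih, pow_succ]
      ring
  rw [h]
  have : (0 : ℝ) ≤ (19 / 39 : ℝ) ^ K := by positivity
  linarith

theorem che : ∃ ρ : ℝ, 0 < ρ ∧ ρ < 1 ∧ ∀ K M : ℕ, avg M (Low K M) ≤ 2 * ρ ^ M := by
  obtain ⟨r, hr0, hr⟩ : ∃ r : ℝ, 0 < r ∧ r ^ 20 = (39 / 38 : ℝ) ^ 39 := by
    refine ⟨((39 / 38 : ℝ) ^ 39) ^ ((1 : ℝ) / (20 : ℕ)), by positivity, ?_⟩
    rw [← Real.rpow_natCast, ← Real.rpow_mul (by positivity)]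
    norm_num
  have hr2 : r ≤ 2 := by
    refine le_of_pow_le_pow_left₀ (n := 20) (by norm_num) (by norm_num) ?_
    rw [hr]
    norm_num
  refine ⟨r * (19 / 20), by positivity, ?_, fun K M => ?_⟩
  · refine lt_of_pow_lt_pow_left₀ 20 (by norm_num) ?_
    rw [mul_pow, hr]
    norm_num
  · rw [Che_avg]
    have h1 : ∀ v ∈ lw K M, (if 20 * v.sum < 39 * (M + 1) then (1 / 2 : ℝ) ^ v.sum else 0)
        ≤ r ^ (M + 1) * (19 / 39 : ℝ) ^ v.sum := by
      intro v _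
      by_cases hc : 20 * v.sum < 39 * (M + 1)
      · rw [if_pos hc]
        have h2 : (1 : ℝ) ≤ r ^ (M + 1) * (38 / 39 : ℝ) ^ v.sum := by
          refine le_of_pow_le_pow_left₀ (n := 20) (by norm_num) (by positivity) ?_
          obtain ⟨d, hd⟩ : ∃ d, 39 * (M + 1) = 20 * v.sum + d := ⟨39 * (M + 1) - 20 * v.sum, by omega⟩
          have h3 : (r ^ (M + 1) * (38 / 39 : ℝ) ^ v.sum) ^ 20 = (39 / 38 : ℝ) ^ d := by
            have h4 : (r ^ (M + 1) * (38 / 39 : ℝ) ^ v.sum) ^ 20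
                = (r ^ 20) ^ (M + 1) * (38 / 39 : ℝ) ^ (20 * v.sum) := by
              ring
            rw [h4, hr, ← pow_mul, hd, pow_add, mul_right_comm, ← mul_pow]
            norm_num
          rw [h3, one_pow]
          exact one_le_pow₀ (by norm_num)
        have h5 : (19 / 39 : ℝ) ^ v.sum = (38 / 39 : ℝ) ^ v.sum * (1 / 2 : ℝ) ^ v.sum := by
          rw [← mul_pow]
          norm_num
        rw [h5, ← mul_assoc]
        have h6 : (0 : ℝ) ≤ (1 / 2 : ℝ) ^ v.sum := by positivity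
        nlinarith
      · rw [if_neg hc]
        positivity
    have h7 : (0 : ℝ) ≤ ∑ k ∈ Icc 1 K, (19 / 39 : ℝ) ^ k := sum_nonneg fun _ _ => by positivity
    calc ∑ v ∈ lw K M, (if 20 * v.sum < 39 * (M + 1) then (1 / 2 : ℝ) ^ v.sum else 0)
        ≤ ∑ v ∈ lw K M, r ^ (M + 1) * (19 / 39 : ℝ) ^ v.sum := sum_le_sum h1
      _ = r ^ (M + 1) * (∑ k ∈ Icc 1 K, (19 / 39 : ℝ) ^ k) ^ M := by rw [← mul_sum, Che_gen]
      _ ≤ r ^ (M + 1) * (19 / 20) ^ M := by
          gcongr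
          exact Che_geo K
      _ = r * (r * (19 / 20)) ^ M := by rw [pow_succ, mul_pow]; ring
      _ ≤ 2 * (r * (19 / 20)) ^ M := by gcongr

end Pool.Agent.helper14.EX1
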