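import Pool.Agent.helper14.EX1.Defs

/-!
# EX1-Defs2: version 2 (two-sided): typical words, penalties

`rr k k'`: the letters `k` (nearer to the root) and `k'` (the next one, away from the root) belong to different
circuits.  The odd term of the step with letter `k'` is followed by `k' - c` even terms (`c = 1, 2` for `k'` odd, even),
and by one more if `k` is even; none iff `k' ∈ {1, 2}` and `k` is odd.
-/

namespace Pool.Agent.helper14.EX1

open Finset

/-- `1` if a circuit ends between the letter `k'` and the letter `k` which is nearer to the root. -/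
def rr (k k' : ℕ) : ℕ := if k' ≤ 2 ∧ k % 2 = 1 then 0 else 1

/-- The number of ends of circuits inside the word. -/
def Rw : List ℕ → ℕ
  | [] => 0
  | [_] => 0
  | k :: k' :: v => rr k k' + Rw (k' :: v)

/-- Typical words. -/
def Typ (e : ℝ) (v : List ℕ) : Prop :=
  |(v.sum : ℝ) - 2 * v.length| ≤ e * v.length ∧ |(Rw v : ℝ) - v.length / 2| ≤ e * v.length

open Classical in
/-- The words of version 2: even sum, typical or with all letters in `{2, …, 7}`. -/
noncomputable def V2 (K m : ℕ) (e : ℝ) : Finset (List ℕ) :=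
  (lw K m).filter (fun v => Even v.sum ∧ (Typ e v ∨ ∀ k ∈ v, 2 ≤ k ∧ k ≤ 7))

open Classical in
/-- The penalty of the words which are not typical. -/
noncomputable def pen (e κ : ℝ) (v : List ℕ) : ℝ := if Typ e v then 1 else Real.exp (-κ * v.length)

/-- The partition function with the penalty. -/
noncomputable def ff2 (K m : ℕ) (e κ : ℝ) (x : ℤ) : ℝ :=
  ∑ v ∈ V2 K m e, if Ala x v then ww v * pen e κ v else 0

/-- The system of version 2. -/
noncomputable def sys2 (K m : ℕ) (e κ : ℝ) : Sys (V2 K m e) where
  m := m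
  e := fun v => v.1.sum / 2
  g := fun v => Gw v.1
  p := fun v x => if Ala x v.1 then ww v.1 * pen e κ v.1 / ff2 K m e κ x else 0

/-- The transfer operator of version 2. -/
noncomputable def Lg2 (K m : ℕ) (e κ γ : ℝ) (φ : ℤ → ℝ) (x : ℤ) : ℝ :=
  ∑ v ∈ V2 K m e, if Ala x v then ww v ^ γ * pen e κ v * φ (nd x v) else 0

open Classical in
/-- The part of the partition function of the words which are not typical. -/
noncomputable def Low2 (K : ℕ) (e : ℝ) (n : ℕ) (x : ℤ) : ℝ :=
  ∑ v ∈ lw K n, if Ala x v ∧ ¬ Typ e v then ww v else 0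

/-- The certificate of version 2: all words have typical sums and typical numbers of circuits. -/
structure CertW2 (γ e : ℝ) (K n : ℕ) (W : Finset (List ℕ)) : Prop where
  n1 : 1 ≤ e * n
  len : ∀ V ∈ W, V.length = n
  let1 : ∀ V ∈ W, ∀ k ∈ V, 1 ≤ k ∧ k ≤ K
  typ : ∀ V ∈ W, Typ e V
  one : ∀ x : ℤ, 1 ≤ ∑ V ∈ W, if Ala x V then ww V ^ γ else 0

end Pool.Agent.helper14.EX1
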