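import Pool.Agent.helper14.EX1.Wrd
import Pool.Agent.helper14.EX1.Defs2

/-!
# EX1-CheR: large deviations of the number of circuits

The numbers `rr k_{i-1} k_i` are independent fair coins for the geometric letters.  For `y > 0` let
`Z_n(k) = ∑_{v ∈ lw K n} (1/2)^v.sum y ^ Rw (k :: v)` (it depends only on the parity of `k`: `O_n` for `k` odd, `E_n` for `k` even).
`O_{n+1} ≤ (3 + y)/4 * (2/3 O_n + 1/3 E_n)`, `E_{n+1} ≤ y (2/3 O_n + 1/3 E_n)` (the letters: `1`: `1/2`, `2`: `1/4`,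
odd `≥ 3`: `1/6`, even `≥ 4`: `1/12`; inequality because the letters are `≤ K`), so `X_n = 2/3 O_n + 1/3 E_n` satisfies
`X_{n+1} ≤ (1 + y)/2 * X_n`, `X_n ≤ ((1+y)/2)^n`.  Hence `∑_{v ∈ lw K n} (1/2)^v.sum y ^ Rw v ≤ C_y ((1+y)/2)^n`.
Upper side: `y = 1 + t`: `(1+t/2) (1+t)^(-(1/2+e)) < 1` for small `t`; lower side `y = 1 - t`.
-/

namespace Pool.Agent.helper14.EX1

open Finset

theorem CheR_two (w : ℕ → ℝ) (a b : ℝ) (ha : ∀ k, 3 ≤ k → k % 2 = 1 → w k = a)
    (hb : ∀ k, 3 ≤ k → k % 2 = 0 → w k = b) (L : ℕ) :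
    ∑ k ∈ Icc 1 (2 * L + 2), (1 / 2 : ℝ) ^ k * w k =
      w 1 / 2 + w 2 / 4 + (a / 6 + b / 12) * (1 - (1 / 4) ^ L) := by
  induction L with
  | zero => simp [sum_Icc_succ_top]; ring
  | succ L ih =>
    rw [show 2 * (L + 1) + 2 = (2 * L + 2) + 1 + 1 by ring, sum_Icc_succ_top (by omega),
      sum_Icc_succ_top (by omega), ih, ha (2 * L + 2 + 1) (by omega) (by omega),
      hb (2 * L + 2 + 1 + 1) (by omega) (by omega)]
    have h4 : (1 / 2 : ℝ) ^ (2 * L) = (1 / 4) ^ L := by rw [pow_mul]; norm_num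
    have h5 : (1 / 2 : ℝ) ^ (2 * L + 2 + 1) = (1 / 4) ^ L / 8 := by
      rw [show 2 * L + 2 + 1 = 2 * L + 3 by ring, pow_add, h4]; norm_num; ring
    have h6 : (1 / 2 : ℝ) ^ (2 * L + 2 + 1 + 1) = (1 / 4) ^ L / 16 := by
      rw [show 2 * L + 2 + 1 + 1 = 2 * L + 4 by ring, pow_add, h4]; norm_num; ring
    rw [h5, h6, pow_succ]
    ring

theorem CheR_step (K : ℕ) {y : ℝ} (hy : 0 ≤ y) (k : ℕ) (a b : ℝ) (ha : 0 ≤ a) (hb : 0 ≤ b) :
    ∑ k' ∈ Icc 1 K, (1 / 2 : ℝ) ^ k' * (y ^ rr k k' * (if k' % 2 = 1 then a else b)) ≤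
      (2 / 3 * a + 1 / 3 * b) * (if k % 2 = 1 then (3 + y) / 4 else y) := by
  have hnn : ∀ k' : ℕ, 0 ≤ (if k' % 2 = 1 then a else b) := by
    intro k'; split_ifs <;> assumption
  calc ∑ k' ∈ Icc 1 K, (1 / 2 : ℝ) ^ k' * (y ^ rr k k' * (if k' % 2 = 1 then a else b))
      ≤ ∑ k' ∈ Icc 1 (2 * K + 2), (1 / 2 : ℝ) ^ k' * (y ^ rr k k' * (if k' % 2 = 1 then a else b)) := by
        apply sum_le_sum_of_subset_of_nonneg
        · apply Icc_subset_Icc_right; omega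
        · intro i _ _
          have := hnn i
          positivity
    _ = _ := CheR_two (fun k' => y ^ rr k k' * (if k' % 2 = 1 then a else b)) (y * a) (y * b)
        (fun k' h3 h => by
          have : rr k k' = 1 := by unfold rr; rw [if_neg (by omega)]
          simp [this, h])
        (fun k' h3 h => by
          have : rr k k' = 1 := by unfold rr; rw [if_neg (by omega)]
          simp [this, h]) K
    _ ≤ _ := by
        have h4 : (0 : ℝ) ≤ (1 / 4) ^ K := by positivity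
        have h0 : 0 ≤ (y * a / 6 + y * b / 12) * (1 / 4) ^ K := by positivity
        by_cases hk : k % 2 = 1
        · have r1 : rr k 1 = 0 := by unfold rr; rw [if_pos ⟨by omega, hk⟩]
          have r2 : rr k 2 = 0 := by unfold rr; rw [if_pos ⟨by omega, hk⟩]
          simp only [r1, r2, hk, if_true, pow_zero, one_mul]
          norm_num
          nlinarith
        · have r1 : rr k 1 = 1 := by unfold rr; rw [if_neg (by omega)]
          have r2 : rr k 2 = 1 := by unfold rr; rw [if_neg (by omega)]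
          simp only [r1, r2, if_neg hk, pow_one]
          norm_num
          nlinarith

theorem CheR_F (K : ℕ) {y : ℝ} (hy : 0 ≤ y) (n : ℕ) : ∀ k : ℕ,
    ∑ v ∈ lw K (n + 1), (1 / 2 : ℝ) ^ v.sum * y ^ Rw (k :: v) ≤
      (if k % 2 = 1 then (3 + y) / 4 else y) * ((1 + y) / 2) ^ n := by
  induction n with
  | zero =>
    intro k
    rw [sum_lw_succ]
    have h := CheR_step K hy k 1 1 zero_le_one zero_le_one
    have e1 : ∑ k' ∈ Icc 1 K, ∑ v ∈ lw K 0, (1 / 2 : ℝ) ^ (k' :: v).sum * y ^ Rw (k :: k' :: v) =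
        ∑ k' ∈ Icc 1 K, (1 / 2 : ℝ) ^ k' * (y ^ rr k k' * (if k' % 2 = 1 then 1 else 1)) := by
      apply sum_congr rfl
      intro k' _
      simp [lw, Rw]
    rw [e1]
    refine h.trans (le_of_eq ?_)
    ring
  | succ n ih =>
    intro k
    rw [sum_lw_succ]
    have hB : 0 ≤ ((1 + y) / 2) ^ n := by positivity
    calc ∑ k' ∈ Icc 1 K, ∑ v ∈ lw K (n + 1), (1 / 2 : ℝ) ^ (k' :: v).sum * y ^ Rw (k :: k' :: v)
        = ∑ k' ∈ Icc 1 K, (1 / 2 : ℝ) ^ k' * y ^ rr k k' *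
            ∑ v ∈ lw K (n + 1), (1 / 2 : ℝ) ^ v.sum * y ^ Rw (k' :: v) := by
          apply sum_congr rfl
          intro k' _
          rw [mul_sum]
          apply sum_congr rfl
          intro v _
          rw [List.sum_cons, Rw, pow_add, pow_add]
          ring
      _ ≤ ∑ k' ∈ Icc 1 K, (1 / 2 : ℝ) ^ k' * y ^ rr k k' *
            ((if k' % 2 = 1 then (3 + y) / 4 else y) * ((1 + y) / 2) ^ n) := by
          apply sum_le_sum
          intro k' _
          exact mul_le_mul_of_nonneg_left (ih k') (by positivity)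
      _ = (∑ k' ∈ Icc 1 K, (1 / 2 : ℝ) ^ k' * (y ^ rr k k' *
            (if k' % 2 = 1 then (3 + y) / 4 else y))) * ((1 + y) / 2) ^ n := by
          rw [sum_mul]
          apply sum_congr rfl
          intro k' _
          ring
      _ ≤ (2 / 3 * ((3 + y) / 4) + 1 / 3 * y) * (if k % 2 = 1 then (3 + y) / 4 else y) *
            ((1 + y) / 2) ^ n :=
          mul_le_mul_of_nonneg_right (CheR_step K hy k _ _ (by positivity) hy) hB
      _ = _ := by rw [pow_succ]; ring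

theorem CheR_Z (K : ℕ) {y : ℝ} (hy : 0 ≤ y) (n : ℕ) :
    ∑ v ∈ lw K n, (1 / 2 : ℝ) ^ v.sum * y ^ Rw v ≤ 2 * ((1 + y) / 2) ^ n := by
  have hmain : ∀ m : ℕ, ∑ v ∈ lw K (m + 1), (1 / 2 : ℝ) ^ v.sum * y ^ Rw v ≤ ((1 + y) / 2) ^ m := by
    intro m
    rw [sum_lw_succ]
    cases m with
    | zero =>
      have h := CheR_step K zero_le_one 1 1 1 zero_le_one zero_le_one
      have e1 : ∑ k ∈ Icc 1 K, ∑ v ∈ lw K 0, (1 / 2 : ℝ) ^ (k :: v).sum * y ^ Rw (k :: v) =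
          ∑ k' ∈ Icc 1 K, (1 / 2 : ℝ) ^ k' * (1 ^ rr 1 k' * (if k' % 2 = 1 then 1 else 1)) := by
        apply sum_congr rfl
        intro k' _
        simp [lw, Rw]
      rw [e1]
      refine h.trans (le_of_eq ?_)
      norm_num
    | succ m =>
      have hB : 0 ≤ ((1 + y) / 2) ^ m := by positivity
      calc ∑ k ∈ Icc 1 K, ∑ v ∈ lw K (m + 1), (1 / 2 : ℝ) ^ (k :: v).sum * y ^ Rw (k :: v)
          = ∑ k ∈ Icc 1 K, (1 / 2 : ℝ) ^ k *
              ∑ v ∈ lw K (m + 1), (1 / 2 : ℝ) ^ v.sum * y ^ Rw (k :: v) := by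
            apply sum_congr rfl
            intro k' _
            rw [mul_sum]
            apply sum_congr rfl
            intro v _
            rw [List.sum_cons, pow_add]
            ring
        _ ≤ ∑ k ∈ Icc 1 K, (1 / 2 : ℝ) ^ k *
              ((if k % 2 = 1 then (3 + y) / 4 else y) * ((1 + y) / 2) ^ m) := by
            apply sum_le_sum
            intro k' _
            exact mul_le_mul_of_nonneg_left (CheR_F K hy m k') (by positivity)
        _ = (∑ k ∈ Icc 1 K, (1 / 2 : ℝ) ^ k * (1 ^ rr 1 k *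
              (if k % 2 = 1 then (3 + y) / 4 else y))) * ((1 + y) / 2) ^ m := by
            rw [sum_mul]
            apply sum_congr rfl
            intro k' _
            rw [one_pow]
            ring
        _ ≤ (2 / 3 * ((3 + y) / 4) + 1 / 3 * y) * (if 1 % 2 = 1 then (3 + 1) / 4 else 1) *
              ((1 + y) / 2) ^ m :=
            mul_le_mul_of_nonneg_right (CheR_step K zero_le_one 1 _ _ (by positivity) hy) hB
        _ = _ := by rw [pow_succ]; norm_num; ring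
  cases n with
  | zero => simp [lw, Rw]
  | succ m =>
    refine (hmain m).trans ?_
    have hB : 0 ≤ ((1 + y) / 2) ^ m := by positivity
    rw [pow_succ]
    nlinarith

/-- A Chernoff bound with real powers. -/
theorem CheR_pow {y c : ℝ} (hy : 0 < y) (n R : ℕ) :
    y ^ R / (y ^ c) ^ n = y ^ ((R : ℝ) - c * n) := by
  rw [Real.rpow_sub hy, Real.rpow_natCast, Real.rpow_mul hy.le, Real.rpow_natCast]

theorem CheR_up {e : ℝ} (he : 0 < e) :
    (1 + (1 + e)) / 2 / (1 + e) ^ (1 / 2 + e) < 1 := by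
  have h1 : (0 : ℝ) < 1 + e := by linarith
  rw [div_lt_one (by positivity)]
  rw [← Real.log_lt_log_iff (by positivity) (by positivity), Real.log_rpow h1]
  have h2 : Real.log ((1 + (1 + e)) / 2) ≤ e / 2 := by
    have := Real.log_le_sub_one_of_pos (show 0 < (1 + (1 + e)) / 2 by positivity)
    linarith
  have h3 : 2 * e / (e + 2) ≤ Real.log (1 + e) := Real.le_log_one_add_of_nonneg he.le
  have h4 : e / 2 < (1 / 2 + e) * (2 * e / (e + 2)) := by
    rw [mul_div_assoc', div_lt_div_iff₀ (by norm_num) (by linarith)]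
    nlinarith
  have h5 : (1 / 2 + e) * (2 * e / (e + 2)) ≤ (1 / 2 + e) * Real.log (1 + e) :=
    mul_le_mul_of_nonneg_left h3 (by linarith)
  linarith

theorem CheR_low {e : ℝ} (he : 0 < e) (he2 : e ≤ 1 / 4) :
    (1 + (1 - e)) / 2 / (1 - e) ^ (1 / 2 - e) < 1 := by
  have h1 : (0 : ℝ) < 1 - e := by linarith
  rw [div_lt_one (by positivity)]
  rw [← Real.log_lt_log_iff (by linarith) (by positivity), Real.log_rpow h1]
  have h2 : Real.log ((1 + (1 - e)) / 2) ≤ -(e / 2) := by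
    have := Real.log_le_sub_one_of_pos (show 0 < (1 + (1 - e)) / 2 by linarith)
    linarith
  have h3 : -(e / (1 - e)) ≤ Real.log (1 - e) := by
    have := Real.one_sub_inv_le_log_of_pos h1
    refine le_trans (le_of_eq ?_) this
    field_simp
    ring
  have h4 : -(e / 2) < (1 / 2 - e) * (-(e / (1 - e))) := by
    rw [mul_neg, neg_lt_neg_iff, mul_div_assoc', div_lt_div_iff₀ h1 (by norm_num)]
    nlinarith
  have h5 : (1 / 2 - e) * (-(e / (1 - e))) ≤ (1 / 2 - e) * Real.log (1 - e) :=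
    mul_le_mul_of_nonneg_left h3 (by linarith)
  linarith

open Classical in
theorem cheR {e : ℝ} (he : 0 < e) : ∃ ρ C : ℝ, 0 < ρ ∧ ρ < 1 ∧ 0 ≤ C ∧ ∀ K n : ℕ,
    ∑ v ∈ lw K n, (if e * n < |(Rw v : ℝ) - n / 2| then (1 / 2 : ℝ) ^ v.sum else 0) ≤ C * ρ ^ n := by
  obtain ⟨t, ht0, ht4, hte⟩ : ∃ t : ℝ, 0 < t ∧ t ≤ 1 / 4 ∧ t ≤ e :=
    ⟨min e (1 / 4), by positivity, min_le_right _ _, min_le_left _ _⟩
  have hu := CheR_up ht0
  have hl := CheR_low ht0 ht4
  have hp1 : (0 : ℝ) < 1 + t := by linarith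
  have hp2 : (0 : ℝ) < 1 - t := by linarith
  set ρ1 : ℝ := (1 + (1 + t)) / 2 / (1 + t) ^ (1 / 2 + t) with hρ1
  set ρ2 : ℝ := (1 + (1 - t)) / 2 / (1 - t) ^ (1 / 2 - t) with hρ2
  have h01 : 0 < ρ1 := by rw [hρ1]; positivity
  have h02 : 0 < ρ2 := by
    rw [hρ2]
    have : (0 : ℝ) < (1 + (1 - t)) / 2 := by linarith
    positivity
  refine ⟨max ρ1 ρ2, 4, lt_max_of_lt_left h01, max_lt hu hl, by norm_num, fun K n => ?_⟩
  have key : ∀ v : List ℕ, (if e * n < |(Rw v : ℝ) - n / 2| then (1 / 2 : ℝ) ^ v.sum else 0) ≤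
      (1 / 2 : ℝ) ^ v.sum * (1 + t) ^ Rw v / ((1 + t) ^ (1 / 2 + t)) ^ n +
      (1 / 2 : ℝ) ^ v.sum * (1 - t) ^ Rw v / ((1 - t) ^ (1 / 2 - t)) ^ n := by
    intro v
    have ha : 0 ≤ (1 / 2 : ℝ) ^ v.sum * (1 + t) ^ Rw v / ((1 + t) ^ (1 / 2 + t)) ^ n := by positivity
    have hb : 0 ≤ (1 / 2 : ℝ) ^ v.sum * (1 - t) ^ Rw v / ((1 - t) ^ (1 / 2 - t)) ^ n := by positivity
    split_ifs with h
    · have hn : (0 : ℝ) ≤ n := Nat.cast_nonneg n
      have h' : t * n < |(Rw v : ℝ) - n / 2| := lt_of_le_of_lt (by gcongr) h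
      rcases lt_abs.1 h' with h1 | h1
      · have : 1 ≤ (1 + t) ^ Rw v / ((1 + t) ^ (1 / 2 + t)) ^ n := by
          rw [CheR_pow hp1]
          apply Real.one_le_rpow (by linarith)
          nlinarith
        have h3 : (1 / 2 : ℝ) ^ v.sum * 1 ≤ (1 / 2 : ℝ) ^ v.sum * ((1 + t) ^ Rw v / ((1 + t) ^ (1 / 2 + t)) ^ n) :=
          mul_le_mul_of_nonneg_left this (by positivity)
        rw [mul_one, ← mul_div_assoc] at h3
        linarith
      · have : 1 ≤ (1 - t) ^ Rw v / ((1 - t) ^ (1 / 2 - t)) ^ n := by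
          rw [CheR_pow hp2]
          apply Real.one_le_rpow_of_pos_of_le_one_of_nonpos hp2 (by linarith)
          nlinarith
        have h3 : (1 / 2 : ℝ) ^ v.sum * 1 ≤ (1 / 2 : ℝ) ^ v.sum * ((1 - t) ^ Rw v / ((1 - t) ^ (1 / 2 - t)) ^ n) :=
          mul_le_mul_of_nonneg_left this (by positivity)
        rw [mul_one, ← mul_div_assoc] at h3
        linarith
    · linarith
  calc ∑ v ∈ lw K n, (if e * n < |(Rw v : ℝ) - n / 2| then (1 / 2 : ℝ) ^ v.sum else 0)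
      ≤ ∑ v ∈ lw K n, ((1 / 2 : ℝ) ^ v.sum * (1 + t) ^ Rw v / ((1 + t) ^ (1 / 2 + t)) ^ n +
      (1 / 2 : ℝ) ^ v.sum * (1 - t) ^ Rw v / ((1 - t) ^ (1 / 2 - t)) ^ n) :=
        sum_le_sum fun v _ => key v
    _ = (∑ v ∈ lw K n, (1 / 2 : ℝ) ^ v.sum * (1 + t) ^ Rw v) / ((1 + t) ^ (1 / 2 + t)) ^ n +
        (∑ v ∈ lw K n, (1 / 2 : ℝ) ^ v.sum * (1 - t) ^ Rw v) / ((1 - t) ^ (1 / 2 - t)) ^ n := by
        rw [sum_add_distrib, sum_div, sum_div]
    _ ≤ 2 * ((1 + (1 + t)) / 2) ^ n / ((1 + t) ^ (1 / 2 + t)) ^ n +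
        2 * ((1 + (1 - t)) / 2) ^ n / ((1 - t) ^ (1 / 2 - t)) ^ n := by
        apply add_le_add
        · exact div_le_div_of_nonneg_right (CheR_Z K hp1.le n) (by positivity)
        · exact div_le_div_of_nonneg_right (CheR_Z K hp2.le n) (by positivity)
    _ = 2 * ρ1 ^ n + 2 * ρ2 ^ n := by
        rw [mul_div_assoc, ← div_pow, mul_div_assoc, ← div_pow]
    _ ≤ 2 * (max ρ1 ρ2) ^ n + 2 * (max ρ1 ρ2) ^ n := by
        have e1 : ρ1 ^ n ≤ (max ρ1 ρ2) ^ n := pow_le_pow_left₀ h01.le (le_max_left _ _) n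
        have e2 : ρ2 ^ n ≤ (max ρ1 ρ2) ^ n := pow_le_pow_left₀ h02.le (le_max_right _ _) n
        linarith
    _ = 4 * (max ρ1 ρ2) ^ n := by ring

end Pool.Agent.helper14.EX1
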