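import Pool.Agent.helper14.EX1.CheN
import Pool.Agent.helper14.EX1.CheR

/-!
# EX1-Che2: the atypical part is exponentially small on average

`avg n (Low2 K e n) = ∑_{v ∈ lw K n, not Typ} ww v / 3 ^ n = ∑ (1/2)^v.sum` (`avg_ala`); union bound; take the larger `ρ`.
-/

namespace Pool.Agent.helper14.EX1

open Finset

open Classical in
theorem Che2_avg (K n : ℕ) (e : ℝ) :
    avg n (Low2 K e n) = ∑ v ∈ lw K n, (if ¬ Typ e v then (1 / 2 : ℝ) ^ v.sum else 0) := by
  unfold avg Low2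
  rw [Finset.sum_comm, Finset.sum_div]
  refine Finset.sum_congr rfl fun v hv => ?_
  obtain ⟨hlen, hlet⟩ := mem_lw.1 hv
  have h1 := avg_ala v (fun k hk => (hlet k hk).1)
  unfold avg at h1
  rw [hlen] at h1
  have h3 : (0 : ℝ) < 3 ^ n := by positivity
  by_cases ht : Typ e v
  · simp [ht]
  · have e1 : ∀ x : ℕ, (if Ala (x : ℤ) v ∧ ¬ Typ e v then ww v else 0) =
        ww v * (if Ala (x : ℤ) v then (1 : ℝ) else 0) := by
      intro x
      by_cases hx : Ala (x : ℤ) v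
      · simp [hx, ht]
      · simp [hx]
    simp only [e1]
    rw [← Finset.mul_sum, mul_div_assoc, h1, if_pos ht, ww, hlen, one_div_pow]
    field_simp

theorem che2 {e : ℝ} (he : 0 < e) : ∃ ρ C : ℝ, 0 < ρ ∧ ρ < 1 ∧ 0 ≤ C ∧ ∀ K n : ℕ,
    avg n (Low2 K e n) ≤ C * ρ ^ n := by
  classical
  obtain ⟨ρ1, C1, h1, h1', hC1, hb1⟩ := cheN he
  obtain ⟨ρ2, C2, h2, h2', hC2, hb2⟩ := cheR he
  refine ⟨max ρ1 ρ2, C1 + C2, lt_max_of_lt_left h1, max_lt h1' h2', add_nonneg hC1 hC2, ?_⟩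
  intro K n
  rw [Che2_avg]
  have key : ∀ v ∈ lw K n, (if ¬ Typ e v then (1 / 2 : ℝ) ^ v.sum else 0) ≤
      (if e * n < |(v.sum : ℝ) - 2 * n| then (1 / 2 : ℝ) ^ v.sum else 0) +
        (if e * n < |(Rw v : ℝ) - n / 2| then (1 / 2 : ℝ) ^ v.sum else 0) := by
    intro v hv
    obtain ⟨hlen, _⟩ := mem_lw.1 hv
    have hp : (0 : ℝ) ≤ (1 / 2 : ℝ) ^ v.sum := by positivity
    by_cases ht : Typ e v
    · rw [if_neg (not_not.2 ht)]
      exact add_nonneg (by split_ifs <;> simp [hp]) (by split_ifs <;> simp [hp])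
    · rw [if_pos ht]
      by_cases h3 : e * n < |(v.sum : ℝ) - 2 * n|
      · rw [if_pos h3]
        exact le_add_of_nonneg_right (by split_ifs <;> simp [hp])
      · by_cases h4 : e * n < |(Rw v : ℝ) - n / 2|
        · rw [if_pos h4]
          exact le_add_of_nonneg_left (by split_ifs <;> simp [hp])
        · exact absurd (by
            unfold Typ
            rw [hlen]
            exact ⟨not_lt.1 h3, not_lt.1 h4⟩) ht
  refine (Finset.sum_le_sum key).trans ?_
  rw [Finset.sum_add_distrib, add_mul]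
  refine add_le_add ((hb1 K n).trans ?_) ((hb2 K n).trans ?_)
  · exact mul_le_mul_of_nonneg_left (pow_le_pow_left₀ h1.le (le_max_left _ _) n) hC1
  · exact mul_le_mul_of_nonneg_left (pow_le_pow_left₀ h2.le (le_max_right _ _) n) hC2

end Pool.Agent.helper14.EX1
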