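import Pool.Agent.helper14.EX1.Wrd
import Pool.Agent.helper14.EX1.Defs2

/-!
# EX1-CheN: large deviations of the sum of the letters (both sides)

For `z > 0`, `z < 2`: `∑_{v ∈ lw K n} (1/2)^v.sum z ^ v.sum ≤ (z / (2 - z)) ^ n` (`sum_lw_succ`, geometric series).  Upper
side: `v.sum > (2 + e) n`: `1 ≤ z ^ (v.sum - (2+e) n)` for `z > 1`, and `z ^ (-(1 + e)) / (2 - z) < 1` for `z = 1 + t`, small `t > 0`
(`-(1+e) log (1+t) - log (1 - t) ≤ -(1+e)(t - t^2) + t + t^2 < 0`, e.g. `t = min e 1 / 8`); lower side: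
`v.sum < (2 - e) n`, `z = 1 - t`: `(1 - e) ... `: `z ^ (e - 1) / (2 - z) < 1`.  Real powers.
-/

namespace Pool.Agent.helper14.EX1

open Finset

/-- The generating function of the sums of the words. -/
theorem CheN_gen (K n : ℕ) (y : ℝ) :
    ∑ v ∈ lw K n, y ^ v.sum = (∑ k ∈ Icc 1 K, y ^ k) ^ n := by
  induction n with
  | zero => simp [lw]
  | succ n ih =>
    rw [sum_lw_succ, pow_succ', sum_mul]
    refine sum_congr rfl fun k _ => ?_
    rw [← ih, mul_sum]
    refine sum_congr rfl fun v _ => ?_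
    rw [List.sum_cons, pow_add]

/-- The geometric sum. -/
theorem CheN_geo {y : ℝ} (h0 : 0 ≤ y) (h1 : y < 1) (K : ℕ) : ∑ k ∈ Icc 1 K, y ^ k ≤ y / (1 - y) := by
  have h2 : 0 < 1 - y := by linarith
  have h : ∑ k ∈ Icc 1 K, y ^ k = y / (1 - y) * (1 - y ^ K) := by
    induction K with
    | zero => simp
    | succ n ih =>
      rw [sum_Icc_succ_top (by omega), ih, pow_succ]
      field_simp
      ring
  rw [h]
  have h3 : 0 ≤ y ^ K := by positivity
  have h4 : 0 ≤ y / (1 - y) := by positivity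
  nlinarith

/-- The sum of the powers over the words. -/
theorem CheN_sum {y : ℝ} (h0 : 0 ≤ y) (h1 : y < 1) (K n : ℕ) :
    ∑ v ∈ lw K n, y ^ v.sum ≤ (y / (1 - y)) ^ n := by
  rw [CheN_gen]
  have h3 : (0 : ℝ) ≤ ∑ k ∈ Icc 1 K, y ^ k := sum_nonneg fun _ _ => by positivity
  exact pow_le_pow_left₀ h3 (CheN_geo h0 h1 K) n

/-- The upper rate. -/
theorem CheN_up {e t : ℝ} (he : 0 < e) (ht : t = e / (2 + 2 * e)) :
    (1 + t) / (1 - t) * Real.exp (-(Real.log (1 + t) * (2 + e))) < 1 := by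
  have ht0 : 0 < t := by rw [ht]; positivity
  have ht1 : t < 1 / 2 := by
    rw [ht, div_lt_div_iff₀ (by positivity) (by norm_num)]
    linarith
  have h1 : (0 : ℝ) < 1 + t := by linarith
  have h2 : (0 : ℝ) < 1 - t := by linarith
  have h3 : (1 + t) / (1 - t) = Real.exp (Real.log (1 + t) - Real.log (1 - t)) := by
    rw [Real.exp_sub, Real.exp_log h1, Real.exp_log h2]
  rw [h3, ← Real.exp_add]
  refine (Real.exp_lt_exp.mpr (?_ : _ < (0 : ℝ))).trans_eq Real.exp_zero
  have h4 := Real.one_sub_inv_le_log_of_pos h1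
  have h5 : (0 : ℝ) < 1 - t ^ 2 := by nlinarith
  have h6 := Real.one_sub_inv_le_log_of_pos h5
  have h7 : Real.log (1 - t ^ 2) = Real.log (1 + t) + Real.log (1 - t) := by
    rw [← Real.log_mul h1.ne' h2.ne']
    congr 1
    ring
  have h8 : t / (1 + t) ≤ Real.log (1 + t) := by
    refine le_trans (le_of_eq ?_) h4
    field_simp
    ring
  have h9 : -(t ^ 2 / (1 - t ^ 2)) ≤ Real.log (1 - t ^ 2) := by
    refine le_trans (le_of_eq ?_) h6
    field_simp
    ring
  have h10 : t ^ 2 / (1 - t ^ 2) < e * (t / (1 + t)) := by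
    have h11 : t ^ 2 / (1 - t ^ 2) = t / (1 + t) * (t / (1 - t)) := by
      have : 1 - t ^ 2 = (1 + t) * (1 - t) := by ring
      rw [this]
      field_simp
    rw [h11, mul_comm]
    refine mul_lt_mul_of_pos_right ?_ (by positivity)
    rw [div_lt_iff₀ h2]
    have h12 : t * (2 + 2 * e) = e := by
      rw [ht]
      field_simp
    nlinarith
  have h13 : e * (t / (1 + t)) ≤ e * Real.log (1 + t) := mul_le_mul_of_nonneg_left h8 he.le
  nlinarith

/-- The lower rate. -/
theorem CheN_lo {e t : ℝ} (he : 0 < e) (ht : t = e / (2 + 2 * e)) :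
    (1 - t) / (1 + t) * Real.exp (-(Real.log (1 - t) * (2 - e))) < 1 := by
  have ht0 : 0 < t := by rw [ht]; positivity
  have ht1 : t < 1 / 2 := by
    rw [ht, div_lt_div_iff₀ (by positivity) (by norm_num)]
    linarith
  have h1 : (0 : ℝ) < 1 + t := by linarith
  have h2 : (0 : ℝ) < 1 - t := by linarith
  have h3 : (1 - t) / (1 + t) = Real.exp (Real.log (1 - t) - Real.log (1 + t)) := by
    rw [Real.exp_sub, Real.exp_log h1, Real.exp_log h2]
  rw [h3, ← Real.exp_add]
  refine (Real.exp_lt_exp.mpr (?_ : _ < (0 : ℝ))).trans_eq Real.exp_zero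
  have h5 : (0 : ℝ) < 1 - t ^ 2 := by nlinarith
  have h6 := Real.one_sub_inv_le_log_of_pos h5
  have h7 : Real.log (1 - t ^ 2) = Real.log (1 + t) + Real.log (1 - t) := by
    rw [← Real.log_mul h1.ne' h2.ne']
    congr 1
    ring
  have h8 : Real.log (1 - t) ≤ -t := by
    have := Real.log_le_sub_one_of_pos h2
    linarith
  have h9 : -(t ^ 2 / (1 - t ^ 2)) ≤ Real.log (1 - t ^ 2) := by
    refine le_trans (le_of_eq ?_) h6
    field_simp
    ring
  have h10 : t ^ 2 / (1 - t ^ 2) < e * t := by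
    rw [div_lt_iff₀ h5]
    have h12 : t * (2 + 2 * e) = e := by
      rw [ht]
      field_simp
    have h13 : t < e * (1 - t ^ 2) := by nlinarith
    nlinarith
  have h13 : e * Real.log (1 - t) ≤ e * (-t) := mul_le_mul_of_nonneg_left h8 he.le
  nlinarith

open Classical in
theorem cheN {e : ℝ} (he : 0 < e) : ∃ ρ C : ℝ, 0 < ρ ∧ ρ < 1 ∧ 0 ≤ C ∧ ∀ K n : ℕ,
    ∑ v ∈ lw K n, (if e * n < |(v.sum : ℝ) - 2 * n| then (1 / 2 : ℝ) ^ v.sum else 0) ≤ C * ρ ^ n := by
  obtain ⟨t, ht⟩ : ∃ t : ℝ, t = e / (2 + 2 * e) := ⟨_, rfl⟩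
  have ht0 : 0 < t := by rw [ht]; positivity
  have ht1 : t < 1 / 2 := by
    rw [ht, div_lt_div_iff₀ (by positivity) (by norm_num)]
    linarith
  have h1 : (0 : ℝ) < 1 + t := by linarith
  have h2 : (0 : ℝ) < 1 - t := by linarith
  obtain ⟨a, ha⟩ : ∃ a : ℝ, a = (1 + t) / (1 - t) * Real.exp (-(Real.log (1 + t) * (2 + e))) := ⟨_, rfl⟩
  obtain ⟨b, hb⟩ : ∃ b : ℝ, b = (1 - t) / (1 + t) * Real.exp (-(Real.log (1 - t) * (2 - e))) := ⟨_, rfl⟩
  have ha0 : 0 < a := by rw [ha]; positivity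
  have hb0 : 0 < b := by rw [hb]; positivity
  have ha1 : a < 1 := by rw [ha]; exact CheN_up he ht
  have hb1 : b < 1 := by rw [hb]; exact CheN_lo he ht
  refine ⟨max a b, 2, lt_max_of_lt_left ha0, max_lt ha1 hb1, by norm_num, fun K n => ?_⟩
  have hpt : ∀ v ∈ lw K n, (if e * n < |(v.sum : ℝ) - 2 * n| then (1 / 2 : ℝ) ^ v.sum else 0) ≤
      Real.exp (-(Real.log (1 + t) * (2 + e))) ^ n * ((1 + t) / 2) ^ v.sum +
      Real.exp (-(Real.log (1 - t) * (2 - e))) ^ n * ((1 - t) / 2) ^ v.sum := by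
    intro v _
    have e1 : Real.exp (-(Real.log (1 + t) * (2 + e))) ^ n * ((1 + t) / 2) ^ v.sum =
        (1 / 2 : ℝ) ^ v.sum * Real.exp (Real.log (1 + t) * (v.sum - (2 + e) * n)) := by
      rw [← Real.exp_nat_mul, show (1 + t) / 2 = (1 / 2) * Real.exp (Real.log (1 + t)) by
        rw [Real.exp_log h1]; ring, mul_pow, ← Real.exp_nat_mul, mul_left_comm, ← Real.exp_add]
      congr 2
      ring
    have e2 : Real.exp (-(Real.log (1 - t) * (2 - e))) ^ n * ((1 - t) / 2) ^ v.sum =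
        (1 / 2 : ℝ) ^ v.sum * Real.exp (Real.log (1 - t) * (v.sum - (2 - e) * n)) := by
      rw [← Real.exp_nat_mul, show (1 - t) / 2 = (1 / 2) * Real.exp (Real.log (1 - t)) by
        rw [Real.exp_log h2]; ring, mul_pow, ← Real.exp_nat_mul, mul_left_comm, ← Real.exp_add]
      congr 2
      ring
    have p1 : 0 ≤ Real.exp (-(Real.log (1 + t) * (2 + e))) ^ n * ((1 + t) / 2) ^ v.sum := by positivity
    have p2 : 0 ≤ Real.exp (-(Real.log (1 - t) * (2 - e))) ^ n * ((1 - t) / 2) ^ v.sum := by positivity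
    have p3 : (0 : ℝ) ≤ (1 / 2 : ℝ) ^ v.sum := by positivity
    split_ifs with hc
    · rcases lt_abs.mp hc with hc | hc
      · have q1 : 0 ≤ Real.log (1 + t) * (v.sum - (2 + e) * n) :=
          mul_nonneg (Real.log_nonneg (by linarith)) (by linarith)
        have q2 : 1 ≤ Real.exp (Real.log (1 + t) * (v.sum - (2 + e) * n)) := Real.one_le_exp q1
        have q3 : (1 / 2 : ℝ) ^ v.sum ≤
            (1 / 2 : ℝ) ^ v.sum * Real.exp (Real.log (1 + t) * (v.sum - (2 + e) * n)) :=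
          le_mul_of_one_le_right p3 q2
        rw [← e1] at q3
        linarith
      · have q1 : 0 ≤ Real.log (1 - t) * (v.sum - (2 - e) * n) :=
          mul_nonneg_of_nonpos_of_nonpos (Real.log_nonpos h2.le (by linarith)) (by linarith)
        have q2 : 1 ≤ Real.exp (Real.log (1 - t) * (v.sum - (2 - e) * n)) := Real.one_le_exp q1
        have q3 : (1 / 2 : ℝ) ^ v.sum ≤
            (1 / 2 : ℝ) ^ v.sum * Real.exp (Real.log (1 - t) * (v.sum - (2 - e) * n)) :=
          le_mul_of_one_le_right p3 q2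
        rw [← e2] at q3
        linarith
    · linarith
  have hA : ∑ v ∈ lw K n, Real.exp (-(Real.log (1 + t) * (2 + e))) ^ n * ((1 + t) / 2) ^ v.sum ≤
      a ^ n := by
    rw [← mul_sum, ha, mul_pow, mul_comm]
    refine mul_le_mul_of_nonneg_right ?_ (by positivity)
    have := CheN_sum (y := (1 + t) / 2) (by positivity) (by linarith) K n
    have h3 : (1 + t) / 2 / (1 - (1 + t) / 2) = (1 + t) / (1 - t) := by
      have : 1 - (1 + t) / 2 = (1 - t) / 2 := by ring
      rw [this]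
      field_simp
    rwa [h3] at this
  have hB : ∑ v ∈ lw K n, Real.exp (-(Real.log (1 - t) * (2 - e))) ^ n * ((1 - t) / 2) ^ v.sum ≤
      b ^ n := by
    rw [← mul_sum, hb, mul_pow, mul_comm]
    refine mul_le_mul_of_nonneg_right ?_ (by positivity)
    have := CheN_sum (y := (1 - t) / 2) (by positivity) (by linarith) K n
    have h3 : (1 - t) / 2 / (1 - (1 - t) / 2) = (1 - t) / (1 + t) := by
      have : 1 - (1 - t) / 2 = (1 + t) / 2 := by ring
      rw [this]
      field_simp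
    rwa [h3] at this
  have hC : a ^ n ≤ max a b ^ n := pow_le_pow_left₀ ha0.le (le_max_left _ _) n
  have hD : b ^ n ≤ max a b ^ n := pow_le_pow_left₀ hb0.le (le_max_right _ _) n
  refine (sum_le_sum hpt).trans ?_
  rw [sum_add_distrib]
  linarith

end Pool.Agent.helper14.EX1
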