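import Pool.Agent.helper14.EX1.Five
import Pool.Agent.helper41.Coll.Exist
import Pool.Agent.helper41.Coll.Back

/-!
# EX1-Cir: circuits and steps of the nodes above `5`

As `K3X/BsC.lean` and `K3X/St.lean` (K3X_BsC.lean, K3X_St.lean in the store).  For a letter `k`, node `b = 3y+2`, child
`a = 3 Tk k y + 2`.  `k` odd: `a` is odd, `≥ 5`, `f a = 2 ^ (k-1) b`, then `k - 1` halvings: `k` steps, one odd term.  `k` even:
`a = 2 m`, `m` odd, `m ≠ 1` (because `a ≠ 2`: `nd1_ne_zero`), `f a = m`, `f m = 2 ^ (k-2) b`, then `k - 2` halvings: `k` steps,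
one odd term.  `5 → 8 → 4 → 2 → 1`: `4` steps.
-/

namespace Pool.Agent.helper14.EX1

open Pool.Agent.helper41.Coll

theorem Cir_one : HasC 1 0 :=
  ⟨0, fun i hi => absurd hi (Nat.not_lt_zero i), odd_one, Circuits.one⟩

theorem Cir_even {n c : ℕ} (hn : Even n) (h : HasC (f n) c) : HasC n c := by
  obtain ⟨j, h1, h2, h3⟩ := h
  refine ⟨j + 1, fun i hi => ?_, ?_, ?_⟩
  · cases i with
    | zero => exact hn
    | succ i =>
      rw [Function.iterate_succ_apply]
      exact h1 i (by omega)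
  · rw [Function.iterate_succ_apply]
    exact h2
  · rw [Function.iterate_succ_apply]
    exact h3

theorem Cir_odd {n c : ℕ} (hn : Odd n) (hn1 : n ≠ 1) (h : HasC (f n) c) :
    ∃ c', HasC n c' ∧ c' ≤ c + 1 := by
  obtain ⟨j, h1, h2, h3⟩ := h
  rcases Nat.eq_zero_or_pos j with hj | hj
  · subst hj
    rw [Function.iterate_zero_apply] at h2 h3
    obtain ⟨x, hx⟩ : ∃ x, f n = x := ⟨_, rfl⟩
    rw [hx] at h2 h3
    cases h3 with
    | one =>
      exfalso
      have h4 := f_eq_one hx hn1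
      exact (Nat.not_even_iff_odd.2 hn) h4
    | step h5 h6 h7 =>
      rename_i m' c
      obtain ⟨k, l, hk, hl, a1, a2, a3, a4⟩ := h6
      refine ⟨c + 1, ⟨0, fun i hi => absurd hi (Nat.not_lt_zero i), hn,
        Circuits.step hn1 ⟨k + 1, l, by omega, hl, ?_, ?_, a3, ?_⟩ h7⟩, by omega⟩
      · intro i hi
        cases i with
        | zero => exact hn
        | succ i =>
          rw [Function.iterate_zero_apply, Function.iterate_succ_apply, hx]
          exact a1 i (by omega)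
      · intro i hi1 hi2
        cases i with
        | zero => omega
        | succ i =>
          rw [Function.iterate_zero_apply, Function.iterate_succ_apply, hx]
          exact a2 i (by omega) (by omega)
      · rw [Function.iterate_zero_apply, show k + 1 + l = (k + l) + 1 by omega,
          Function.iterate_succ_apply, hx]
        exact a4
  · refine ⟨c + 1, ⟨0, fun i hi => absurd hi (Nat.not_lt_zero i), hn,
      Circuits.step hn1 ⟨1, j, le_rfl, hj, ?_, ?_, h2, ?_⟩ h3⟩, le_rfl⟩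
    · intro i hi
      have h0 : i = 0 := by omega
      subst h0
      exact hn
    · intro i hi1 hi2
      cases i with
      | zero => omega
      | succ i =>
        rw [Function.iterate_zero_apply, Function.iterate_succ_apply]
        exact h1 i (by omega)
    · rw [Function.iterate_zero_apply, show 1 + j = j + 1 by omega, Function.iterate_succ_apply]

theorem Cir_f_double (a : ℕ) : f (2 * a) = a := by
  unfold f
  rw [if_neg (by omega), if_neg (by omega)]
  omega

theorem Cir_double {a c : ℕ} (h : HasC a c) : HasC (2 * a) c := by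
  refine Cir_even (even_two_mul a) ?_
  rw [Cir_f_double]
  exact h

theorem Cir_pow {a c : ℕ} (h : HasC a c) (i : ℕ) : HasC (2 ^ i * a) c := by
  induction i with
  | zero => simpa using h
  | succ i ih =>
    have e : 2 ^ (i + 1) * a = 2 * (2 ^ i * a) := by ring
    rw [e]
    exact Cir_double ih

theorem Cir_iter_pow (i a : ℕ) : f^[i] (2 ^ i * a) = a := by
  induction i with
  | zero => simp
  | succ i ih =>
    have e : 2 ^ (i + 1) * a = 2 * (2 ^ i * a) := by ring
    rw [e, Function.iterate_succ_apply, Cir_f_double, ih]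

/-- The value of `f` at an odd number different from `1`. -/
theorem Cir_f_odd {n d : ℕ} (h1 : n ≠ 1) (hd : 3 * n + 1 = 2 * d) : f n = d := by
  unfold f
  rw [if_neg h1, if_pos (by omega)]
  omega

/-- The two cases of a letter. -/
theorem Cir_cases {k a b : ℕ} (hk : 1 ≤ k) (h : 3 * a + (if k % 2 = 1 then 1 else 2) = 2 ^ k * b) :
    (∃ j, k = j + 1 ∧ 3 * a + 1 = 2 * (2 ^ j * b)) ∨
      ∃ j m, k = j + 2 ∧ a = 2 * m ∧ 3 * m + 1 = 2 * (2 ^ j * b) := by
  by_cases hk2 : k % 2 = 1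
  · rw [if_pos hk2] at h
    left
    obtain ⟨j, rfl⟩ : ∃ j, k = j + 1 := ⟨k - 1, by omega⟩
    refine ⟨j, rfl, ?_⟩
    rw [h, pow_succ]
    ring
  · rw [if_neg hk2] at h
    right
    obtain ⟨j, rfl⟩ : ∃ j, k = j + 2 := ⟨k - 2, by omega⟩
    have e : 2 ^ (j + 2) * b = 4 * (2 ^ j * b) := by ring
    rw [e] at h
    refine ⟨j, a / 2, rfl, ?_, ?_⟩
    · omega
    · generalize 2 ^ j * b = d at h ⊢
      omega

theorem Cir_stepC {k a b c : ℕ} (hk : 1 ≤ k)
    (h : 3 * a + (if k % 2 = 1 then 1 else 2) = 2 ^ k * b) (h1 : a ≠ 1) (h2 : a ≠ 2)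
    (hb : HasC b c) : ∃ c', HasC a c' ∧ c' ≤ c + 1 := by
  rcases Cir_cases hk h with ⟨j, _, e⟩ | ⟨j, m, _, rfl, e⟩
  · have hf := Cir_f_odd h1 e
    refine Cir_odd (n := a) (c := c) (Nat.odd_iff.2 ?_) h1 ?_
    · generalize 2 ^ j * b = d at e
      omega
    · rw [hf]
      exact Cir_pow hb j
  · have hm : m ≠ 1 := by
      intro h3
      exact h2 (by omega)
    have hf := Cir_f_odd hm e
    obtain ⟨c', hc', hle⟩ := Cir_odd (n := m) (c := c)
      (Nat.odd_iff.2 (by generalize 2 ^ j * b = d at e; omega)) hm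
      (by rw [hf]; exact Cir_pow hb j)
    exact ⟨c', Cir_double hc', hle⟩

theorem Cir_stepF {k a b : ℕ} (hk : 1 ≤ k)
    (h : 3 * a + (if k % 2 = 1 then 1 else 2) = 2 ^ k * b) (h1 : a ≠ 1) (h2 : a ≠ 2) :
    f^[k] a = b := by
  rcases Cir_cases hk h with ⟨j, rfl, e⟩ | ⟨j, m, rfl, rfl, e⟩
  · rw [Function.iterate_succ_apply, Cir_f_odd h1 e, Cir_iter_pow]
  · have hm : m ≠ 1 := by
      intro h3
      exact h2 (by omega)
    rw [show j + 2 = (j + 1) + 1 by ring, Function.iterate_succ_apply, Cir_f_double,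
      Function.iterate_succ_apply, Cir_f_odd hm e, Cir_iter_pow]

/-- The data of the last step of a word from the node `5`. -/
theorem Cir_snoc {v : List ℕ} {k : ℕ} (hv : ∀ i ∈ v ++ [k], 1 ≤ i) (h : Ala 1 (v ++ [k])) :
    (∀ i ∈ v, 1 ≤ i) ∧ Ala 1 v ∧ 1 ≤ k ∧
      3 * (3 * nd 1 (v ++ [k]) + 2).toNat + (if k % 2 = 1 then 1 else 2) =
        2 ^ k * (3 * nd 1 v + 2).toNat ∧
      (3 * nd 1 (v ++ [k]) + 2).toNat ≠ 1 ∧ (3 * nd 1 (v ++ [k]) + 2).toNat ≠ 2 := by
  have hv1 : ∀ i ∈ v, 1 ≤ i := fun i hi => hv i (List.mem_append_left _ hi)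
  have hk : 1 ≤ k := hv k (by simp)
  have h1 := (ala_append 1 v [k]).1 h
  have h2 : Al k (nd 1 v) := h1.2.1
  have h3 : nd 1 (v ++ [k]) = Tk k (nd 1 v) := nd_append 1 v [k]
  have h4 := Tk_node hk h2
  have h5 : 0 ≤ nd 1 v := nd_nn (by norm_num) hv1 h1.1
  have h6 : 0 ≤ nd 1 (v ++ [k]) := nd_nn (by norm_num) hv h
  have h7 : nd 1 (v ++ [k]) ≠ 0 := nd1_ne_zero hv h
  rw [← h3] at h4
  refine ⟨hv1, h1.1, hk, ?_, ?_, ?_⟩
  · obtain ⟨a, ha⟩ := Int.eq_ofNat_of_zero_le h6
    obtain ⟨b, hb⟩ := Int.eq_ofNat_of_zero_le h5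
    rw [ha, hb] at h4
    rw [ha, hb]
    have e1 : (3 * (a : ℤ) + 2).toNat = 3 * a + 2 := by omega
    have e2 : (3 * (b : ℤ) + 2).toNat = 3 * b + 2 := by omega
    rw [e1, e2]
    have h8 : (3 * (3 * (a : ℤ) + 2) + (if k % 2 = 1 then 1 else 2)) = 2 ^ k * (3 * (b : ℤ) + 2) := by
      linarith
    by_cases hk2 : k % 2 = 1
    · rw [if_pos hk2] at h8 ⊢
      exact_mod_cast h8
    · rw [if_neg hk2] at h8 ⊢
      exact_mod_cast h8
  · omega
  · omega

theorem circ1 {v : List ℕ} (hv : ∀ k ∈ v, 1 ≤ k) (h : Ala 1 v) :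
    ∃ c : ℕ, HasC (3 * nd 1 v + 2).toNat c ∧ c ≤ v.length + 1 := by
  induction v using List.reverseRecOn with
  | nil =>
    have h8 : HasC 8 0 := Cir_double (Cir_double (Cir_double Cir_one))
    have hf : f 5 = 8 := by
      unfold f
      norm_num
    obtain ⟨c', hc', hle⟩ := Cir_odd (n := 5) (c := 0) ⟨2, by norm_num⟩ (by norm_num)
      (by rw [hf]; exact h8)
    exact ⟨c', hc', hle⟩
  | append_singleton v k ih =>
    obtain ⟨h1, h2, h3, h4, h5, h6⟩ := Cir_snoc hv h
    obtain ⟨c, hc, hle⟩ := ih h1 h2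
    obtain ⟨c', hc', hle'⟩ := Cir_stepC h3 h4 h5 h6 hc
    refine ⟨c', hc', ?_⟩
    rw [List.length_append, List.length_singleton]
    omega

theorem steps1 {v : List ℕ} (hv : ∀ k ∈ v, 1 ≤ k) (h : Ala 1 v) :
    f^[v.sum + 4] (3 * nd 1 v + 2).toNat = 1 := by
  induction v using List.reverseRecOn with
  | nil =>
    show f (f (f (f 5))) = 1
    have h5 : f 5 = 8 := by
      unfold f
      norm_num
    have h8 : f 8 = 4 := Cir_f_double 4
    have h4 : f 4 = 2 := Cir_f_double 2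
    have h22 : f 2 = 1 := Cir_f_double 1
    rw [h5, h8, h4, h22]
  | append_singleton v k ih =>
    obtain ⟨h1, h2, h3, h4, h5, h6⟩ := Cir_snoc hv h
    have h7 := ih h1 h2
    have h8 := Cir_stepF h3 h4 h5 h6
    rw [List.sum_append, List.sum_singleton, show v.sum + k + 4 = (v.sum + 4) + k by ring,
      Function.iterate_add_apply, h8, h7]

end Pool.Agent.helper14.EX1
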