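import Pool.Agent.helper14.EX1.Cir
import Pool.Agent.helper14.EX1.Defs2

/-!
# EX1-Cir2: the exact number of circuits and the exact time to reach `1`

Letters `k_1 … k_n` (first letter nearest to `5`), odd terms `o_n, …, o_1, 5`: `o_i = a_i` (`k_i` odd) or `a_i / 2` (`k_i` even,
`a_i / 2 ≠ 1` by `nd1_ne_zero`).  Between `o_i` and `o_{i-1}` there are `k_i - c_i + [k_{i-1} even]` even terms (`i ≥ 2`), between
`o_1` and `5` there are `k_1 - c_1`.  So `C = 1 + Rw v + [k_1 ≥ 3]` for `v ≠ []`, `C = 1` for `v = []`.  Induction from the right: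
keep `Circuits (first odd term) c`; if `rr = 0` the new odd term `o'` has `f o' = o` and belongs to the same circuit
(`Circuits o c → Circuits o' c`), otherwise `IsCircuit o' o` with one odd term (`c + 1`).
`hit1`: `f^[v.sum] node = 5` (`k` steps for each letter), `5 → 8 → 4 → 2 → 1`; `f 1 = 1`, so no earlier iterate is `1`.
-/

namespace Pool.Agent.helper14.EX1

open Pool.Agent.helper41.Coll

/-- A new circuit with one odd term. -/
theorem Cir2_new {o' o c s : ℕ} (h1 : Odd o') (h2 : o' ≠ 1) (hf : f o' = 2 ^ s * o) (hs : 1 ≤ s)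
    (ho : Odd o) (hc : Circuits o c) : Circuits o' (c + 1) := by
  refine Circuits.step h2 ⟨1, s, le_rfl, hs, ?_, ?_, ho, ?_⟩ hc
  · intro i hi
    have h0 : i = 0 := by omega
    subst h0
    exact h1
  · intro i hi1 hi2
    obtain ⟨j, rfl⟩ : ∃ j, i = j + 1 := ⟨i - 1, by omega⟩
    obtain ⟨r, rfl⟩ : ∃ r, s = j + (r + 1) := ⟨s - j - 1, by omega⟩
    rw [Function.iterate_succ_apply, hf, show 2 ^ (j + (r + 1)) * o = 2 ^ j * (2 * (2 ^ r * o)) by ring,
      Cir_iter_pow]
    exact even_two_mul _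
  · rw [show 1 + s = s + 1 by ring, Function.iterate_succ_apply, hf, Cir_iter_pow]

/-- One more odd term in the same circuit. -/
theorem Cir2_same {o' o c : ℕ} (h1 : Odd o') (h2 : o' ≠ 1) (hf : f o' = o) (ho : o ≠ 1)
    (hc : Circuits o c) : Circuits o' c := by
  cases hc with
  | one => exact absurd rfl ho
  | step h5 h6 h7 =>
    obtain ⟨k, l, hk, hl, a1, a2, a3, a4⟩ := h6
    refine Circuits.step h2 ⟨k + 1, l, by omega, hl, ?_, ?_, a3, ?_⟩ h7
    · intro i hi
      cases i with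
      | zero => exact h1
      | succ i =>
        rw [Function.iterate_succ_apply, hf]
        exact a1 i (by omega)
    · intro i hi1 hi2
      cases i with
      | zero => omega
      | succ i =>
        rw [Function.iterate_succ_apply, hf]
        exact a2 i (by omega) (by omega)
    · rw [show k + 1 + l = (k + l) + 1 by omega, Function.iterate_succ_apply, hf]
      exact a4

/-- The two cases of a letter, with the parity. -/
theorem Cir2_cases {k a b : ℕ} (hk : 1 ≤ k) (h : 3 * a + (if k % 2 = 1 then 1 else 2) = 2 ^ k * b) :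
    (∃ j, k % 2 = 1 ∧ k = j + 1 ∧ 3 * a + 1 = 2 * (2 ^ j * b)) ∨
      ∃ j m, k % 2 = 0 ∧ k = j + 2 ∧ a = 2 * m ∧ 3 * m + 1 = 2 * (2 ^ j * b) := by
  by_cases hk2 : k % 2 = 1
  · rw [if_pos hk2] at h
    left
    obtain ⟨j, rfl⟩ : ∃ j, k = j + 1 := ⟨k - 1, by omega⟩
    refine ⟨j, hk2, rfl, ?_⟩
    rw [h, pow_succ]
    ring
  · rw [if_neg hk2] at h
    right
    obtain ⟨j, rfl⟩ : ∃ j, k = j + 2 := ⟨k - 2, by omega⟩
    have e : 2 ^ (j + 2) * b = 4 * (2 ^ j * b) := by ring
    rw [e] at h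
    refine ⟨j, a / 2, by omega, rfl, ?_, ?_⟩
    · omega
    · generalize 2 ^ j * b = d at h ⊢
      omega

theorem Cir2_Rw (u : List ℕ) (k k' : ℕ) : Rw (u ++ [k] ++ [k']) = Rw (u ++ [k]) + rr k k' := by
  induction u with
  | nil => simp [Rw]
  | cons i u ih =>
    cases u with
    | nil => simp [Rw]
    | cons j u =>
      have e1 : Rw ((i :: j :: u) ++ [k] ++ [k']) = rr i j + Rw ((j :: u) ++ [k] ++ [k']) := rfl
      have e2 : Rw ((i :: j :: u) ++ [k]) = rr i j + Rw ((j :: u) ++ [k]) := rfl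
      rw [e1, e2, ih, Nat.add_assoc]

/-- The invariant: `o` is the first odd term of the node, `e` the number of even terms before it. -/
theorem Cir2_inv {v : List ℕ} (hv : ∀ k ∈ v, 1 ≤ k) (h : Ala 1 v) :
    ∃ o c e : ℕ, Circuits o c ∧ o ≠ 1 ∧ Odd o ∧ (3 * nd 1 v + 2).toNat = 2 ^ e * o ∧ e ≤ 1 ∧
      (v = [] → e = 0 ∧ c = 1) ∧ (∀ u k, v = u ++ [k] → (k % 2 = 1 → e = 0) ∧ (k % 2 = 0 → e = 1)) ∧
      Rw v + 1 ≤ c ∧ c ≤ Rw v + 2 := by
  induction v using List.reverseRecOn with
  | nil =>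
    refine ⟨5, 1, 0, ?_, by norm_num, ⟨2, by norm_num⟩, rfl, by norm_num, fun _ => ⟨rfl, rfl⟩, ?_,
      le_rfl, by simp [Rw]⟩
    · have hf : f 5 = 2 ^ 3 * 1 := by
        unfold f
        norm_num
      exact Cir2_new (c := 0) ⟨2, by norm_num⟩ (by norm_num) hf (by norm_num) odd_one Circuits.one
    · intro u k hu
      exact absurd hu (by simp)
  | append_singleton v k ih =>
    obtain ⟨h1, h2, h3, h4, h5, h6⟩ := Cir_snoc hv h
    obtain ⟨o, c, e, hc, ho1, hoo, hn, he, hnil, hlast, hlo, hhi⟩ := ih h1 h2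
    -- the new odd term
    obtain ⟨o', e', j, ho', ho1', hf, hn', he', hp1, hp2, hj⟩ :
        ∃ o' e' j : ℕ, Odd o' ∧ o' ≠ 1 ∧ f o' = 2 ^ (j + e) * o ∧
          (3 * nd 1 (v ++ [k]) + 2).toNat = 2 ^ e' * o' ∧ e' ≤ 1 ∧ (k % 2 = 1 → e' = 0) ∧
          (k % 2 = 0 → e' = 1) ∧ (j = 0 ↔ k ≤ 2) := by
      rcases Cir2_cases h3 h4 with ⟨j, hk2, rfl, e1⟩ | ⟨j, m, hk2, rfl, ha, e1⟩
      · refine ⟨(3 * nd 1 (v ++ [j + 1]) + 2).toNat, 0, j, Nat.odd_iff.2 ?_, h5, ?_, by simp,
          by norm_num, fun _ => rfl, fun h0 => by omega, by omega⟩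
        · generalize 2 ^ j * (3 * nd 1 v + 2).toNat = d at e1
          omega
        · rw [Cir_f_odd h5 e1, hn, pow_add]
          ring
      · have hm : m ≠ 1 := by
          intro h0
          rw [h0] at ha
          exact h6 (by omega)
        refine ⟨m, 1, j, Nat.odd_iff.2 ?_, hm, ?_, by rw [ha]; ring,
          le_rfl, fun h0 => by omega, fun _ => rfl, by omega⟩
        · generalize 2 ^ j * (3 * nd 1 v + 2).toNat = d at e1
          omega
        · rw [Cir_f_odd hm e1, hn, pow_add]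
          ring
    have hlast' : ∀ u k', v ++ [k] = u ++ [k'] → (k' % 2 = 1 → e' = 0) ∧ (k' % 2 = 0 → e' = 1) := by
      intro u k' hu
      have hk' : k = k' := by
        have := List.append_inj_right' hu rfl
        simpa using this
      subst hk'
      exact ⟨hp1, hp2⟩
    have hne : v ++ [k] = [] → e' = 0 ∧ (1 : ℕ) = 1 := fun h0 => absurd h0 (by simp)
    rcases List.eq_nil_or_concat v with hv0 | ⟨u, k0, hv0⟩
    · -- first letter
      subst hv0
      obtain ⟨he0, hc1⟩ := hnil rfl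
      subst he0
      subst hc1
      have hR : Rw ([] ++ [k]) = 0 := rfl
      by_cases hk : k ≤ 2
      · have hj0 := hj.2 hk
        subst hj0
        rw [show 2 ^ (0 + 0) * o = o by ring] at hf
        exact ⟨o', 1, e', Cir2_same ho' ho1' hf ho1 hc, ho1', ho', hn', he',
          fun h0 => absurd h0 (by simp), hlast', by rw [hR], by rw [hR]; norm_num⟩
      · have hj0 : 1 ≤ j := by
          rcases Nat.eq_zero_or_pos j with h0 | h0
          · exact absurd (hj.1 h0) hk
          · exact h0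
        exact ⟨o', 1 + 1, e', Cir2_new ho' ho1' hf (by omega) hoo hc, ho1', ho', hn', he',
          fun h0 => absurd h0 (by simp), hlast', by rw [hR]; norm_num, by rw [hR]⟩
    · rw [List.concat_eq_append] at hv0
      subst hv0
      obtain ⟨q1, q2⟩ := hlast u k0 rfl
      have hR := Cir2_Rw u k0 k
      by_cases hk : k ≤ 2 ∧ k0 % 2 = 1
      · have hj0 := hj.2 hk.1
        have he0 := q1 hk.2
        subst hj0
        subst he0
        rw [show 2 ^ (0 + 0) * o = o by ring] at hf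
        have hr : rr k0 k = 0 := by
          unfold rr
          rw [if_pos hk]
        rw [hr] at hR
        exact ⟨o', c, e', Cir2_same ho' ho1' hf ho1 hc, ho1', ho', hn', he',
          fun h0 => absurd h0 (by simp), hlast', by omega, by omega⟩
      · have hs : 1 ≤ j + e := by
          rcases Nat.eq_zero_or_pos (j + e) with h0 | h0
          · exfalso
            apply hk
            refine ⟨hj.1 (by omega), ?_⟩
            by_contra h8
            have := q2 (by omega)
            omega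
          · exact h0
        have hr : rr k0 k = 1 := by
          unfold rr
          rw [if_neg hk]
        rw [hr] at hR
        exact ⟨o', c + 1, e', Cir2_new ho' ho1' hf hs hoo hc, ho1', ho', hn', he',
          fun h0 => absurd h0 (by simp), hlast', by omega, by omega⟩

theorem circ2 {v : List ℕ} (hv : ∀ k ∈ v, 1 ≤ k) (h : Ala 1 v) :
    ∃ c : ℕ, HasC (3 * nd 1 v + 2).toNat c ∧ Rw v + 1 ≤ c ∧ c ≤ Rw v + 2 := by
  obtain ⟨o, c, e, hc, _, hoo, hn, he, _, _, hlo, hhi⟩ := Cir2_inv hv h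
  refine ⟨c, ?_, hlo, hhi⟩
  rw [hn]
  refine ⟨e, fun i hi => ?_, ?_, ?_⟩
  · obtain ⟨r, rfl⟩ : ∃ r, e = i + (r + 1) := ⟨e - i - 1, by omega⟩
    rw [show 2 ^ (i + (r + 1)) * o = 2 ^ i * (2 * (2 ^ r * o)) by ring, Cir_iter_pow]
    exact even_two_mul _
  · rw [Cir_iter_pow]
    exact hoo
  · rw [Cir_iter_pow]
    exact hc

theorem Cir2_five {v : List ℕ} (hv : ∀ k ∈ v, 1 ≤ k) (h : Ala 1 v) :
    f^[v.sum] (3 * nd 1 v + 2).toNat = 5 := by
  induction v using List.reverseRecOn with
  | nil => rfl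
  | append_singleton v k ih =>
    obtain ⟨h1, h2, h3, h4, h5, h6⟩ := Cir_snoc hv h
    rw [List.sum_append, List.sum_singleton, Function.iterate_add_apply, Cir_stepF h3 h4 h5 h6,
      ih h1 h2]

theorem Cir2_iter_one (i : ℕ) : f^[i] 1 = 1 := by
  induction i with
  | zero => rfl
  | succ i ih =>
    have h1 : f 1 = 1 := by
      unfold f
      norm_num
    rw [Function.iterate_succ_apply, h1, ih]

theorem hit1 {v : List ℕ} (hv : ∀ k ∈ v, 1 ≤ k) (h : Ala 1 v) :
    f^[v.sum + 4] (3 * nd 1 v + 2).toNat = 1 ∧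
      ∀ i < v.sum + 4, f^[i] (3 * nd 1 v + 2).toNat ≠ 1 := by
  refine ⟨steps1 hv h, fun i hi h1 => ?_⟩
  have h5 := Cir2_five hv h
  have h2 : f^[3 + v.sum] (3 * nd 1 v + 2).toNat = 2 := by
    rw [Function.iterate_add_apply, h5]
    have e5 : f 5 = 8 := by
      unfold f
      norm_num
    have e8 : f 8 = 4 := Cir_f_double 4
    have e4 : f 4 = 2 := Cir_f_double 2
    show f (f (f 5)) = 2
    rw [e5, e8, e4]
  obtain ⟨r, hr⟩ : ∃ r, 3 + v.sum = r + i := ⟨3 + v.sum - i, by omega⟩
  rw [hr, Function.iterate_add_apply, h1, Cir2_iter_one] at h2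
  norm_num at h2

end Pool.Agent.helper14.EX1
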