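import Pool.Agent.helper14.EX1.FiveG
import Pool.Agent.helper14.EX1.Defs2

/-!
# EX1-CirG: the number of circuits of a node above a general start

As EX1-Cir2 (`circ2`), with the start `a0 = 3 x0 + 2`, `x0 ≥ 1`, `C(a0) = c0`.  For `v ≠ []` with first letter `k_1`: between the odd term
of `k_1` and the first odd iterate `o` of `a0` there are `k_1 - c_1 + v_2(a0)` even terms: if this is `0` (then `o = a0 ≠ 1`) the
new odd term belongs to the first circuit of `a0`: `C = Rw v + c0`; otherwise `C = Rw v + c0 + 1`.  (If `o = 1` then `c0 = 0` and the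
number is at least `1`.)
-/

namespace Pool.Agent.helper14.EX1

open Pool.Agent.helper41.Coll

theorem CirG_even {n c : ℕ} (hn : Even n) (h : HasC (f n) c) : HasC n c := by
  obtain ⟨j, h1, h2, h3⟩ := h
  refine ⟨j + 1, fun i hi => ?_, ?_, ?_⟩
  · cases i with
    | zero => exact hn
    | succ i =>
      rw [Function.iterate_succ_apply]
      exact h1 i (by omega)
  · rw [Function.iterate_succ_apply]
    exact h2
  · rw [Function.iterate_succ_apply]
    exact h3

/-- An odd number before an odd number belongs to the same circuit. -/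
theorem CirG_odd_odd {n c : ℕ} (hn : Odd n) (hn1 : n ≠ 1) (ho : Odd (f n)) (h : HasC (f n) c) :
    HasC n c := by
  obtain ⟨j, h1, h2, h3⟩ := h
  have hj : j = 0 := by
    by_contra hj
    exact (Nat.not_even_iff_odd.2 ho) (h1 0 (by omega))
  subst hj
  rw [Function.iterate_zero_apply] at h2 h3
  obtain ⟨x, hx⟩ : ∃ x, f n = x := ⟨_, rfl⟩
  rw [hx] at h2 h3
  cases h3 with
  | one =>
    exfalso
    have h4 := f_eq_one hx hn1
    exact (Nat.not_even_iff_odd.2 hn) h4
  | step h5 h6 h7 =>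
    rename_i m' c
    obtain ⟨k, l, hk, hl, a1, a2, a3, a4⟩ := h6
    refine ⟨0, fun i hi => absurd hi (Nat.not_lt_zero i), hn,
      Circuits.step hn1 ⟨k + 1, l, by omega, hl, ?_, ?_, a3, ?_⟩ h7⟩
    · intro i hi
      cases i with
      | zero => exact hn
      | succ i =>
        rw [Function.iterate_zero_apply, Function.iterate_succ_apply, hx]
        exact a1 i (by omega)
    · intro i hi1 hi2
      cases i with
      | zero => omega
      | succ i =>
        rw [Function.iterate_zero_apply, Function.iterate_succ_apply, hx]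
        exact a2 i (by omega) (by omega)
    · rw [Function.iterate_zero_apply, show k + 1 + l = (k + l) + 1 by omega,
        Function.iterate_succ_apply, hx]
      exact a4

/-- An odd number before an even number is a circuit of its own. -/
theorem CirG_odd_even {n c : ℕ} (hn : Odd n) (hn1 : n ≠ 1) (he : Even (f n)) (h : HasC (f n) c) :
    HasC n (c + 1) := by
  obtain ⟨j, h1, h2, h3⟩ := h
  have hj : 1 ≤ j := by
    rcases Nat.eq_zero_or_pos j with hj | hj
    · subst hj
      rw [Function.iterate_zero_apply] at h2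
      exact absurd he (Nat.not_even_iff_odd.2 h2)
    · exact hj
  refine ⟨0, fun i hi => absurd hi (Nat.not_lt_zero i), hn,
    Circuits.step hn1 ⟨1, j, le_rfl, hj, ?_, ?_, h2, ?_⟩ h3⟩
  · intro i hi
    have h0 : i = 0 := by omega
    subst h0
    exact hn
  · intro i hi1 hi2
    cases i with
    | zero => omega
    | succ i =>
      rw [Function.iterate_zero_apply, Function.iterate_succ_apply]
      exact h1 i (by omega)
  · rw [Function.iterate_zero_apply, show 1 + j = j + 1 by omega, Function.iterate_succ_apply]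

theorem CirG_f_double (a : ℕ) : f (2 * a) = a := by
  unfold f
  rw [if_neg (by omega), if_neg (by omega)]
  omega

theorem CirG_double {a c : ℕ} (h : HasC a c) : HasC (2 * a) c := by
  refine CirG_even (even_two_mul a) ?_
  rw [CirG_f_double]
  exact h

theorem CirG_pow {a c : ℕ} (h : HasC a c) (i : ℕ) : HasC (2 ^ i * a) c := by
  induction i with
  | zero => simpa using h
  | succ i ih =>
    have e : 2 ^ (i + 1) * a = 2 * (2 ^ i * a) := by ring
    rw [e]
    exact CirG_double ih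

/-- The value of `f` at an odd number different from `1`. -/
theorem CirG_f_odd {n d : ℕ} (h1 : n ≠ 1) (hd : 3 * n + 1 = 2 * d) : f n = d := by
  unfold f
  rw [if_neg h1, if_pos (by omega)]
  omega

/-- The odd term `m` with `f m = 2 ^ j b`. -/
theorem CirG_core {j m b c : ℕ} (hm : m ≠ 1) (e : 3 * m + 1 = 2 * (2 ^ j * b)) (hb : HasC b c) :
    HasC m (c + (if j = 0 ∧ b % 2 = 1 then 0 else 1)) := by
  have hf := CirG_f_odd hm e
  have hmo : Odd m := Nat.odd_iff.2 (by generalize 2 ^ j * b = d at e; omega)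
  by_cases hc : j = 0 ∧ b % 2 = 1
  · rw [if_pos hc]
    obtain ⟨rfl, hb2⟩ := hc
    rw [pow_zero, one_mul] at hf
    refine CirG_odd_odd hmo hm ?_ ?_
    · rw [hf]
      exact Nat.odd_iff.2 hb2
    · rw [hf]
      exact hb
  · rw [if_neg hc]
    refine CirG_odd_even hmo hm ?_ ?_
    · rw [hf]
      rcases Nat.eq_zero_or_pos j with hj | hj
      · subst hj
        rw [pow_zero, one_mul]
        rw [Nat.even_iff]
        by_contra h2
        exact hc ⟨rfl, by omega⟩
      · obtain ⟨i, rfl⟩ : ∃ i, j = i + 1 := ⟨j - 1, by omega⟩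
        rw [pow_succ, mul_assoc, mul_left_comm]
        exact even_two_mul _
    · rw [hf]
      exact CirG_pow hb j

/-- One step with the letter `k` from `b` to its child `a`. -/
theorem CirG_step {k a b c : ℕ} (hk : 1 ≤ k)
    (h : 3 * a + (if k % 2 = 1 then 1 else 2) = 2 ^ k * b) (h1 : a ≠ 1) (h2 : a ≠ 2)
    (hb : HasC b c) : HasC a (c + (if k ≤ 2 ∧ b % 2 = 1 then 0 else 1)) := by
  by_cases hk2 : k % 2 = 1
  · rw [if_pos hk2] at h
    obtain ⟨j, rfl⟩ : ∃ j, k = j + 1 := ⟨k - 1, by omega⟩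
    have e : 3 * a + 1 = 2 * (2 ^ j * b) := by
      rw [h, pow_succ]
      ring
    have h3 := CirG_core h1 e hb
    have h4 : (j = 0 ∧ b % 2 = 1) ↔ (j + 1 ≤ 2 ∧ b % 2 = 1) := by
      constructor
      · rintro ⟨h5, h6⟩
        exact ⟨by omega, h6⟩
      · rintro ⟨h5, h6⟩
        exact ⟨by omega, h6⟩
    simpa only [h4] using h3
  · rw [if_neg hk2] at h
    obtain ⟨j, rfl⟩ : ∃ j, k = j + 2 := ⟨k - 2, by omega⟩
    have e4 : 2 ^ (j + 2) * b = 4 * (2 ^ j * b) := by ring
    rw [e4] at h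
    obtain ⟨m, rfl⟩ : ∃ m, a = 2 * m := ⟨a / 2, by omega⟩
    have e : 3 * m + 1 = 2 * (2 ^ j * b) := by
      generalize 2 ^ j * b = d at h ⊢
      omega
    have h3 := CirG_core (by omega) e hb
    have h4 : (j = 0 ∧ b % 2 = 1) ↔ (j + 2 ≤ 2 ∧ b % 2 = 1) := by
      constructor
      · rintro ⟨h5, h6⟩
        exact ⟨by omega, h6⟩
      · rintro ⟨h5, h6⟩
        exact ⟨by omega, h6⟩
    have h5 := CirG_double h3
    simpa only [h4] using h5

/-- The data of the last step of a word from the node `3 x0 + 2`. -/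
theorem CirG_snoc {x0 : ℤ} (hx : 1 ≤ x0) {v : List ℕ} {k : ℕ} (hv : ∀ i ∈ v ++ [k], 1 ≤ i)
    (h : Ala x0 (v ++ [k])) :
    (∀ i ∈ v, 1 ≤ i) ∧ Ala x0 v ∧ 1 ≤ k ∧
      3 * (3 * nd x0 (v ++ [k]) + 2).toNat + (if k % 2 = 1 then 1 else 2) =
        2 ^ k * (3 * nd x0 v + 2).toNat ∧
      (3 * nd x0 (v ++ [k]) + 2).toNat ≠ 1 ∧ (3 * nd x0 (v ++ [k]) + 2).toNat ≠ 2 := by
  have hx0 : 0 ≤ x0 := by omega
  have hv1 : ∀ i ∈ v, 1 ≤ i := fun i hi => hv i (List.mem_append_left _ hi)
  have hk : 1 ≤ k := hv k (by simp)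
  have h1 := (ala_append x0 v [k]).1 h
  have h2 : Al k (nd x0 v) := h1.2.1
  have h3 : nd x0 (v ++ [k]) = Tk k (nd x0 v) := nd_append x0 v [k]
  have h4 := Tk_node hk h2
  have h5 : 0 ≤ nd x0 v := nd_nn hx0 hv1 h1.1
  have h6 : 0 ≤ nd x0 (v ++ [k]) := nd_nn hx0 hv h
  have h7 : nd x0 (v ++ [k]) ≠ 0 := ndG_ne hx hv h
  rw [← h3] at h4
  refine ⟨hv1, h1.1, hk, ?_, ?_, ?_⟩
  · obtain ⟨a, ha⟩ := Int.eq_ofNat_of_zero_le h6
    obtain ⟨b, hb⟩ := Int.eq_ofNat_of_zero_le h5
    rw [ha, hb] at h4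
    rw [ha, hb]
    have e1 : (3 * (a : ℤ) + 2).toNat = 3 * a + 2 := by omega
    have e2 : (3 * (b : ℤ) + 2).toNat = 3 * b + 2 := by omega
    rw [e1, e2]
    have h8 : (3 * (3 * (a : ℤ) + 2) + (if k % 2 = 1 then 1 else 2)) = 2 ^ k * (3 * (b : ℤ) + 2) := by
      linarith
    by_cases hk2 : k % 2 = 1
    · rw [if_pos hk2] at h8 ⊢
      exact_mod_cast h8
    · rw [if_neg hk2] at h8 ⊢
      exact_mod_cast h8
  · omega
  · omega

theorem CirG_rw (u : List ℕ) (k k' : ℕ) : Rw (u ++ [k] ++ [k']) = Rw (u ++ [k]) + rr k k' := by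
  induction u with
  | nil =>
    show rr k k' + Rw [k'] = Rw [k] + rr k k'
    show rr k k' + 0 = 0 + rr k k'
    omega
  | cons a u ih =>
    cases u with
    | nil =>
      show rr a k + (rr k k' + 0) = (rr a k + 0) + rr k k'
      omega
    | cons b u =>
      show rr a b + Rw (b :: u ++ [k] ++ [k']) = (rr a b + Rw (b :: u ++ [k])) + rr k k'
      rw [ih]
      omega

theorem circG {x0 : ℤ} (hx : 1 ≤ x0) {c0 : ℕ} (h0 : HasC (3 * x0 + 2).toNat c0) {v : List ℕ}
    (hv : ∀ k ∈ v, 1 ≤ k) (h : Ala x0 v) :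
    ∃ c : ℕ, HasC (3 * nd x0 v + 2).toNat c ∧ Rw v + c0 ≤ c ∧ c ≤ Rw v + c0 + 1 := by
  induction v using List.reverseRecOn with
  | nil =>
    refine ⟨c0, h0, ?_, ?_⟩
    · show 0 + c0 ≤ c0
      omega
    · show c0 ≤ 0 + c0 + 1
      omega
  | append_singleton u k' ih =>
    obtain ⟨h1, h2, h3, h4, h5, h6⟩ := CirG_snoc hx hv h
    obtain ⟨c, hc, hle1, hle2⟩ := ih h1 h2
    have hs := CirG_step h3 h4 h5 h6 hc
    rcases List.eq_nil_or_concat u with hu | ⟨u', k, hu⟩
    · subst hu
      have hc0 : c = c0 ∨ c = c0 + 1 := by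
        have : Rw [] = 0 := rfl
        omega
      -- for the empty word use the number of the start itself
      have hs0 := CirG_step h3 h4 h5 h6 (show HasC (3 * nd x0 [] + 2).toNat c0 from h0)
      refine ⟨_, hs0, ?_, ?_⟩
      · show 0 + c0 ≤ _
        split_ifs <;> omega
      · show _ ≤ 0 + c0 + 1
        split_ifs <;> omega
    · rw [List.concat_eq_append] at hu
      subst hu
      obtain ⟨g1, g2, g3, g4, g5, g6⟩ := CirG_snoc hx h1 h2
      have hpar : (3 * nd x0 (u' ++ [k]) + 2).toNat % 2 = 1 ↔ k % 2 = 1 := by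
        obtain ⟨j, rfl⟩ : ∃ j, k = j + 1 := ⟨k - 1, by omega⟩
        rw [pow_succ, mul_comm (2 ^ j) 2, mul_assoc] at g4
        generalize 2 ^ j * (3 * nd x0 u' + 2).toNat = d at g4
        generalize (3 * nd x0 (u' ++ [j + 1]) + 2).toNat = a at g4 ⊢
        split_ifs at g4 <;> omega
      refine ⟨_, hs, ?_, ?_⟩
      · rw [CirG_rw]
        unfold rr
        simp only [hpar]
        omega
      · rw [CirG_rw]
        unfold rr
        simp only [hpar]
        omega

end Pool.Agent.helper14.EX1
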