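import Pool.Agent.helper14.EX1.Law

/-!
# EX1-Cmp: one digit against a window

Write `C = B + 3 ^ q c` (`B < 3 ^ q`, `c < 3 ^ (p - q)`), `t = p - q`, `m(C) = E (ind p C)`,
`e_C = ∑_{d<3} (E (ind (p+1) (C + 3^p d)) - m(C)/3) ^ 2`.  `Dev E p 1 C = e_C / m(C) ≤ sqrt e_C` because
`Dev ≤ m(C)` (`dev_le`).  For fixed `B`: Cauchy-Schwarz `∑_c sqrt e_C ≤ sqrt (3 ^ t * ∑_c e_C)`, and
`∑_c e_C ≤ ∑_{c,d} (E (ind (p+1) (C + 3^p d)) - M_B / 3 ^ (t+1)) ^ 2` (the mean over `d` minimizes)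
`≤ 3 ^ (R - t - 1) * ∑_{W < 3^R} (E (ind (q+R) (B + 3^q W)) - M_B / 3 ^ R) ^ 2` (Cauchy-Schwarz over the digits above)
`= 3 ^ (R - t - 1) * M_B * Dev E q R B`.  So `∑_c Dev E p 1 C ≤ sqrt (3 ^ R M_B Dev E q R B)`.  Multiply by `h B`
(`h C = h B`) and use Cauchy-Schwarz over `B` with `∑_B h B M_B ≤ 1`.
-/

namespace Pool.Agent.helper14.EX1

open Finset

variable {E : (ℤ → ℝ) → ℝ}

/-- `E (ind q B) * Dev E q R B` is the sum of the squares of the deviations. -/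
theorem Cmp_dev_mul (hE : IsLaw E) (q R : ℕ) (B : ℤ) :
    E (ind q B) * Dev E q R B =
      ∑ W ∈ range (3 ^ R), (E (ind (q + R) (B + 3 ^ q * (W : ℤ))) - E (ind q B) / 3 ^ R) ^ 2 := by
  unfold Dev
  rw [mul_sum]
  refine sum_congr rfl fun W _ => ?_
  by_cases h0 : E (ind q B) = 0
  · have h1 : E (ind (q + R) (B + 3 ^ q * (W : ℤ))) = 0 :=
      le_antisymm (h0 ▸ law_ind_le hE q R B (W : ℤ)) (law_ind_nn hE _ _)
    rw [h0, h1]
    simp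
  · field_simp

/-- The mean minimizes. -/
theorem Cmp_mean {N : ℕ} (hN : 0 < N) (a : ℕ → ℝ) {s : ℝ} (hs : s = ∑ d ∈ range N, a d) (x : ℝ) :
    ∑ d ∈ range N, (a d - s / N) ^ 2 ≤ ∑ d ∈ range N, (a d - x) ^ 2 := by
  have hN' : (N : ℝ) ≠ 0 := by exact_mod_cast hN.ne'
  have h1 : ∀ y : ℝ, ∑ d ∈ range N, (a d - y) ^ 2 =
      (∑ d ∈ range N, a d ^ 2) - 2 * y * s + N * y ^ 2 := by
    intro y
    have h2 : (N : ℝ) * y ^ 2 = ∑ _d ∈ range N, y ^ 2 := by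
      rw [sum_const, card_range, nsmul_eq_mul]
    rw [h2, hs, mul_sum, ← sum_sub_distrib, ← sum_add_distrib]
    exact sum_congr rfl fun d _ => by ring
  rw [h1, h1]
  have h3 : 0 ≤ (N : ℝ) * (x - s / N) ^ 2 := by positivity
  have h4 : (N : ℝ) * (x - s / N) ^ 2 = N * x ^ 2 - 2 * x * s + s ^ 2 / N := by
    field_simp
    ring
  have h5 : 2 * (s / N) * s = 2 * (s ^ 2 / N) := by ring
  have h6 : (N : ℝ) * (s / N) ^ 2 = s ^ 2 / N := by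
    field_simp
  rw [h5, h6]
  linarith

/-- Cauchy-Schwarz with the constant function. -/
theorem Cmp_cs (N : ℕ) (a : ℕ → ℝ) :
    (∑ d ∈ range N, a d) ^ 2 ≤ N * ∑ d ∈ range N, a d ^ 2 := by
  have h := sq_sum_le_card_mul_sum_sq (s := range N) (f := a)
  rwa [card_range] at h

/-- The bound for one class `B`. -/
theorem Cmp_class (hE : IsLaw E) (q t s : ℕ) (B : ℤ) :
    (∑ c ∈ range (3 ^ t), Dev E (q + t) 1 (B + 3 ^ q * (c : ℤ))) ^ 2 ≤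
      3 ^ t * (3 ^ s * (E (ind q B) * Dev E q (t + 1 + s) B)) := by
  have h1 := Cmp_cs (3 ^ t) (fun c => Dev E (q + t) 1 (B + 3 ^ q * (c : ℤ)))
  push_cast at h1
  refine h1.trans (mul_le_mul_of_nonneg_left ?_ (by positivity))
  set M := E (ind q B) with hM
  -- one class `C`
  have h2 : ∀ c ∈ range (3 ^ t), Dev E (q + t) 1 (B + 3 ^ q * (c : ℤ)) ^ 2 ≤
      ∑ d ∈ range (3 ^ 1), (E (ind (q + t + 1) (B + 3 ^ q * ((c : ℤ) + 3 ^ t * (d : ℤ)))) -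
        M / 3 ^ (t + 1)) ^ 2 := by
    intro c _
    set C : ℤ := B + 3 ^ q * (c : ℤ) with hC
    have hd0 := dev_nn hE (q + t) 1 C
    have hd1 := dev_le hE (q + t) 1 C
    have h3 : Dev E (q + t) 1 C ^ 2 ≤ E (ind (q + t) C) * Dev E (q + t) 1 C := by
      rw [sq]
      exact mul_le_mul_of_nonneg_right hd1 hd0
    rw [Cmp_dev_mul hE] at h3
    have h4 := Cmp_mean (N := 3 ^ 1) (by norm_num)
      (fun d => E (ind (q + t + 1) (C + 3 ^ (q + t) * (d : ℤ))))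
      (law_ind_split hE (q + t) 1 C) (M / 3 ^ (t + 1))
    rw [Nat.cast_pow, Nat.cast_ofNat] at h4
    refine h3.trans (h4.trans (le_of_eq (sum_congr rfl fun d _ => ?_)))
    have h5 : C + 3 ^ (q + t) * (d : ℤ) = B + 3 ^ q * ((c : ℤ) + 3 ^ t * (d : ℤ)) := by
      rw [hC, pow_add]
      ring
    rw [h5]
  refine (sum_le_sum h2).trans ?_
  have h6 := sum_split t 1 (fun x => (E (ind (q + t + 1) (B + 3 ^ q * x)) - M / 3 ^ (t + 1)) ^ 2)
  rw [← h6]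
  have h7 : ∀ W ∈ range (3 ^ (t + 1)),
      (E (ind (q + t + 1) (B + 3 ^ q * (W : ℤ))) - M / 3 ^ (t + 1)) ^ 2 ≤
      3 ^ s * ∑ V ∈ range (3 ^ s), (E (ind (q + (t + 1 + s))
        (B + 3 ^ q * ((W : ℤ) + 3 ^ (t + 1) * (V : ℤ)))) - M / 3 ^ (t + 1 + s)) ^ 2 := by
    intro W _
    have h8 : E (ind (q + t + 1) (B + 3 ^ q * (W : ℤ))) - M / 3 ^ (t + 1) =
        ∑ V ∈ range (3 ^ s), (E (ind (q + (t + 1 + s))
          (B + 3 ^ q * ((W : ℤ) + 3 ^ (t + 1) * (V : ℤ)))) - M / 3 ^ (t + 1 + s)) := by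
      rw [sum_sub_distrib, sum_const, card_range, nsmul_eq_mul,
        law_ind_split hE (q + t + 1) s (B + 3 ^ q * (W : ℤ))]
      congr 1
      · refine sum_congr rfl fun V _ => ?_
        have h9 : B + 3 ^ q * (W : ℤ) + 3 ^ (q + t + 1) * (V : ℤ) =
            B + 3 ^ q * ((W : ℤ) + 3 ^ (t + 1) * (V : ℤ)) := by
          rw [show q + t + 1 = q + (t + 1) by ring, pow_add (3 : ℤ) q (t + 1)]
          ring
        rw [h9, show q + t + 1 + s = q + (t + 1 + s) by ring]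
      · push_cast
        rw [pow_add (3 : ℝ) (t + 1) s]
        field_simp
    rw [h8]
    have h10 := Cmp_cs (3 ^ s) (fun V => E (ind (q + (t + 1 + s))
          (B + 3 ^ q * ((W : ℤ) + 3 ^ (t + 1) * (V : ℤ)))) - M / 3 ^ (t + 1 + s))
    push_cast at h10
    exact h10
  refine (sum_le_sum h7).trans (le_of_eq ?_)
  rw [← mul_sum, Cmp_dev_mul hE]
  congr 1
  exact (sum_split (t + 1) s (fun x => (E (ind (q + (t + 1 + s)) (B + 3 ^ q * x)) -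
    M / 3 ^ (t + 1 + s)) ^ 2)).symm

theorem cmp (hE : IsLaw E) {q p R : ℕ} (hqp : q ≤ p) (hpR : p < q + R) {h : ℤ → ℝ} (hh : Per q h)
    (h0 : ∀ x, 0 ≤ h x) (h1 : ∀ x, h x ≤ 1) :
    ∑ C ∈ range (3 ^ p), h (C : ℤ) * Dev E p 1 (C : ℤ) ≤
      Real.sqrt (3 ^ R * ∑ B ∈ range (3 ^ q), h (B : ℤ) * Dev E q R (B : ℤ)) := by
  obtain ⟨t, rfl⟩ := Nat.exists_eq_add_of_le hqp
  obtain ⟨s, rfl⟩ : ∃ s, R = t + 1 + s := ⟨R - (t + 1), by omega⟩
  refine Real.le_sqrt_of_sq_le ?_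
  rw [sum_split q t (fun x => h x * Dev E (q + t) 1 x)]
  have h2 : ∀ B ∈ range (3 ^ q), (∑ c ∈ range (3 ^ t), h ((B : ℤ) + 3 ^ q * (c : ℤ)) *
      Dev E (q + t) 1 ((B : ℤ) + 3 ^ q * (c : ℤ))) =
      h (B : ℤ) * ∑ c ∈ range (3 ^ t), Dev E (q + t) 1 ((B : ℤ) + 3 ^ q * (c : ℤ)) := by
    intro B _
    rw [mul_sum]
    exact sum_congr rfl fun c _ => by rw [per_mul hh]
  rw [sum_congr rfl h2]
  have h3 := Finset.sum_sq_le_sum_mul_sum_of_sq_le_mul (range (3 ^ q))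
    (r := fun B : ℕ => h (B : ℤ) * ∑ c ∈ range (3 ^ t), Dev E (q + t) 1 ((B : ℤ) + 3 ^ q * (c : ℤ)))
    (f := fun B : ℕ => h (B : ℤ) * E (ind q (B : ℤ)))
    (g := fun B : ℕ => 3 ^ (t + 1 + s) * (h (B : ℤ) * Dev E q (t + 1 + s) (B : ℤ)))
    (fun B _ => mul_nonneg (h0 _) (law_ind_nn hE _ _))
    (fun B _ => mul_nonneg (by positivity) (mul_nonneg (h0 _) (dev_nn hE _ _ _)))
    (fun B _ => by
      have h4 := Cmp_class hE q t s (B : ℤ)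
      have h5 : (3 : ℝ) ^ t * (3 ^ s * (E (ind q (B : ℤ)) * Dev E q (t + 1 + s) (B : ℤ))) ≤
          3 ^ (t + 1 + s) * (E (ind q (B : ℤ)) * Dev E q (t + 1 + s) (B : ℤ)) := by
        have h6 : 0 ≤ E (ind q (B : ℤ)) * Dev E q (t + 1 + s) (B : ℤ) :=
          mul_nonneg (law_ind_nn hE _ _) (dev_nn hE _ _ _)
        rw [← mul_assoc, ← pow_add]
        refine mul_le_mul_of_nonneg_right ?_ h6
        exact pow_le_pow_right₀ (by norm_num) (by omega)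
      have h7 := mul_le_mul_of_nonneg_left (h4.trans h5) (sq_nonneg (h (B : ℤ)))
      calc _ = h (B : ℤ) ^ 2 *
          (∑ c ∈ range (3 ^ t), Dev E (q + t) 1 ((B : ℤ) + 3 ^ q * (c : ℤ))) ^ 2 := by ring
        _ ≤ _ := h7
        _ = _ := by ring)
  refine h3.trans ?_
  have h8 : ∑ B ∈ range (3 ^ q), h (B : ℤ) * E (ind q (B : ℤ)) ≤ 1 := by
    rw [← law_ind_sum hE q]
    refine sum_le_sum fun B _ => ?_
    have := mul_le_mul_of_nonneg_right (h1 (B : ℤ)) (law_ind_nn hE q (B : ℤ))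
    rwa [one_mul] at this
  have h9 : 0 ≤ ∑ B ∈ range (3 ^ q), 3 ^ (t + 1 + s) * (h (B : ℤ) * Dev E q (t + 1 + s) (B : ℤ)) :=
    sum_nonneg fun B _ => mul_nonneg (by positivity) (mul_nonneg (h0 _) (dev_nn hE _ _ _))
  have h10 := mul_le_mul_of_nonneg_right h8 h9
  rw [one_mul, ← mul_sum] at h10
  rw [← mul_sum]
  exact h10

end Pool.Agent.helper14.EX1
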