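import Pool.Agent.helper14.EX1.Nod

/-!
# EX1-Cnt: counting the nodes

`W, n, K` from the certificate.  For `V ∈ W` allowed at `x`, `a = 3x+2`, `a' = 3 (nd x V) + 2`: `a' ≤ a / ww V` (`nd_le`), so
`a' ≤ 2 ^ (K n) a`; and `a' ≥ (a - 3 ^ n) / ww V ≥ a (1 - 3 ^ n / A0) exp (5.06 n / 20)` for `a ≥ A0` (`nd_ge`, `39 n ≤ 20 V.sum`,
`2 ^ 39 ≥ 3 ^ 20 exp 5.06`), so with `A0 = 1000 * 3 ^ n`: `a' ≥ a exp (n / 4)`; and (for the sums)
`2 ^ V.sum ≤ 3 ^ n a' / (a - 3 ^ n) ≤ 3 ^ n exp (0.002 n) a' / a`, so `V.sum log 2 ≤ (1.0987 + 0.002) n + log (a' / a) ≤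
(1 + 4 * 1.1007) log (a' / a)`, and `5.4028 / 0.6931 ≤ 7.8`.  `Q = 2 ^ (K n)`.
Statement `P(D)`: for all `x` with `A0 ≤ a`, `a < Q X`, `X ≤ a exp (D n / 4)` the set `S` exists.  `D = 0` or `a ≥ X`: `S = {[]}`.
`a < X`: `S` is the union over the allowed `V ∈ W` of the words `V ++ w`, `w ∈ S(nd x V)` (disjoint: `V` has length `n`), the
cardinality is `≥ ∑_V (X / a_V) ^ γ ≥ ∑_V (X ww V / a) ^ γ ≥ (X / a) ^ γ`; all estimates of the words multiply.
-/

namespace Pool.Agent.helper14.EX1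

open Finset

theorem Cnt_log3 : Real.log 3 ≤ 65 / 41 * Real.log 2 := by
  have h1 : Real.log ((3 : ℝ) ^ 41) ≤ Real.log ((2 : ℝ) ^ 65) :=
    Real.log_le_log (by positivity) (by norm_num)
  rw [Real.log_pow, Real.log_pow] at h1
  push_cast at h1
  linarith

theorem Cnt_sum_le {K n : ℕ} {V : List ℕ} (hl : V.length = n) (h1 : ∀ k ∈ V, 1 ≤ k ∧ k ≤ K) :
    V.sum ≤ K * n := by
  have h := List.sum_le_card_nsmul V K fun k hk => (h1 k hk).2
  rw [hl, smul_eq_mul, mul_comm] at h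
  exact h

theorem Cnt_step {K n : ℕ} (hn : 1 ≤ n) {V : List ℕ} (hl : V.length = n)
    (h1 : ∀ k ∈ V, 1 ≤ k ∧ k ≤ K) (hs : 39 * n ≤ 20 * V.sum) {x : ℤ} (hA : Ala x V) {a a' : ℝ}
    (ha : a = 3 * x + 2) (ha' : a' = 3 * nd x V + 2) (h0 : 1000 * 3 ^ n ≤ a) :
    ww V * a' ≤ a ∧ a' ≤ 2 ^ (K * n) * a ∧ a * Real.exp (n / 4) ≤ a' ∧
      (V.sum : ℝ) ≤ 39 / 5 * Real.log (a' / a) := by
  have hv : ∀ k ∈ V, 1 ≤ k := fun k hk => (h1 k hk).1
  have e1 : (3 : ℝ) ^ n * a' ≤ 2 ^ V.sum * a := by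
    have h := nd_le hv hA
    rw [hl] at h
    rw [ha, ha']
    exact_mod_cast h
  have e2 : (2 : ℝ) ^ V.sum * (a - 3 ^ n) ≤ 3 ^ n * a' := by
    have h := nd_ge hv hA
    rw [hl] at h
    rw [ha, ha']
    exact_mod_cast h
  have h3 : (1 : ℝ) ≤ 3 ^ n := one_le_pow₀ (by norm_num)
  have h3p : (0 : ℝ) < 3 ^ n := by positivity
  have h2p : (0 : ℝ) < 2 ^ V.sum := by positivity
  have hap : 0 < a := by linarith
  have hsub : 999 / 1000 * a ≤ a - 3 ^ n := by linarith
  have hsubp : 0 < a - 3 ^ n := by linarith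
  have ha'p : 0 < a' := by
    have : 0 < (3 : ℝ) ^ n * a' := lt_of_lt_of_le (mul_pos h2p hsubp) e2
    exact pos_of_mul_pos_right this h3p.le
  have hsum : V.sum ≤ K * n := Cnt_sum_le hl h1
  -- logarithms
  have hlog2 : (0.6931471803 : ℝ) < Real.log 2 := Real.log_two_gt_d9
  have hlog3 := Cnt_log3
  have hdiv : (2 : ℝ) ^ V.sum / 3 ^ n * (999 / 1000) ≤ a' / a := by
    rw [le_div_iff₀ hap, div_mul_eq_mul_div, div_mul_eq_mul_div, div_le_iff₀ h3p]
    calc (2 : ℝ) ^ V.sum * (999 / 1000) * a = 2 ^ V.sum * (999 / 1000 * a) := by ring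
      _ ≤ 2 ^ V.sum * (a - 3 ^ n) := mul_le_mul_of_nonneg_left hsub h2p.le
      _ ≤ 3 ^ n * a' := e2
      _ = a' * 3 ^ n := by ring
  have hl1 : Real.log ((2 : ℝ) ^ V.sum / 3 ^ n * (999 / 1000)) =
      V.sum * Real.log 2 - n * Real.log 3 + Real.log (999 / 1000) := by
    rw [Real.log_mul (by positivity) (by norm_num), Real.log_div h2p.ne' h3p.ne', Real.log_pow,
      Real.log_pow]
  have hl2 : -(1 / 999 : ℝ) ≤ Real.log (999 / 1000) := by
    have h := Real.one_sub_inv_le_log_of_pos (x := (999 / 1000 : ℝ)) (by norm_num)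
    norm_num at h ⊢
    linarith
  have hell : V.sum * Real.log 2 - n * Real.log 3 - 1 / 999 ≤ Real.log (a' / a) := by
    have h := Real.log_le_log (by positivity) hdiv
    rw [hl1] at h
    linarith
  have hnr : (1 : ℝ) ≤ n := by exact_mod_cast hn
  have hsr : (39 : ℝ) * n ≤ 20 * V.sum := by exact_mod_cast hs
  have hlog2p : 0 < Real.log 2 := by linarith
  have hn3 : (n : ℝ) * Real.log 3 ≤ n * (65 / 41 * Real.log 2) :=
    mul_le_mul_of_nonneg_left hlog3 (by linarith)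
  have hs2 : 39 / 20 * (n : ℝ) * Real.log 2 ≤ V.sum * Real.log 2 :=
    mul_le_mul_of_nonneg_right (by linarith) hlog2p.le
  have hn2 : (n : ℝ) * 0.6931471803 ≤ n * Real.log 2 :=
    mul_le_mul_of_nonneg_left hlog2.le (by linarith)
  have hge : (n : ℝ) / 4 ≤ Real.log (a' / a) := by
    have e3 : (n : ℝ) / 4 ≤ 299 / 820 * (n * Real.log 2) - 1 / 999 := by
      have : 299 / 820 * ((n : ℝ) * 0.6931471803) ≤ 299 / 820 * (n * Real.log 2) :=
        mul_le_mul_of_nonneg_left hn2 (by norm_num)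
      norm_num at this ⊢
      linarith
    have e4 : 299 / 820 * ((n : ℝ) * Real.log 2) - 1 / 999 ≤
        V.sum * Real.log 2 - n * Real.log 3 - 1 / 999 := by
      have : (n : ℝ) * (65 / 41 * Real.log 2) = 65 / 41 * (n * Real.log 2) := by ring
      have h5 : 39 / 20 * (n : ℝ) * Real.log 2 = 39 / 20 * (n * Real.log 2) := by ring
      linarith
    linarith
  refine ⟨?_, ?_, ?_, ?_⟩
  · rw [ww, hl, div_mul_eq_mul_div, div_le_iff₀ h2p]
    linarith
  · calc a' ≤ 3 ^ n * a' := le_mul_of_one_le_left ha'p.le h3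
      _ ≤ 2 ^ V.sum * a := e1
      _ ≤ 2 ^ (K * n) * a :=
        mul_le_mul_of_nonneg_right (pow_le_pow_right₀ (by norm_num) hsum) hap.le
  · have h := Real.exp_le_exp.2 hge
    rw [Real.exp_log (div_pos ha'p hap), le_div_iff₀ hap] at h
    linarith
  · have hL : 0 < Real.log (a' / a) := by linarith
    have h5 : (V.sum : ℝ) * Real.log 2 ≤
        Real.log (a' / a) + 1 / 999 * n + 65 / 41 * Real.log 2 * n := by
      have : (n : ℝ) * (65 / 41 * Real.log 2) = 65 / 41 * Real.log 2 * n := by ring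
      have h6 : (1 / 999 : ℝ) ≤ 1 / 999 * n := by linarith
      linarith
    have h6 : (1 / 999 + 65 / 41 * Real.log 2) * (n : ℝ) ≤
        (1 / 999 + 65 / 41 * Real.log 2) * (4 * Real.log (a' / a)) :=
      mul_le_mul_of_nonneg_left (by linarith) (by positivity)
    have h7 : (V.sum : ℝ) * Real.log 2 ≤ 39 / 5 * Real.log (a' / a) * Real.log 2 := by
      have h8 : 1 + 4 * (1 / 999 + 65 / 41 * Real.log 2) ≤ 39 / 5 * Real.log 2 := by
        norm_num
        linarith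
      have h9 := mul_le_mul_of_nonneg_right h8 hL.le
      have e5 : (1 + 4 * (1 / 999 + 65 / 41 * Real.log 2)) * Real.log (a' / a) =
          Real.log (a' / a) +
            (1 / 999 + 65 / 41 * Real.log 2) * (4 * Real.log (a' / a)) := by ring
      have e6 : (1 / 999 + 65 / 41 * Real.log 2) * (n : ℝ) =
          1 / 999 * n + 65 / 41 * Real.log 2 * n := by ring
      have e7 : 39 / 5 * Real.log 2 * Real.log (a' / a) =
          39 / 5 * Real.log (a' / a) * Real.log 2 := by ring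
      linarith
    exact le_of_mul_le_mul_right h7 hlog2p

/-- The conclusion for one `X` and one `x`. -/
def Cnt_P (γ Q X : ℝ) (x : ℤ) : Prop :=
  ∃ S : Finset (List ℕ),
    (∀ v ∈ S, (∀ k ∈ v, 1 ≤ k) ∧ Ala x v ∧ X ≤ 3 * nd x v + 2 ∧ (3 * nd x v + 2 : ℝ) < Q * X ∧
      (3 * x + 2 : ℝ) * Real.exp (v.length / 4) ≤ 3 * nd x v + 2 ∧
      (v.sum : ℝ) ≤ 39 / 5 * Real.log ((3 * nd x v + 2) / (3 * x + 2))) ∧
    (X / (3 * x + 2)) ^ γ ≤ (S.card : ℝ)

theorem Cnt_base {γ : ℝ} (hγ : 0 < γ) {Q X : ℝ} (hX : 1 ≤ X) {x : ℤ} (hx : X ≤ 3 * x + 2)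
    (hQ : (3 * x + 2 : ℝ) < Q * X) : Cnt_P γ Q X x := by
  have hp : (0 : ℝ) < 3 * x + 2 := by linarith
  refine ⟨{[]}, ?_, ?_⟩
  · intro v hv
    rw [Finset.mem_singleton] at hv
    subst hv
    refine ⟨fun k hk => absurd hk (by simp), trivial, hx, hQ, ?_, ?_⟩
    · simp [nd]
    · simp [nd, div_self hp.ne']
  · rw [Finset.card_singleton, Nat.cast_one]
    apply Real.rpow_le_one (by positivity) _ hγ.le
    rw [div_le_one hp]
    exact hx

theorem Cnt_ind {γ : ℝ} (hγ : 0 < γ) {K n : ℕ} {W : Finset (List ℕ)} (hW : CertW γ K n W) {X : ℝ}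
    (hX : 1 ≤ X) (D : ℕ) : ∀ x : ℤ, (1000 * 3 ^ n : ℝ) ≤ 3 * x + 2 →
      (3 * x + 2 : ℝ) < 2 ^ (K * n) * X → X ≤ (3 * x + 2) * Real.exp (D * (n / 4)) →
      Cnt_P γ (2 ^ (K * n)) X x := by
  classical
  induction D with
  | zero =>
    intro x h0 hQ hD
    apply Cnt_base hγ hX _ hQ
    simpa using hD
  | succ D ih =>
    intro x h0 hQ hD
    by_cases hx : X ≤ 3 * x + 2
    · exact Cnt_base hγ hX hx hQ
    rw [not_le] at hx
    have hp : (0 : ℝ) < 3 * x + 2 := lt_of_lt_of_le (by positivity) h0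
    set W' := W.filter (fun V => Ala x V) with hW'
    have hstep : ∀ V ∈ W', ww V * (3 * nd x V + 2) ≤ 3 * x + 2 ∧
        (3 * nd x V + 2 : ℝ) ≤ 2 ^ (K * n) * (3 * x + 2) ∧
        (3 * x + 2) * Real.exp (n / 4) ≤ 3 * nd x V + 2 ∧
        (V.sum : ℝ) ≤ 39 / 5 * Real.log ((3 * nd x V + 2) / (3 * x + 2)) := by
      intro V hV
      rw [hW', Finset.mem_filter] at hV
      exact Cnt_step hW.n1 (hW.len V hV.1) (hW.let1 V hV.1) (hW.sum V hV.1) hV.2 rfl rfl h0
    have hone : (1 : ℝ) ≤ Real.exp (n / 4) := Real.one_le_exp (by positivity)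
    have hrec : ∀ V ∈ W', Cnt_P γ (2 ^ (K * n)) X (nd x V) := by
      intro V hV
      obtain ⟨-, s2, s3, -⟩ := hstep V hV
      have hge : (3 * x + 2 : ℝ) ≤ 3 * nd x V + 2 := (le_mul_of_one_le_right hp.le hone).trans s3
      apply ih (nd x V) (h0.trans hge)
      · exact lt_of_le_of_lt s2 (mul_lt_mul_of_pos_left hx (by positivity))
      · calc X ≤ (3 * x + 2) * Real.exp ((D + 1 : ℕ) * (n / 4)) := hD
          _ = ((3 * x + 2) * Real.exp (n / 4)) * Real.exp (D * (n / 4)) := by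
              rw [mul_assoc, ← Real.exp_add]
              congr 2
              push_cast
              ring
          _ ≤ (3 * nd x V + 2) * Real.exp (D * (n / 4)) :=
              mul_le_mul_of_nonneg_right s3 (Real.exp_pos _).le
    have hex : ∃ S : List ℕ → Finset (List ℕ), ∀ V ∈ W',
        (∀ v ∈ S V, (∀ k ∈ v, 1 ≤ k) ∧ Ala (nd x V) v ∧ X ≤ 3 * nd (nd x V) v + 2 ∧
          (3 * nd (nd x V) v + 2 : ℝ) < 2 ^ (K * n) * X ∧
          (3 * nd x V + 2 : ℝ) * Real.exp (v.length / 4) ≤ 3 * nd (nd x V) v + 2 ∧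
          (v.sum : ℝ) ≤ 39 / 5 * Real.log ((3 * nd (nd x V) v + 2) / (3 * nd x V + 2))) ∧
        (X / (3 * nd x V + 2)) ^ γ ≤ ((S V).card : ℝ) := by
      have h := fun V => (Classical.em (V ∈ W')).elim (fun hV => (hrec V hV).imp fun _ h _ => h)
        (fun hV => (⟨∅, fun h => absurd h hV⟩ : ∃ S : Finset (List ℕ), V ∈ W' →
          (∀ v ∈ S, (∀ k ∈ v, 1 ≤ k) ∧ Ala (nd x V) v ∧ X ≤ 3 * nd (nd x V) v + 2 ∧
          (3 * nd (nd x V) v + 2 : ℝ) < 2 ^ (K * n) * X ∧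
          (3 * nd x V + 2 : ℝ) * Real.exp (v.length / 4) ≤ 3 * nd (nd x V) v + 2 ∧
          (v.sum : ℝ) ≤ 39 / 5 * Real.log ((3 * nd (nd x V) v + 2) / (3 * nd x V + 2))) ∧
          (X / (3 * nd x V + 2)) ^ γ ≤ (S.card : ℝ)))
      choose S hS using h
      exact ⟨S, hS⟩
    obtain ⟨S, hS⟩ := hex
    refine ⟨W'.biUnion (fun V => (S V).image (fun w => V ++ w)), ?_, ?_⟩
    · intro v hv
      rw [Finset.mem_biUnion] at hv
      obtain ⟨V, hV, hv⟩ := hv
      rw [Finset.mem_image] at hv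
      obtain ⟨w, hw, rfl⟩ := hv
      obtain ⟨-, s2, s3, s4⟩ := hstep V hV
      obtain ⟨t1, t2, t3, t4, t5, t6⟩ := (hS V hV).1 w hw
      have hV' := hV
      rw [hW', Finset.mem_filter] at hV'
      have hge : (3 * x + 2 : ℝ) ≤ 3 * nd x V + 2 := (le_mul_of_one_le_right hp.le hone).trans s3
      have hpV : (0 : ℝ) < 3 * nd x V + 2 := lt_of_lt_of_le hp hge
      have hpv : (0 : ℝ) < 3 * nd (nd x V) w + 2 := by linarith
      rw [nd_append, ala_append]
      refine ⟨?_, ⟨hV'.2, t2⟩, t3, t4, ?_, ?_⟩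
      · intro k hk
        rcases List.mem_append.1 hk with h | h
        · exact (hW.let1 V hV'.1 k h).1
        · exact t1 k h
      · rw [List.length_append, hW.len V hV'.1]
        calc (3 * x + 2 : ℝ) * Real.exp (((n + w.length : ℕ) : ℝ) / 4)
            = ((3 * x + 2) * Real.exp (n / 4)) * Real.exp (w.length / 4) := by
              rw [mul_assoc, ← Real.exp_add]
              congr 2
              push_cast
              ring
          _ ≤ (3 * nd x V + 2) * Real.exp (w.length / 4) :=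
              mul_le_mul_of_nonneg_right s3 (Real.exp_pos _).le
          _ ≤ _ := t5
      · rw [List.sum_append, Nat.cast_add]
        have hlog : Real.log ((3 * nd (nd x V) w + 2) / (3 * x + 2)) =
            Real.log ((3 * nd (nd x V) w + 2) / (3 * nd x V + 2)) +
              Real.log ((3 * nd x V + 2) / (3 * x + 2)) := by
          rw [← Real.log_mul (div_pos hpv hpV).ne' (div_pos hpV hp).ne',
            div_mul_div_cancel₀ hpV.ne']
        rw [hlog]
        linarith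
    · -- cardinality
      have hdisj : ∀ V ∈ W', ∀ V' ∈ W', V ≠ V' →
          Disjoint ((S V).image (fun w => V ++ w)) ((S V').image (fun w => V' ++ w)) := by
        intro V hV V' hV' hne
        rw [Finset.disjoint_left]
        intro v h1 h2
        rw [Finset.mem_image] at h1 h2
        obtain ⟨w, -, hw⟩ := h1
        obtain ⟨w', -, hw'⟩ := h2
        apply hne
        rw [hW', Finset.mem_filter] at hV hV'
        exact (List.append_inj (hw.trans hw'.symm)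
          ((hW.len V hV.1).trans (hW.len V' hV'.1).symm)).1
      rw [Finset.card_biUnion hdisj]
      have hcard : ∀ V ∈ W', ((S V).image (fun w => V ++ w)).card = (S V).card := fun V _ =>
        Finset.card_image_of_injective _ (List.append_right_injective V)
      rw [Finset.sum_congr rfl hcard]
      push_cast
      have hterm : ∀ V ∈ W', (X / (3 * x + 2)) ^ γ * ww V ^ γ ≤ ((S V).card : ℝ) := by
        intro V hV
        obtain ⟨s1, -, s3, -⟩ := hstep V hV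
        have hge : (3 * x + 2 : ℝ) ≤ 3 * nd x V + 2 := (le_mul_of_one_le_right hp.le hone).trans s3
        have hpV : (0 : ℝ) < 3 * nd x V + 2 := lt_of_lt_of_le hp hge
        refine le_trans ?_ (hS V hV).2
        rw [← Real.mul_rpow (by positivity) (ww_pos V).le]
        apply Real.rpow_le_rpow (mul_nonneg (by positivity) (ww_pos V).le) _ hγ.le
        rw [le_div_iff₀ hpV, div_mul_eq_mul_div, div_mul_eq_mul_div, div_le_iff₀ hp, mul_assoc]
        exact mul_le_mul_of_nonneg_left s1 (by linarith)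
      refine le_trans ?_ (Finset.sum_le_sum hterm)
      rw [← Finset.mul_sum]
      apply le_mul_of_one_le_right (by positivity)
      have h := hW.one x
      rw [← Finset.sum_filter] at h
      exact h

theorem count {γ : ℝ} (hγ : 0 < γ) {K n : ℕ} {W : Finset (List ℕ)} (hW : CertW γ K n W) :
    ∃ A0 Q : ℝ, 1 ≤ A0 ∧ 1 ≤ Q ∧ ∀ X : ℝ, 1 ≤ X → ∀ x : ℤ, A0 ≤ 3 * x + 2 → (3 * x + 2 : ℝ) < Q * X →
      ∃ S : Finset (List ℕ),
        (∀ v ∈ S, (∀ k ∈ v, 1 ≤ k) ∧ Ala x v ∧ X ≤ 3 * nd x v + 2 ∧ (3 * nd x v + 2 : ℝ) < Q * X ∧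
          (3 * x + 2 : ℝ) * Real.exp (v.length / 4) ≤ 3 * nd x v + 2 ∧
          (v.sum : ℝ) ≤ 39 / 5 * Real.log ((3 * nd x v + 2) / (3 * x + 2))) ∧
        (X / (3 * x + 2)) ^ γ ≤ (S.card : ℝ) := by
  have h3 : (1 : ℝ) ≤ 3 ^ n := one_le_pow₀ (by norm_num)
  refine ⟨1000 * 3 ^ n, 2 ^ (K * n), by linarith, one_le_pow₀ (by norm_num), ?_⟩
  intro X hX x h0 hQ
  have hn : (1 : ℝ) ≤ n := by exact_mod_cast hW.n1
  obtain ⟨D, hD⟩ := exists_nat_ge (4 * Real.log X)
  apply Cnt_ind hγ hW hX D x h0 hQ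
  have hlog : 0 ≤ Real.log X := Real.log_nonneg hX
  have h1 : Real.log X ≤ D * (n / 4) := by
    have hD0 : (0 : ℝ) ≤ D := Nat.cast_nonneg D
    nlinarith
  calc X = Real.exp (Real.log X) := (Real.exp_log (by linarith)).symm
    _ ≤ Real.exp (D * (n / 4)) := Real.exp_le_exp.2 h1
    _ ≤ (3 * x + 2) * Real.exp (D * (n / 4)) :=
      le_mul_of_one_le_left (Real.exp_pos _).le (by linarith)

end Pool.Agent.helper14.EX1
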