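import Pool.Agent.helper14.EX1.Nod
import Pool.Agent.helper14.EX1.Defs2

/-!
# EX1-Cnt2: counting, two-sided (as Cnt)

For `V ∈ W` allowed at `x`, `a = 3x+2 ≥ A0`, `a' = 3 (nd x V) + 2`: `log (a'/a) ≤ V.sum log 2 - n log 3` (`nd_le`) and
`≥ V.sum log 2 - n log 3 + log (1 - 3 ^ n / a)` (`nd_ge`), and `log (1 - 3 ^ n / a) ≥ -0.1 e n` for large `A0`.  With
`|V.sum - 2 n| ≤ e n`, `log 2 ≤ 0.7`: `|log (a'/a) - n log (4/3)| ≤ 0.8 e n ≤ e n`; in particular (`e ≤ 1/20`) `a' ≥ a exp (n/5)`.
The sums add, `Rw` of a concatenation of `t` words differs from the sum by at most `t ≤ e n t` (`n1 : 1 ≤ e n`,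
`Rw_append` of Cat2 may be copied here as `Cnt2_Rw`).
-/

namespace Pool.Agent.helper14.EX1

open Finset

private theorem Cnt2_rr (k k' : ℕ) : rr k k' ≤ 1 := by
  unfold rr
  split_ifs <;> omega

private theorem Cnt2_Rw (u v : List ℕ) :
    Rw u + Rw v ≤ Rw (u ++ v) ∧ Rw (u ++ v) ≤ Rw u + Rw v + 1 := by
  induction u with
  | nil => simp [Rw]
  | cons a u ih =>
    cases u with
    | nil =>
      cases v with
      | nil => simp [Rw]
      | cons b v =>
        have := Cnt2_rr a b
        simp only [List.cons_append, List.nil_append, Rw]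
        omega
    | cons b u =>
      simp only [List.cons_append, Rw] at ih ⊢
      omega

private theorem Cnt2_sum_le {K : ℕ} : ∀ V : List ℕ, (∀ k ∈ V, k ≤ K) → V.sum ≤ K * V.length
  | [], _ => by simp
  | a :: V, h => by
    have h1 := Cnt2_sum_le V (fun k hk => h k (List.mem_cons_of_mem _ hk))
    have h2 := h a List.mem_cons_self
    simp only [List.sum_cons, List.length_cons]
    nlinarith

/-- one step with a typical word -/
private theorem Cnt2_step {e : ℝ} (he : 0 < e) (he1 : e ≤ 1 / 20) {n : ℕ} (n1 : 1 ≤ e * n) {x : ℤ}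
    {V : List ℕ} (hlen : V.length = n) (hV : ∀ k ∈ V, 1 ≤ k) (hal : Ala x V)
    (hs : |(V.sum : ℝ) - 2 * n| ≤ e * n) (hA : (1000 * 3 ^ n : ℝ) ≤ 3 * x + 2) :
    |Real.log ((3 * nd x V + 2) / (3 * x + 2)) - n * Real.log (4 / 3)| ≤ e * n ∧
      2 * (3 * x + 2 : ℝ) ≤ 3 * nd x V + 2 ∧ (3 * nd x V + 2 : ℝ) * ww V ≤ 3 * x + 2 := by
  set a : ℝ := 3 * x + 2 with ha
  set a' : ℝ := 3 * nd x V + 2 with ha'
  have h3n : (1 : ℝ) ≤ 3 ^ n := one_le_pow₀ (by norm_num)
  have ha0 : 0 < a := by linarith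
  have hle : (3 : ℝ) ^ n * a' ≤ 2 ^ V.sum * a := by
    have := nd_le hV hal
    rw [hlen] at this
    rw [ha, ha']
    exact_mod_cast this
  have hge : (2 : ℝ) ^ V.sum * (a - 3 ^ n) ≤ 3 ^ n * a' := by
    have := nd_ge hV hal
    rw [hlen] at this
    rw [ha, ha']
    exact_mod_cast this
  have h2s : (0 : ℝ) < 2 ^ V.sum := by positivity
  have h3p : (0 : ℝ) < 3 ^ n := by positivity
  have ha30 : 0 < a - 3 ^ n := by linarith
  have ha'0 : 0 < a' := by
    have h1 : 0 < (3 : ℝ) ^ n * a' := lt_of_lt_of_le (mul_pos h2s ha30) hge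
    exact (pos_iff_pos_of_mul_pos h1).1 h3p
  have hww : a' * ww V ≤ a := by
    rw [ww, hlen, ← mul_div_assoc, div_le_iff₀ h2s]
    linarith
  -- logarithms
  have l1 : Real.log (a' / a) ≤ V.sum * Real.log 2 - n * Real.log 3 := by
    have h1 := Real.log_le_log (mul_pos h3p ha'0) hle
    rw [Real.log_mul h3p.ne' ha'0.ne', Real.log_mul h2s.ne' ha0.ne', Real.log_pow, Real.log_pow] at h1
    rw [Real.log_div ha'0.ne' ha0.ne']
    linarith
  have l2 : V.sum * Real.log 2 - n * Real.log 3 - 1 / 999 ≤ Real.log (a' / a) := by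
    have h1 := Real.log_le_log (mul_pos h2s ha30) hge
    rw [Real.log_mul h3p.ne' ha'0.ne', Real.log_mul h2s.ne' ha30.ne', Real.log_pow, Real.log_pow] at h1
    have h2 : Real.log a - 1 / 999 ≤ Real.log (a - 3 ^ n) := by
      have h3 : Real.log (a / (a - 3 ^ n)) ≤ a / (a - 3 ^ n) - 1 :=
        Real.log_le_sub_one_of_pos (div_pos ha0 ha30)
      rw [Real.log_div ha0.ne' ha30.ne'] at h3
      have h4 : a / (a - 3 ^ n) - 1 ≤ 1 / 999 := by
        rw [sub_le_iff_le_add, div_le_iff₀ ha30]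
        linarith
      linarith
    rw [Real.log_div ha'0.ne' ha0.ne']
    linarith
  have e1 : V.sum * Real.log 2 - n * Real.log 3 =
      ((V.sum : ℝ) - 2 * n) * Real.log 2 + n * Real.log (4 / 3) := by
    rw [Real.log_div (by norm_num) (by norm_num), show (4 : ℝ) = 2 ^ 2 by norm_num, Real.log_pow]
    push_cast
    ring
  have hl2 : 0 < Real.log 2 := Real.log_pos (by norm_num)
  have hl2' : Real.log 2 ≤ 0.7 := by linarith [Real.log_two_lt_d9]
  have hs1 := abs_le.1 hs
  have hen : 0 < e * n := by linarith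
  have b1 : ((V.sum : ℝ) - 2 * n) * Real.log 2 ≤ 0.7 * (e * n) := by
    calc ((V.sum : ℝ) - 2 * n) * Real.log 2 ≤ (e * n) * Real.log 2 :=
          mul_le_mul_of_nonneg_right hs1.2 hl2.le
      _ ≤ (e * n) * 0.7 := mul_le_mul_of_nonneg_left hl2' hen.le
      _ = _ := by ring
  have b2 : -(0.7 * (e * n)) ≤ ((V.sum : ℝ) - 2 * n) * Real.log 2 := by
    calc -(0.7 * (e * n)) = -((e * n) * 0.7) := by ring
      _ ≤ -((e * n) * Real.log 2) := neg_le_neg (mul_le_mul_of_nonneg_left hl2' hen.le)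
      _ = (-(e * n)) * Real.log 2 := by ring
      _ ≤ _ := mul_le_mul_of_nonneg_right hs1.1 hl2.le
  have habs : |Real.log (a' / a) - n * Real.log (4 / 3)| ≤ e * n := by
    rw [abs_le]
    constructor <;> linarith
  refine ⟨habs, ?_, hww⟩
  have h43 : (1 : ℝ) / 4 ≤ Real.log (4 / 3) := by
    have := Real.one_sub_inv_le_log_of_pos (show (0 : ℝ) < 4 / 3 by norm_num)
    norm_num at this ⊢
    linarith
  have hn20 : (20 : ℝ) ≤ n := by
    have h1 : e * n ≤ 1 / 20 * n := mul_le_mul_of_nonneg_right he1 (Nat.cast_nonneg n)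
    linarith
  have h5 : Real.log 2 ≤ Real.log (a' / a) := by
    have h6 := (abs_le.1 habs).1
    have h7 : (n : ℝ) * (1 / 4) ≤ n * Real.log (4 / 3) :=
      mul_le_mul_of_nonneg_left h43 (Nat.cast_nonneg n)
    have h8 : e * n ≤ 1 / 20 * n := mul_le_mul_of_nonneg_right he1 (Nat.cast_nonneg n)
    linarith
  have h9 : (2 : ℝ) ≤ a' / a := (Real.log_le_log_iff (by norm_num) (div_pos ha'0 ha0)).1 h5
  rwa [le_div_iff₀ ha0] at h9

theorem count2 {γ e : ℝ} (hγ : 0 < γ) (he : 0 < e) (he1 : e ≤ 1 / 20) {K n : ℕ}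
    {W : Finset (List ℕ)} (hW : CertW2 γ e K n W) :
    ∃ A0 Q : ℝ, 1 ≤ A0 ∧ 1 ≤ Q ∧ ∀ X : ℝ, 1 ≤ X → ∀ x : ℤ, A0 ≤ 3 * x + 2 → (3 * x + 2 : ℝ) < Q * X →
      ∃ S : Finset (List ℕ),
        (∀ v ∈ S, (∀ k ∈ v, 1 ≤ k) ∧ Ala x v ∧ X ≤ 3 * nd x v + 2 ∧ (3 * nd x v + 2 : ℝ) < Q * X ∧
          |(v.sum : ℝ) - 2 * v.length| ≤ e * v.length ∧
          |(Rw v : ℝ) - v.length / 2| ≤ 2 * e * v.length ∧
          |Real.log ((3 * nd x v + 2) / (3 * x + 2)) - v.length * Real.log (4 / 3)| ≤
            e * v.length) ∧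
        (X / (3 * x + 2)) ^ γ ≤ (S.card : ℝ) := by
  classical
  have h3n : (1 : ℝ) ≤ 3 ^ n := one_le_pow₀ (by norm_num)
  refine ⟨1000 * 3 ^ n, 2 ^ (K * n), by linarith, one_le_pow₀ (by norm_num), fun X hX => ?_⟩
  have hQ : (1 : ℝ) ≤ 2 ^ (K * n) := one_le_pow₀ (by norm_num)
  -- induction on the number of doublings
  have key : ∀ D : ℕ, ∀ x : ℤ, (1000 * 3 ^ n : ℝ) ≤ 3 * x + 2 → (3 * x + 2 : ℝ) < 2 ^ (K * n) * X →
      X ≤ 2 ^ D * (3 * x + 2) → ∃ S : Finset (List ℕ),
        (∀ v ∈ S, (∀ k ∈ v, 1 ≤ k) ∧ Ala x v ∧ X ≤ 3 * nd x v + 2 ∧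
          (3 * nd x v + 2 : ℝ) < 2 ^ (K * n) * X ∧
          |(v.sum : ℝ) - 2 * v.length| ≤ e * v.length ∧
          |(Rw v : ℝ) - v.length / 2| ≤ 2 * e * v.length ∧
          |Real.log ((3 * nd x v + 2) / (3 * x + 2)) - v.length * Real.log (4 / 3)| ≤
            e * v.length) ∧
        (X / (3 * x + 2)) ^ γ ≤ (S.card : ℝ) := by
    intro D
    induction D with
    | zero =>
      intro x hA hQX hD
      have ha0 : (0 : ℝ) < 3 * x + 2 := by linarith
      rw [pow_zero, one_mul] at hD
      refine ⟨{[]}, fun v hv => ?_, ?_⟩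
      · rw [mem_singleton] at hv
        subst hv
        refine ⟨by simp, trivial, hD, hQX, by simp, by simp [Rw], ?_⟩
        have : (3 * (nd x [] : ℝ) + 2) / (3 * x + 2) = 1 := div_self ha0.ne'
        rw [this]
        simp
      · rw [card_singleton, Nat.cast_one]
        exact Real.rpow_le_one (div_nonneg (by linarith) ha0.le) ((div_le_one ha0).2 hD) hγ.le
    | succ D ih =>
      intro x hA hQX hD
      have ha0 : (0 : ℝ) < 3 * x + 2 := by linarith
      by_cases hXa : X ≤ 3 * x + 2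
      · refine ⟨{[]}, fun v hv => ?_, ?_⟩
        · rw [mem_singleton] at hv
          subst hv
          refine ⟨by simp, trivial, hXa, hQX, by simp, by simp [Rw], ?_⟩
          have : (3 * (nd x [] : ℝ) + 2) / (3 * x + 2) = 1 := div_self ha0.ne'
          rw [this]
          simp
        · rw [card_singleton, Nat.cast_one]
          exact Real.rpow_le_one (div_nonneg (by linarith) ha0.le) ((div_le_one ha0).2 hXa) hγ.le
      rw [not_le] at hXa
      set WA := W.filter (fun V => Ala x V) with hWA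
      have hstep : ∀ V ∈ WA, _ := fun V hV => by
        obtain ⟨hVW, hVa⟩ := mem_filter.1 hV
        have hty := (hW.typ V hVW).1
        rw [hW.len V hVW] at hty
        exact Cnt2_step he he1 hW.n1 (hW.len V hVW) (fun k hk => (hW.let1 V hVW k hk).1) hVa hty hA
      have hex : ∀ V ∈ WA, ∃ S : Finset (List ℕ),
          (∀ v ∈ S, (∀ k ∈ v, 1 ≤ k) ∧ Ala (nd x V) v ∧ X ≤ 3 * nd (nd x V) v + 2 ∧
            (3 * nd (nd x V) v + 2 : ℝ) < 2 ^ (K * n) * X ∧
            |(v.sum : ℝ) - 2 * v.length| ≤ e * v.length ∧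
            |(Rw v : ℝ) - v.length / 2| ≤ 2 * e * v.length ∧
            |Real.log ((3 * nd (nd x V) v + 2) / (3 * nd x V + 2)) - v.length * Real.log (4 / 3)| ≤
              e * v.length) ∧
          (X / (3 * nd x V + 2)) ^ γ ≤ (S.card : ℝ) := by
        intro V hV
        obtain ⟨hVW, hVa⟩ := mem_filter.1 hV
        obtain ⟨-, h2, h3⟩ := hstep V hV
        refine ih (nd x V) (by linarith) ?_ ?_
        · -- the upper bound of the size
          have hsum : V.sum ≤ K * n := by
            have := Cnt2_sum_le V (fun k hk => (hW.let1 V hVW k hk).2)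
            rwa [hW.len V hVW] at this
          have h4 : (3 * nd x V + 2 : ℝ) ≤ 2 ^ (K * n) * (3 * x + 2) := by
            have hwp : (1 : ℝ) / 2 ^ (K * n) ≤ ww V := by
              rw [ww, div_le_div_iff₀ (by positivity) (by positivity), one_mul]
              calc (2 : ℝ) ^ V.sum ≤ 2 ^ (K * n) := pow_le_pow_right₀ (by norm_num) hsum
                _ = 1 * 2 ^ (K * n) := (one_mul _).symm
                _ ≤ 3 ^ V.length * 2 ^ (K * n) :=
                  mul_le_mul_of_nonneg_right (one_le_pow₀ (by norm_num)) (by positivity)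
            have h5 : (3 * nd x V + 2 : ℝ) * (1 / 2 ^ (K * n)) ≤ 3 * x + 2 :=
              (mul_le_mul_of_nonneg_left hwp (by linarith)).trans h3
            rw [mul_one_div, div_le_iff₀ (by positivity)] at h5
            linarith
          exact h4.trans_lt (mul_lt_mul_of_pos_left hXa (by positivity))
        · rw [pow_succ] at hD
          have : (2 : ℝ) ^ D * (2 * (3 * x + 2)) ≤ 2 ^ D * (3 * nd x V + 2) :=
            mul_le_mul_of_nonneg_left h2 (by positivity)
          linarith
      choose! S hS1 hS2 using hex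
      let G : (V : List ℕ) → Finset (List ℕ) := fun V => (S V).image (fun w => V ++ w)
      have hcardG : ∀ V, (G V).card = (S V).card := fun V =>
        card_image_of_injective _ (List.append_right_injective V)
      have hdisj : (WA : Set (List ℕ)).PairwiseDisjoint G := by
        intro V hV V' hV' hne
        rw [Function.onFun, Finset.disjoint_left]
        rintro z hz hz'
        obtain ⟨w, -, rfl⟩ := mem_image.1 hz
        obtain ⟨w', -, hw'⟩ := mem_image.1 hz'
        apply hne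
        have hl1 := hW.len V (mem_filter.1 hV).1
        have hl2 := hW.len V' (mem_filter.1 hV').1
        exact ((List.append_inj hw' (by rw [hl1, hl2])).1).symm
      refine ⟨WA.biUnion G, fun z hz => ?_, ?_⟩
      · obtain ⟨V, hV, hz⟩ := mem_biUnion.1 hz
        obtain ⟨w, hw, rfl⟩ := mem_image.1 hz
        obtain ⟨hVW, hVa⟩ := mem_filter.1 hV
        obtain ⟨h1, h2, h3⟩ := hstep V hV
        obtain ⟨g1, g2, g3, g4, g5, g6, g7⟩ := hS1 V hV w hw
        have hlen := hW.len V hVW
        obtain ⟨t1, t2⟩ := hW.typ V hVW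
        have hRw := Cnt2_Rw V w
        rw [nd_append, ala_append]
        have ha1 : (0 : ℝ) < 3 * nd x V + 2 := by linarith
        have ha2 : (0 : ℝ) < 3 * nd (nd x V) w + 2 := by linarith
        refine ⟨?_, ⟨hVa, g2⟩, g3, g4, ?_, ?_, ?_⟩
        · intro k hk
          rcases List.mem_append.1 hk with hk | hk
          · exact (hW.let1 V hVW k hk).1
          · exact g1 k hk
        · rw [List.sum_append, List.length_append, Nat.cast_add, Nat.cast_add]
          have := abs_add_le ((V.sum : ℝ) - 2 * V.length) ((w.sum : ℝ) - 2 * w.length)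
          have e1 : ((V.sum : ℝ) + w.sum) - 2 * (V.length + w.length) =
            ((V.sum : ℝ) - 2 * V.length) + ((w.sum : ℝ) - 2 * w.length) := by ring
          rw [e1]
          linarith
        · rw [List.length_append]
          push_cast
          have r1 : (Rw V : ℝ) + Rw w ≤ Rw (V ++ w) := by exact_mod_cast hRw.1
          have r2 : (Rw (V ++ w) : ℝ) ≤ Rw V + Rw w + 1 := by exact_mod_cast hRw.2
          have n1 := hW.n1
          rw [hlen] at t2 ⊢
          have t3 := abs_le.1 t2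
          have t4 := abs_le.1 g6
          rw [abs_le]
          constructor <;> linarith
        · rw [List.length_append]
          push_cast
          have e1 : (3 * (nd (nd x V) w : ℝ) + 2) / (3 * x + 2) =
              ((3 * nd (nd x V) w + 2) / (3 * nd x V + 2)) * ((3 * nd x V + 2) / (3 * x + 2)) := by
            field_simp
          rw [e1, Real.log_mul (div_pos ha2 ha1).ne' (div_pos ha1 ha0).ne', hlen]
          have t3 := abs_le.1 h1
          have t4 := abs_le.1 g7
          rw [abs_le]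
          constructor <;> linarith
      · rw [card_biUnion (fun V hV V' hV' hne => hdisj hV hV' hne)]
        push_cast
        have hone := hW.one x
        rw [← sum_filter] at hone
        have hXa0 : 0 ≤ X / (3 * x + 2 : ℝ) := div_nonneg (by linarith) ha0.le
        calc (X / (3 * x + 2 : ℝ)) ^ γ = (X / (3 * x + 2 : ℝ)) ^ γ * 1 := (mul_one _).symm
          _ ≤ (X / (3 * x + 2 : ℝ)) ^ γ * ∑ V ∈ WA, ww V ^ γ :=
            mul_le_mul_of_nonneg_left hone (Real.rpow_nonneg hXa0 γ)
          _ = ∑ V ∈ WA, (X / (3 * x + 2 : ℝ) * ww V) ^ γ := by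
            rw [mul_sum]
            exact sum_congr rfl fun V _ => (Real.mul_rpow hXa0 (ww_pos V).le).symm
          _ ≤ ∑ V ∈ WA, ((G V).card : ℝ) := by
            apply sum_le_sum
            intro V hV
            rw [hcardG]
            refine le_trans ?_ (hS2 V hV)
            obtain ⟨h1, h2, h3⟩ := hstep V hV
            have ha1 : (0 : ℝ) < 3 * nd x V + 2 := by linarith
            apply Real.rpow_le_rpow (mul_nonneg hXa0 (ww_pos V).le) _ hγ.le
            rw [div_mul_eq_mul_div, div_le_div_iff₀ ha0 ha1]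
            have h5 : X * (3 * nd x V + 2 : ℝ) * ww V ≤ X * (3 * x + 2) := by
              have := mul_le_mul_of_nonneg_left h3 (show (0 : ℝ) ≤ X by linarith)
              linarith
            linarith
  intro x hA hQX
  have ha1 : (1 : ℝ) ≤ 3 * x + 2 := by linarith
  obtain ⟨D, hD⟩ := pow_unbounded_of_one_lt X (show (1 : ℝ) < 2 by norm_num)
  refine key D x hA hQX ?_
  calc X ≤ 2 ^ D := hD.le
    _ = 2 ^ D * 1 := (mul_one _).symm
    _ ≤ 2 ^ D * (3 * x + 2) := mul_le_mul_of_nonneg_left ha1 (by positivity)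

end Pool.Agent.helper14.EX1
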