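import Pool.Agent.helper14.EX1.Crt3Data

/-!
# EX1-Crt3Chk: the kernel check of the certificate
-/

namespace Pool.Agent.helper14.EX1

/-- The table of the potential after a letter with parity `par`. -/
def Crt3_H (par : ℕ) : ℕ := bif Nat.beq (par % 2) 0 then Crt3_H0 else Crt3_H1

/-- The table of the letters after a letter with parity `par`. -/
def Crt3_P (par : ℕ) : ℕ := bif Nat.beq (par % 2) 0 then Crt3_P0 else Crt3_P1

/-- The potential (natural number) at the residue `x < 3 ^ 9`. -/
def Crt3_h (par x : ℕ) : ℕ := (Crt3_H par >>> (15 * x)) % 32768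

/-- The letter at the residue `x < 3 ^ 9`. -/
def Crt3_p (par x : ℕ) : ℕ := (Crt3_P par >>> (3 * x)) % 8

/-- `tk k + 3 ^ 10`. -/
def Crt3_t (k : ℕ) : ℕ := (2 ^ (k + 1) + 177139 + k % 2) / 3

/-- The residue of the next position. -/
def Crt3_n (k x : ℕ) : ℕ := ((2 ^ k * x + Crt3_t k) / 3) % 19683

/-- The reward `Sc * rr + B`. -/
def Crt3_r (par k : ℕ) : ℕ := bif Nat.ble k 2 && Nat.beq (par % 2) 1 then 3295 else 4295

/-- The check for the letter `k`. -/
def Crt3_c (par k x : ℕ) : Bool :=
  Nat.ble 1 k && Nat.ble k 7 && Nat.beq ((2 ^ k * x + Crt3_t k) % 3) 0 &&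
    Nat.ble (3 * (Crt3_h par x + 4) + 3 * (2080 * k))
      (3 * Crt3_r par k + ((Crt3_h k (Crt3_n k x) + Crt3_h k (Crt3_n k (x + 19683))) +
        Crt3_h k (Crt3_n k (x + 39366))))

/-- The check for one state. -/
def Crt3_chk (par x : ℕ) : Bool := Crt3_c par (Crt3_p par x) x

theorem Crt3_a0 : ((List.range 9).all fun i => (List.range 729).all fun j =>
    Crt3_chk 0 (729 * i + j)) = true := by
  decide +kernel

theorem Crt3_a1 : ((List.range 9).all fun i => (List.range 729).all fun j =>
    Crt3_chk 0 (729 * (i + 9) + j)) = true := by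
  decide +kernel

theorem Crt3_a2 : ((List.range 9).all fun i => (List.range 729).all fun j =>
    Crt3_chk 0 (729 * (i + 18) + j)) = true := by
  decide +kernel

theorem Crt3_b0 : ((List.range 9).all fun i => (List.range 729).all fun j =>
    Crt3_chk 1 (729 * i + j)) = true := by
  decide +kernel

theorem Crt3_b1 : ((List.range 9).all fun i => (List.range 729).all fun j =>
    Crt3_chk 1 (729 * (i + 9) + j)) = true := by
  decide +kernel

theorem Crt3_b2 : ((List.range 9).all fun i => (List.range 729).all fun j =>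
    Crt3_chk 1 (729 * (i + 18) + j)) = true := by
  decide +kernel

theorem Crt3_all {par x : ℕ} (hp : par < 2) (hx : x < 19683) : Crt3_chk par x = true := by
  have key : ∀ (q t : ℕ), (((List.range 9).all fun i => (List.range 729).all fun j =>
      Crt3_chk q (729 * (i + t) + j)) = true) → ∀ y, 729 * t ≤ y → y < 729 * (t + 9) →
      Crt3_chk q y = true := by
    intro q t h y h1 h2
    rw [List.all_eq_true] at h
    have h3 := h (y / 729 - t) (List.mem_range.2 (by omega))
    rw [List.all_eq_true] at h3
    have h4 := h3 (y % 729) (List.mem_range.2 (by omega))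
    have h5 : 729 * (y / 729 - t + t) + y % 729 = y := by omega
    rwa [h5] at h4
  have ha0 := key 0 0 (by simpa using Crt3_a0)
  have hb0 := key 1 0 (by simpa using Crt3_b0)
  have ha1 := key 0 9 Crt3_a1
  have ha2 := key 0 18 Crt3_a2
  have hb1 := key 1 9 Crt3_b1
  have hb2 := key 1 18 Crt3_b2
  obtain rfl | rfl : par = 0 ∨ par = 1 := by omega
  · rcases Nat.lt_or_ge x (729 * 9) with h | h
    · exact ha0 x (by omega) (by omega)
    · rcases Nat.lt_or_ge x (729 * 18) with h' | h'
      · exact ha1 x h (by omega)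
      · exact ha2 x h' (by omega)
  · rcases Nat.lt_or_ge x (729 * 9) with h | h
    · exact hb0 x (by omega) (by omega)
    · rcases Nat.lt_or_ge x (729 * 18) with h' | h'
      · exact hb1 x h (by omega)
      · exact hb2 x h' (by omega)

end Pool.Agent.helper14.EX1
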