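import Pool.Agent.helper14.EX1.Bas

/-!
# EX1-Cyc: affine maps with slope `1 mod 3` and unit constant are full cycles on `ℤ / 3 ^ R`

`s_k = ∑_{i<k} α ^ i`.  (1) `s_k ≡ k mod 3`, and `s_{3k} = s_k (1 + α^k + α^{2k})` with
`1 + β + β^2 = 3 * unit` for `β ≡ 1 mod 3` (it is `≡ 3 mod 9`), so `3 ^ R ∣ s_k → 3 ^ R ∣ k` (induction on
`R`).  (2) The orbit of `0` under `W ↦ α W + β` is `W_k = β s_k`; `W_i ≡ W_j` (`i < j`) gives
`α^i β s_{j-i} ≡ 0`, so `3 ^ R ∣ j - i`.  Hence `k ↦ W_k` (`k < 3 ^ R`) enumerates all residues.  (3) With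
`a_k = f (W_k)`, `D = ∑ (a_{k+1} - a_k) ^ 2 = ∑_W (f W - f (α W + β)) ^ 2`: by Cauchy-Schwarz
`(a_i - a_j) ^ 2 ≤ 3 ^ R * D`, and `∑_i (a_i - mean) ^ 2 = (1 / (2 n)) ∑_{i,j} (a_i - a_j) ^ 2 ≤ n ^ 2 D / 2`
with `n = 3 ^ R`.
-/

namespace Pool.Agent.helper14.EX1

open Finset

/-- path inequality -/
theorem Cyc_sq_sub_le_path (a : ℕ → ℝ) (i j : ℕ) (hij : i ≤ j) :
    (a i - a j) ^ 2 ≤ (j - i : ℕ) * ∑ l ∈ Ico i j, (a l - a (l + 1)) ^ 2 := by
  have h : a i - a j = ∑ l ∈ Ico i j, (a l - a (l + 1)) := by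
    rw [Finset.sum_Ico_eq_sum_range]
    obtain ⟨d, rfl⟩ := Nat.exists_eq_add_of_le hij
    rw [Nat.add_sub_cancel_left]
    induction d with
    | zero => simp
    | succ d ih =>
      rw [Finset.sum_range_succ, ← ih (by omega)]
      have : i + (d + 1) = i + d + 1 := by ring
      rw [this]
      ring
  rw [h]
  refine (sq_sum_le_card_mul_sum_sq).trans ?_
  simp

/-- Poincare inequality on an interval -/
theorem Cyc_sum_sq_sub_mean_le (N : ℕ) (a : ℕ → ℝ) :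
    ∑ i ∈ range N, (a i - (∑ j ∈ range N, a j) / N) ^ 2 ≤
      (N : ℝ) ^ 2 * ∑ i ∈ range N, (a i - a (i + 1)) ^ 2 := by
  rcases Nat.eq_zero_or_pos N with rfl | hN
  · simp
  have hN' : (0 : ℝ) < N := by exact_mod_cast hN
  set E := ∑ i ∈ range N, (a i - a (i + 1)) ^ 2 with hE
  have hE0 : 0 ≤ E := Finset.sum_nonneg fun _ _ => sq_nonneg _
  have h1 : ∀ i ∈ range N, ∀ j ∈ range N, (a i - a j) ^ 2 ≤ N * E := by
    have key : ∀ i j, i ≤ j → j < N → (a i - a j) ^ 2 ≤ N * E := by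
      intro i j hij hj
      refine (Cyc_sq_sub_le_path a i j hij).trans ?_
      have hs : ∑ l ∈ Ico i j, (a l - a (l + 1)) ^ 2 ≤ E := by
        refine Finset.sum_le_sum_of_subset_of_nonneg ?_ fun _ _ _ => sq_nonneg _
        intro l hl
        rw [mem_Ico] at hl
        rw [mem_range]
        omega
      have hd : ((j - i : ℕ) : ℝ) ≤ N := by
        have : j - i ≤ N := by omega
        exact_mod_cast this
      exact mul_le_mul hd hs (Finset.sum_nonneg fun _ _ => sq_nonneg _) hN'.le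
    intro i hi j hj
    rw [mem_range] at hi hj
    rcases le_total i j with h | h
    · exact key i j h hj
    · have := key j i h hi
      have e : (a i - a j) ^ 2 = (a j - a i) ^ 2 := by ring
      rw [e]
      exact this
  have h2 : ∀ i ∈ range N, (a i - (∑ j ∈ range N, a j) / N) ^ 2 ≤ N * E := by
    intro i hi
    have e : a i - (∑ j ∈ range N, a j) / N = (∑ j ∈ range N, (a i - a j)) / N := by
      rw [Finset.sum_sub_distrib]
      simp only [sum_const, card_range, nsmul_eq_mul]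
      field_simp
    rw [e, div_pow, div_le_iff₀ (by positivity)]
    refine (sq_sum_le_card_mul_sum_sq).trans ?_
    rw [card_range]
    have : ∑ j ∈ range N, (a i - a j) ^ 2 ≤ ∑ _j ∈ range N, N * E :=
      Finset.sum_le_sum fun j hj => h1 i hi j hj
    rw [sum_const, card_range, nsmul_eq_mul] at this
    calc (N : ℝ) * ∑ j ∈ range N, (a i - a j) ^ 2 ≤ N * (N * (N * E)) :=
          mul_le_mul_of_nonneg_left this hN'.le
      _ = N * E * N ^ 2 := by ring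
  calc ∑ i ∈ range N, (a i - (∑ j ∈ range N, a j) / N) ^ 2 ≤ ∑ _i ∈ range N, N * E :=
        Finset.sum_le_sum h2
    _ = (N : ℝ) ^ 2 * E := by
        rw [sum_const, card_range, nsmul_eq_mul]
        ring

/-- the geometric sum of a number congruent to 1 mod 3 -/
theorem Cyc_dvd_of_pow_dvd_geom (α : ℤ) (hα : (3 : ℤ) ∣ α - 1) (R d : ℕ)
    (h : (3 : ℤ) ^ R ∣ ∑ i ∈ range d, α ^ i) : 3 ^ R ∣ d := by
  rcases eq_or_ne α 1 with rfl | h1
  · simp only [one_pow, sum_const, card_range, nsmul_eq_mul, mul_one] at h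
    exact_mod_cast h
  · have h3 : ¬ (3 : ℤ) ∣ α := fun hd => by
      have : (3 : ℤ) ∣ 1 := by
        have := dvd_sub hd hα
        simp at this
      omega
    rcases Nat.eq_zero_or_pos d with rfl | hd
    · simp
    have hl := Int.emultiplicity_pow_sub_pow Nat.prime_three (by decide : Odd 3) (x := α) (y := 1)
      (by exact_mod_cast hα) (by exact_mod_cast h3) d
    rw [one_pow] at hl
    have hg : (∑ i ∈ range d, α ^ i) * (α - 1) = α ^ d - 1 := geom_sum_mul α d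
    rw [← hg, emultiplicity_mul (by norm_num), add_comm] at hl
    have hfin : FiniteMultiplicity ((3 : ℕ) : ℤ) (α - 1) := by
      rw [Int.finiteMultiplicity_iff]
      exact ⟨by norm_num, sub_ne_zero.mpr h1⟩
    have hl2 : emultiplicity ((3 : ℕ) : ℤ) (∑ i ∈ range d, α ^ i) = emultiplicity 3 d := by
      have hne : emultiplicity ((3 : ℕ) : ℤ) (α - 1) ≠ ⊤ := by
        rw [Ne, emultiplicity_eq_top, not_not]
        exact hfin
      exact WithTop.add_left_cancel hne hl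
    rw [pow_dvd_iff_le_emultiplicity, ← hl2]
    exact le_emultiplicity_of_pow_dvd (by exact_mod_cast h)

/-- The affine map. -/
def Cyc_aff (R : ℕ) (α β : ℤ) (W : ZMod (3 ^ R)) : ZMod (3 ^ R) := α * W + β

theorem Cyc_aff_iterate_zero (R : ℕ) (α β : ℤ) (n : ℕ) :
    (Cyc_aff R α β)^[n] 0 = ((β * ∑ i ∈ range n, α ^ i : ℤ) : ZMod (3 ^ R)) := by
  induction n with
  | zero => simp
  | succ n ih =>
    rw [Function.iterate_succ_apply', ih, Cyc_aff, geom_sum_succ]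
    push_cast
    ring

theorem Cyc_aff_orbit_inj (R : ℕ) (α β : ℤ) (hα : (3 : ℤ) ∣ α - 1) (hβ : ¬ (3 : ℤ) ∣ β) {m n : ℕ}
    (hmn : m ≤ n) (hn : n < 3 ^ R) (h : (Cyc_aff R α β)^[m] 0 = (Cyc_aff R α β)^[n] 0) : m = n := by
  rw [Cyc_aff_iterate_zero, Cyc_aff_iterate_zero, ZMod.intCast_eq_intCast_iff_dvd_sub] at h
  obtain ⟨d, rfl⟩ := Nat.exists_eq_add_of_le hmn
  have e : β * ∑ i ∈ range (m + d), α ^ i - β * ∑ i ∈ range m, α ^ i
      = β * α ^ m * ∑ i ∈ range d, α ^ i := by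
    have e2 : ∑ i ∈ range d, α ^ (m + i) = α ^ m * ∑ i ∈ range d, α ^ i := by
      rw [mul_sum]
      exact Finset.sum_congr rfl fun i _ => pow_add _ _ _
    rw [Finset.sum_range_add, e2]
    ring
  rw [e] at h
  have h3 : ¬ (3 : ℤ) ∣ α := fun hd => by
    have : (3 : ℤ) ∣ 1 := by
      have := dvd_sub hd hα
      simp at this
    omega
  have hcop : IsCoprime ((3 : ℤ) ^ R) (β * α ^ m) := by
    refine IsCoprime.pow_left ?_
    refine IsCoprime.mul_right ?_ (IsCoprime.pow_right ?_)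
    · exact (Int.prime_three.coprime_iff_not_dvd).mpr hβ
    · exact (Int.prime_three.coprime_iff_not_dvd).mpr h3
  have h4 : ((3 : ℤ)) ^ R ∣ ∑ i ∈ range d, α ^ i := by
    have h5 : ((3 ^ R : ℕ) : ℤ) = (3 : ℤ) ^ R := by push_cast; rfl
    rw [h5] at h
    exact hcop.dvd_of_dvd_mul_left h
  have h6 := Cyc_dvd_of_pow_dvd_geom α hα R d h4
  have h7 : d = 0 := by
    by_contra h0
    have := Nat.le_of_dvd (Nat.pos_of_ne_zero h0) h6
    omega
  omega

/-- One cycle: sums over the group are sums over the orbit. -/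
theorem Cyc_sum_orbit (R : ℕ) (α β : ℤ) (hα : (3 : ℤ) ∣ α - 1) (hβ : ¬ (3 : ℤ) ∣ β)
    (g : ZMod (3 ^ R) → ℝ) :
    ∑ W, g W = ∑ i ∈ range (3 ^ R), g ((Cyc_aff R α β)^[i] 0) := by
  have hinj : Set.InjOn (fun i => (Cyc_aff R α β)^[i] 0) (range (3 ^ R) : Set ℕ) := by
    intro m hm n hn h
    rw [Finset.mem_coe, mem_range] at hm hn
    rcases le_total m n with h' | h'
    · exact Cyc_aff_orbit_inj R α β hα hβ h' hn h
    · exact (Cyc_aff_orbit_inj R α β hα hβ h' hm h.symm).symm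
  have himg : (range (3 ^ R)).image (fun i => (Cyc_aff R α β)^[i] 0) = Finset.univ := by
    apply Finset.eq_univ_of_card
    rw [Finset.card_image_of_injOn hinj, card_range, ZMod.card]
  rw [← himg, Finset.sum_image hinj]

/-- (B2) Poincare inequality for the affine cycle. -/
theorem Cyc_poincare_aff (R : ℕ) (α β : ℤ) (hα : (3 : ℤ) ∣ α - 1) (hβ : ¬ (3 : ℤ) ∣ β)
    (lam : ZMod (3 ^ R) → ℝ) :
    ∑ W, (lam W - (∑ V, lam V) / (3 : ℝ) ^ R) ^ 2 ≤
      (9 : ℝ) ^ R * ∑ W, (lam W - lam (α * W + β)) ^ 2 := by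
  rw [Cyc_sum_orbit R α β hα hβ (fun W => (lam W - (∑ V, lam V) / (3 : ℝ) ^ R) ^ 2),
    Cyc_sum_orbit R α β hα hβ lam, Cyc_sum_orbit R α β hα hβ (fun W => (lam W - lam (α * W + β)) ^ 2)]
  have h := Cyc_sum_sq_sub_mean_le (3 ^ R) (fun i => lam ((Cyc_aff R α β)^[i] 0))
  have e1 : (((3 ^ R : ℕ) : ℝ)) = (3 : ℝ) ^ R := by push_cast; rfl
  have e2 : ((3 : ℝ) ^ R) ^ 2 = 9 ^ R := by
    rw [← pow_mul, mul_comm, pow_mul]
    norm_num
  rw [e1, e2] at h
  refine h.trans_eq ?_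
  congr 1
  refine Finset.sum_congr rfl fun i _ => ?_
  rw [Function.iterate_succ_apply']
  rfl


theorem cyc1 (R : ℕ) {f : ℤ → ℝ} (hf : Per R f) {α β : ℤ} (hα : (3 : ℤ) ∣ α - 1)
    (hβ : ¬ (3 : ℤ) ∣ β) :
    ∑ W ∈ range (3 ^ R), (f (W : ℤ) - avg R f) ^ 2 ≤
      9 ^ R * ∑ W ∈ range (3 ^ R), (f (W : ℤ) - f (α * (W : ℤ) + β)) ^ 2 := by
  have h := Cyc_poincare_aff R α β hα hβ (fun W : ZMod (3 ^ R) => f (W.val : ℤ))
  have hs : ∀ F : ℕ → ℝ, ∑ W : ZMod (3 ^ R), F W.val = ∑ W ∈ range (3 ^ R), F W := by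
    intro F
    refine Finset.sum_nbij' (fun W => ZMod.val W) (fun n => (n : ZMod (3 ^ R))) ?_ ?_ ?_ ?_ ?_
    · intro W _
      rw [mem_range]
      exact ZMod.val_lt W
    · intro n _
      exact Finset.mem_univ _
    · intro W _
      exact ZMod.natCast_zmod_val W
    · intro n hn
      rw [mem_range] at hn
      exact ZMod.val_cast_of_lt hn
    · intro W _
      rfl
  have e1 : ∀ W : ZMod (3 ^ R), f (((α * W + β : ZMod (3 ^ R))).val : ℤ) =
      f (α * (W.val : ℤ) + β) := by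
    intro W
    apply per_dvd hf
    have h5 : ((3 ^ R : ℕ) : ℤ) = (3 : ℤ) ^ R := by push_cast; rfl
    rw [← h5, ← ZMod.intCast_eq_intCast_iff_dvd_sub]
    push_cast
    rw [ZMod.natCast_zmod_val, ZMod.natCast_zmod_val]
  simp only [e1] at h
  rw [hs (fun n => f (n : ℤ)), hs (fun n => (f (n : ℤ) - (∑ W ∈ range (3 ^ R), f (W : ℤ)) / (3 : ℝ) ^ R) ^ 2),
    hs (fun n => (f (n : ℤ) - f (α * (n : ℤ) + β)) ^ 2)] at h
  exact h

/-- Two images `u`, `u'` of the same function `f` under affine maps with slopes `4 ^ k`, `4 ^ k'` and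
constants which are not congruent modulo `3`.  Proof: take `c'` with `4 ^ k' * c' ≡ 1` modulo `3 ^ R`;
substitute `z = e + 4 ^ k * W` (`sum_affine`): `u z = f W` and `u' z = f (α W + β)` with
`α = c' * 4 ^ k`, `β = c' * (e - e')`; then `cyc1`. -/
theorem cyc (R : ℕ) {f u u' : ℤ → ℝ} (hf : Per R f) (hu : Per R u) (hu' : Per R u') {k k' : ℕ}
    {e e' : ℤ} (h : ∀ W : ℤ, u (e + 4 ^ k * W) = f W) (h' : ∀ W : ℤ, u' (e' + 4 ^ k' * W) = f W)
    (he : ¬ (3 : ℤ) ∣ e - e') :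
    ∑ W ∈ range (3 ^ R), (f (W : ℤ) - avg R f) ^ 2 ≤
      9 ^ R * ∑ z ∈ range (3 ^ R), (u (z : ℤ) - u' (z : ℤ)) ^ 2 := by
  have hcop : IsCoprime ((4 : ℤ) ^ k') ((3 : ℤ) ^ (R + 1)) := by
    refine IsCoprime.pow ?_
    exact ⟨1, -1, by norm_num⟩
  obtain ⟨c, d, hcd⟩ := hcop
  have hc3 : (3 : ℤ) ∣ c - 1 := by
    have h4 : (3 : ℤ) ∣ 4 ^ k' - 1 := by
      have := sub_dvd_pow_sub_pow (4 : ℤ) 1 k'
      rw [one_pow] at this
      norm_num at this
      exact this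
    have e1 : c - 1 = -(c * (4 ^ k' - 1)) - 3 * (d * 3 ^ R) := by
      have : c * 4 ^ k' + d * 3 ^ (R + 1) = 1 := hcd
      rw [pow_succ] at this
      linarith
    rw [e1]
    exact dvd_sub ((dvd_neg).mpr (Dvd.dvd.mul_left h4 c)) (dvd_mul_right _ _)
  have hα : (3 : ℤ) ∣ c * 4 ^ k - 1 := by
    have h4 : (3 : ℤ) ∣ 4 ^ k - 1 := by
      have := sub_dvd_pow_sub_pow (4 : ℤ) 1 k
      rw [one_pow] at this
      norm_num at this
      exact this
    have e1 : c * 4 ^ k - 1 = c * (4 ^ k - 1) + (c - 1) := by ring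
    rw [e1]
    exact dvd_add (Dvd.dvd.mul_left h4 c) hc3
  have hc0 : ¬ (3 : ℤ) ∣ c := by
    intro h0
    have := dvd_sub h0 hc3
    rw [sub_sub_cancel] at this
    omega
  have hβ : ¬ (3 : ℤ) ∣ c * (e - e') := by
    intro h0
    rcases Int.prime_three.dvd_or_dvd h0 with h1 | h1
    · exact hc0 h1
    · exact he h1
  have key := cyc1 R hf hα hβ
  refine key.trans (le_of_eq ?_)
  congr 1
  have hG : Per R (fun z => (u z - u' z) ^ 2) := fun z => by
    change (u (z + 3 ^ R) - u' (z + 3 ^ R)) ^ 2 = _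
    rw [hu z, hu' z]
  have h4 : ¬ (3 : ℤ) ∣ 4 ^ k := by
    intro h0
    have := Int.prime_three.dvd_of_dvd_pow h0
    omega
  rw [← sum_affine hG h4 e]
  refine Finset.sum_congr rfl fun W _ => ?_
  have e1 : (4 : ℤ) ^ k * (W : ℤ) + e = e + 4 ^ k * (W : ℤ) := by ring
  have e2 : u' (e + 4 ^ k * (W : ℤ)) = f (c * 4 ^ k * (W : ℤ) + c * (e - e')) := by
    rw [← h']
    apply per_dvd hu'
    refine ⟨3 * d * (4 ^ k * W + e - e'), ?_⟩
    have h6 : c * 4 ^ k' = 1 - d * 3 ^ (R + 1) := by linarith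
    have h7 : (4 : ℤ) ^ k' * (c * 4 ^ k * (W : ℤ) + c * (e - e')) =
        (c * 4 ^ k') * (4 ^ k * W + e - e') := by ring
    rw [h7, h6, pow_succ]
    ring
  rw [e1, h, e2]

end Pool.Agent.helper14.EX1
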