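import Mathlib

/-!
# EX1: definitions

Part I: functions on the integers which are periodic modulo powers of `3`, laws, digit energies.
Part II: systems of affine maps with a kernel (random walks on the integers).
Part III: the letters and words of the backward tree of the `3x+1` map; an integer `x` stands for the
node `a = 3 x + 2`.
-/

namespace Pool.Agent.helper14.EX1

open Finset

/-! ## Part I -/

/-- `φ` is periodic with period `3 ^ q`. -/
def Per (q : ℕ) (φ : ℤ → ℝ) : Prop := ∀ x, φ (x + 3 ^ q) = φ x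

/-- The indicator of the residue class of `c` modulo `3 ^ q`. -/
noncomputable def ind (q : ℕ) (c : ℤ) : ℤ → ℝ := fun x => if (3 : ℤ) ^ q ∣ x - c then 1 else 0

/-- The average over the residues modulo `3 ^ q`. -/
noncomputable def avg (q : ℕ) (φ : ℤ → ℝ) : ℝ := (∑ x ∈ range (3 ^ q), φ (x : ℤ)) / 3 ^ q

/-- `E` is a law: a normalized positive linear functional on the functions which are periodic modulo
some power of `3`. -/
structure IsLaw (E : (ℤ → ℝ) → ℝ) : Prop where
  add : ∀ {q : ℕ} {φ ψ : ℤ → ℝ}, Per q φ → Per q ψ → E (fun x => φ x + ψ x) = E φ + E ψ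
  smul : ∀ {q : ℕ} {φ : ℤ → ℝ} (c : ℝ), Per q φ → E (fun x => c * φ x) = c * E φ
  nn : ∀ {q : ℕ} {φ : ℤ → ℝ}, Per q φ → (∀ x, 0 ≤ φ x) → 0 ≤ E φ
  one : E (fun _ => 1) = 1

/-- The mean of the sum of the squares of the conditional law of the `R` digits above the first `q`
digits, given these `q` digits. -/
noncomputable def Psi (E : (ℤ → ℝ) → ℝ) (q R : ℕ) : ℝ :=
  ∑ B ∈ range (3 ^ q), ∑ W ∈ range (3 ^ R),
    E (ind (q + R) ((B : ℤ) + 3 ^ q * (W : ℤ))) ^ 2 / E (ind q (B : ℤ))

/-- The deviation of this conditional law from the uniform law, on the class of `B`. -/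
noncomputable def Dev (E : (ℤ → ℝ) → ℝ) (q R : ℕ) (B : ℤ) : ℝ :=
  ∑ W ∈ range (3 ^ R), (E (ind (q + R) (B + 3 ^ q * (W : ℤ))) - E (ind q B) / 3 ^ R) ^ 2 / E (ind q B)

/-! ## Part II -/

/-- A finite system of affine maps `x ↦ (4 ^ e v * x + g v) / 3 ^ m` on the integers with a kernel `p`. -/
structure Sys (ι : Type) where
  m : ℕ
  e : ι → ℕ
  g : ι → ℤ
  p : ι → ℤ → ℝ

namespace Sys

variable {ι : Type}

/-- The map with the letter `v`. -/
def T (S : Sys ι) (v : ι) (x : ℤ) : ℤ := (4 ^ S.e v * x + S.g v) / 3 ^ S.m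

/-- The end of the word `w` from `x` (first letter first). -/
def nd (S : Sys ι) : ℤ → List ι → ℤ
  | x, [] => x
  | x, v :: w => S.nd (S.T v x) w

/-- The probability of the word `w` from `x`. -/
noncomputable def path (S : Sys ι) : ℤ → List ι → ℝ
  | _, [] => 1
  | x, v :: w => S.p v x * S.path (S.T v x) w

/-- The exponent of `4` of a word. -/
def ee (S : Sys ι) (w : List ι) : ℕ := (w.map S.e).sum

/-- The constant of a word: `3 ^ (m * length) * nd x w = 4 ^ ee w * x + GG w` for allowed words. -/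
def GG (S : Sys ι) : List ι → ℤ
  | [] => 0
  | v :: w => 4 ^ S.ee w * S.g v + 3 ^ S.m * S.GG w

/-- The kernel as an operator. -/
noncomputable def K [Fintype ι] (S : Sys ι) (φ : ℤ → ℝ) (x : ℤ) : ℝ := ∑ v, S.p v x * φ (S.T v x)

/-- The hypotheses on the system. -/
structure Ok [Fintype ι] (S : Sys ι) : Prop where
  m1 : 1 ≤ S.m
  nn : ∀ v x, 0 ≤ S.p v x
  per : ∀ v, Per S.m (S.p v)
  dvd : ∀ v x, S.p v x ≠ 0 → (3 : ℤ) ^ S.m ∣ 4 ^ S.e v * x + S.g v
  sum : ∀ x, ∑ v, S.p v x = 1
  rho : ∃ ρ : ℝ, 0 < ρ ∧ ρ < 1 ∧ ∀ v x, S.p v x ≤ ρ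
  inj : ∀ (x : ℤ) (w w' : List ι), w.length = w'.length → S.path x w ≠ 0 → S.path x w' ≠ 0 →
    S.nd x w = S.nd x w' → w = w'

/-- The nondegeneracy of the digit `j` of the position after `n` steps, starting from `x`. -/
noncomputable def vv [Fintype ι] (S : Sys ι) (j n : ℕ) (x : ℤ) : ℝ :=
  1 - Psi (fun φ => (S.K^[n] φ) x) j 1

open Classical in
/-- The words of length `n`. -/
noncomputable def wds [Fintype ι] (S : Sys ι) : ℕ → Finset (List ι)
  | 0 => {[]}
  | n + 1 => ((univ : Finset ι) ×ˢ S.wds n).image (fun z => z.1 :: z.2)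

end Sys

/-! ## Part III -/

/-- The constant of the letter `k` in the coordinate `x`. -/
def tk (k : ℕ) : ℤ := (2 ^ (k + 1) - (if k % 2 = 1 then 1 else 2) - 6) / 3

/-- The step with the letter `k ≥ 1`. -/
def Tk (k : ℕ) (x : ℤ) : ℤ := (2 ^ k * x + tk k) / 3

/-- The letter `k` is allowed at `x`. -/
def Al (k : ℕ) (x : ℤ) : Prop := (3 : ℤ) ∣ 2 ^ k * x + tk k

instance (k : ℕ) (x : ℤ) : Decidable (Al k x) := by unfold Al; infer_instance

/-- The end of the word `v` from `x` (first letter first). -/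
def nd : ℤ → List ℕ → ℤ
  | x, [] => x
  | x, k :: v => nd (Tk k x) v

/-- The word `v` is allowed at `x`. -/
def Ala : ℤ → List ℕ → Prop
  | _, [] => True
  | x, k :: v => Al k x ∧ Ala (Tk k x) v

instance instDecidableAla : (x : ℤ) → (v : List ℕ) → Decidable (Ala x v)
  | _, [] => isTrue trivial
  | x, k :: v => by
      unfold Ala
      haveI := instDecidableAla (Tk k x) v
      infer_instance

/-- The constant of a word: `3 ^ length * nd x v = 2 ^ sum * x + Gw v` for allowed words. -/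
def Gw : List ℕ → ℤ
  | [] => 0
  | k :: v => 2 ^ v.sum * tk k + 3 * Gw v

/-- The words of length `n` with letters in `1, …, K`. -/
def lw (K : ℕ) : ℕ → Finset (List ℕ)
  | 0 => {[]}
  | n + 1 => (Icc 1 K ×ˢ lw K n).image (fun z => z.1 :: z.2)

/-- The transfer operator with the weights `q`. -/
noncomputable def L (K : ℕ) (q : ℕ → ℝ) (φ : ℤ → ℝ) (x : ℤ) : ℝ :=
  ∑ k ∈ Icc 1 K, if Al k x then q k * φ (Tk k x) else 0

/-- The normalization `∑_{k ≤ K} 2⁻ᵏ`. -/
noncomputable def th (K : ℕ) : ℝ := 1 - (1 / 2) ^ K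

/-- The normalized weights. -/
noncomputable def qn (K k : ℕ) : ℝ := 3 / 2 ^ k / th K

/-- The normalized partition function. -/
noncomputable def fn (K n : ℕ) : ℤ → ℝ := (L K (qn K))^[n] (fun _ => 1)

/-- The weight `3 ^ length / 2 ^ sum` of a word. -/
noncomputable def ww (v : List ℕ) : ℝ := 3 ^ v.length / 2 ^ v.sum

/-- The partition function: the sum of the weights of the allowed words of length `n`. -/
noncomputable def FF (K n : ℕ) (x : ℤ) : ℝ := ∑ v ∈ lw K n, if Ala x v then ww v else 0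

/-- All the partition functions up to `n` are at least `1 / 2`. -/
def alive (K n : ℕ) (x : ℤ) : Prop := ∀ i, 1 ≤ i → i ≤ n → 1 / 2 ≤ fn K i x

open Classical in
/-- The proportion of the residues which are alive. -/
noncomputable def al (K n : ℕ) : ℝ := avg n (fun x => if alive K n x then 1 else 0)

/-- Good words of length `n`. -/
def good (n : ℕ) (v : List ℕ) : Prop :=
  |(Gw v : ℝ)| ≤ 65536 * 2 ^ v.sum ∧ (3 : ℝ) ^ n ≤ 65536 * 2 ^ v.sum ∧ v.sum ≤ 16 * n

/-- The part of the partition function with small total exponent. -/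
noncomputable def Low (K n : ℕ) (x : ℤ) : ℝ :=
  ∑ v ∈ lw K n, if Ala x v ∧ 20 * v.sum < 39 * (n + 1) then ww v else 0

/-- The restricted words: length `m`, even sum, sum at least `1.95 m`. -/
def Vs (K m : ℕ) : Finset (List ℕ) := (lw K m).filter (fun v => Even v.sum ∧ 39 * m ≤ 20 * v.sum)

/-- The restricted partition function. -/
noncomputable def ff (K m : ℕ) (x : ℤ) : ℝ := ∑ v ∈ Vs K m, if Ala x v then ww v else 0

/-- The system of the restricted words. -/
noncomputable def sysW (K m : ℕ) : Sys (Vs K m) where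
  m := m
  e := fun v => v.1.sum / 2
  g := fun v => Gw v.1
  p := fun v x => if Ala x v.1 then ww v.1 / ff K m x else 0

/-- The transfer operator with the powers of the weights. -/
noncomputable def Lg (K m : ℕ) (γ : ℝ) (φ : ℤ → ℝ) (x : ℤ) : ℝ :=
  ∑ v ∈ Vs K m, if Ala x v then ww v ^ γ * φ (nd x v) else 0

/-- A certificate: a finite set of words of length `n`, letters in `1, …, K`, sums at least `1.95 n`,
such that the sum of the powers of the weights of the allowed words is at least `1` everywhere. -/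
structure CertW (γ : ℝ) (K n : ℕ) (W : Finset (List ℕ)) : Prop where
  n1 : 1 ≤ n
  len : ∀ V ∈ W, V.length = n
  let1 : ∀ V ∈ W, ∀ k ∈ V, 1 ≤ k ∧ k ≤ K
  sum : ∀ V ∈ W, 39 * n ≤ 20 * V.sum
  one : ∀ x : ℤ, 1 ≤ ∑ V ∈ W, if Ala x V then ww V ^ γ else 0

end Pool.Agent.helper14.EX1
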