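import Pool.Agent.helper14.EX1.Cat
import Pool.Agent.helper14.EX1.Cnt
import Pool.Agent.helper14.EX1.Cir

/-!
# EX1-Fin: the theorem

`base`: from `x = 1` take `s` letters, at each node the letter `3`, `5` or `7` (classes `0, 1, 2`); each step at least
doubles the node (`3 a' ≥ 8 a - 1`), so the end is `≥ 5 * 2 ^ s ≥ A0, exp ((s+1)/4)` for large `s`.
`main_thm`: `γ = 1 - ε/2` (`ε < 1` without loss), `cert`, `count`, `u` from `base`, `a0 = 3 nd 1 u + 2`.  For large `x` put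
`X = x / Q`; the nodes of `u ++ v`, `v ∈ S`, are distinct (`inj1`), `≤ x`, `≥ X`, and there are at least `(X / a0) ^ γ ≥ x ^ (1-ε)`.
`C(n) ≤ u.length + v.length + 1` (`circ1`) `≤ 4 log a0 + 4 log (n / a0) = 4 log n`.  Steps: `u.sum + v.sum + 4 ≤
u.sum + 4 + 7.8 log n ≤ 8 log n` as `n ≥ X` is large.
-/

namespace Pool.Agent.helper14.EX1

open Finset Pool.Agent.helper41.Coll

/-- One letter which at least doubles the node. -/
theorem Fin_step {x : ℤ} (hx : 0 ≤ x) :
    ∃ k : ℕ, 1 ≤ k ∧ Al k x ∧ 2 * (3 * x + 2) ≤ 3 * Tk k x + 2 := by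
  have h3 : x % 3 = 0 ∨ x % 3 = 1 ∨ x % 3 = 2 := by omega
  rcases h3 with h | h | h
  · refine ⟨3, by norm_num, (al_zero h).2, ?_⟩
    have h1 := Tk_node (k := 3) (by norm_num) (al_zero h).2
    norm_num at h1
    omega
  · refine ⟨5, by norm_num, (al_one h).2, ?_⟩
    have h1 := Tk_node (k := 5) (by norm_num) (al_one h).2
    norm_num at h1
    omega
  · refine ⟨7, by norm_num, (al_two h).2.2, ?_⟩
    have h1 := Tk_node (k := 7) (by norm_num) (al_two h).2.2
    norm_num at h1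
    omega

theorem Fin_words (s : ℕ) : ∃ u : List ℕ, u.length = s ∧ (∀ k ∈ u, 1 ≤ k) ∧ Ala 1 u ∧
    5 * 2 ^ s ≤ 3 * nd 1 u + 2 := by
  induction s with
  | zero =>
    refine ⟨[], rfl, by simp, trivial, ?_⟩
    simp [nd]
  | succ s ih =>
    obtain ⟨u, hl, hu, ha, hn⟩ := ih
    have h0 : 0 ≤ nd 1 u := nd_nn (by norm_num) hu ha
    obtain ⟨k, hk1, hk, hk2⟩ := Fin_step h0
    refine ⟨u ++ [k], ?_, ?_, ?_, ?_⟩
    · simp [hl]
    · intro j hj
      rcases List.mem_append.1 hj with hj | hj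
      · exact hu j hj
      · rw [List.mem_singleton.1 hj]
        exact hk1
    · rw [ala_append]
      exact ⟨ha, hk, trivial⟩
    · rw [nd_append]
      have h2 : nd (nd 1 u) [k] = Tk k (nd 1 u) := rfl
      rw [h2, pow_succ]
      linarith

theorem base (A0 : ℝ) : ∃ u : List ℕ, (∀ k ∈ u, 1 ≤ k) ∧ Ala 1 u ∧ A0 ≤ 3 * nd 1 u + 2 ∧
    Real.exp ((u.length + 1) / 4) ≤ 3 * nd 1 u + 2 := by
  obtain ⟨s, hs⟩ := pow_unbounded_of_one_lt A0 (by norm_num : (1 : ℝ) < 2)
  obtain ⟨u, hl, hu, ha, hn⟩ := Fin_words s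
  have hn' : (5 : ℝ) * 2 ^ s ≤ 3 * nd 1 u + 2 := by exact_mod_cast hn
  have hp : (0 : ℝ) < 2 ^ s := by positivity
  refine ⟨u, hu, ha, by linarith, ?_⟩
  rw [hl]
  have hlog := Real.log_two_gt_d9
  have h1 : Real.exp (((s : ℝ) + 1) / 4) ≤ 2 ^ (s + 1) := by
    have h2 : (2 : ℝ) ^ (s + 1) = Real.exp (((s : ℝ) + 1) * Real.log 2) := by
      have h3 : ((s : ℝ) + 1) * Real.log 2 = ((s + 1 : ℕ) : ℝ) * Real.log 2 := by push_cast; ring
      rw [h3, Real.exp_nat_mul, Real.exp_log (by norm_num)]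
    rw [h2]
    apply Real.exp_le_exp.2
    have hs0 : (0 : ℝ) ≤ s := Nat.cast_nonneg s
    nlinarith
  rw [pow_succ] at h1
  linarith

open Classical in
theorem Fin_main {ε : ℝ} (hε : 0 < ε) (hε1 : ε < 1) : ∃ x0 : ℝ, ∀ x : ℝ, x0 ≤ x →
    x ^ (1 - ε) ≤ (((Icc 1 ⌊x⌋₊).filter (fun n : ℕ =>
      (∃ c : ℕ, HasC n c ∧ (c : ℝ) ≤ 4 * Real.log n) ∧
        ∃ j : ℕ, f^[j] n = 1 ∧ (j : ℝ) ≤ 8 * Real.log n)).card : ℝ) := by
  obtain ⟨K, n, W, hW⟩ := cert (γ := 1 - ε / 2) (by linarith) (by linarith)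
  obtain ⟨A0, Q, hA0, hQ, H⟩ := count (γ := 1 - ε / 2) (by linarith) hW
  obtain ⟨u, hu, hua, huA, huE⟩ := base A0
  set a0 : ℝ := 3 * nd 1 u + 2 with ha0
  have ha1 : 1 ≤ a0 := hA0.trans huA
  have hQa : 1 ≤ Q * a0 := by nlinarith
  refine ⟨max (max Q (a0 + 1)) (max (Q * Real.exp (5 * (u.sum + 4))) ((Q * a0) ^ (2 / ε))), ?_⟩
  intro x hx
  have hx1 : Q ≤ x := (le_max_left _ _).trans ((le_max_left _ _).trans hx)
  have hx2 : a0 + 1 ≤ x := (le_max_right _ _).trans ((le_max_left _ _).trans hx)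
  have hx3 : Q * Real.exp (5 * (u.sum + 4)) ≤ x :=
    (le_max_left _ _).trans ((le_max_right _ _).trans hx)
  have hx4 : (Q * a0) ^ (2 / ε) ≤ x := (le_max_right _ _).trans ((le_max_right _ _).trans hx)
  have hQ0 : 0 < Q := by linarith
  have hx0 : 0 < x := by linarith
  have hX1 : 1 ≤ x / Q := by
    rw [le_div_iff₀ hQ0]
    linarith
  have hQX : Q * (x / Q) = x := by field_simp
  obtain ⟨S, hS, hcard⟩ := H (x / Q) hX1 (nd 1 u) huA (by rw [hQX]; linarith)
  rw [hQX] at hS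
  -- the count
  have hpow : x ^ (1 - ε) ≤ (x / Q / a0) ^ (1 - ε / 2) := by
    have h1 : x / Q / a0 = x / (Q * a0) := by rw [div_div]
    rw [h1, Real.div_rpow hx0.le (by linarith)]
    rw [le_div_iff₀ (Real.rpow_pos_of_pos (by linarith) _)]
    have h2 : (Q * a0) ^ (1 - ε / 2) ≤ x ^ (ε / 2) := by
      have h3 : (Q * a0) ^ (1 - ε / 2) ≤ (Q * a0) ^ (1 : ℝ) :=
        Real.rpow_le_rpow_of_exponent_le hQa (by linarith)
      have h4 : ((Q * a0) ^ (2 / ε)) ^ (ε / 2) = Q * a0 := by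
        rw [← Real.rpow_mul (by linarith)]
        have : 2 / ε * (ε / 2) = 1 := by field_simp
        rw [this, Real.rpow_one]
      have h5 : ((Q * a0) ^ (2 / ε)) ^ (ε / 2) ≤ x ^ (ε / 2) :=
        Real.rpow_le_rpow (Real.rpow_nonneg (by linarith) _) hx4 (by linarith)
      rw [h4] at h5
      rw [Real.rpow_one] at h3
      linarith
    calc x ^ (1 - ε) * (Q * a0) ^ (1 - ε / 2) ≤ x ^ (1 - ε) * x ^ (ε / 2) :=
          mul_le_mul_of_nonneg_left h2 (Real.rpow_nonneg hx0.le _)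
      _ = x ^ (1 - ε / 2) := by
          rw [← Real.rpow_add hx0]
          congr 1
          ring
  refine (hpow.trans hcard).trans ?_
  rw [Nat.cast_le]
  -- the nodes
  have hnn : ∀ v ∈ S, 0 ≤ nd (nd 1 u) v := by
    intro v hv
    obtain ⟨h1, h2, -⟩ := hS v hv
    exact nd_nn (nd_nn (by norm_num) hu hua) h1 h2
  have hcast : ∀ v ∈ S, (((3 * nd (nd 1 u) v + 2).toNat : ℕ) : ℝ) = 3 * nd (nd 1 u) v + 2 := by
    intro v hv
    have h1 : (0 : ℤ) ≤ 3 * nd (nd 1 u) v + 2 := by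
      have := hnn v hv
      linarith
    have h2 : (((3 * nd (nd 1 u) v + 2).toNat : ℕ) : ℤ) = 3 * nd (nd 1 u) v + 2 :=
      Int.toNat_of_nonneg h1
    exact_mod_cast h2
  apply Finset.card_le_card_of_injOn (fun v => (3 * nd (nd 1 u) v + 2).toNat)
  · intro v hv
    have hv' : v ∈ S := hv
    obtain ⟨h1, h2, h3, h4, h5, h6⟩ := hS v hv'
    have hc := hcast v hv'
    set N : ℕ := (3 * nd (nd 1 u) v + 2).toNat with hN
    have hN1 : (1 : ℝ) ≤ N := by rw [hc]; linarith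
    have hN0 : (0 : ℝ) < N := by linarith
    have hlu : ∀ k ∈ u ++ v, 1 ≤ k := by
      intro k hk
      rcases List.mem_append.1 hk with hk | hk
      · exact hu k hk
      · exact h1 k hk
    have hau : Ala 1 (u ++ v) := by
      rw [ala_append]
      exact ⟨hua, h2⟩
    have hnd : nd 1 (u ++ v) = nd (nd 1 u) v := nd_append _ _ _
    rw [← hc] at h3 h4 h5 h6
    have hlogN : Real.log a0 + Real.log (N / a0) = Real.log N := by
      rw [Real.log_div hN0.ne' (by linarith)]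
      ring
    have hloga : ((u.length : ℝ) + 1) / 4 ≤ Real.log a0 := by
      rw [Real.le_log_iff_exp_le (by linarith)]
      exact huE
    have hlogv : (v.length : ℝ) / 4 ≤ Real.log (N / a0) := by
      rw [Real.le_log_iff_exp_le (by positivity), le_div_iff₀ (by linarith)]
      linarith
    simp only [Finset.coe_filter, Set.mem_setOf_eq, Finset.mem_Icc]
    refine ⟨⟨?_, ?_⟩, ?_, ?_⟩
    · exact_mod_cast hN1
    · exact Nat.le_floor h4.le
    · obtain ⟨c, hc1, hc2⟩ := circ1 hlu hau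
      rw [hnd, ← hN] at hc1
      refine ⟨c, hc1, ?_⟩
      have h7 : (c : ℝ) ≤ (u.length + v.length : ℝ) + 1 := by
        have : (c : ℝ) ≤ (((u ++ v).length + 1 : ℕ) : ℝ) := by exact_mod_cast hc2
        rw [List.length_append] at this
        push_cast at this
        exact this
      linarith
    · refine ⟨(u ++ v).sum + 4, ?_, ?_⟩
      · have h7 := steps1 hlu hau
        rw [hnd, ← hN] at h7
        exact h7
      · have h8 : 5 * ((u.sum : ℝ) + 4) ≤ Real.log N := by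
          rw [Real.le_log_iff_exp_le hN0]
          refine le_trans ?_ h3
          rw [le_div_iff₀ hQ0]
          linarith
        have h9 : Real.log (N / a0) ≤ Real.log N := by
          have := Real.log_nonneg ha1
          linarith
        rw [← ha0] at h6
        have h10 : (((u ++ v).sum + 4 : ℕ) : ℝ) = (u.sum : ℝ) + (v.sum : ℝ) + 4 := by
          rw [List.sum_append, Nat.cast_add, Nat.cast_add]
          norm_num
        rw [h10]
        linarith
  · intro v hv v' hv' h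
    have hv1 : v ∈ S := hv
    have hv2 : v' ∈ S := hv'
    have h0 : (3 * nd (nd 1 u) v + 2).toNat = (3 * nd (nd 1 u) v' + 2).toNat := h
    have h1 := hnn v hv1
    have h2 := hnn v' hv2
    have h3 : nd (nd 1 u) v = nd (nd 1 u) v' := by omega
    obtain ⟨a1, a2, -⟩ := hS v hv1
    obtain ⟨b1, b2, -⟩ := hS v' hv2
    have h4 : u ++ v = u ++ v' := by
      apply inj1
      · intro k hk
        rcases List.mem_append.1 hk with hk | hk
        · exact hu k hk
        · exact a1 k hk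
      · intro k hk
        rcases List.mem_append.1 hk with hk | hk
        · exact hu k hk
        · exact b1 k hk
      · rw [ala_append]
        exact ⟨hua, a2⟩
      · rw [ala_append]
        exact ⟨hua, b2⟩
      · rw [nd_append, nd_append]
        exact h3
    exact List.append_cancel_left h4

open Classical in
theorem main_thm {ε : ℝ} (hε : 0 < ε) : ∃ x0 : ℝ, ∀ x : ℝ, x0 ≤ x →
    x ^ (1 - ε) ≤ (((Icc 1 ⌊x⌋₊).filter (fun n : ℕ =>
      (∃ c : ℕ, HasC n c ∧ (c : ℝ) ≤ 4 * Real.log n) ∧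
        ∃ j : ℕ, f^[j] n = 1 ∧ (j : ℝ) ≤ 8 * Real.log n)).card : ℝ) := by
  obtain ⟨x0, h⟩ := Fin_main (ε := min ε (1 / 2)) (lt_min hε (by norm_num))
    (lt_of_le_of_lt (min_le_right _ _) (by norm_num))
  refine ⟨max x0 1, fun x hx => ?_⟩
  refine le_trans ?_ (h x ((le_max_left _ _).trans hx))
  apply Real.rpow_le_rpow_of_exponent_le ((le_max_right _ _).trans hx)
  have := min_le_left ε (1 / 2)
  linarith

end Pool.Agent.helper14.EX1
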