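import Pool.Agent.helper14.EX1.Cat2
import Pool.Agent.helper14.EX1.Cnt2
import Pool.Agent.helper14.EX1.CirG
import Pool.Agent.helper14.EX1.BaseG

/-!
# EX1-FinG: the two-sided theorem for the predecessors of a general `m`

As EX1-Fin2 (`main2`), with `x0` from `startG`, `u` from `baseG`, `injG`, `circG`, `hitG` instead of `base`, `inj1`, `circ2`, `hit1`.
The first hitting time of `1` from the node of `u ++ v` is `(u ++ v).sum + j0`, where `j0` is the first hitting time of `1` from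
`3 x0 + 2 ≥ 5` (`Nat.find`): before the time `(u ++ v).sum` no iterate is `1`, because `f 1 = 1` and the iterate at that time is
`3 x0 + 2 ≠ 1`.
-/

namespace Pool.Agent.helper14.EX1

open Finset Pool.Agent.helper41.Coll

theorem FinG_log : (1 : ℝ) / 4 ≤ Real.log (4 / 3) ∧ Real.log (16 / 9) = 2 * Real.log (4 / 3) := by
  constructor
  · have h := Real.one_sub_inv_le_log_of_pos (by norm_num : (0 : ℝ) < 4 / 3)
    norm_num at h
    norm_num
    linarith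
  · have h : (16 : ℝ) / 9 = (4 / 3) ^ 2 := by norm_num
    rw [h, Real.log_pow]
    norm_num

theorem FinG_j0 {a : ℕ} (h : ∃ i, f^[i] a = 1) : ∃ j0, f^[j0] a = 1 ∧ ∀ i < j0, f^[i] a ≠ 1 :=
  ⟨Nat.find h, Nat.find_spec h, fun _ hi => Nat.find_min h hi⟩

theorem FinG_one (i : ℕ) : f^[i] 1 = 1 := by
  induction i with
  | zero => rfl
  | succ i ih => rw [Function.iterate_succ_apply', ih]; rfl

/-- the first hitting time of `1` -/
theorem FinG_hit {N a s j0 : ℕ} (h : f^[s] N = a) (ha : a ≠ 1) (h1 : f^[j0] a = 1)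
    (h2 : ∀ i < j0, f^[i] a ≠ 1) : f^[s + j0] N = 1 ∧ ∀ i < s + j0, f^[i] N ≠ 1 := by
  constructor
  · rw [add_comm, Function.iterate_add_apply, h, h1]
  · intro i hi h3
    by_cases his : i ≤ s
    · apply ha
      obtain ⟨r, rfl⟩ := Nat.exists_eq_add_of_le his
      rw [← h, add_comm, Function.iterate_add_apply, h3, FinG_one]
    · obtain ⟨r, rfl⟩ := Nat.exists_eq_add_of_le (not_le.1 his).le
      rw [add_comm, Function.iterate_add_apply, h] at h3
      exact h2 r (by omega) h3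

/-- the estimates for one node: `l` the length, `y = log n`, `A = log a0`, `Λ = log (4/3)` -/
theorem FinG_est {ε l y A Λ c r R0 C j s0 s j0 : ℝ} (hε : 0 < ε) (hε1 : ε ≤ 1) (hl : 0 ≤ l)
    (hA : 0 ≤ A) (hΛ : 1 / 4 ≤ Λ) (h1 : |y - A - l * Λ| ≤ ε / 100 * l) (hR0 : 0 ≤ R0) (hC : 0 ≤ C)
    (h2 : |r - l / 2| ≤ 2 * (ε / 100) * l) (hc1 : r ≤ c) (hc2 : c ≤ r + R0 + C)
    (h3 : |s - 2 * l| ≤ ε / 100 * l) (hs0 : 0 ≤ s0) (hj0 : 0 ≤ j0) (hj : j = s0 + s + j0)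
    (hy : 2 * (R0 + C + s0 + j0 + 8 * A) ≤ ε * y) :
    |c - y / (2 * Λ)| ≤ ε * y ∧ |j - 2 * y / Λ| ≤ ε * y := by
  have hΛ0 : 0 < Λ := by linarith
  obtain ⟨a1, a2⟩ := abs_le.1 h1
  obtain ⟨b1, b2⟩ := abs_le.1 h2
  obtain ⟨d1, d2⟩ := abs_le.1 h3
  have hel : 0 ≤ ε / 100 * l := by positivity
  have hl5 : l ≤ 5 * y := by
    have e1 : l * (1 / 4) ≤ l * Λ := mul_le_mul_of_nonneg_left hΛ hl
    have e2 : ε / 100 * l ≤ 1 / 100 * l := mul_le_mul_of_nonneg_right (by linarith) hl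
    linarith
  have hel5 : ε / 100 * l ≤ ε * y / 20 := by
    have e1 : ε / 100 * l ≤ ε / 100 * (5 * y) := mul_le_mul_of_nonneg_left hl5 (by positivity)
    linarith
  set q : ℝ := y / Λ with hq
  have hqΛ : q * Λ = y := by
    rw [hq]
    field_simp
  have hq1 : q - l ≤ 4 * (ε / 100 * l + A) := by
    by_contra hcon
    have hcon' := not_le.1 hcon
    have e1 : 4 * (ε / 100 * l + A) * Λ < (q - l) * Λ := mul_lt_mul_of_pos_right hcon' hΛ0
    have e2 : (ε / 100 * l + A) ≤ 4 * (ε / 100 * l + A) * Λ := by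
      have : 0 ≤ ε / 100 * l + A := by linarith
      nlinarith
    have e3 : (q - l) * Λ = y - l * Λ := by rw [sub_mul, hqΛ]
    linarith
  have hq2 : l - q ≤ 4 * (ε / 100 * l + A) := by
    by_contra hcon
    have hcon' := not_le.1 hcon
    have e1 : 4 * (ε / 100 * l + A) * Λ < (l - q) * Λ := mul_lt_mul_of_pos_right hcon' hΛ0
    have e2 : (ε / 100 * l + A) ≤ 4 * (ε / 100 * l + A) * Λ := by
      have : 0 ≤ ε / 100 * l + A := by linarith
      nlinarith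
    have e3 : (l - q) * Λ = l * Λ - y := by rw [sub_mul, hqΛ]
    linarith
  have hy2 : y / (2 * Λ) = q / 2 := by
    rw [hq]
    field_simp
  have hy3 : 2 * y / Λ = 2 * q := by
    rw [hq]
    ring
  rw [hy2, hy3]
  constructor
  · rw [abs_le]
    constructor <;> linarith
  · rw [abs_le]
    constructor <;> linarith

open Classical in
theorem FinG_main {m : ℕ} (hm3 : ¬ 3 ∣ m) (hm1 : ∃ i, f^[i] m = 1) {ε : ℝ} (hε : 0 < ε)
    (hε1 : ε < 1) : ∃ x0 : ℝ, ∀ x : ℝ, x0 ≤ x → 1 ≤ x ∧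
    x ^ (1 - ε) ≤ (((Icc 1 ⌊x⌋₊).filter (fun n : ℕ => (∃ i, f^[i] n = m) ∧
      (∃ c : ℕ, HasC n c ∧ |(c : ℝ) - Real.log n / Real.log (16 / 9)| ≤ ε * Real.log n) ∧
        ∃ j : ℕ, f^[j] n = 1 ∧ (∀ i < j, f^[i] n ≠ 1) ∧
          |(j : ℝ) - 2 * Real.log n / Real.log (4 / 3)| ≤ ε * Real.log n)).card : ℝ) := by
  obtain ⟨z0, hz0, ⟨im, him⟩, hz1, c0, hc0⟩ := startG hm3 hm1
  obtain ⟨j0, hj01, hj02⟩ := FinG_j0 hz1
  have hz5 : (3 * z0 + 2).toNat ≠ 1 := by omega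
  obtain ⟨hΛ, hΛ2⟩ := FinG_log
  obtain ⟨K, n, W, hW⟩ := cert2 (γ := 1 - ε / 2) (e := ε / 100) (by linarith) (by linarith)
    (by linarith)
  obtain ⟨A0, Q, hA0, hQ, H⟩ := count2 (γ := 1 - ε / 2) (by linarith) (by linarith) (by linarith) hW
  obtain ⟨u, hu, hua, huA⟩ := baseG hz0 A0
  set a0 : ℝ := 3 * nd z0 u + 2 with ha0
  have ha1 : 1 ≤ a0 := hA0.trans huA
  have hA : 0 ≤ Real.log a0 := Real.log_nonneg ha1
  have hQa : 1 ≤ Q * a0 := by nlinarith
  refine ⟨max (max Q (a0 + 1)) (max (Q * Real.exp (2 * ((Rw u : ℝ) + (c0 + 2) + u.sum + j0 +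
    8 * Real.log a0) / ε)) ((Q * a0) ^ (2 / ε))), ?_⟩
  intro x hx
  have hx1 : Q ≤ x := (le_max_left _ _).trans ((le_max_left _ _).trans hx)
  have hx2 : a0 + 1 ≤ x := (le_max_right _ _).trans ((le_max_left _ _).trans hx)
  have hx3 : Q * Real.exp (2 * ((Rw u : ℝ) + (c0 + 2) + u.sum + j0 + 8 * Real.log a0) / ε) ≤ x :=
    (le_max_left _ _).trans ((le_max_right _ _).trans hx)
  have hx4 : (Q * a0) ^ (2 / ε) ≤ x := (le_max_right _ _).trans ((le_max_right _ _).trans hx)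
  have hQ0 : 0 < Q := by linarith
  have hx0 : 0 < x := by linarith
  refine ⟨by linarith, ?_⟩
  have hX1 : 1 ≤ x / Q := by
    rw [le_div_iff₀ hQ0]
    linarith
  have hQX : Q * (x / Q) = x := by field_simp
  obtain ⟨S, hS, hcard⟩ := H (x / Q) hX1 (nd z0 u) huA (by rw [hQX]; linarith)
  rw [hQX] at hS
  -- the count
  have hpow : x ^ (1 - ε) ≤ (x / Q / a0) ^ (1 - ε / 2) := by
    have h1 : x / Q / a0 = x / (Q * a0) := by rw [div_div]
    rw [h1, Real.div_rpow hx0.le (by linarith)]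
    rw [le_div_iff₀ (Real.rpow_pos_of_pos (by linarith) _)]
    have h2 : (Q * a0) ^ (1 - ε / 2) ≤ x ^ (ε / 2) := by
      have h3 : (Q * a0) ^ (1 - ε / 2) ≤ (Q * a0) ^ (1 : ℝ) :=
        Real.rpow_le_rpow_of_exponent_le hQa (by linarith)
      have h4 : ((Q * a0) ^ (2 / ε)) ^ (ε / 2) = Q * a0 := by
        rw [← Real.rpow_mul (by linarith)]
        have : 2 / ε * (ε / 2) = 1 := by field_simp
        rw [this, Real.rpow_one]
      have h5 : ((Q * a0) ^ (2 / ε)) ^ (ε / 2) ≤ x ^ (ε / 2) :=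
        Real.rpow_le_rpow (Real.rpow_nonneg (by linarith) _) hx4 (by linarith)
      rw [h4] at h5
      rw [Real.rpow_one] at h3
      linarith
    calc x ^ (1 - ε) * (Q * a0) ^ (1 - ε / 2) ≤ x ^ (1 - ε) * x ^ (ε / 2) :=
          mul_le_mul_of_nonneg_left h2 (Real.rpow_nonneg hx0.le _)
      _ = x ^ (1 - ε / 2) := by
          rw [← Real.rpow_add hx0]
          congr 1
          ring
  refine (hpow.trans hcard).trans ?_
  rw [Nat.cast_le]
  -- the nodes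
  have hnn : ∀ v ∈ S, 0 ≤ nd (nd z0 u) v := by
    intro v hv
    obtain ⟨h1, h2, -⟩ := hS v hv
    exact nd_nn (nd_nn (by linarith) hu hua) h1 h2
  have hcast : ∀ v ∈ S, (((3 * nd (nd z0 u) v + 2).toNat : ℕ) : ℝ) = 3 * nd (nd z0 u) v + 2 := by
    intro v hv
    have h1 : (0 : ℤ) ≤ 3 * nd (nd z0 u) v + 2 := by
      have := hnn v hv
      linarith
    have h2 : (((3 * nd (nd z0 u) v + 2).toNat : ℕ) : ℤ) = 3 * nd (nd z0 u) v + 2 :=
      Int.toNat_of_nonneg h1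
    exact_mod_cast h2
  have hlu : ∀ v ∈ S, ∀ k ∈ u ++ v, 1 ≤ k := by
    intro v hv k hk
    rcases List.mem_append.1 hk with hk | hk
    · exact hu k hk
    · exact (hS v hv).1 k hk
  have hau : ∀ v ∈ S, Ala z0 (u ++ v) := by
    intro v hv
    rw [ala_append]
    exact ⟨hua, (hS v hv).2.1⟩
  apply Finset.card_le_card_of_injOn (fun v => (3 * nd (nd z0 u) v + 2).toNat)
  · intro v hv
    have hv' : v ∈ S := hv
    obtain ⟨h1, h2, h3, h4, h5, h6, h7⟩ := hS v hv'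
    have hc := hcast v hv'
    set N : ℕ := (3 * nd (nd z0 u) v + 2).toNat with hN
    have hN1 : (1 : ℝ) ≤ N := by rw [hc]; linarith
    have hN0 : (0 : ℝ) < N := by linarith
    have hnd : nd z0 (u ++ v) = nd (nd z0 u) v := nd_append _ _ _
    rw [← hc] at h3 h4 h7
    rw [← ha0, Real.log_div hN0.ne' (by linarith)] at h7
    have hlog : 2 * ((Rw u : ℝ) + (c0 + 2) + u.sum + j0 + 8 * Real.log a0) ≤
        ε * Real.log N := by
      have h8 : 2 * ((Rw u : ℝ) + (c0 + 2) + u.sum + j0 + 8 * Real.log a0) / ε ≤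
          Real.log N := by
        rw [Real.le_log_iff_exp_le hN0]
        refine le_trans ?_ h3
        rw [le_div_iff₀ hQ0]
        linarith
      rw [div_le_iff₀ hε] at h8
      linarith
    obtain ⟨c, hc1, hc2, hc3⟩ := circG hz0 hc0 (hlu v hv') (hau v hv')
    have hhit := hitG hz0 (hlu v hv') (hau v hv')
    rw [hnd, ← hN] at hc1 hhit
    obtain ⟨hj1, hj2⟩ := FinG_hit hhit hz5 hj01 hj02
    obtain ⟨hR1, hR2⟩ := Rw_append u v
    have hc2' : (Rw v : ℝ) ≤ c := by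
      have : Rw v ≤ c := by omega
      exact_mod_cast this
    have hc3' : (c : ℝ) ≤ Rw v + Rw u + (c0 + 2) := by
      have : c ≤ Rw v + Rw u + (c0 + 2) := by omega
      exact_mod_cast this
    have hsum : ((((u ++ v).sum + j0 : ℕ)) : ℝ) = (u.sum : ℝ) + (v.sum : ℝ) + j0 := by
      rw [List.sum_append, Nat.cast_add, Nat.cast_add]
    obtain ⟨g1, g2⟩ := FinG_est (c := (c : ℝ)) (r := (Rw v : ℝ)) (R0 := (Rw u : ℝ))
      (C := (c0 : ℝ) + 2) (j0 := (j0 : ℝ))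
      (s := (v.sum : ℝ)) (s0 := (u.sum : ℝ)) (j := (((u ++ v).sum + j0 : ℕ) : ℝ)) hε hε1.le
      (Nat.cast_nonneg v.length) hA hΛ h7 (Nat.cast_nonneg _) (by positivity) h6 hc2' hc3' h5
      (Nat.cast_nonneg _) (Nat.cast_nonneg _) hsum hlog
    simp only [Finset.coe_filter, Set.mem_ofPred_eq, Finset.mem_Icc]
    refine ⟨⟨?_, ?_⟩, ?_, ?_, ?_⟩
    · exact_mod_cast hN1
    · exact Nat.le_floor h4.le
    · refine ⟨im + (u ++ v).sum, ?_⟩
      rw [Function.iterate_add_apply, hhit, him]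
    · refine ⟨c, hc1, ?_⟩
      rw [hΛ2]
      exact g1
    · exact ⟨(u ++ v).sum + j0, hj1, hj2, g2⟩
  · intro v hv v' hv' h
    have hv1 : v ∈ S := hv
    have hv2 : v' ∈ S := hv'
    have h0 : (3 * nd (nd z0 u) v + 2).toNat = (3 * nd (nd z0 u) v' + 2).toNat := h
    have h1 := hnn v hv1
    have h2 := hnn v' hv2
    have h3 : nd (nd z0 u) v = nd (nd z0 u) v' := by omega
    have h4 : u ++ v = u ++ v' := by
      refine injG hz0 hz1 (hlu v hv1) (hlu v' hv2) (hau v hv1) (hau v' hv2) ?_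
      rw [nd_append, nd_append]
      exact h3
    exact List.append_cancel_left h4

open Classical in
theorem mainG {m : ℕ} (h3 : ¬ 3 ∣ m) (h1 : ∃ i, f^[i] m = 1) {ε : ℝ} (hε : 0 < ε) :
    ∃ x0 : ℝ, ∀ x : ℝ, x0 ≤ x →
    x ^ (1 - ε) ≤ (((Icc 1 ⌊x⌋₊).filter (fun n : ℕ => (∃ i, f^[i] n = m) ∧
      (∃ c : ℕ, HasC n c ∧ |(c : ℝ) - Real.log n / Real.log (16 / 9)| ≤ ε * Real.log n) ∧
        ∃ j : ℕ, f^[j] n = 1 ∧ (∀ i < j, f^[i] n ≠ 1) ∧
          |(j : ℝ) - 2 * Real.log n / Real.log (4 / 3)| ≤ ε * Real.log n)).card : ℝ) := by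
  obtain ⟨x0, h⟩ := FinG_main h3 h1 (ε := min ε (1 / 2)) (lt_min hε (by norm_num))
    (lt_of_le_of_lt (min_le_right _ _) (by norm_num))
  refine ⟨x0, fun x hx => ?_⟩
  obtain ⟨hx1, hx2⟩ := h x hx
  have hle : min ε (1 / 2) ≤ ε := min_le_left _ _
  refine (Real.rpow_le_rpow_of_exponent_le hx1 (by linarith : 1 - ε ≤ 1 - min ε (1 / 2))).trans
    (hx2.trans ?_)
  rw [Nat.cast_le]
  apply Finset.card_le_card
  intro n hn
  rw [Finset.mem_filter] at hn ⊢
  obtain ⟨hn1, hnm, ⟨c, hc, hc'⟩, j, hj1, hj2, hj3⟩ := hn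
  have hlog : 0 ≤ Real.log n := by
    apply Real.log_nonneg
    exact_mod_cast (Finset.mem_Icc.1 hn1).1
  have hmul : min ε (1 / 2) * Real.log n ≤ ε * Real.log n := mul_le_mul_of_nonneg_right hle hlog
  exact ⟨hn1, hnm, ⟨c, hc, hc'.trans hmul⟩, j, hj1, hj2, hj3.trans hmul⟩

end Pool.Agent.helper14.EX1
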