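import Pool.Agent.helper14.EX1.Wrd

/-!
# EX1-Nod: sizes of the nodes

By induction on the word from `Tk_node`: `3 a' = 2 ^ k a - c`, `c ∈ {1, 2}`, `c ≤ 2 ^ k - 1`... For `nd_ge`:
`3 ^ n a_n ≥ 2 ^ N' (3 a_1 - 3 ^ n) = 2 ^ N' (2 ^ k a - c - 3 ^ n) ≥ 2 ^ (N' + k) (a - 3 ^ n)` as `(2 ^ k - 1) 3 ^ n ≥ c`.
-/

namespace Pool.Agent.helper14.EX1

/-- One step: `3 a' = 2 ^ k a - c` with `1 ≤ c ≤ 2` and `2 ≤ 2 ^ k`. -/
theorem Nod_step {k : ℕ} (hk : 1 ≤ k) {x : ℤ} (h : Al k x) :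
    3 * (3 * Tk k x + 2) ≤ 2 ^ k * (3 * x + 2) - 1 ∧
      2 ^ k * (3 * x + 2) - 2 ≤ 3 * (3 * Tk k x + 2) := by
  have h1 := Tk_node hk h
  rw [h1]
  split_ifs <;> constructor <;> linarith

theorem Nod_two {k : ℕ} (hk : 1 ≤ k) : (2 : ℤ) ≤ 2 ^ k := by
  obtain ⟨j, rfl⟩ := Nat.exists_eq_add_of_le hk
  have h : (1 : ℤ) ≤ 2 ^ j := one_le_pow₀ (by norm_num)
  rw [pow_add, pow_one]
  linarith

theorem nd_nn {x : ℤ} {v : List ℕ} (hx : 0 ≤ x) (hv : ∀ k ∈ v, 1 ≤ k) (h : Ala x v) : 0 ≤ nd x v := by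
  induction v generalizing x with
  | nil => simpa [nd] using hx
  | cons k v ih =>
    obtain ⟨h1, h2⟩ := h
    have hk : 1 ≤ k := hv k (by simp)
    have hs := (Nod_step hk h1).2
    have ht := Nod_two hk
    have hp : (2 : ℤ) * 2 ≤ 2 ^ k * (3 * x + 2) :=
      mul_le_mul ht (by linarith) (by norm_num) (by positivity)
    have h0 : 0 ≤ Tk k x := by
      by_contra hc
      have : Tk k x ≤ -1 := by omega
      linarith
    exact ih h0 (fun j hj => hv j (by simp [hj])) h2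

theorem nd_le {x : ℤ} {v : List ℕ} (hv : ∀ k ∈ v, 1 ≤ k) (h : Ala x v) :
    3 ^ v.length * (3 * nd x v + 2) ≤ 2 ^ v.sum * (3 * x + 2) := by
  induction v generalizing x with
  | nil => simp [nd]
  | cons k v ih =>
    obtain ⟨h1, h2⟩ := h
    have hk : 1 ≤ k := hv k (by simp)
    have hs := (Nod_step hk h1).1
    have hi := ih (fun j hj => hv j (by simp [hj])) h2
    have hp : (0 : ℤ) ≤ 2 ^ v.sum := by positivity
    have h3 : (2 : ℤ) ^ v.sum * (3 * (3 * Tk k x + 2)) ≤ 2 ^ v.sum * (2 ^ k * (3 * x + 2) - 1) :=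
      mul_le_mul_of_nonneg_left hs hp
    simp only [nd, List.length_cons, List.sum_cons, pow_succ, pow_add] at *
    nlinarith [hi, h3, hp]

theorem nd_ge {x : ℤ} {v : List ℕ} (hv : ∀ k ∈ v, 1 ≤ k) (h : Ala x v) :
    2 ^ v.sum * (3 * x + 2 - 3 ^ v.length) ≤ 3 ^ v.length * (3 * nd x v + 2) := by
  induction v generalizing x with
  | nil => simp [nd]
  | cons k v ih =>
    obtain ⟨h1, h2⟩ := h
    have hk : 1 ≤ k := hv k (by simp)
    have hs := (Nod_step hk h1).2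
    have ht := Nod_two hk
    have hi := ih (fun j hj => hv j (by simp [hj])) h2
    have hp : (0 : ℤ) ≤ 2 ^ v.sum := by positivity
    have h3 : (2 : ℤ) ^ v.sum * (2 ^ k * (3 * x + 2) - 2) ≤ 2 ^ v.sum * (3 * (3 * Tk k x + 2)) :=
      mul_le_mul_of_nonneg_left hs hp
    have h4 : (1 : ℤ) ≤ 3 ^ v.length := one_le_pow₀ (by norm_num)
    have h5 : (2 : ℤ) ≤ (2 ^ k - 1) * (3 ^ v.length * 3) := by nlinarith
    have h6 : (2 : ℤ) ^ v.sum * 2 ≤ 2 ^ v.sum * ((2 ^ k - 1) * (3 ^ v.length * 3)) :=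
      mul_le_mul_of_nonneg_left h5 hp
    simp only [nd, List.length_cons, List.sum_cons, pow_succ, pow_add] at *
    nlinarith [hi, h3, h6, hp]

end Pool.Agent.helper14.EX1
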