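import Pool.Agent.helper14.EX1.InjZ
import Pool.Agent.helper14.EX1.Nod

/-!
# EX1-Five: different words from the node `5` (`x = 1`) lead to different nodes

As `K3X/BsI.lean` (file K3X_BsI.lean in the store).  (1) no allowed word from `x = 1` ends in `x = 0` (node `2`): if
`Tk k y = 0` then `2 ^ k (3 y + 2) = 3 * 2 + 2 = 8` (`k` even as the child is even), so `k = 2` and `3 y + 2 = 2`, `y = 0`: go
down.  (2) no nonempty allowed word ends in `x = 1` (node `5`): `2 ^ k (3y+2) = 16`, `k` odd: `3 y + 2 = 8` (`k = 1`, not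
possible for a node after a step: divisible by 4; and `5 ≠ 8`) or `3 y + 2 = 2` (`k = 3`, excluded by (1)).
(3) induction from the right with `step_inj` (`5` is not divisible by `4`).
-/

namespace Pool.Agent.helper14.EX1

theorem Five_snoc (v : List ℕ) (k : ℕ) : nd 1 (v ++ [k]) = Tk k (nd 1 v) := by
  rw [nd_append]
  rfl

theorem Five_ala {v : List ℕ} {k : ℕ} (h : Ala 1 (v ++ [k])) : Ala 1 v ∧ Al k (nd 1 v) := by
  rw [ala_append] at h
  exact ⟨h.1, h.2.1⟩

theorem Five_let {v : List ℕ} {k : ℕ} (h : ∀ j ∈ v ++ [k], 1 ≤ j) : (∀ j ∈ v, 1 ≤ j) ∧ 1 ≤ k :=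
  ⟨fun j hj => h j (List.mem_append_left _ hj), h k (by simp)⟩

/-- A node reached from `5` is not divisible by `4`. -/
theorem Five_four {v : List ℕ} (hv : ∀ k ∈ v, 1 ≤ k) (h : Ala 1 v) : ¬ (4 : ℤ) ∣ 3 * nd 1 v + 2 := by
  induction v using List.reverseRecOn with
  | nil =>
    show ¬ (4 : ℤ) ∣ 3 * 1 + 2
    decide
  | append_singleton v k _ =>
    rw [Five_snoc]
    exact child_four (Five_let hv).2 (Five_ala h).2

/-- The equation for the last step. -/
theorem Five_eq {k : ℕ} (hk : 1 ≤ k) {y a : ℤ} (h : Al k y) (e : Tk k y = a) :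
    (k % 2 = 1 ∧ 2 ^ k * (3 * y + 2) = 3 * (3 * a + 2) + 1) ∨
      (k % 2 = 0 ∧ 2 ^ k * (3 * y + 2) = 3 * (3 * a + 2) + 2) := by
  have h1 := Tk_node hk h
  rw [e] at h1
  rcases Nat.mod_two_eq_zero_or_one k with h2 | h2
  · right
    rw [if_neg (by omega)] at h1
    exact ⟨h2, by linarith⟩
  · left
    rw [if_pos h2] at h1
    exact ⟨h2, by linarith⟩

theorem nd1_ne_zero {v : List ℕ} (hv : ∀ k ∈ v, 1 ≤ k) (h : Ala 1 v) : nd 1 v ≠ 0 := by
  induction v using List.reverseRecOn with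
  | nil =>
    show (1 : ℤ) ≠ 0
    decide
  | append_singleton v k ih =>
    obtain ⟨hv1, hk⟩ := Five_let hv
    obtain ⟨h1, h2⟩ := Five_ala h
    rw [Five_snoc]
    intro e
    have ih1 := ih hv1 h1
    rcases Five_eq hk h2 e with ⟨_, h3⟩ | ⟨h4, h3⟩
    · obtain ⟨j, rfl⟩ := Nat.exists_eq_add_of_le' hk
      have h5 : (2 : ℤ) ∣ 3 * (3 * 0 + 2) + 1 := ⟨2 ^ j * (3 * nd 1 v + 2), by rw [← h3]; ring⟩
      omega
    · obtain ⟨j, rfl⟩ : ∃ j, k = j + 2 := ⟨k - 2, by omega⟩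
      rcases j with _ | _ | j
      · norm_num at h3
        omega
      · omega
      · have h5 : (16 : ℤ) ∣ 8 := ⟨2 ^ j * (3 * nd 1 v + 2), by
          have h6 : (8 : ℤ) = 2 ^ (j + 1 + 1 + 2) * (3 * nd 1 v + 2) := by
            rw [h3]
            norm_num
          rw [h6]
          ring⟩
        omega

/-- A nonempty word from `5` does not lead back to `5`. -/
theorem Five_ne {v : List ℕ} {k : ℕ} (hv : ∀ j ∈ v ++ [k], 1 ≤ j) (h : Ala 1 (v ++ [k])) :
    nd 1 (v ++ [k]) ≠ 1 := by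
  obtain ⟨hv1, hk⟩ := Five_let hv
  obtain ⟨h1, h2⟩ := Five_ala h
  rw [Five_snoc]
  intro e
  have h0 := nd1_ne_zero hv1 h1
  have h4 := Five_four hv1 h1
  rcases Five_eq hk h2 e with ⟨h5, h3⟩ | ⟨_, h3⟩
  · obtain ⟨j, rfl⟩ := Nat.exists_eq_add_of_le' hk
    rcases j with _ | _ | _ | _ | j
    · norm_num at h3
      omega
    · omega
    · norm_num at h3
      omega
    · omega
    · have h7 : (32 : ℤ) ∣ 16 := ⟨2 ^ j * (3 * nd 1 v + 2), by
        have h6 : (16 : ℤ) = 2 ^ (j + 1 + 1 + 1 + 1 + 1) * (3 * nd 1 v + 2) := by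
          rw [h3]
          norm_num
        rw [h6]
        ring⟩
      omega
  · obtain ⟨j, rfl⟩ := Nat.exists_eq_add_of_le' hk
    have h5 : (2 : ℤ) ∣ 3 * (3 * 1 + 2) + 2 := ⟨2 ^ j * (3 * nd 1 v + 2), by rw [← h3]; ring⟩
    omega

theorem inj1 {v w : List ℕ} (hv : ∀ k ∈ v, 1 ≤ k) (hw : ∀ k ∈ w, 1 ≤ k) (av : Ala 1 v)
    (aw : Ala 1 w) (e : nd 1 v = nd 1 w) : v = w := by
  induction v using List.reverseRecOn generalizing w with
  | nil =>
    rcases List.eq_nil_or_concat' w with rfl | ⟨u, j, rfl⟩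
    · rfl
    · exact absurd e.symm (Five_ne hw aw)
  | append_singleton v i ih =>
    rcases List.eq_nil_or_concat' w with rfl | ⟨u, j, rfl⟩
    · exact absurd e (Five_ne hv av)
    · obtain ⟨hv1, hi⟩ := Five_let hv
      obtain ⟨hw1, hj⟩ := Five_let hw
      obtain ⟨a1, a2⟩ := Five_ala av
      obtain ⟨b1, b2⟩ := Five_ala aw
      rw [Five_snoc, Five_snoc] at e
      obtain ⟨hij, ha⟩ := step_inj hi hj a2 b2 (Five_four hv1 a1) (Five_four hw1 b1) e
      rw [hij, ih hv1 hw1 a1 b1 ha]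

end Pool.Agent.helper14.EX1
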