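import Pool.Agent.helper14.EX1.InjZ
import Pool.Agent.helper14.EX1.Nod
import Pool.Agent.helper41.Coll.Exist
import Pool.Agent.helper41.Coll.Back

/-!
# EX1-FiveG: steps and injectivity from a general start `a0 = 3 x0 + 2 ≥ 5` which reaches `1`

`hitG`: the letter `k` is `k` steps of `f` (see `steps1` of EX1-Cir: `k` odd: the child `a` is odd, `f a = 2 ^ (k-1) b`; `k` even:
`a = 2 m`, `m` odd, `f a = m`, and `f m = 2 ^ (k-2) b` if `m ≠ 1`).  `m = 1`, i.e. child `2`, is not possible: the child would reach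
`1` and then `f^[..]` stays at `1`; more precisely no allowed word from `x0 ≥ 1` ends in `x = 0`: prove
`ndG_ne` first: if `nd x0 v = 0` then the last letter `k` and its parent `b` satisfy `2 ^ k b = 8`, `k` even `≥ 2`, so `k = 2`, `b = 2`,
i.e. the parent is `x = 0` again; go down to `x0 ≥ 1`.
`injG`: `f^[v.sum] n = a0 = f^[w.sum] n` for the common node `n`.  (1) `v.sum ≠ w.sum`: then `a0` is periodic, but it reaches `1` and
`f 1 = 1`, so `a0 = 1`, contradiction.  (2) `v.sum = w.sum`: induction from the right on both words; last letters `k, k'`, parents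
`b, b'`: same parity and `2 ^ k b = 2 ^ k' b'` (as in InjZ).  If both remaining words are nonempty, `b, b'` are not divisible by `4`
(`child_four`), `step_inj`.  If one is empty, say `b = a0`, and the other `w'` is not: `k = w'.sum + k'`, so
`b' = 2 ^ (k - k') a0` with `k - k' ≥ 1` even is divisible by `4`, contradiction to `child_four`.
-/

namespace Pool.Agent.helper14.EX1

open Pool.Agent.helper41.Coll

theorem FiveG_snoc (x0 : ℤ) (v : List ℕ) (k : ℕ) : nd x0 (v ++ [k]) = Tk k (nd x0 v) := by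
  rw [nd_append]
  rfl

theorem FiveG_ala {x0 : ℤ} {v : List ℕ} {k : ℕ} (h : Ala x0 (v ++ [k])) :
    Ala x0 v ∧ Al k (nd x0 v) := by
  rw [ala_append] at h
  exact ⟨h.1, h.2.1⟩

theorem FiveG_let {v : List ℕ} {k : ℕ} (h : ∀ j ∈ v ++ [k], 1 ≤ j) : (∀ j ∈ v, 1 ≤ j) ∧ 1 ≤ k :=
  ⟨fun j hj => h j (List.mem_append_left _ hj), h k (by simp)⟩

/-- A node after at least one step is not divisible by `4`. -/
theorem FiveG_four {x0 : ℤ} {v : List ℕ} (hv : ∀ k ∈ v, 1 ≤ k) (h : Ala x0 v) (hne : v ≠ []) :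
    ¬ (4 : ℤ) ∣ 3 * nd x0 v + 2 := by
  rcases List.eq_nil_or_concat' v with rfl | ⟨u, k, rfl⟩
  · exact absurd rfl hne
  · rw [FiveG_snoc]
    exact child_four (FiveG_let hv).2 (FiveG_ala h).2

/-- The equation for the last step. -/
theorem FiveG_eq {k : ℕ} (hk : 1 ≤ k) {y a : ℤ} (h : Al k y) (e : Tk k y = a) :
    (k % 2 = 1 ∧ 2 ^ k * (3 * y + 2) = 3 * (3 * a + 2) + 1) ∨
      (k % 2 = 0 ∧ 2 ^ k * (3 * y + 2) = 3 * (3 * a + 2) + 2) := by
  have h1 := Tk_node hk h
  rw [e] at h1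
  rcases Nat.mod_two_eq_zero_or_one k with h2 | h2
  · right
    rw [if_neg (by omega)] at h1
    exact ⟨h2, by linarith⟩
  · left
    rw [if_pos h2] at h1
    exact ⟨h2, by linarith⟩

theorem FiveG_even {k : ℕ} (hk : 1 ≤ k) (b : ℤ) : ∃ c : ℤ, 2 ^ k * b = 2 * c := by
  obtain ⟨j, rfl⟩ := Nat.exists_eq_add_of_le' hk
  exact ⟨2 ^ j * b, by ring⟩

theorem ndG_ne {x0 : ℤ} (hx : 1 ≤ x0) {v : List ℕ} (hv : ∀ k ∈ v, 1 ≤ k) (h : Ala x0 v) :
    nd x0 v ≠ 0 := by
  induction v using List.reverseRecOn with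
  | nil =>
    show x0 ≠ 0
    omega
  | append_singleton v k ih =>
    obtain ⟨hv1, hk⟩ := FiveG_let hv
    obtain ⟨h1, h2⟩ := FiveG_ala h
    rw [FiveG_snoc]
    intro e
    have ih1 := ih hv1 h1
    rcases FiveG_eq hk h2 e with ⟨_, h3⟩ | ⟨h4, h3⟩
    · obtain ⟨c, hc⟩ := FiveG_even hk (3 * nd x0 v + 2)
      omega
    · obtain ⟨j, rfl⟩ : ∃ j, k = j + 2 := ⟨k - 2, by omega⟩
      rcases j with _ | _ | j
      · norm_num at h3
        omega
      · omega
      · have h5 : (16 : ℤ) ∣ 8 := ⟨2 ^ j * (3 * nd x0 v + 2), by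
          have h6 : (8 : ℤ) = 2 ^ (j + 1 + 1 + 2) * (3 * nd x0 v + 2) := by
            rw [h3]
            norm_num
          rw [h6]
          ring⟩
        omega

theorem FiveG_pos {x0 : ℤ} (hx : 1 ≤ x0) {v : List ℕ} (hv : ∀ k ∈ v, 1 ≤ k) (h : Ala x0 v) :
    1 ≤ nd x0 v := by
  have h1 := nd_nn (by omega) hv h
  have h2 := ndG_ne hx hv h
  omega

/-- Halvings. -/
theorem FiveG_half (b : ℕ) : ∀ j : ℕ, f^[j] (2 ^ j * b) = b := by
  intro j
  induction j with
  | zero => simp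
  | succ j ih =>
    rw [Function.iterate_succ_apply]
    have h1 : 2 ^ (j + 1) * b = 2 * (2 ^ j * b) := by ring
    rw [h1, f_even, ih]

theorem FiveG_odd {m q : ℕ} (hm : m ≠ 1) (h : 3 * m + 1 = 2 * q) : f m = q := by
  unfold f
  rw [if_neg hm, if_pos (by omega)]
  omega

/-- The letter `k` is `k` steps of `f`. -/
theorem FiveG_step {k : ℕ} (hk : 1 ≤ k) {y : ℤ} (hy : 1 ≤ y) (h : Al k y) (hc : 1 ≤ Tk k y) :
    f^[k] (3 * Tk k y + 2).toNat = (3 * y + 2).toNat := by
  obtain ⟨a, ha⟩ : ∃ a : ℕ, (a : ℤ) = 3 * Tk k y + 2 := ⟨(3 * Tk k y + 2).toNat, by omega⟩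
  obtain ⟨b, hb⟩ : ∃ b : ℕ, (b : ℤ) = 3 * y + 2 := ⟨(3 * y + 2).toNat, by omega⟩
  have e1 : (3 * Tk k y + 2).toNat = a := by omega
  have e2 : (3 * y + 2).toNat = b := by omega
  rw [e1, e2]
  have h3 := FiveG_eq hk h rfl
  rw [← ha, ← hb] at h3
  rcases h3 with ⟨h4, h3⟩ | ⟨h4, h3⟩
  · have h5 : 2 ^ k * b = 3 * a + 1 := by exact_mod_cast h3
    obtain ⟨j, rfl⟩ := Nat.exists_eq_add_of_le' hk
    rw [Function.iterate_succ_apply, FiveG_odd (m := a) (q := 2 ^ j * b) (by omega)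
      (by rw [← h5]; ring)]
    exact FiveG_half b j
  · have h5 : 2 ^ k * b = 3 * a + 2 := by exact_mod_cast h3
    obtain ⟨j, rfl⟩ : ∃ j, k = j + 2 := ⟨k - 2, by omega⟩
    have h6 : 4 * (2 ^ j * b) = 3 * a + 2 := by rw [← h5]; ring
    obtain ⟨m, hm⟩ : ∃ m, a = 2 * m := ⟨a / 2, by omega⟩
    rw [Function.iterate_add_apply f j 2 a]
    have h7 : f^[2] a = 2 ^ j * b := by
      show f (f a) = 2 ^ j * b
      rw [hm, f_even]
      exact FiveG_odd (by omega) (by omega)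
    rw [h7]
    exact FiveG_half b j

theorem hitG {x0 : ℤ} (hx : 1 ≤ x0) {v : List ℕ} (hv : ∀ k ∈ v, 1 ≤ k) (h : Ala x0 v) :
    f^[v.sum] (3 * nd x0 v + 2).toNat = (3 * x0 + 2).toNat := by
  induction v using List.reverseRecOn with
  | nil => rfl
  | append_singleton v k ih =>
    obtain ⟨hv1, hk⟩ := FiveG_let hv
    obtain ⟨h1, h2⟩ := FiveG_ala h
    have h3 := FiveG_pos hx hv h
    rw [FiveG_snoc] at h3
    rw [FiveG_snoc, List.sum_append, List.sum_singleton, Function.iterate_add_apply,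
      FiveG_step hk (FiveG_pos hx hv1 h1) h2 h3]
    exact ih hv1 h1

/-- The sums of two words with the same end are not different. -/
theorem FiveG_sum {x0 : ℤ} (hx : 1 ≤ x0) (h1 : ∃ i, f^[i] (3 * x0 + 2).toNat = 1) {v w : List ℕ}
    (hv : ∀ k ∈ v, 1 ≤ k) (hw : ∀ k ∈ w, 1 ≤ k) (av : Ala x0 v) (aw : Ala x0 w)
    (e : nd x0 v = nd x0 w) : ¬ v.sum < w.sum := by
  intro hlt
  obtain ⟨i, hi⟩ := h1
  have e1 := hitG hx hv av
  have e2 := hitG hx hw aw
  rw [← e] at e2
  obtain ⟨d, hd⟩ : ∃ d, w.sum = (d + 1) + v.sum := ⟨w.sum - v.sum - 1, by omega⟩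
  rw [hd, Function.iterate_add_apply, e1] at e2
  have e3 : f^[(d + 1) * i] (3 * x0 + 2).toNat = (3 * x0 + 2).toNat := by
    rw [Function.iterate_mul]
    exact Function.iterate_fixed e2 i
  have e4 : (d + 1) * i = d * i + i := by ring
  rw [e4, Function.iterate_add_apply, hi] at e3
  have e5 : f^[d * i] 1 = 1 := Function.iterate_fixed (by simp [f]) _
  rw [e5] at e3
  omega

/-- Injectivity for words with the same sum. -/
theorem FiveG_inj {x0 : ℤ} {v w : List ℕ}
    (hv : ∀ k ∈ v, 1 ≤ k) (hw : ∀ k ∈ w, 1 ≤ k) (av : Ala x0 v) (aw : Ala x0 w)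
    (e : nd x0 v = nd x0 w) (hs : v.sum = w.sum) : v = w := by
  induction v using List.reverseRecOn generalizing w with
  | nil =>
    rcases List.eq_nil_or_concat' w with rfl | ⟨u, j, rfl⟩
    · rfl
    · exfalso
      have h1 := (FiveG_let hw).2
      rw [List.sum_append, List.sum_singleton, List.sum_nil] at hs
      omega
  | append_singleton v i ih =>
    rcases List.eq_nil_or_concat' w with rfl | ⟨u, j, rfl⟩
    · exfalso
      have h1 := (FiveG_let hv).2
      rw [List.sum_append, List.sum_singleton, List.sum_nil] at hs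
      omega
    · obtain ⟨hv1, hi⟩ := FiveG_let hv
      obtain ⟨hw1, hj⟩ := FiveG_let hw
      obtain ⟨a1, a2⟩ := FiveG_ala av
      obtain ⟨b1, b2⟩ := FiveG_ala aw
      rw [FiveG_snoc, FiveG_snoc] at e
      rw [List.sum_append, List.sum_singleton, List.sum_append, List.sum_singleton] at hs
      obtain ⟨c1, hc1⟩ := FiveG_even hi (3 * nd x0 v + 2)
      obtain ⟨c2, hc2⟩ := FiveG_even hj (3 * nd x0 u + 2)
      have key : i % 2 = j % 2 ∧ 2 ^ i * (3 * nd x0 v + 2) = 2 ^ j * (3 * nd x0 u + 2) := by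
        rcases FiveG_eq hi a2 e with ⟨p1, p2⟩ | ⟨p1, p2⟩ <;>
          rcases FiveG_eq hj b2 rfl with ⟨q1, q2⟩ | ⟨q1, q2⟩ <;> constructor <;> omega
      obtain ⟨hpar, heq⟩ := key
      rcases lt_trichotomy i j with hlt | hij | hlt
      · exfalso
        have hne : v ≠ [] := by
          rintro rfl
          rw [List.sum_nil] at hs
          omega
        refine FiveG_four hv1 a1 hne ?_
        obtain ⟨d, rfl⟩ : ∃ d, j = i + 2 + d := ⟨j - i - 2, by omega⟩
        refine ⟨2 ^ d * (3 * nd x0 u + 2), ?_⟩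
        have h2 : (2 : ℤ) ^ i ≠ 0 := by positivity
        refine mul_left_cancel₀ h2 ?_
        rw [heq]
        ring
      · subst hij
        have h2 : (2 : ℤ) ^ i ≠ 0 := by positivity
        have h3 := mul_left_cancel₀ h2 heq
        have h4 : nd x0 v = nd x0 u := by omega
        rw [ih hv1 hw1 a1 b1 h4 (by omega)]
      · exfalso
        have hne : u ≠ [] := by
          rintro rfl
          rw [List.sum_nil] at hs
          omega
        refine FiveG_four hw1 b1 hne ?_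
        obtain ⟨d, rfl⟩ : ∃ d, i = j + 2 + d := ⟨i - j - 2, by omega⟩
        refine ⟨2 ^ d * (3 * nd x0 v + 2), ?_⟩
        have h2 : (2 : ℤ) ^ j ≠ 0 := by positivity
        refine mul_left_cancel₀ h2 ?_
        rw [← heq]
        ring

theorem injG {x0 : ℤ} (hx : 1 ≤ x0) (h1 : ∃ i, f^[i] (3 * x0 + 2).toNat = 1) {v w : List ℕ}
    (hv : ∀ k ∈ v, 1 ≤ k) (hw : ∀ k ∈ w, 1 ≤ k) (av : Ala x0 v) (aw : Ala x0 w)
    (e : nd x0 v = nd x0 w) : v = w := by
  have h2 := FiveG_sum hx h1 hv hw av aw e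
  have h3 := FiveG_sum hx h1 hw hv aw av e.symm
  exact FiveG_inj hv hw av aw e (by omega)

end Pool.Agent.helper14.EX1
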