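import Pool.Agent.helper14.EX1.Rec
import Pool.Agent.helper14.EX1.Aliv

/-!
# EX1-Free: the free energy is zero

`μ = ∑_{i<n} al K i`.  Summation by parts: `∑_{j=1}^{n-1} (al (j-1) - al j) j + al (n-1) n = μ` and
`∑_{j=1}^{n-1} (al (j-1) - al j) + al (n-1) = al 0 = 1`.  By strong induction on `M`:
`psi K M ≥ -n log 4 - (log 8 / μ) M` (`psi_crude` for `M < n`, `psi_rec` for `M ≥ n`; the coefficients are `≥ 0`: `al_anti`).
`μ ≥ ∑_{1 ≤ i < n} 1 / (26738688 i)` (`al_low`, if `n ≤ 2 ^ (K-1)`), which tends to infinity with `n`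
(`Real.tendsto_sum_range_one_div_nat_succ_atTop`).  Given `δ`: `n` with `log 8 / μ ≤ δ/4` for all such `K`, then `K` with
`n ≤ 2 ^ (K-1)`, `2 * (1/2) ^ K ≤ δ/4` (so `log (th K) ≥ -δ/4`), then `M0` with `n log 4 ≤ (δ/4) M0`;
`log FF = M log th + log fn` (`FF_eq`, `fn_pos`).
-/

namespace Pool.Agent.helper14.EX1

open Finset

theorem Free_s0 (a : ℕ → ℝ) (m : ℕ) : ∑ j ∈ Icc 1 m, (a (j - 1) - a j) = a 0 - a m := by
  induction m with
  | zero => simp
  | succ m ih =>
    rw [Finset.sum_Icc_succ_top (by omega), ih, Nat.add_sub_cancel]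
    ring

theorem Free_s1 (a : ℕ → ℝ) (m : ℕ) :
    ∑ j ∈ Icc 1 m, (a (j - 1) - a j) * (j : ℝ) = ∑ i ∈ range m, a i - m * a m := by
  induction m with
  | zero => simp
  | succ m ih =>
    rw [Finset.sum_Icc_succ_top (by omega), ih, Nat.add_sub_cancel, Finset.sum_range_succ]
    push_cast
    ring

/-- the renewal inequality -/
theorem Free_ren {a ps : ℕ → ℝ} {n : ℕ} (hn : 1 ≤ n) (ha0 : a 0 = 1) (hnn : ∀ i, 0 ≤ a i)
    (hanti : ∀ i, a (i + 1) ≤ a i) {A B μ : ℝ} (hB : 0 ≤ B) (hA : 0 ≤ A) (hμ : μ = ∑ i ∈ range n, a i)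
    (hμ0 : 0 < μ) (hcr : ∀ M : ℕ, -(M : ℝ) * B ≤ ps M)
    (hrec : ∀ M, n ≤ M → -A + ∑ j ∈ Icc 1 (n - 1), (a (j - 1) - a j) * ps (M - j) +
      a (n - 1) * ps (M - n) ≤ ps M) (M : ℕ) :
    -(n : ℝ) * B - A / μ * M ≤ ps M := by
  have hAm : 0 ≤ A / μ := div_nonneg hA hμ0.le
  induction M using Nat.strong_induction_on with
  | _ M ih =>
    by_cases hM : M < n
    · refine le_trans ?_ (hcr M)
      have h1 : (M : ℝ) ≤ n := by exact_mod_cast hM.le
      have h2 : (M : ℝ) * B ≤ n * B := mul_le_mul_of_nonneg_right h1 hB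
      have h3 : 0 ≤ A / μ * M := mul_nonneg hAm (Nat.cast_nonneg M)
      linarith
    · rw [not_lt] at hM
      refine le_trans ?_ (hrec M hM)
      have hc : ∀ j ∈ Icc 1 (n - 1), 0 ≤ a (j - 1) - a j := by
        intro j hj
        rw [mem_Icc] at hj
        have := hanti (j - 1)
        rw [Nat.sub_add_cancel hj.1] at this
        linarith
      have h1 : ∑ j ∈ Icc 1 (n - 1), (a (j - 1) - a j) * (-(n : ℝ) * B - A / μ * ((M : ℝ) - j)) ≤
          ∑ j ∈ Icc 1 (n - 1), (a (j - 1) - a j) * ps (M - j) := by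
        refine Finset.sum_le_sum fun j hj => mul_le_mul_of_nonneg_left ?_ (hc j hj)
        have hj' := mem_Icc.1 hj
        have h2 := ih (M - j) (by omega)
        rw [Nat.cast_sub (by omega)] at h2
        exact h2
      have h2 : a (n - 1) * (-(n : ℝ) * B - A / μ * ((M : ℝ) - n)) ≤ a (n - 1) * ps (M - n) := by
        refine mul_le_mul_of_nonneg_left ?_ (hnn _)
        have h3 := ih (M - n) (by omega)
        rw [Nat.cast_sub hM] at h3
        exact h3
      have h3 : ∑ j ∈ Icc 1 (n - 1), (a (j - 1) - a j) * (-(n : ℝ) * B - A / μ * ((M : ℝ) - j)) =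
          (-(n : ℝ) * B - A / μ * M) * ∑ j ∈ Icc 1 (n - 1), (a (j - 1) - a j) +
            A / μ * ∑ j ∈ Icc 1 (n - 1), (a (j - 1) - a j) * (j : ℝ) := by
        rw [Finset.mul_sum, Finset.mul_sum, ← Finset.sum_add_distrib]
        refine Finset.sum_congr rfl fun j _ => ?_
        ring
      rw [Free_s0, Free_s1, ha0] at h3
      have hμ' : μ = ∑ i ∈ range (n - 1), a i + a (n - 1) := by
        rw [hμ]
        obtain ⟨k, rfl⟩ : ∃ k, n = k + 1 := ⟨n - 1, by omega⟩
        rw [Finset.sum_range_succ, Nat.add_sub_cancel]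
      have hn1 : ((n - 1 : ℕ) : ℝ) = n - 1 := by
        rw [Nat.cast_sub hn, Nat.cast_one]
      rw [hn1] at h3
      have h4 : A / μ * μ = A := div_mul_cancel₀ A hμ0.ne'
      have h5 : A / μ * (∑ i ∈ range (n - 1), a i - ((n : ℝ) - 1) * a (n - 1)) =
          A - A / μ * (n * a (n - 1)) := by
        have : ∑ i ∈ range (n - 1), a i = μ - a (n - 1) := by rw [hμ']; ring
        rw [this]
        linear_combination h4
      rw [h5] at h3
      have h6 : -A + ((-(n : ℝ) * B - A / μ * M) * (1 - a (n - 1)) + (A - A / μ * (n * a (n - 1)))) +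
          a (n - 1) * (-(n : ℝ) * B - A / μ * ((M : ℝ) - n)) = -(n : ℝ) * B - A / μ * M := by
        ring
      linarith

theorem Free_avg (M : ℕ) (c : ℝ) (φ : ℤ → ℝ) : avg M (fun x => c + φ x) = c + avg M φ := by
  unfold avg
  rw [Finset.sum_add_distrib, Finset.sum_const, card_range, nsmul_eq_mul, add_div]
  congr 1
  push_cast
  have : (3 : ℝ) ^ M ≠ 0 := by positivity
  field_simp

theorem free {δ : ℝ} (hδ : 0 < δ) : ∃ K : ℕ, 7 ≤ K ∧ ∃ M0 : ℕ, ∀ M ≥ M0,
    -δ * M ≤ avg M (fun x => Real.log (FF K M x)) := by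
  -- choice of `n`
  have hlog8 : 0 < Real.log 8 := Real.log_pos (by norm_num)
  have hlog4 : 0 < Real.log 4 := Real.log_pos (by norm_num)
  obtain ⟨N, hN⟩ := (Real.tendsto_sum_range_one_div_nat_succ_atTop.eventually_ge_atTop
    (26738688 * (4 * Real.log 8 / δ))).exists
  set n : ℕ := N + 1 with hn
  have hn1 : 1 ≤ n := by omega
  -- choice of `K`
  obtain ⟨k, hk⟩ := exists_pow_lt_of_lt_one (show (0 : ℝ) < δ / 8 by positivity)
    (show (1 / 2 : ℝ) < 1 by norm_num)
  obtain ⟨K, hK⟩ : ∃ K, K = max 7 (max (n + 1) k) := ⟨_, rfl⟩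
  have hK7 : 7 ≤ K := by rw [hK]; exact le_max_left _ _
  have hKn : n + 1 ≤ K := by
    rw [hK]
    exact (le_max_left _ _).trans (le_max_right _ _)
  have hKk : k ≤ K := by
    rw [hK]
    exact (le_max_right _ _).trans (le_max_right _ _)
  have hn2 : n ≤ 2 ^ (K - 1) :=
    (Nat.lt_two_pow_self (n := n)).le.trans (Nat.pow_le_pow_right (by norm_num) (by omega))
  have hpow : (1 / 2 : ℝ) ^ K ≤ δ / 8 :=
    (pow_le_pow_of_le_one (by norm_num) (by norm_num) hKk).trans hk.le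
  have hpow2 : (1 / 2 : ℝ) ^ K ≤ 1 / 2 := by
    calc (1 / 2 : ℝ) ^ K ≤ (1 / 2) ^ 1 := pow_le_pow_of_le_one (by norm_num) (by norm_num) (by omega)
      _ = 1 / 2 := by norm_num
  have hpow0 : 0 < (1 / 2 : ℝ) ^ K := by positivity
  -- the logarithm of the normalization
  have hth : 0 < th K := th_pos (by omega)
  have hlogth : -(δ / 4) ≤ Real.log (th K) := by
    have h1 := Real.one_sub_inv_le_log_of_pos hth
    refine le_trans ?_ h1
    have h2 : (th K)⁻¹ ≤ 1 + 2 * (1 / 2 : ℝ) ^ K := by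
      rw [inv_le_iff_one_le_mul₀ hth]
      unfold th
      nlinarith
    linarith
  -- the mean `μ`
  obtain ⟨μ, hμ⟩ : ∃ μ, μ = ∑ i ∈ range n, al K i := ⟨_, rfl⟩
  have hμ1 : 4 * Real.log 8 / δ ≤ μ := by
    rw [hμ, hn, Finset.sum_range_succ']
    have h1 : ∑ i ∈ range N, (1 / 26738688 : ℝ) * (1 / ((i : ℝ) + 1)) ≤
        ∑ i ∈ range N, al K (i + 1) := by
      refine Finset.sum_le_sum fun i hi => ?_
      rw [mem_range] at hi
      have h2 := al_low hK7 (show 1 ≤ i + 1 by omega) (by omega)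
      refine le_trans (le_of_eq ?_) h2
      push_cast
      rw [one_div_mul_one_div]
    rw [← Finset.mul_sum] at h1
    have h3 := al_nn K 0
    have h4 : 26738688 * (4 * Real.log 8 / δ) ≤ ∑ i ∈ range N, (1 / ((i : ℝ) + 1)) := hN
    linarith
  have hμ0 : 0 < μ := lt_of_lt_of_le (by positivity) hμ1
  have hA : Real.log 8 / μ ≤ δ / 4 := by
    rw [div_le_iff₀ hμ0]
    have h1 : 4 * Real.log 8 / δ * (δ / 4) ≤ μ * (δ / 4) :=
      mul_le_mul_of_nonneg_right hμ1 (by positivity)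
    have h2 : 4 * Real.log 8 / δ * (δ / 4) = Real.log 8 := by
      field_simp
    linarith
  have key : ∀ M : ℕ, -(n : ℝ) * Real.log 4 - Real.log 8 / μ * M ≤ psi K M :=
    Free_ren hn1 (al_zero_eq K) (al_nn K) (al_anti K) hlog4.le hlog8.le hμ hμ0
      (fun M => psi_crude (by omega) M) (fun M hM => psi_rec (by omega) hn1 hM)
  -- choice of `M0`
  obtain ⟨M0, hM0⟩ := exists_nat_ge ((n : ℝ) * Real.log 4 / (δ / 4))
  refine ⟨K, hK7, M0, fun M hM => ?_⟩
  have hM1 : (n : ℝ) * Real.log 4 ≤ δ / 4 * M := by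
    have h1 : (n : ℝ) * Real.log 4 / (δ / 4) ≤ M := hM0.trans (by exact_mod_cast hM)
    rw [div_le_iff₀ (by positivity)] at h1
    linarith
  have e : (fun x => Real.log (FF K M x)) =
      fun x => (M : ℝ) * Real.log (th K) + Real.log (fn K M x) := by
    funext x
    rw [FF_eq (by omega), Real.log_mul (pow_ne_zero _ hth.ne') (fn_pos (by omega) M x).ne',
      Real.log_pow]
  rw [e, Free_avg]
  have h1 := key M
  have h2 : -(δ / 4) * M ≤ (M : ℝ) * Real.log (th K) := by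
    have := mul_le_mul_of_nonneg_left hlogth (Nat.cast_nonneg (α := ℝ) M)
    linarith
  have h3 : Real.log 8 / μ * M ≤ δ / 4 * M :=
    mul_le_mul_of_nonneg_right hA (Nat.cast_nonneg M)
  have h4 : avg M (fun x => Real.log (fn K M x)) = psi K M := rfl
  rw [h4]
  have h5 : 0 ≤ δ * M := by positivity
  linarith

end Pool.Agent.helper14.EX1
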