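import Pool.Agent.helper14.EX1.Wrd

/-!
# EX1-Par: lower bounds for the restricted partition function

At every `x` there is an even and an odd letter in `{2, …, 7}` (`al_zero`: 2, 3; `al_one`: 4, 5; `al_two`: 6, 7).
`ff_low`: the map `v ↦ v ++ [λ]`, `λ` the letter at `nd x v` which makes the sum even, is injective from the allowed words
of length `M` with `39 (M+1) ≤ 20 v.sum` to the allowed words of `Vs K (M+1)`, and `ww (v ++ [λ]) ≥ (3/128) ww v`.
`ff_exp`: a word with all letters in `{2, 4, 6}`; `ww ≥ (3/64)^m ≥ exp (-4 m)`.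
`two_words`: letters in `{2, …, 7}`; two choices of the first two letters.
-/

namespace Pool.Agent.helper14.EX1

open Finset

theorem ff_per (K m : ℕ) : Per m (ff K m) := by
  intro x
  unfold ff
  refine Finset.sum_congr rfl ?_
  intro v hv
  have hl : v.length = m := (mem_lw.mp (Finset.mem_filter.mp hv).1).1
  have h := ala_shift v x 1
  rw [hl, mul_one] at h
  by_cases h1 : Ala x v
  · rw [if_pos h1, if_pos (h.mpr h1)]
  · rw [if_neg h1, if_neg (fun h2 => h1 (h.mp h2))]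

/-- The even letter in `{2, 4, 6}` at `x`. -/
def Par_ev (x : ℤ) : ℕ := if x % 3 = 0 then 2 else if x % 3 = 1 then 4 else 6

/-- The odd letter in `{3, 5, 7}` at `x`. -/
def Par_od (x : ℤ) : ℕ := if x % 3 = 0 then 3 else if x % 3 = 1 then 5 else 7

theorem Par_ev_spec (x : ℤ) :
    Al (Par_ev x) x ∧ Par_ev x % 2 = 0 ∧ 2 ≤ Par_ev x ∧ Par_ev x ≤ 6 := by
  have h3 : x % 3 = 0 ∨ x % 3 = 1 ∨ x % 3 = 2 := by omega
  unfold Par_ev
  rcases h3 with h | h | h
  · rw [if_pos h]
    exact ⟨(al_zero h).1, by norm_num, by norm_num, by norm_num⟩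
  · rw [if_neg (by omega), if_pos h]
    exact ⟨(al_one h).1, by norm_num, by norm_num, by norm_num⟩
  · rw [if_neg (by omega), if_neg (by omega)]
    exact ⟨(al_two h).2.1, by norm_num, by norm_num, by norm_num⟩

theorem Par_od_spec (x : ℤ) :
    Al (Par_od x) x ∧ Par_od x % 2 = 1 ∧ 2 ≤ Par_od x ∧ Par_od x ≤ 7 := by
  have h3 : x % 3 = 0 ∨ x % 3 = 1 ∨ x % 3 = 2 := by omega
  unfold Par_od
  rcases h3 with h | h | h
  · rw [if_pos h]
    exact ⟨(al_zero h).2, by norm_num, by norm_num, by norm_num⟩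
  · rw [if_neg (by omega), if_pos h]
    exact ⟨(al_one h).2, by norm_num, by norm_num, by norm_num⟩
  · rw [if_neg (by omega), if_neg (by omega)]
    exact ⟨(al_two h).2.2, by norm_num, by norm_num, by norm_num⟩

/-- The letter at `x` which makes the sum `s` even. -/
def Par_lam (x : ℤ) (s : ℕ) : ℕ := if s % 2 = 0 then Par_ev x else Par_od x

theorem Par_lam_spec (x : ℤ) (s : ℕ) :
    Al (Par_lam x s) x ∧ Even (s + Par_lam x s) ∧ 2 ≤ Par_lam x s ∧ Par_lam x s ≤ 7 := by
  unfold Par_lam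
  obtain ⟨a1, a2, a3, a4⟩ := Par_ev_spec x
  obtain ⟨b1, b2, b3, b4⟩ := Par_od_spec x
  by_cases h : s % 2 = 0
  · rw [if_pos h]
    exact ⟨a1, by rw [Nat.even_iff]; omega, a3, by omega⟩
  · rw [if_neg h]
    exact ⟨b1, by rw [Nat.even_iff]; omega, b3, b4⟩

theorem Par_ww_one (k : ℕ) : ww [k] = 3 / 2 ^ k := by
  rw [ww_cons, ww_nil, mul_one]

theorem Par_quot {k : ℕ} (hk : k ≤ 7) : (3 : ℝ) / 128 ≤ 3 / 2 ^ k := by
  have h : (2 : ℝ) ^ k ≤ 2 ^ 7 := pow_le_pow_right₀ (by norm_num) hk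
  have h2 : (0 : ℝ) < 2 ^ k := by positivity
  rw [div_le_div_iff₀ (by norm_num) h2]
  nlinarith

theorem Par_quot6 {k : ℕ} (hk : k ≤ 6) : (3 : ℝ) / 64 ≤ 3 / 2 ^ k := by
  have h : (2 : ℝ) ^ k ≤ 2 ^ 6 := pow_le_pow_right₀ (by norm_num) hk
  have h2 : (0 : ℝ) < 2 ^ k := by positivity
  rw [div_le_div_iff₀ (by norm_num) h2]
  nlinarith

theorem ff_low {K : ℕ} (hK : 7 ≤ K) (M : ℕ) (x : ℤ) :
    3 / 128 * (FF K M x - Low K M x) ≤ ff K (M + 1) x := by
  classical
  set S : Finset (List ℕ) :=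
    (lw K M).filter (fun v => Ala x v ∧ 39 * (M + 1) ≤ 20 * v.sum) with hS
  set g : List ℕ → List ℕ := fun v => v ++ [Par_lam (nd x v) v.sum] with hg
  have h1 : FF K M x - Low K M x = ∑ v ∈ S, ww v := by
    unfold FF Low
    rw [hS, Finset.sum_filter, ← Finset.sum_sub_distrib]
    refine Finset.sum_congr rfl ?_
    intro v _
    by_cases ha : Ala x v
    · by_cases hb : 20 * v.sum < 39 * (M + 1)
      · rw [if_pos ha, if_pos ⟨ha, hb⟩, if_neg (fun h => by omega), sub_self]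
      · rw [if_pos ha, if_neg (fun h => hb h.2), if_pos ⟨ha, by omega⟩, sub_zero]
    · rw [if_neg ha, if_neg (fun h => ha h.1), if_neg (fun h => ha h.1), sub_zero]
  have hinj : Set.InjOn g (S : Set (List ℕ)) := by
    intro v _ v' _ h
    exact (List.append_inj' h rfl).1
  have h2 : 3 / 128 * ∑ v ∈ S, ww v ≤ ∑ v ∈ S, ww (g v) := by
    rw [Finset.mul_sum]
    refine Finset.sum_le_sum ?_
    intro v _
    have hl := Par_lam_spec (nd x v) v.sum
    show 3 / 128 * ww v ≤ ww (v ++ [Par_lam (nd x v) v.sum])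
    rw [ww_append, Par_ww_one]
    have := Par_quot hl.2.2.2
    have hw := ww_pos v
    nlinarith
  have h3 : ∑ v ∈ S, ww (g v) = ∑ u ∈ S.image g, ww u := by
    rw [Finset.sum_image hinj]
  have hmem : ∀ u ∈ S.image g, u ∈ Vs K (M + 1) ∧ Ala x u := by
    intro u hu
    obtain ⟨v, hv, rfl⟩ := Finset.mem_image.mp hu
    rw [hS, Finset.mem_filter] at hv
    obtain ⟨hv1, hv2, hv3⟩ := hv
    obtain ⟨hlen, hlet⟩ := mem_lw.mp hv1
    obtain ⟨c1, c2, c3, c4⟩ := Par_lam_spec (nd x v) v.sum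
    refine ⟨?_, ?_⟩
    · show v ++ [Par_lam (nd x v) v.sum] ∈ Vs K (M + 1)
      unfold Vs
      rw [Finset.mem_filter]
      have hsum : (v ++ [Par_lam (nd x v) v.sum]).sum = v.sum + Par_lam (nd x v) v.sum := by
        rw [List.sum_append, List.sum_singleton]
      refine ⟨mem_lw.mpr ⟨?_, ?_⟩, ?_, ?_⟩
      · rw [List.length_append, hlen, List.length_singleton]
      · intro k hk
        rw [List.mem_append] at hk
        rcases hk with hk | hk
        · exact hlet k hk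
        · rw [List.mem_singleton] at hk
          subst hk
          exact ⟨by omega, by omega⟩
      · rw [hsum]
        exact c2
      · rw [hsum]
        omega
    · show Ala x (v ++ [Par_lam (nd x v) v.sum])
      rw [ala_append]
      exact ⟨hv2, c1, trivial⟩
  have h4 : ∑ u ∈ S.image g, ww u ≤ ff K (M + 1) x := by
    unfold ff
    calc ∑ u ∈ S.image g, ww u = ∑ u ∈ S.image g, (if Ala x u then ww u else 0) := by
          refine Finset.sum_congr rfl ?_
          intro u hu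
          rw [if_pos (hmem u hu).2]
      _ ≤ ∑ u ∈ Vs K (M + 1), (if Ala x u then ww u else 0) := by
          refine Finset.sum_le_sum_of_subset_of_nonneg (fun u hu => (hmem u hu).1) ?_
          intro u _ _
          by_cases h : Ala x u
          · rw [if_pos h]
            exact (ww_pos u).le
          · rw [if_neg h]
  rw [h1]
  linarith

/-- The word of length `m` with letters in `{2, 4, 6}` which is allowed at `x`. -/
def Par_w : ℕ → ℤ → List ℕ
  | 0, _ => []
  | m + 1, x => Par_ev x :: Par_w m (Tk (Par_ev x) x)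

theorem Par_w_spec (m : ℕ) : ∀ x : ℤ, (Par_w m x).length = m ∧ (∀ k ∈ Par_w m x, 2 ≤ k ∧ k ≤ 6) ∧
    Ala x (Par_w m x) ∧ (Par_w m x).sum % 2 = 0 ∧ 2 * m ≤ (Par_w m x).sum ∧
    (3 / 64 : ℝ) ^ m ≤ ww (Par_w m x) := by
  induction m with
  | zero =>
    intro x
    refine ⟨rfl, ?_, trivial, rfl, le_refl _, ?_⟩
    · intro k hk
      exact absurd hk List.not_mem_nil
    · show (3 / 64 : ℝ) ^ 0 ≤ ww []
      rw [ww_nil, pow_zero]
  | succ m ih =>
    intro x
    obtain ⟨a1, a2, a3, a4⟩ := Par_ev_spec x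
    obtain ⟨b1, b2, b3, b4, b5, b6⟩ := ih (Tk (Par_ev x) x)
    have hsum : (Par_w (m + 1) x).sum = Par_ev x + (Par_w m (Tk (Par_ev x) x)).sum := by
      show (Par_ev x :: Par_w m (Tk (Par_ev x) x)).sum = _
      rw [List.sum_cons]
    refine ⟨?_, ?_, ?_, ?_, ?_, ?_⟩
    · show (Par_ev x :: Par_w m (Tk (Par_ev x) x)).length = m + 1
      rw [List.length_cons, b1]
    · intro k hk
      have hk' : k ∈ Par_ev x :: Par_w m (Tk (Par_ev x) x) := hk
      rcases List.mem_cons.mp hk' with h | h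
      · subst h
        exact ⟨a3, a4⟩
      · exact b2 k h
    · exact ⟨a1, b3⟩
    · rw [hsum]
      omega
    · rw [hsum]
      omega
    · show (3 / 64 : ℝ) ^ (m + 1) ≤ ww (Par_ev x :: Par_w m (Tk (Par_ev x) x))
      rw [ww_cons, pow_succ, mul_comm]
      have h1 := Par_quot6 a4
      exact mul_le_mul h1 b6 (by positivity) (le_trans (by norm_num) h1)

theorem Par_w_mem {K : ℕ} (hK : 7 ≤ K) (m : ℕ) (x : ℤ) : Par_w m x ∈ Vs K m := by
  obtain ⟨b1, b2, b3, b4, b5, b6⟩ := Par_w_spec m x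
  unfold Vs
  rw [Finset.mem_filter]
  refine ⟨mem_lw.mpr ⟨b1, ?_⟩, Nat.even_iff.mpr b4, by omega⟩
  intro k hk
  have := b2 k hk
  exact ⟨by omega, by omega⟩

theorem ff_exp {K : ℕ} (hK : 7 ≤ K) {m : ℕ} (hm : 1 ≤ m) (x : ℤ) :
    Real.exp (-4 * m) ≤ ff K m x := by
  obtain ⟨b1, b2, b3, b4, b5, b6⟩ := Par_w_spec m x
  have h1 : Real.exp (-4 * m) ≤ (3 / 64 : ℝ) ^ m := by
    have h2 : Real.exp (-4) ≤ 3 / 64 := by
      have h3 : (64 : ℝ) / 3 ≤ Real.exp 4 := by
        have h4 : Real.exp 4 = Real.exp 1 ^ 4 := by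
          rw [← Real.exp_nat_mul]
          norm_num
        rw [h4]
        have h5 : (2.7 : ℝ) ≤ Real.exp 1 := by
          have := Real.exp_one_gt_d9
          linarith
        calc (64 : ℝ) / 3 ≤ 2.7 ^ 4 := by norm_num
          _ ≤ Real.exp 1 ^ 4 := pow_le_pow_left₀ (by norm_num) h5 4
      rw [Real.exp_neg]
      calc (Real.exp 4)⁻¹ ≤ (64 / 3 : ℝ)⁻¹ := by
            rw [inv_le_inv₀ (Real.exp_pos 4) (by norm_num)]
            exact h3
        _ = 3 / 64 := by norm_num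
    have h6 : Real.exp (-4 * m) = Real.exp (-4) ^ m := by
      rw [← Real.exp_nat_mul]
      congr 1
      ring
    rw [h6]
    exact pow_le_pow_left₀ (Real.exp_pos _).le h2 m
  have h7 : ww (Par_w m x) ≤ ff K m x := by
    unfold ff
    have h8 : (if Ala x (Par_w m x) then ww (Par_w m x) else 0) = ww (Par_w m x) := if_pos b3
    rw [← h8]
    refine Finset.single_le_sum (f := fun v => if Ala x v then ww v else 0) ?_ (Par_w_mem hK m x)
    intro v _
    show (0 : ℝ) ≤ if Ala x v then ww v else 0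
    by_cases h : Ala x v
    · rw [if_pos h]
      exact (ww_pos v).le
    · rw [if_neg h]
  linarith

theorem two_words {K : ℕ} (hK : 7 ≤ K) {m : ℕ} (hm : 2 ≤ m) (x : ℤ) :
    ∃ v ∈ Vs K m, ∃ v' ∈ Vs K m, v ≠ v' ∧ Ala x v ∧ Ala x v' := by
  obtain ⟨n, rfl⟩ : ∃ n, m = n + 2 := ⟨m - 2, by omega⟩
  obtain ⟨b1, b2, b3, b4, b5, b6⟩ := Par_w_spec (n + 2) x
  obtain ⟨c1, c2, c3, c4⟩ := Par_od_spec x
  obtain ⟨d1, d2, d3, d4⟩ := Par_od_spec (Tk (Par_od x) x)
  obtain ⟨e1, e2, e3, e4⟩ := Par_ev_spec x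
  obtain ⟨f1, f2, f3, f4, f5, f6⟩ :=
    Par_w_spec n (Tk (Par_od (Tk (Par_od x) x)) (Tk (Par_od x) x))
  refine ⟨Par_w (n + 2) x, Par_w_mem hK (n + 2) x,
    Par_od x :: Par_od (Tk (Par_od x) x) ::
      Par_w n (Tk (Par_od (Tk (Par_od x) x)) (Tk (Par_od x) x)), ?_, ?_, b3, ?_⟩
  · unfold Vs
    rw [Finset.mem_filter, List.sum_cons, List.sum_cons]
    refine ⟨mem_lw.mpr ⟨?_, ?_⟩, ?_, ?_⟩
    · rw [List.length_cons, List.length_cons, f1]
    · intro k hk
      rcases List.mem_cons.mp hk with h | h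
      · subst h
        exact ⟨by omega, by omega⟩
      · rcases List.mem_cons.mp h with h | h
        · subst h
          exact ⟨by omega, by omega⟩
        · have := f2 k h
          exact ⟨by omega, by omega⟩
    · rw [Nat.even_iff]
      omega
    · omega
  · intro h
    have h2 : Par_ev x = Par_od x := (List.cons.inj h).1
    omega
  · exact ⟨c1, d1, f3⟩

end Pool.Agent.helper14.EX1
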