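import Pool.Agent.helper14.EX1.InsI
import Pool.Agent.helper14.EX1.Par

/-!
# EX1-Ins: the restricted words form a system

`m1`, `nn`: clear (`ff > 0` by `ff_exp`).  `per`: `ff_per`, `ala_shift` (the words have length `m`).  `dvd`: `nd_eq` and
`4 ^ (v.sum / 2) = 2 ^ v.sum`.  `sum`: `∑ v : Vs K m` is `∑ v ∈ Vs K m` (`Finset.sum_coe_sort`), `ff > 0`.  `rho`: at every `x` there
are two allowed words (`two_words`), each weight is `≥ w0 := min ww > 0` over `Vs K m`, and `ff x ≤ F0 := ∑ ww`; so every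
`p v x ≤ 1 - w0 / F0`.  (`0 < ρ`: replace `ρ` by `max ρ (1/2)`.)  `inj`: `sysW_inj`.
-/

namespace Pool.Agent.helper14.EX1

open Finset

theorem Ins_W_pos (v : List ℕ) : 0 < ww v := ww_pos v

theorem Ins_ff_pos {K m : ℕ} (hK : 7 ≤ K) (hm : 1 ≤ m) (x : ℤ) :
    0 < ff K m x :=
  lt_of_lt_of_le (Real.exp_pos _) (ff_exp hK hm x)

theorem Ins_rho {K m : ℕ} (hK : 7 ≤ K) (hm : 2 ≤ m) :
    ∃ ρ : ℝ, 0 < ρ ∧ ρ < 1 ∧ ∀ (v : Vs K m) (x : ℤ), (sysW K m).p v x ≤ ρ := by
  obtain ⟨v0, hv0, -⟩ := two_words hK hm 0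
  obtain ⟨v1, hv1, hmin⟩ := (Vs K m).exists_min_image (fun v => ww v) ⟨v0, hv0⟩
  have hw0 := Ins_W_pos v1
  set w0 : ℝ := ww v1 with hw0d
  set F0 : ℝ := ∑ v ∈ Vs K m, ww v with hF0
  have hF0w : w0 ≤ F0 :=
    Finset.single_le_sum (f := fun v => ww v) (fun v _ => (Ins_W_pos v).le) hv1
  have hF0p : 0 < F0 := lt_of_lt_of_le hw0 hF0w
  have hff : ∀ x, ff K m x ≤ F0 := by
    intro x
    unfold ff
    refine Finset.sum_le_sum fun v _ => ?_
    split_ifs
    · exact le_rfl
    · exact (Ins_W_pos v).le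
  refine ⟨max (1 - w0 / F0) (1 / 2), lt_of_lt_of_le (by norm_num) (le_max_right _ _), ?_, ?_⟩
  · refine max_lt ?_ (by norm_num)
    have := div_pos hw0 hF0p
    linarith
  · intro v x
    have hf := Ins_ff_pos hK (by omega : 1 ≤ m) x
    show (if Ala x v.1 then ww v.1 / ff K m x else 0) ≤ _
    split_ifs with hA
    · refine le_trans ?_ (le_max_left _ _)
      obtain ⟨u, hu, u', hu', huu, hAu, hAu'⟩ := two_words hK hm x
      obtain ⟨z, hz, hzv, hAz⟩ : ∃ z ∈ Vs K m, z ≠ v.1 ∧ Ala x z := by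
        by_cases huv : u = v.1
        · exact ⟨u', hu', fun h => huu (huv.trans h.symm), hAu'⟩
        · exact ⟨u, hu, huv, hAu⟩
      have h1 : ww v.1 + ww z ≤ ff K m x := by
        have hsub : ({v.1, z} : Finset (List ℕ)) ⊆ Vs K m := by
          intro y hy
          rw [mem_insert, mem_singleton] at hy
          rcases hy with rfl | rfl
          · exact v.2
          · exact hz
        have h2 : ∑ y ∈ ({v.1, z} : Finset (List ℕ)), (if Ala x y then ww y else 0) ≤
            ff K m x := by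
          unfold ff
          refine Finset.sum_le_sum_of_subset_of_nonneg hsub fun y _ _ => ?_
          split_ifs
          · exact (Ins_W_pos y).le
          · exact le_rfl
        rw [Finset.sum_pair hzv.symm, if_pos hA, if_pos hAz] at h2
        exact h2
      have h3 := hmin z hz
      have h4 : ww v.1 ≤ ff K m x - w0 := by
        linarith
      rw [div_le_iff₀ hf]
      have h5 : w0 / F0 * ff K m x ≤ w0 := by
        rw [div_mul_eq_mul_div, div_le_iff₀ hF0p]
        exact mul_le_mul_of_nonneg_left (hff x) hw0.le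
      linarith
    · exact le_trans (by norm_num) (le_max_right _ _)

theorem sysW_ok {K m : ℕ} (hK : 7 ≤ K) (hm : 2 ≤ m) : (sysW K m).Ok where
  m1 := by
    show 1 ≤ m
    omega
  nn := by
    intro v x
    show 0 ≤ (if Ala x v.1 then ww v.1 / ff K m x else 0)
    split_ifs
    · exact div_nonneg (Ins_W_pos v.1).le (Ins_ff_pos hK (by omega) x).le
    · exact le_rfl
  per := by
    intro v x
    show (if Ala (x + 3 ^ m) v.1 then ww v.1 / ff K m (x + 3 ^ m) else 0) =
      (if Ala x v.1 then ww v.1 / ff K m x else 0)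
    have h1 : Ala (x + 3 ^ m) v.1 ↔ Ala x v.1 := by
      have h2 := ala_shift v.1 x 1
      rw [(InsI_len v).1, mul_one] at h2
      exact h2
    rw [ff_per K m x]
    by_cases hA : Ala x v.1
    · rw [if_pos hA, if_pos (h1.2 hA)]
    · rw [if_neg hA, if_neg (fun h => hA (h1.1 h))]
  dvd := by
    intro v x hp
    have hA : Ala x v.1 := by
      by_contra hc
      apply hp
      show (if Ala x v.1 then ww v.1 / ff K m x else 0) = 0
      rw [if_neg hc]
    show (3 : ℤ) ^ m ∣ 4 ^ (v.1.sum / 2) * x + Gw v.1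
    have h1 := nd_eq hA
    rw [(InsI_len v).1] at h1
    rw [InsI_even, ← h1]
    exact Dvd.intro _ rfl
  sum := by
    intro x
    have hf := Ins_ff_pos hK (by omega : 1 ≤ m) x
    have h1 : ∑ v : Vs K m, (sysW K m).p v x =
        ∑ v ∈ Vs K m, (if Ala x v then ww v / ff K m x else 0) :=
      Finset.sum_coe_sort (Vs K m)
        (fun v => if Ala x v then ww v / ff K m x else 0)
    rw [h1]
    have h2 : ∑ v ∈ Vs K m, (if Ala x v then ww v / ff K m x else 0) =
        (∑ v ∈ Vs K m, (if Ala x v then ww v else 0)) / ff K m x := by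
      rw [Finset.sum_div]
      refine Finset.sum_congr rfl fun v _ => ?_
      split_ifs
      · rfl
      · rw [zero_div]
    rw [h2]
    exact div_self hf.ne'
  rho := Ins_rho hK hm
  inj := fun x w w' hl h h' e1 => sysW_inj x w w' hl h h' e1

end Pool.Agent.helper14.EX1
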