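import Pool.Agent.helper14.EX1.Unif
import Pool.Agent.helper14.EX1.Res
import Pool.Agent.helper14.EX1.Ins

/-!
# EX1-Gib: the sum of the powers of the weights is at least `1`

`S = sysW K m`, `K` its kernel.  For `v ∈ Vs K m`: `ww v ≤ exp (-m/4)` because `3 ^ 20 * exp 5 ≤ 2 ^ 39` and
`39 m ≤ 20 v.sum`.  Claim by induction on `T`: `0 < (Lg^[T] 1) x` and
`log ((Lg^[T] 1) x) ≥ ∑_{t<T} (K^[t] φ0) x` with `φ0 x = log (ff x) + (1-γ) m / 4`.  Step:
`(Lg^[T+1] 1) x = ∑_{v allowed} ww v ^ γ * (Lg^[T] 1) (nd x v) = ∑_v p_v * (ww v ^ (γ-1) * ff x * (Lg^[T] 1) (nd x v))`, and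
`log` of the average is at least the average of `log` (`log y ≤ log a + (y-a)/a`):
`≥ log (ff x) + (1-γ) m/4 + K (log (Lg^[T] 1)) x`; `∑_{t<T} K (K^[t] φ0) = ∑_{1≤t≤T} K^[t] φ0`.
Then `restr` with `δ = (1-γ)/8`, and `unif` for `φ = log ff` (`ff_per`, `per_comp`) with `ε = (1-γ) m / 8`:
`∑_{t<T} (K^[t] φ0) x ≥ T ((1-γ) m/4 - δ m - ε) = 0` for `T ≥ T0` (`iter_add`, `iter_const`).
-/

namespace Pool.Agent.helper14.EX1

open Finset

theorem Gib_log_ww {K m : ℕ} {v : List ℕ} (hv : v ∈ Vs K m) : Real.log (ww v) ≤ -(m : ℝ) / 4 := by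
  unfold Vs at hv
  rw [mem_filter, mem_lw] at hv
  obtain ⟨⟨hl, _⟩, _, hs⟩ := hv
  unfold ww
  rw [hl, Real.log_div (by positivity) (by positivity), Real.log_pow, Real.log_pow]
  have h1 : 20 * Real.log 3 + 5 ≤ 39 * Real.log 2 := by
    have h2 : (3 : ℝ) ^ 20 * Real.exp 1 ^ 5 ≤ 2 ^ 39 := by
      have h3 : Real.exp 1 ^ 5 ≤ 2.7182818286 ^ 5 :=
        pow_le_pow_left₀ (Real.exp_pos 1).le Real.exp_one_lt_d9.le 5
      have h4 : (3 : ℝ) ^ 20 * 2.7182818286 ^ 5 ≤ 2 ^ 39 := by norm_num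
      exact (mul_le_mul_of_nonneg_left h3 (by positivity)).trans h4
    have h5 := Real.log_le_log (by positivity) h2
    rw [Real.log_mul (by positivity) (by positivity), Real.log_pow, Real.log_pow, Real.log_pow,
      Real.log_exp] at h5
    push_cast at h5
    linarith
  have h6 : (39 : ℝ) * m ≤ 20 * v.sum := by exact_mod_cast hs
  have h7 : 0 < Real.log 2 := Real.log_pos (by norm_num)
  have h8 : 39 * (m : ℝ) * Real.log 2 ≤ 20 * v.sum * Real.log 2 :=
    mul_le_mul_of_nonneg_right h6 h7.le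
  have h9 : (m : ℝ) * (20 * Real.log 3 + 5) ≤ m * (39 * Real.log 2) :=
    mul_le_mul_of_nonneg_left h1 (Nat.cast_nonneg m)
  linarith

theorem Gib_step {γ : ℝ} (h1 : γ < 1) {K m : ℕ} (hK : 7 ≤ K) (hm : 2 ≤ m) {h : ℤ → ℝ}
    (hh : ∀ x, 0 < h x) (x : ℤ) : 0 < Lg K m γ h x ∧
      Real.log (ff K m x) + (1 - γ) * m / 4 + (sysW K m).K (fun y => Real.log (h y)) x
        ≤ Real.log (Lg K m γ h x) := by
  have hS := sysW_ok hK hm
  have hff : 0 < ff K m x := lt_of_lt_of_le (Real.exp_pos _) (ff_exp hK (by omega) x)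
  set X : Vs K m → ℝ := fun v => ww v.1 ^ (γ - 1) * ff K m x * h (nd x v.1) with hX
  have hXpos : ∀ v, 0 < X v := fun v =>
    mul_pos (mul_pos (Real.rpow_pos_of_pos (ww_pos _) _) hff) (hh _)
  have hLg : Lg K m γ h x = ∑ v : Vs K m, (sysW K m).p v x * X v := by
    unfold Lg
    rw [← Finset.sum_coe_sort (Vs K m)]
    refine Finset.sum_congr rfl fun v _ => ?_
    simp only [sysW, hX]
    split_ifs with hal
    · have hw := ww_pos v.1
      have e : ww v.1 ^ γ = ww v.1 * ww v.1 ^ (γ - 1) := by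
        rw [Real.rpow_sub_one hw.ne']
        field_simp
      rw [e]
      field_simp
    · simp
  have hpsum := hS.sum x
  have hJ := strictConcaveOn_log_Ioi.concaveOn.le_map_sum (t := univ)
    (w := fun v : Vs K m => (sysW K m).p v x) (p := X) (fun v _ => hS.nn v x) hpsum
    (fun v _ => hXpos v)
  simp only [smul_eq_mul] at hJ
  rw [← hLg] at hJ
  constructor
  · rw [hLg]
    apply Finset.sum_pos'
    · intro v _
      exact mul_nonneg (hS.nn v x) (hXpos v).le
    · by_contra hcon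
      push Not at hcon
      have : ∑ v : Vs K m, (sysW K m).p v x = 0 := by
        apply Finset.sum_eq_zero
        intro v hv
        have h2 := hcon v hv
        have h3 := hS.nn v x
        by_contra h4
        have h5 : 0 < (sysW K m).p v x := lt_of_le_of_ne h3 (Ne.symm h4)
        exact absurd (mul_pos h5 (hXpos v)) (not_lt.2 h2)
      rw [this] at hpsum
      exact zero_ne_one hpsum
  · refine le_trans ?_ hJ
    have e1 : Real.log (ff K m x) + (1 - γ) * m / 4 + (sysW K m).K (fun y => Real.log (h y)) x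
        = ∑ v : Vs K m, (sysW K m).p v x * (Real.log (ff K m x) + (1 - γ) * m / 4
          + Real.log (h ((sysW K m).T v x))) := by
      simp only [mul_add, Finset.sum_add_distrib, ← Finset.sum_mul, hpsum, one_mul, Sys.K]
    rw [e1]
    refine Finset.sum_le_sum fun v _ => ?_
    by_cases hal : Ala x v.1
    · refine mul_le_mul_of_nonneg_left ?_ (hS.nn v x)
      rw [sysW_T v hal]
      simp only [hX]
      rw [Real.log_mul (mul_pos (Real.rpow_pos_of_pos (ww_pos _) _) hff).ne' (hh _).ne',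
        Real.log_mul (Real.rpow_pos_of_pos (ww_pos _) _).ne' hff.ne', Real.log_rpow (ww_pos _)]
      have h2 := Gib_log_ww v.2
      nlinarith
    · have : (sysW K m).p v x = 0 := by simp only [sysW]; rw [if_neg hal]
      rw [this, zero_mul, zero_mul]

theorem Gib_iter {γ : ℝ} (h1 : γ < 1) {K m : ℕ} (hK : 7 ≤ K) (hm : 2 ≤ m) (T : ℕ) (x : ℤ) :
    0 < ((Lg K m γ)^[T] (fun _ => 1)) x ∧
      ∑ t ∈ range T, ((sysW K m).K^[t] (fun y => Real.log (ff K m y) + (1 - γ) * m / 4)) x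
        ≤ Real.log (((Lg K m γ)^[T] (fun _ => 1)) x) := by
  have hS := sysW_ok hK hm
  induction T generalizing x with
  | zero => simp
  | succ T ih =>
    have h2 := Gib_step h1 hK hm (h := (Lg K m γ)^[T] (fun _ => 1)) (fun y => (ih y).1) x
    rw [Function.iterate_succ_apply']
    refine ⟨h2.1, le_trans ?_ h2.2⟩
    have h3 := Sys.K_mono hS (fun y => (ih y).2) x
    refine le_trans ?_ (add_le_add_right h3 _)
    rw [Finset.sum_range_succ']
    have h4 : (sysW K m).K (fun y => ∑ t ∈ range T, ((sysW K m).K^[t]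
        (fun y => Real.log (ff K m y) + (1 - γ) * m / 4)) y) x
        = ∑ t ∈ range T, ((sysW K m).K^[t + 1]
        (fun y => Real.log (ff K m y) + (1 - γ) * m / 4)) x := by
      simp only [Function.iterate_succ_apply']
      simp only [Sys.K, Finset.mul_sum]
      rw [Finset.sum_comm]
    rw [h4, add_comm]
    simp

theorem gibbs {γ : ℝ} (h0 : 0 < γ) (h1 : γ < 1) : ∃ K m T : ℕ, 7 ≤ K ∧ 2 ≤ m ∧ 1 ≤ T ∧
    ∀ x : ℤ, 1 ≤ ((Lg K m γ)^[T] (fun _ => 1)) x := by
  obtain ⟨K, m, hK, hm, _, hδ⟩ := restr (δ := (1 - γ) / 8) (by linarith) 0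
  have hS := sysW_ok hK hm
  have hmpos : (0 : ℝ) < m := by
    have : 0 < m := by omega
    exact_mod_cast this
  have hφ : Per (sysW K m).m (fun x => Real.log (ff K m x)) := per_comp (ff_per K m) Real.log
  obtain ⟨T0, hT0⟩ := unif hS hφ (ε := (1 - γ) * m / 8) (by
    have : 0 < 1 - γ := by linarith
    positivity)
  refine ⟨K, m, max T0 1, hK, hm, le_max_right _ _, fun x => ?_⟩
  set T := max T0 1 with hT
  obtain ⟨hpos, hlog⟩ := Gib_iter h1 hK hm T x
  have h2 := hT0 T (le_max_left _ _) x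
  have h3 : ∀ t : ℕ, ((sysW K m).K^[t] (fun y => Real.log (ff K m y) + (1 - γ) * m / 4)) x
      = ((sysW K m).K^[t] (fun y => Real.log (ff K m y))) x + (1 - γ) * m / 4 := by
    intro t
    rw [Sys.iter_add (sysW K m) t (fun y => Real.log (ff K m y)) (fun _ => (1 - γ) * m / 4),
      Sys.iter_const hS]
  simp only [h3, Finset.sum_add_distrib, Finset.sum_const, card_range, nsmul_eq_mul] at hlog
  have hm' : (sysW K m).m = m := rfl
  rw [hm'] at h2
  have h4 : (0 : ℝ) ≤ T := Nat.cast_nonneg T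
  have h5 : 0 ≤ Real.log (((Lg K m γ)^[T] (fun _ => 1)) x) := by
    refine le_trans ?_ hlog
    have h6 : 0 ≤ (avg m (fun x => Real.log (ff K m x)) - (1 - γ) * m / 8 + (1 - γ) * m / 4) * T := by
      apply mul_nonneg _ h4
      linarith
    linarith
  by_contra hcon
  push Not at hcon
  exact absurd h5 (not_le.2 (Real.log_neg hpos hcon))

end Pool.Agent.helper14.EX1
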