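import Pool.Agent.helper14.EX1.Wrd

/-!
# EX1-InjZ: words of the same length from the same integer with the same end are equal

Nodes `a = 3 x + 2` (never `0`).  Induction from the right (`List.reverseRecOn`; `nd_append`, `ala_append`).  Last
letters `k`, `k'` from `y`, `y'`, nodes `b = 3y+2`, `b' = 3y'+2`, common child `a`: `3 a + c = 2 ^ k b`,
`3 a + c' = 2 ^ k' b'` (`Tk_node`).  `a` is odd iff `k` is odd, so `c = c'`, `k ≡ k' mod 2`, `2 ^ k b = 2 ^ k' b'`.  If the
remaining words are empty then `b = b' ≠ 0`, so `k = k'`.  Otherwise `4` divides neither `b` nor `b'` (a child is odd or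
`≡ 2 mod 4`), and `k ≡ k' mod 2` gives `k = k'`; in both cases `y = y'`.
-/

namespace Pool.Agent.helper14.EX1

/-- A node after at least one step is not divisible by `4`. -/
theorem child_four {k : ℕ} (hk : 1 ≤ k) {x : ℤ} (h : Al k x) : ¬ (4 : ℤ) ∣ 3 * Tk k x + 2 := by
  rintro ⟨c, hc⟩
  have h1 := Tk_node hk h
  rw [hc] at h1
  rcases Nat.lt_or_ge k 2 with h2 | h2
  · have h3 : k = 1 := by omega
    subst h3
    norm_num at h1
    omega
  · obtain ⟨j, rfl⟩ := Nat.exists_eq_add_of_le h2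
    have h4 : (2 : ℤ) ^ (2 + j) * (3 * x + 2) = 4 * (2 ^ j * (3 * x + 2)) := by ring
    rw [h4] at h1
    generalize (2 : ℤ) ^ j * (3 * x + 2) = y at h1
    split_ifs at h1 <;> omega

/-- The relation between two steps with the same end. -/
theorem InjZ_rel {k k' : ℕ} (hk : 1 ≤ k) (hk' : 1 ≤ k') {x x' : ℤ} (h : Al k x) (h' : Al k' x')
    (e : Tk k x = Tk k' x') :
    k % 2 = k' % 2 ∧ (2 : ℤ) ^ k * (3 * x + 2) = 2 ^ k' * (3 * x' + 2) := by
  have h1 := Tk_node hk h
  have h2 := Tk_node hk' h'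
  rw [e] at h1
  obtain ⟨j, rfl⟩ := Nat.exists_eq_add_of_le hk
  obtain ⟨j', rfl⟩ := Nat.exists_eq_add_of_le hk'
  have e1 : (2 : ℤ) ^ (1 + j) * (3 * x + 2) = 2 * (2 ^ j * (3 * x + 2)) := by ring
  have e2 : (2 : ℤ) ^ (1 + j') * (3 * x' + 2) = 2 * (2 ^ j' * (3 * x' + 2)) := by ring
  rw [e1] at h1 ⊢
  rw [e2] at h2 ⊢
  generalize (2 : ℤ) ^ j * (3 * x + 2) = y at h1 ⊢
  generalize (2 : ℤ) ^ j' * (3 * x' + 2) = y' at h2 ⊢
  generalize Tk (1 + j') x' = t at h1 h2
  split_ifs at h1 h2 <;> constructor <;> omega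

/-- Two powers of `2` times integers which are not divisible by `4`. -/
theorem InjZ_pow {k k' : ℕ} (hp : k % 2 = k' % 2) {b b' : ℤ} (h4 : ¬ (4 : ℤ) ∣ b)
    (h : (2 : ℤ) ^ k * b = 2 ^ k' * b') : k' ≤ k := by
  by_contra hlt
  have h1 : k + 2 ≤ k' := by omega
  obtain ⟨j, rfl⟩ := Nat.exists_eq_add_of_le h1
  apply h4
  refine ⟨2 ^ j * b', ?_⟩
  have h2 : (2 : ℤ) ^ (k + 2 + j) * b' = 2 ^ k * (4 * (2 ^ j * b')) := by ring
  rw [h2] at h
  exact mul_left_cancel₀ (pow_ne_zero _ (by norm_num)) h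

/-- Two steps with the same end from nodes which are not divisible by `4`. -/
theorem step_inj {k k' : ℕ} (hk : 1 ≤ k) (hk' : 1 ≤ k') {x x' : ℤ} (h : Al k x) (h' : Al k' x')
    (h4 : ¬ (4 : ℤ) ∣ 3 * x + 2) (h4' : ¬ (4 : ℤ) ∣ 3 * x' + 2) (e : Tk k x = Tk k' x') :
    k = k' ∧ x = x' := by
  obtain ⟨h1, h2⟩ := InjZ_rel hk hk' h h' e
  have h3 : k = k' := le_antisymm (InjZ_pow h1.symm h4' h2.symm) (InjZ_pow h1 h4 h2)
  subst h3
  have h5 := mul_left_cancel₀ (pow_ne_zero k (by norm_num : (2 : ℤ) ≠ 0)) h2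
  exact ⟨rfl, by omega⟩

/-- The node at the end of a nonempty word is not divisible by `4`. -/
theorem InjZ_end {x : ℤ} {u : List ℕ} (hu : u ≠ []) (h1 : ∀ k ∈ u, 1 ≤ k) (ha : Ala x u) :
    ¬ (4 : ℤ) ∣ 3 * nd x u + 2 := by
  obtain ⟨t, j, rfl⟩ := List.eq_nil_or_concat u |>.resolve_left hu
  rw [List.concat_eq_append] at *
  rw [ala_append] at ha
  rw [nd_append]
  exact child_four (h1 j (by simp)) ha.2.1

theorem nd_inj {x : ℤ} {v w : List ℕ} (hl : v.length = w.length) (hv : ∀ k ∈ v, 1 ≤ k)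
    (hw : ∀ k ∈ w, 1 ≤ k) (av : Ala x v) (aw : Ala x w) (e : nd x v = nd x w) : v = w := by
  induction v using List.reverseRecOn generalizing w with
  | nil =>
    symm
    exact List.length_eq_zero_iff.1 hl.symm
  | append_singleton u k ih =>
    obtain rfl | ⟨u', k', rfl⟩ := List.eq_nil_or_concat w
    · simp at hl
    · rw [List.concat_eq_append] at *
      have hl' : u.length = u'.length := by simpa using hl
      rw [ala_append] at av aw
      rw [nd_append, nd_append] at e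
      have hk : 1 ≤ k := hv k (by simp)
      have hk' : 1 ≤ k' := hw k' (by simp)
      have hu : ∀ j ∈ u, 1 ≤ j := fun j hj => hv j (by simp [hj])
      have hu' : ∀ j ∈ u', 1 ≤ j := fun j hj => hw j (by simp [hj])
      have e' : Tk k (nd x u) = Tk k' (nd x u') := e
      by_cases hn : u = []
      · subst hn
        have hn' : u' = [] := List.length_eq_zero_iff.1 hl'.symm
        subst hn'
        obtain ⟨h1, h2⟩ := InjZ_rel hk hk' av.2.1 aw.2.1 e'
        have h0 : (3 : ℤ) * nd x [] + 2 ≠ 0 := by omega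
        have h3 := mul_right_cancel₀ h0 h2
        have h4 : k = k' := by
          have h5 : (2 : ℕ) ^ k = 2 ^ k' := by exact_mod_cast h3
          exact Nat.pow_right_injective le_rfl h5
        rw [h4]
      · have hn' : u' ≠ [] := by
          intro h
          rw [h] at hl'
          exact hn (List.length_eq_zero_iff.1 hl')
        obtain ⟨h1, h2⟩ := step_inj hk hk' av.2.1 aw.2.1 (InjZ_end hn hu av.1) (InjZ_end hn' hu' aw.1) e'
        rw [h1, ih hl' hu hu' av.1 aw.1 h2]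

end Pool.Agent.helper14.EX1
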