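import Pool.Agent.helper14.EX1.Wrd
import Pool.Agent.helper14.EX1.Defs2

/-!
# EX1-Par2: lower bounds for `ff2` (as Par)

`ff2_low`: append to a word of length `M` which is typical for `e / 2` the letter `λ ∈ {2, …, 7}` which makes the sum even:
`|N' - 2 (M+1)| ≤ e M / 2 + 7`, `|R' - (M+1)/2| ≤ e M / 2 + 1`, typical for `e` if `e M ≥ 14` (`M0 = ⌈14/e⌉`), and `pen = 1`.
`ff2_exp`: a word with all letters in `{2, …, 7}` and even sum: `ww * pen ≥ (3/128)^m exp (-κ m)`.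
-/

namespace Pool.Agent.helper14.EX1

open Finset

theorem Par2_pen_pos (e κ : ℝ) (v : List ℕ) : 0 < pen e κ v := by
  unfold pen
  split_ifs
  · norm_num
  · exact Real.exp_pos _

open Classical in
theorem Par2_mem {K m : ℕ} {e : ℝ} {v : List ℕ} :
    v ∈ V2 K m e ↔ v ∈ lw K m ∧ Even v.sum ∧ (Typ e v ∨ ∀ k ∈ v, 2 ≤ k ∧ k ≤ 7) := by
  unfold V2
  exact mem_filter

theorem ff2_per (K m : ℕ) (e κ : ℝ) : Per m (ff2 K m e κ) := by
  intro x
  unfold ff2
  refine sum_congr rfl fun v hv => ?_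
  have hl : v.length = m := (mem_lw.1 (Par2_mem.1 hv).1).1
  have h : Ala (x + 3 ^ m) v ↔ Ala x v := by
    have := ala_shift v x 1
    rwa [mul_one, hl] at this
  by_cases h1 : Ala x v
  · rw [if_pos h1, if_pos (h.2 h1)]
  · rw [if_neg h1, if_neg (fun h2 => h1 (h.1 h2))]

/-- A letter in `{2, …, 7}` which is allowed at `y` and makes the sum even. -/
def Par2_lam (y : ℤ) (s : ℕ) : ℕ :=
  if y % 3 = 0 then (if s % 2 = 0 then 2 else 3)
  else if y % 3 = 1 then (if s % 2 = 0 then 4 else 5)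
  else (if s % 2 = 0 then 6 else 7)

theorem Par2_lam_spec (y : ℤ) (s : ℕ) :
    2 ≤ Par2_lam y s ∧ Par2_lam y s ≤ 7 ∧ Al (Par2_lam y s) y ∧ Even (s + Par2_lam y s) := by
  unfold Par2_lam
  have h3 : y % 3 = 0 ∨ y % 3 = 1 ∨ y % 3 = 2 := by omega
  have h2 : s % 2 = 0 ∨ s % 2 = 1 := by omega
  rcases h3 with h3 | h3 | h3
  · rcases h2 with h2 | h2
    · rw [if_pos h3, if_pos h2]
      exact ⟨by norm_num, by norm_num, (al_zero h3).1, Nat.even_iff.2 (by omega)⟩
    · rw [if_pos h3, if_neg (by omega)]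
      exact ⟨by norm_num, by norm_num, (al_zero h3).2, Nat.even_iff.2 (by omega)⟩
  · rcases h2 with h2 | h2
    · rw [if_neg (by omega), if_pos h3, if_pos h2]
      exact ⟨by norm_num, by norm_num, (al_one h3).1, Nat.even_iff.2 (by omega)⟩
    · rw [if_neg (by omega), if_pos h3, if_neg (by omega)]
      exact ⟨by norm_num, by norm_num, (al_one h3).2, Nat.even_iff.2 (by omega)⟩
  · rcases h2 with h2 | h2
    · rw [if_neg (by omega), if_neg (by omega), if_pos h2]
      exact ⟨by norm_num, by norm_num, (al_two h3).2.1, Nat.even_iff.2 (by omega)⟩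
    · rw [if_neg (by omega), if_neg (by omega), if_neg (by omega)]
      exact ⟨by norm_num, by norm_num, (al_two h3).2.2, Nat.even_iff.2 (by omega)⟩

/-- Appending a letter adds at most one end of a circuit. -/
theorem Par2_Rw (v : List ℕ) (k : ℕ) : Rw v ≤ Rw (v ++ [k]) ∧ Rw (v ++ [k]) ≤ Rw v + 1 := by
  induction v with
  | nil => simp [Rw]
  | cons a v ih =>
    cases v with
    | nil =>
      have h : rr a k ≤ 1 := by unfold rr; split_ifs <;> simp
      simp only [List.cons_append, List.nil_append, Rw]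
      omega
    | cons b v =>
      simp only [List.cons_append, Rw] at ih ⊢
      omega

theorem Par2_ww {v : List ℕ} (hv : ∀ k ∈ v, 2 ≤ k ∧ k ≤ 7) : (3 / 128 : ℝ) ^ v.length ≤ ww v := by
  induction v with
  | nil => rw [ww_nil]; simp
  | cons a v ih =>
    rw [ww_cons, List.length_cons, pow_succ, mul_comm]
    have ha := (hv a (List.mem_cons_self)).2
    have h1 : (2 : ℝ) ^ a ≤ 2 ^ 7 := pow_le_pow_right₀ (by norm_num) ha
    have h2 : (3 / 128 : ℝ) ≤ 3 / 2 ^ a := by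
      apply div_le_div_of_nonneg_left (by norm_num) (by positivity)
      calc (2 : ℝ) ^ a ≤ 2 ^ 7 := h1
        _ = 128 := by norm_num
    exact mul_le_mul h2 (ih fun k hk => hv k (List.mem_cons_of_mem _ hk)) (by positivity) (by positivity)

theorem Par2_word (m : ℕ) : ∀ (x : ℤ) (s : ℕ), ∃ v : List ℕ, v.length = m + 1 ∧
    (∀ k ∈ v, 2 ≤ k ∧ k ≤ 7) ∧ Ala x v ∧ Even (s + v.sum) := by
  induction m with
  | zero =>
    intro x s
    obtain ⟨h1, h2, h3, h4⟩ := Par2_lam_spec x s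
    refine ⟨[Par2_lam x s], rfl, ?_, ⟨h3, trivial⟩, by simpa using h4⟩
    intro k hk
    rw [List.mem_singleton] at hk
    rw [hk]
    exact ⟨h1, h2⟩
  | succ m ih =>
    intro x s
    obtain ⟨h1, h2, h3, h4⟩ := Par2_lam_spec x 0
    obtain ⟨v, hv1, hv2, hv3, hv4⟩ := ih (Tk (Par2_lam x 0) x) (s + Par2_lam x 0)
    refine ⟨Par2_lam x 0 :: v, by rw [List.length_cons, hv1], ?_, ⟨h3, hv3⟩, ?_⟩
    · intro k hk
      rcases List.mem_cons.1 hk with rfl | hk
      · exact ⟨h1, h2⟩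
      · exact hv2 k hk
    · rw [List.sum_cons, ← add_assoc]
      exact hv4

theorem Par2_mem_of {K m : ℕ} (hK : 7 ≤ K) (e : ℝ) {v : List ℕ} (hl : v.length = m)
    (hv : ∀ k ∈ v, 2 ≤ k ∧ k ≤ 7) (hs : Even v.sum) : v ∈ V2 K m e := by
  refine Par2_mem.2 ⟨mem_lw.2 ⟨hl, fun k hk => ?_⟩, hs, Or.inr hv⟩
  have := hv k hk
  omega

theorem ff2_low {e : ℝ} (he : 0 < e) : ∃ M0 : ℕ, ∀ M ≥ M0, ∀ K : ℕ, 7 ≤ K → ∀ (κ : ℝ) (x : ℤ),
    3 / 128 * (FF K M x - Low2 K (e / 2) M x) ≤ ff2 K (M + 1) e κ x := by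
  classical
  refine ⟨⌈14 / e⌉₊, fun M hM K hK κ x => ?_⟩
  have hM' : 14 ≤ e * M := by
    have h1 : 14 / e ≤ M := (Nat.le_ceil _).trans (by exact_mod_cast hM)
    rw [div_le_iff₀ he] at h1
    linarith
  set S : Finset (List ℕ) := (lw K M).filter (fun v => Ala x v ∧ Typ (e / 2) v) with hS
  have h1 : FF K M x - Low2 K (e / 2) M x = ∑ v ∈ S, ww v := by
    unfold FF Low2
    rw [← sum_sub_distrib, hS, sum_filter]
    refine sum_congr rfl fun v _ => ?_
    by_cases ha : Ala x v <;> by_cases ht : Typ (e / 2) v <;> simp [ha, ht]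
  set F : List ℕ → List ℕ := fun v => v ++ [Par2_lam (nd x v) v.sum] with hF
  have hinj : Set.InjOn F (S : Set (List ℕ)) := by
    intro v _ w _ hvw
    have : v ++ [Par2_lam (nd x v) v.sum] = w ++ [Par2_lam (nd x w) w.sum] := hvw
    exact (List.append_inj' this rfl).1
  have hmem : ∀ v ∈ S, F v ∈ V2 K (M + 1) e ∧ Ala x (F v) ∧ Typ e (F v) := by
    intro v hv
    rw [hS, mem_filter] at hv
    obtain ⟨hv1, hv2, hv3⟩ := hv
    obtain ⟨hl, hlet⟩ := mem_lw.1 hv1
    obtain ⟨g1, g2, g3, g4⟩ := Par2_lam_spec (nd x v) v.sum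
    set l := Par2_lam (nd x v) v.sum with hldef
    have hFv : F v = v ++ [l] := rfl
    have hlen : (F v).length = M + 1 := by rw [hFv]; simp [hl]
    have hsum : (F v).sum = v.sum + l := by rw [hFv]; simp
    have htyp : Typ e (F v) := by
      obtain ⟨t1, t2⟩ := hv3
      rw [hl] at t1 t2
      have hR := Par2_Rw v l
      rw [← hFv] at hR
      have hR1 : (Rw v : ℝ) ≤ Rw (F v) := by exact_mod_cast hR.1
      have hR2 : (Rw (F v) : ℝ) ≤ Rw v + 1 := by exact_mod_cast hR.2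
      have g1' : (2 : ℝ) ≤ l := by exact_mod_cast g1
      have g2' : (l : ℝ) ≤ 7 := by exact_mod_cast g2
      refine ⟨?_, ?_⟩
      · rw [hlen, hsum, Nat.cast_add, Nat.cast_add, Nat.cast_one]
        rw [abs_le] at t1 ⊢
        constructor <;> nlinarith [t1.1, t1.2]
      · rw [hlen, Nat.cast_add, Nat.cast_one]
        rw [abs_le] at t2 ⊢
        constructor <;> nlinarith [t2.1, t2.2]
    refine ⟨Par2_mem.2 ⟨mem_lw.2 ⟨hlen, ?_⟩, by rw [hsum]; exact g4, Or.inl htyp⟩, ?_, htyp⟩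
    · intro k hk
      rw [hFv, List.mem_append, List.mem_singleton] at hk
      rcases hk with hk | rfl
      · exact hlet k hk
      · omega
    · rw [hFv, ala_append]
      exact ⟨hv2, g3, trivial⟩
  rw [h1, mul_sum]
  unfold ff2
  calc ∑ v ∈ S, 3 / 128 * ww v ≤ ∑ v ∈ S, (if Ala x (F v) then ww (F v) * pen e κ (F v) else 0) := by
        refine sum_le_sum fun v hv => ?_
        obtain ⟨-, m2, m3⟩ := hmem v hv
        obtain ⟨g1, g2, g3, g4⟩ := Par2_lam_spec (nd x v) v.sum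
        have hp : pen e κ (F v) = 1 := by unfold pen; rw [if_pos m3]
        rw [if_pos m2, hp, mul_one]
        have h2 : ww (F v) = ww v * ww [Par2_lam (nd x v) v.sum] := ww_append _ _
        have h3 : (3 / 128 : ℝ) ≤ ww [Par2_lam (nd x v) v.sum] := by
          have := Par2_ww (v := [Par2_lam (nd x v) v.sum]) (by
            intro k hk
            rw [List.mem_singleton] at hk
            rw [hk]
            exact ⟨g1, g2⟩)
          simpa using this
        rw [h2, mul_comm]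
        exact mul_le_mul_of_nonneg_left h3 (ww_pos v).le
    _ = ∑ w ∈ S.image F, (if Ala x w then ww w * pen e κ w else 0) := by
        rw [sum_image hinj]
    _ ≤ ∑ w ∈ V2 K (M + 1) e, (if Ala x w then ww w * pen e κ w else 0) := by
        refine sum_le_sum_of_subset_of_nonneg ?_ ?_
        · intro w hw
          obtain ⟨v, hv, rfl⟩ := mem_image.1 hw
          exact (hmem v hv).1
        · intro w _ _
          split_ifs
          · exact mul_nonneg (ww_pos w).le (Par2_pen_pos e κ w).le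
          · exact le_rfl

theorem ff2_exp {K : ℕ} (hK : 7 ≤ K) {m : ℕ} (hm : 1 ≤ m) (e : ℝ) {κ : ℝ} (hκ : 0 ≤ κ) (x : ℤ) :
    Real.exp (-(4 + κ) * m) ≤ ff2 K m e κ x := by
  obtain ⟨n, rfl⟩ : ∃ n, m = n + 1 := ⟨m - 1, by omega⟩
  obtain ⟨v, h1, h2, h3, h4⟩ := Par2_word n x 0
  rw [zero_add] at h4
  have hv := Par2_mem_of hK e h1 h2 h4
  unfold ff2
  have hterm : Real.exp (-(4 + κ) * ((n + 1 : ℕ) : ℝ)) ≤ if Ala x v then ww v * pen e κ v else 0 := by
    rw [if_pos h3]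
    have e1 : Real.exp (-(4 + κ) * ((n + 1 : ℕ) : ℝ)) =
        Real.exp (-4) ^ (n + 1) * Real.exp (-κ * ((n + 1 : ℕ) : ℝ)) := by
      rw [← Real.exp_nat_mul, ← Real.exp_add]
      congr 1
      ring
    rw [e1]
    have e2 : Real.exp (-4) ≤ 3 / 128 := by
      rw [Real.exp_neg, inv_le_comm₀ (Real.exp_pos _) (by norm_num)]
      have h5 : Real.exp 4 = Real.exp 1 ^ 4 := by
        rw [← Real.exp_nat_mul]
        norm_num
      rw [h5]
      have h6 : (2.7 : ℝ) ≤ Real.exp 1 := by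
        have := Real.exp_one_gt_d9
        linarith
      calc ((3 / 128 : ℝ))⁻¹ ≤ 2.7 ^ 4 := by norm_num
        _ ≤ Real.exp 1 ^ 4 := pow_le_pow_left₀ (by norm_num) h6 4
    have e3 : Real.exp (-4) ^ (n + 1) ≤ ww v := by
      refine le_trans ?_ (Par2_ww h2)
      rw [h1]
      exact pow_le_pow_left₀ (Real.exp_pos _).le e2 _
    have e4 : Real.exp (-κ * ((n + 1 : ℕ) : ℝ)) ≤ pen e κ v := by
      unfold pen
      split_ifs
      · rw [Real.exp_le_one_iff]
        have : (0 : ℝ) ≤ ((n + 1 : ℕ) : ℝ) := Nat.cast_nonneg _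
        nlinarith
      · rw [h1]
    exact mul_le_mul e3 e4 (Real.exp_pos _).le (ww_pos v).le
  refine hterm.trans ?_
  refine single_le_sum (f := fun w => if Ala x w then ww w * pen e κ w else 0) ?_ hv
  intro w _
  show 0 ≤ if Ala x w then ww w * pen e κ w else 0
  split_ifs
  · exact mul_nonneg (ww_pos w).le (Par2_pen_pos e κ w).le
  · exact le_rfl

theorem two_words2 {K : ℕ} (hK : 7 ≤ K) {m : ℕ} (hm : 2 ≤ m) (e : ℝ) (x : ℤ) :
    ∃ v ∈ V2 K m e, ∃ v' ∈ V2 K m e, v ≠ v' ∧ Ala x v ∧ Ala x v' := by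
  obtain ⟨n, rfl⟩ : ∃ n, m = n + 2 := ⟨m - 2, by omega⟩
  obtain ⟨a1, a2, a3, a4⟩ := Par2_lam_spec x 0
  obtain ⟨b1, b2, b3, b4⟩ := Par2_lam_spec x 1
  obtain ⟨v, hv1, hv2, hv3, hv4⟩ := Par2_word n (Tk (Par2_lam x 0) x) (Par2_lam x 0)
  obtain ⟨w, hw1, hw2, hw3, hw4⟩ := Par2_word n (Tk (Par2_lam x 1) x) (Par2_lam x 1)
  refine ⟨Par2_lam x 0 :: v, Par2_mem_of hK e (by rw [List.length_cons, hv1]) ?_ (by rwa [List.sum_cons]),
    Par2_lam x 1 :: w, Par2_mem_of hK e (by rw [List.length_cons, hw1]) ?_ (by rwa [List.sum_cons]),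
    ?_, ⟨a3, hv3⟩, ⟨b3, hw3⟩⟩
  · intro k hk
    rcases List.mem_cons.1 hk with rfl | hk
    · exact ⟨a1, a2⟩
    · exact hv2 k hk
  · intro k hk
    rcases List.mem_cons.1 hk with rfl | hk
    · exact ⟨b1, b2⟩
    · exact hw2 k hk
  · intro h
    have h1 : Par2_lam x 0 = Par2_lam x 1 := (List.cons.inj h).1
    rw [Nat.even_iff] at a4 b4
    omega

end Pool.Agent.helper14.EX1
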