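import Pool.Agent.helper14.EX1.Ker
import Pool.Agent.helper14.EX1.InjZ
import Pool.Agent.helper14.EX1.Par2

/-!
# EX1-Ins2: the words of version 2 form a system (as InsI and Ins)
-/

namespace Pool.Agent.helper14.EX1

open Finset

theorem Ins2_len {K m : ℕ} {e : ℝ} (v : V2 K m e) : v.1.length = m ∧ ∀ k ∈ v.1, 1 ≤ k := by
  classical
  have h := v.2
  unfold V2 at h
  have h1 := (Finset.mem_filter.1 h).1
  rw [mem_lw] at h1
  exact ⟨h1.1, fun k hk => (h1.2 k hk).1⟩

theorem Ins2_even {K m : ℕ} {e : ℝ} (v : V2 K m e) : (4 : ℤ) ^ (v.1.sum / 2) = 2 ^ v.1.sum := by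
  classical
  have h := v.2
  unfold V2 at h
  obtain ⟨t, ht⟩ := (Finset.mem_filter.1 h).2.1
  have h1 : v.1.sum / 2 = t := by omega
  have h2 : v.1.sum = 2 * t := by omega
  rw [h1, h2, pow_mul]
  norm_num

theorem sys2_T {K m : ℕ} {e κ : ℝ} (v : V2 K m e) {x : ℤ} (h : Ala x v.1) :
    (sys2 K m e κ).T v x = nd x v.1 := by
  have h1 := nd_eq h
  rw [(Ins2_len v).1] at h1
  show ((4 : ℤ) ^ (v.1.sum / 2) * x + Gw v.1) / 3 ^ m = nd x v.1
  rw [Ins2_even, ← h1]
  exact Int.mul_ediv_cancel_left _ (by positivity)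

theorem Ins2_flat {K m : ℕ} {e κ : ℝ} {x : ℤ} {w : List (V2 K m e)}
    (h : (sys2 K m e κ).path x w ≠ 0) :
    Ala x (w.map Subtype.val).flatten ∧
      nd x (w.map Subtype.val).flatten = (sys2 K m e κ).nd x w := by
  induction w generalizing x with
  | nil => exact ⟨trivial, rfl⟩
  | cons v w ih =>
    have h1 : (sys2 K m e κ).p v x * (sys2 K m e κ).path ((sys2 K m e κ).T v x) w ≠ 0 := h
    have h2 := left_ne_zero_of_mul h1
    have h3 := right_ne_zero_of_mul h1
    have h4 : Ala x v.1 := by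
      by_contra hc
      apply h2
      show (if Ala x v.1 then ww v.1 * pen e κ v.1 / ff2 K m e κ x else 0) = 0
      rw [if_neg hc]
    rw [sys2_T v h4] at h3
    obtain ⟨i1, i2⟩ := ih h3
    have e1 : ((v :: w).map Subtype.val).flatten = v.1 ++ (w.map Subtype.val).flatten := by
      rw [List.map_cons, List.flatten_cons]
    have e2 : (sys2 K m e κ).nd x (v :: w) = (sys2 K m e κ).nd (nd x v.1) w := by
      show (sys2 K m e κ).nd ((sys2 K m e κ).T v x) w = _
      rw [sys2_T v h4]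
    rw [e1, e2, ala_append, nd_append]
    exact ⟨⟨h4, i1⟩, i2⟩

theorem Ins2_flen {K m : ℕ} {e : ℝ} (w : List (V2 K m e)) :
    (w.map Subtype.val).flatten.length = m * w.length := by
  induction w with
  | nil => simp
  | cons v w ih =>
    rw [List.map_cons, List.flatten_cons, List.length_append, ih, (Ins2_len v).1,
      List.length_cons]
    ring

theorem Ins2_one {K m : ℕ} {e : ℝ} (w : List (V2 K m e)) :
    ∀ k ∈ (w.map Subtype.val).flatten, 1 ≤ k := by
  induction w with
  | nil => simp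
  | cons v w ih =>
    rw [List.map_cons, List.flatten_cons]
    intro k hk
    rw [List.mem_append] at hk
    rcases hk with hk | hk
    · exact (Ins2_len v).2 k hk
    · exact ih k hk

theorem Ins2_eq {K m : ℕ} {e : ℝ} (w w' : List (V2 K m e)) (hl : w.length = w'.length)
    (h : (w.map Subtype.val).flatten = (w'.map Subtype.val).flatten) : w = w' := by
  induction w generalizing w' with
  | nil =>
    cases w' with
    | nil => rfl
    | cons v' w' => simp at hl
  | cons v w ih =>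
    cases w' with
    | nil => simp at hl
    | cons v' w' =>
      rw [List.map_cons, List.map_cons, List.flatten_cons, List.flatten_cons] at h
      obtain ⟨h1, h2⟩ := List.append_inj h (by rw [(Ins2_len v).1, (Ins2_len v').1])
      rw [List.length_cons, List.length_cons] at hl
      rw [Subtype.ext h1, ih w' (by omega) h2]

theorem Ins2_inj {K m : ℕ} {e κ : ℝ} (x : ℤ) (w w' : List (V2 K m e)) (hl : w.length = w'.length)
    (h : (sys2 K m e κ).path x w ≠ 0) (h' : (sys2 K m e κ).path x w' ≠ 0)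
    (e1 : (sys2 K m e κ).nd x w = (sys2 K m e κ).nd x w') : w = w' := by
  obtain ⟨a1, a2⟩ := Ins2_flat h
  obtain ⟨b1, b2⟩ := Ins2_flat h'
  refine Ins2_eq w w' hl (nd_inj ?_ (Ins2_one w) (Ins2_one w') a1 b1 (by rw [a2, b2, e1]))
  rw [Ins2_flen, Ins2_flen, hl]

theorem Ins2_W_pos (e κ : ℝ) (v : List ℕ) : 0 < ww v * pen e κ v := by
  refine mul_pos (ww_pos v) ?_
  unfold pen
  split_ifs
  · exact one_pos
  · exact Real.exp_pos _

theorem Ins2_ff2_pos {K m : ℕ} (hK : 7 ≤ K) (hm : 1 ≤ m) (e : ℝ) {κ : ℝ} (hκ : 0 ≤ κ) (x : ℤ) :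
    0 < ff2 K m e κ x :=
  lt_of_lt_of_le (Real.exp_pos _) (ff2_exp hK hm e hκ x)

theorem Ins2_rho {K m : ℕ} {e κ : ℝ} (hK : 7 ≤ K) (hm : 2 ≤ m) (hκ : 0 ≤ κ) :
    ∃ ρ : ℝ, 0 < ρ ∧ ρ < 1 ∧ ∀ (v : V2 K m e) (x : ℤ), (sys2 K m e κ).p v x ≤ ρ := by
  obtain ⟨v0, hv0, -⟩ := two_words2 hK hm e 0
  obtain ⟨v1, hv1, hmin⟩ := (V2 K m e).exists_min_image (fun v => ww v * pen e κ v) ⟨v0, hv0⟩
  have hw0 := Ins2_W_pos e κ v1
  set w0 : ℝ := ww v1 * pen e κ v1 with hw0d
  set F0 : ℝ := ∑ v ∈ V2 K m e, ww v * pen e κ v with hF0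
  have hF0w : w0 ≤ F0 :=
    Finset.single_le_sum (f := fun v => ww v * pen e κ v) (fun v _ => (Ins2_W_pos e κ v).le) hv1
  have hF0p : 0 < F0 := lt_of_lt_of_le hw0 hF0w
  have hff : ∀ x, ff2 K m e κ x ≤ F0 := by
    intro x
    unfold ff2
    refine Finset.sum_le_sum fun v _ => ?_
    split_ifs
    · exact le_rfl
    · exact (Ins2_W_pos e κ v).le
  refine ⟨max (1 - w0 / F0) (1 / 2), lt_of_lt_of_le (by norm_num) (le_max_right _ _), ?_, ?_⟩
  · refine max_lt ?_ (by norm_num)
    have := div_pos hw0 hF0p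
    linarith
  · intro v x
    have hf := Ins2_ff2_pos hK (by omega : 1 ≤ m) e hκ x
    show (if Ala x v.1 then ww v.1 * pen e κ v.1 / ff2 K m e κ x else 0) ≤ _
    split_ifs with hA
    · refine le_trans ?_ (le_max_left _ _)
      obtain ⟨u, hu, u', hu', huu, hAu, hAu'⟩ := two_words2 hK hm e x
      obtain ⟨z, hz, hzv, hAz⟩ : ∃ z ∈ V2 K m e, z ≠ v.1 ∧ Ala x z := by
        by_cases huv : u = v.1
        · exact ⟨u', hu', fun h => huu (huv.trans h.symm), hAu'⟩
        · exact ⟨u, hu, huv, hAu⟩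
      have h1 : ww v.1 * pen e κ v.1 + ww z * pen e κ z ≤ ff2 K m e κ x := by
        have hsub : ({v.1, z} : Finset (List ℕ)) ⊆ V2 K m e := by
          intro y hy
          rw [mem_insert, mem_singleton] at hy
          rcases hy with rfl | rfl
          · exact v.2
          · exact hz
        have h2 : ∑ y ∈ ({v.1, z} : Finset (List ℕ)), (if Ala x y then ww y * pen e κ y else 0) ≤
            ff2 K m e κ x := by
          unfold ff2
          refine Finset.sum_le_sum_of_subset_of_nonneg hsub fun y _ _ => ?_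
          split_ifs
          · exact (Ins2_W_pos e κ y).le
          · exact le_rfl
        rw [Finset.sum_pair hzv.symm, if_pos hA, if_pos hAz] at h2
        exact h2
      have h3 := hmin z hz
      have h4 : ww v.1 * pen e κ v.1 ≤ ff2 K m e κ x - w0 := by
        linarith
      rw [div_le_iff₀ hf]
      have h5 : w0 / F0 * ff2 K m e κ x ≤ w0 := by
        rw [div_mul_eq_mul_div, div_le_iff₀ hF0p]
        exact mul_le_mul_of_nonneg_left (hff x) hw0.le
      linarith
    · exact le_trans (by norm_num) (le_max_right _ _)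

theorem sys2_ok {K m : ℕ} {e κ : ℝ} (hK : 7 ≤ K) (hm : 2 ≤ m) (hκ : 0 ≤ κ) : (sys2 K m e κ).Ok where
  m1 := by
    show 1 ≤ m
    omega
  nn := by
    intro v x
    show 0 ≤ (if Ala x v.1 then ww v.1 * pen e κ v.1 / ff2 K m e κ x else 0)
    split_ifs
    · exact div_nonneg (Ins2_W_pos e κ v.1).le (Ins2_ff2_pos hK (by omega) e hκ x).le
    · exact le_rfl
  per := by
    intro v x
    show (if Ala (x + 3 ^ m) v.1 then ww v.1 * pen e κ v.1 / ff2 K m e κ (x + 3 ^ m) else 0) =
      (if Ala x v.1 then ww v.1 * pen e κ v.1 / ff2 K m e κ x else 0)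
    have h1 : Ala (x + 3 ^ m) v.1 ↔ Ala x v.1 := by
      have h2 := ala_shift v.1 x 1
      rw [(Ins2_len v).1, mul_one] at h2
      exact h2
    rw [ff2_per K m e κ x]
    by_cases hA : Ala x v.1
    · rw [if_pos hA, if_pos (h1.2 hA)]
    · rw [if_neg hA, if_neg (fun h => hA (h1.1 h))]
  dvd := by
    intro v x hp
    have hA : Ala x v.1 := by
      by_contra hc
      apply hp
      show (if Ala x v.1 then ww v.1 * pen e κ v.1 / ff2 K m e κ x else 0) = 0
      rw [if_neg hc]
    show (3 : ℤ) ^ m ∣ 4 ^ (v.1.sum / 2) * x + Gw v.1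
    have h1 := nd_eq hA
    rw [(Ins2_len v).1] at h1
    rw [Ins2_even, ← h1]
    exact Dvd.intro _ rfl
  sum := by
    intro x
    have hf := Ins2_ff2_pos hK (by omega : 1 ≤ m) e hκ x
    have h1 : ∑ v : V2 K m e, (sys2 K m e κ).p v x =
        ∑ v ∈ V2 K m e, (if Ala x v then ww v * pen e κ v / ff2 K m e κ x else 0) :=
      Finset.sum_coe_sort (V2 K m e)
        (fun v => if Ala x v then ww v * pen e κ v / ff2 K m e κ x else 0)
    rw [h1]
    have h2 : ∑ v ∈ V2 K m e, (if Ala x v then ww v * pen e κ v / ff2 K m e κ x else 0) =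
        (∑ v ∈ V2 K m e, (if Ala x v then ww v * pen e κ v else 0)) / ff2 K m e κ x := by
      rw [Finset.sum_div]
      refine Finset.sum_congr rfl fun v _ => ?_
      split_ifs
      · rfl
      · rw [zero_div]
    rw [h2]
    exact div_self hf.ne'
  rho := Ins2_rho hK hm hκ
  inj := fun x w w' hl h h' e1 => Ins2_inj x w w' hl h h' e1

end Pool.Agent.helper14.EX1
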