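import Pool.Agent.helper14.EX1.Free
import Pool.Agent.helper14.EX1.Che2
import Pool.Agent.helper14.EX1.Par2

/-!
# EX1-Res2: the restricted free energy is zero (as Res, with `Low2 K (e/2) M`, `che2` for `e/2`, and the lower bound
`exp (-(4 + κ) m)` on the bad classes)
-/

namespace Pool.Agent.helper14.EX1

open Finset

theorem Res2_low_nn (K : ℕ) (e : ℝ) (n : ℕ) (x : ℤ) : 0 ≤ Low2 K e n x := by
  classical
  unfold Low2
  refine Finset.sum_nonneg fun v _ => ?_
  split_ifs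
  · exact (ww_pos v).le
  · exact le_rfl

theorem Res2_low_per (K : ℕ) (e : ℝ) (n : ℕ) : Per n (Low2 K e n) := by
  classical
  intro x
  unfold Low2
  refine Finset.sum_congr rfl fun v hv => ?_
  have hl := (mem_lw.1 hv).1
  have h := ala_shift v x 1
  rw [hl, mul_one] at h
  simp only [h]

theorem Res2_FF_pos {K : ℕ} (hK : 7 ≤ K) (n : ℕ) (x : ℤ) : 0 < FF K n x := by
  rw [FF_eq (by omega)]
  exact mul_pos (pow_pos (th_pos (by omega)) _) (fn_pos (by omega) _ _)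

theorem Res2_FF_per {K : ℕ} (hK : 7 ≤ K) (n : ℕ) : Per n (FF K n) := by
  intro x
  rw [FF_eq (by omega), FF_eq (by omega), fn_per K n x]

theorem Res2_avg_FF {K : ℕ} (hK : 7 ≤ K) (n : ℕ) : avg n (FF K n) ≤ 1 := by
  have h : avg n (FF K n) = th K ^ n * avg n (fn K n) := by
    rw [← avg_smul]
    congr 1
    funext x
    exact FF_eq (by omega) n x
  rw [h, avg_fn (by omega), mul_one]
  exact pow_le_one₀ (th_pos (by omega)).le (th_lt_one K).le

/-- The main inequality at one point. -/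
theorem Res2_point {F W f κ σ c lo : ℝ} {m M : ℕ} (hF : 0 < F) (hW : 0 ≤ W)
    (hσ0 : 0 < σ) (hc : c = -Real.log σ) (hc0 : 0 < c) (hκ : 0 ≤ κ) (hM : 1 ≤ M)
    (hlow : 3 / 128 * (F - W) ≤ f) (hexp : Real.exp (-(4 + κ) * m) ≤ f)
    (hlo : lo = Real.log (256 / 3)) :
    (-(1 + (4 + κ) * m / (c * M))) * max 0 (-Real.log F) +
      ((-((4 + κ) * m * 2 / σ ^ M)) * W + (-lo)) ≤ Real.log f := by
  have hf : 0 < f := (Real.exp_pos _).trans_le hexp
  have hM' : (0 : ℝ) < M := by exact_mod_cast hM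
  have hN : 0 ≤ max 0 (-Real.log F) := le_max_left _ _
  have hlo0 : 0 ≤ lo := by
    rw [hlo]
    exact Real.log_nonneg (by norm_num)
  have hr : 0 < σ ^ M := pow_pos hσ0 _
  have ha1 : 0 ≤ (4 + κ) * m / (c * M) := by positivity
  have ha2 : 0 ≤ (4 + κ) * m * 2 / σ ^ M := by positivity
  by_cases hG : W ≤ F / 2
  · -- the good case
    have h1 : 3 / 256 * F ≤ f := by linarith
    have h2 : Real.log F - lo ≤ Real.log f := by
      have h3 := Real.log_le_log (by positivity) h1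
      rw [Real.log_mul (by norm_num) hF.ne'] at h3
      have h4 : Real.log (3 / 256) = -lo := by
        rw [hlo, ← Real.log_inv]
        norm_num
      linarith
    have h3 : -Real.log F ≤ max 0 (-Real.log F) := le_max_right _ _
    have h4 : 0 ≤ (4 + κ) * m / (c * M) * max 0 (-Real.log F) := mul_nonneg ha1 hN
    have h5 : 0 ≤ (4 + κ) * m * 2 / σ ^ M * W := mul_nonneg ha2 hW
    nlinarith
  · push Not at hG
    have h0 : -(4 + κ) * m ≤ Real.log f := by
      have := Real.log_le_log (Real.exp_pos _) hexp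
      rwa [Real.log_exp] at this
    have hk : 0 ≤ (4 + κ) * (m : ℝ) := by positivity
    have key : (4 + κ) * m ≤ (4 + κ) * m / (c * M) * max 0 (-Real.log F) +
        (4 + κ) * m * 2 / σ ^ M * W := by
      by_cases hF2 : σ ^ M ≤ F
      · have h1 : (4 + κ) * m ≤ (4 + κ) * m * 2 / σ ^ M * W := by
          rw [div_mul_eq_mul_div, le_div_iff₀ hr]
          have h2 : σ ^ M ≤ 2 * W := by linarith
          calc (4 + κ) * m * σ ^ M ≤ (4 + κ) * m * (2 * W) := mul_le_mul_of_nonneg_left h2 hk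
            _ = (4 + κ) * m * 2 * W := by ring
        have h2 : 0 ≤ (4 + κ) * m / (c * M) * max 0 (-Real.log F) := mul_nonneg ha1 hN
        linarith
      · push Not at hF2
        have h3 : Real.log F ≤ -(c * M) := by
          have h4 := Real.log_le_log hF hF2.le
          rw [Real.log_pow] at h4
          rw [hc]
          linarith
        have h4 : c * M ≤ max 0 (-Real.log F) := by
          have := le_max_right 0 (-Real.log F)
          linarith
        have h1 : (4 + κ) * m ≤ (4 + κ) * m / (c * M) * max 0 (-Real.log F) := by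
          rw [div_mul_eq_mul_div, le_div_iff₀ (mul_pos hc0 hM')]
          exact mul_le_mul_of_nonneg_left h4 hk
        have h2 : 0 ≤ (4 + κ) * m * 2 / σ ^ M * W := mul_nonneg ha2 hW
        linarith
    nlinarith

/-- The average bound. -/
theorem Res2_avg {e κ σ c C δ' : ℝ} {K M : ℕ} (hK : 7 ≤ K) (hM : 1 ≤ M)
    (hσ0 : 0 < σ) (hc : c = -Real.log σ) (hc0 : 0 < c) (hκ : 0 ≤ κ)
    (hfree : -δ' * M ≤ avg M (fun x => Real.log (FF K M x)))
    (hche : avg M (Low2 K (e / 2) M) ≤ C * (σ ^ 2) ^ M)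
    (hlow : ∀ x, 3 / 128 * (FF K M x - Low2 K (e / 2) M x) ≤ ff2 K (M + 1) e κ x) :
    -(1 + (4 + κ) * (M + 1 : ℕ) / (c * M)) * (1 + δ' * M) -
      (4 + κ) * (M + 1 : ℕ) * 2 * C * σ ^ M - Real.log (256 / 3) ≤
      avg (M + 1) (fun x => Real.log (ff2 K (M + 1) e κ x)) := by
  have hM' : (0 : ℝ) < M := by exact_mod_cast hM
  set N : ℤ → ℝ := fun x => max 0 (-Real.log (FF K M x)) with hN
  have hNper : Per M N := fun x => by
    simp only [hN]
    rw [Res2_FF_per hK M x]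
  have hr : 0 < σ ^ M := pow_pos hσ0 _
  have ha1 : 0 ≤ (4 + κ) * (M + 1 : ℕ) / (c * M) := by positivity
  have ha2 : 0 ≤ (4 + κ) * (M + 1 : ℕ) * 2 / σ ^ M := by positivity
  have h1 : avg M N ≤ 1 + δ' * M := by
    have h2 : avg M N ≤ avg M (fun x => FF K M x + (-1) * Real.log (FF K M x)) := by
      refine avg_mono fun x => ?_
      have hF := Res2_FF_pos hK M x
      have h3 := Real.log_le_sub_one_of_pos hF
      simp only [hN]
      refine max_le (by linarith) (by linarith)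
    rw [avg_add, avg_smul] at h2
    have h3 := Res2_avg_FF hK M
    linarith
  have h2 : avg (M + 1) (fun x => (-(1 + (4 + κ) * (M + 1 : ℕ) / (c * M))) * N x +
      ((-((4 + κ) * (M + 1 : ℕ) * 2 / σ ^ M)) * Low2 K (e / 2) M x +
        (-Real.log (256 / 3)))) ≤ avg (M + 1) (fun x => Real.log (ff2 K (M + 1) e κ x)) :=
    avg_mono fun x => Res2_point (Res2_FF_pos hK M x) (Res2_low_nn K _ M x) hσ0 hc hc0 hκ hM
      (hlow x) (ff2_exp hK (by omega) e hκ x) rfl
  rw [avg_add, avg_smul, avg_add, avg_smul, avg_const, avg_up (Nat.le_succ M) hNper,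
    avg_up (Nat.le_succ M) (Res2_low_per K (e / 2) M)] at h2
  have h3 : (1 + (4 + κ) * (M + 1 : ℕ) / (c * M)) * avg M N ≤
      (1 + (4 + κ) * (M + 1 : ℕ) / (c * M)) * (1 + δ' * M) :=
    mul_le_mul_of_nonneg_left h1 (by linarith)
  have h4 : (4 + κ) * (M + 1 : ℕ) * 2 / σ ^ M * avg M (Low2 K (e / 2) M) ≤
      (4 + κ) * (M + 1 : ℕ) * 2 * C * σ ^ M := by
    calc (4 + κ) * (M + 1 : ℕ) * 2 / σ ^ M * avg M (Low2 K (e / 2) M)
        ≤ (4 + κ) * (M + 1 : ℕ) * 2 / σ ^ M * (C * (σ ^ 2) ^ M) :=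
          mul_le_mul_of_nonneg_left hche ha2
      _ = (4 + κ) * (M + 1 : ℕ) * 2 * C * σ ^ M := by
          have e1 : (σ ^ 2) ^ M = σ ^ M * σ ^ M := by rw [← pow_mul, mul_comm 2 M, pow_mul]; ring
          rw [e1]
          field_simp
  linarith

theorem restr2 {e κ δ : ℝ} (he : 0 < e) (hκ : 0 ≤ κ) (hδ : 0 < δ) (m0 : ℕ) :
    ∃ K m : ℕ, 7 ≤ K ∧ 2 ≤ m ∧ m0 ≤ m ∧ -δ * m ≤ avg m (fun x => Real.log (ff2 K m e κ x)) := by
  obtain ⟨ρ, C, hρ0, hρ1, hC, hche⟩ := che2 (half_pos he)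
  obtain ⟨M0, hM0⟩ := ff2_low he
  set σ := Real.sqrt ρ with hσ
  have hσ0 : 0 < σ := Real.sqrt_pos.2 hρ0
  have hσ2 : σ ^ 2 = ρ := Real.sq_sqrt hρ0.le
  have hσ1 : σ < 1 := by
    rw [hσ, Real.sqrt_lt' one_pos]
    simpa using hρ1
  obtain ⟨c, hc⟩ : ∃ c : ℝ, c = -Real.log σ := ⟨_, rfl⟩
  have hc0 : 0 < c := by
    have := Real.log_neg hσ0 hσ1
    linarith
  have hk : 0 < 4 + κ := by linarith
  obtain ⟨δ', hδ'0, hδ'1, hδ'2⟩ : ∃ δ' : ℝ, 0 < δ' ∧ δ' ≤ δ / 4 ∧ (4 + κ) * δ' / c ≤ δ / 8 := by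
    refine ⟨min (δ / 4) (c * δ / (8 * (4 + κ))), lt_min (by positivity) (by positivity),
      min_le_left _ _, ?_⟩
    have h1 := min_le_right (δ / 4) (c * δ / (8 * (4 + κ)))
    rw [div_le_iff₀ hc0]
    calc (4 + κ) * min (δ / 4) (c * δ / (8 * (4 + κ))) ≤ (4 + κ) * (c * δ / (8 * (4 + κ))) :=
          mul_le_mul_of_nonneg_left h1 hk.le
      _ = δ / 8 * c := by field_simp
  obtain ⟨K, hK, M1, hfree⟩ := free hδ'0
  -- large `M`
  have ev1 : ∀ᶠ M : ℕ in Filter.atTop, 1 + Real.log (256 / 3) ≤ δ / 4 * M := by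
    have := (tendsto_natCast_atTop_atTop (R := ℝ)).const_mul_atTop (show 0 < δ / 4 by positivity)
    exact this.eventually_ge_atTop _
  have ev2 : ∀ᶠ M : ℕ in Filter.atTop, (4 + κ) * 2 * C * σ ^ M ≤ δ / 4 := by
    have := (tendsto_pow_atTop_nhds_zero_of_lt_one hσ0.le hσ1).const_mul ((4 + κ) * 2 * C)
    rw [mul_zero] at this
    exact (this.eventually_lt_const (show 0 < δ / 4 by positivity)).mono fun _ h => h.le
  have ev3 : ∀ᶠ M : ℕ in Filter.atTop, (4 + κ) / c ≤ δ / 8 * M := by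
    have := (tendsto_natCast_atTop_atTop (R := ℝ)).const_mul_atTop (show 0 < δ / 8 by positivity)
    exact this.eventually_ge_atTop _
  obtain ⟨M, ⟨⟨h1, h2⟩, h3⟩, h4⟩ := ((ev1.and ev2).and ev3).and
    (Filter.eventually_ge_atTop (max (max M0 M1) (max m0 1))) |>.exists
  have hMM0 : M0 ≤ M := (le_max_left _ _).trans ((le_max_left _ _).trans h4)
  have hMM1 : M1 ≤ M := (le_max_right _ _).trans ((le_max_left _ _).trans h4)
  have hMm0 : m0 ≤ M := (le_max_left _ _).trans ((le_max_right _ _).trans h4)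
  have hM1 : 1 ≤ M := (le_max_right _ _).trans ((le_max_right _ _).trans h4)
  have hM' : (0 : ℝ) < M := by exact_mod_cast hM1
  refine ⟨K, M + 1, hK, by omega, by omega, ?_⟩
  have key := Res2_avg (e := e) (κ := κ) (σ := σ) (c := c) (C := C) (δ' := δ') hK hM1 hσ0 hc hc0 hκ
    (hfree M hMM1) (by rw [hσ2]; exact hche K M) (fun x => hM0 M hMM0 K hK κ x)
  refine le_trans ?_ key
  have hmc : ((M + 1 : ℕ) : ℝ) = (M : ℝ) + 1 := by push_cast; rfl
  rw [hmc]
  have e1 : (1 + (4 + κ) * ((M : ℝ) + 1) / (c * M)) * (1 + δ' * M) =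
      1 + δ' * M + ((M : ℝ) + 1) * ((4 + κ) / c / M + (4 + κ) * δ' / c) := by
    field_simp
  have h5 : (4 + κ) / c / M ≤ δ / 8 := by
    rw [div_le_iff₀ hM']
    exact h3
  have hm1 : (0 : ℝ) < (M : ℝ) + 1 := by linarith
  have h6 : ((M : ℝ) + 1) * ((4 + κ) / c / M + (4 + κ) * δ' / c) ≤ ((M : ℝ) + 1) * (δ / 4) :=
    mul_le_mul_of_nonneg_left (by linarith) hm1.le
  have h7 : (4 + κ) * ((M : ℝ) + 1) * 2 * C * σ ^ M ≤ ((M : ℝ) + 1) * (δ / 4) := by
    calc (4 + κ) * ((M : ℝ) + 1) * 2 * C * σ ^ M = ((M : ℝ) + 1) * ((4 + κ) * 2 * C * σ ^ M) := by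
          ring
      _ ≤ _ := mul_le_mul_of_nonneg_left h2 hm1.le
  have h8 : δ' * M ≤ δ / 4 * M := mul_le_mul_of_nonneg_right hδ'1 hM'.le
  have e2 : -(1 + (4 + κ) * ((M : ℝ) + 1) / (c * M)) * (1 + δ' * M) =
      -((1 + (4 + κ) * ((M : ℝ) + 1) / (c * M)) * (1 + δ' * M)) := neg_mul _ _
  rw [e2, e1]
  linarith

end Pool.Agent.helper14.EX1
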