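import Pool.Agent.helper14.EX1.Unif
import Pool.Agent.helper14.EX1.Res2
import Pool.Agent.helper14.EX1.Ins2

/-!
# EX1-Gib2: Gibbs inequality for version 2 (as Gib)

`p_v = ww v * pen v / ff2`, and `ww v ^ γ * pen v = p_v * ww v ^ (γ - 1) * ff2`; `ww v ≤ exp (-m/4)` on `V2` (typical with
`e ≤ 1/20`: `v.sum ≥ 1.95 m`; letters `≥ 2`: `v.sum ≥ 2 m`).  `φ0 = log ff2 + (1-γ) m / 4`, `restr2` with
`δ = (1-γ)/16`, `unif` with `ε = (1-γ) m / 16`: `log (Lg2^T 1) ≥ T (1-γ) m / 8 ≥ log 2` for large `T`.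
-/

namespace Pool.Agent.helper14.EX1

open Finset

theorem Gib2_log_ww {K m : ℕ} {e : ℝ} (he1 : e ≤ 1 / 20) {v : List ℕ} (hv : v ∈ V2 K m e) :
    Real.log (ww v) ≤ -(m : ℝ) / 4 := by
  classical
  unfold V2 at hv
  rw [mem_filter, mem_lw] at hv
  obtain ⟨⟨hl, _⟩, _, hs⟩ := hv
  have h6 : (39 : ℝ) * m ≤ 20 * v.sum := by
    have hm0 : (0 : ℝ) ≤ m := Nat.cast_nonneg m
    rcases hs with hs | hs
    · have h1 := (abs_le.1 hs.1).1
      rw [hl] at h1
      nlinarith
    · have h1 : v.length * 2 ≤ v.sum := by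
        have := List.card_nsmul_le_sum v 2 (fun k hk => (hs k hk).1)
        simpa using this
      rw [hl] at h1
      have h2 : (m : ℝ) * 2 ≤ v.sum := by exact_mod_cast h1
      linarith
  unfold ww
  rw [hl, Real.log_div (by positivity) (by positivity), Real.log_pow, Real.log_pow]
  have h1 : 20 * Real.log 3 + 5 ≤ 39 * Real.log 2 := by
    have h2 : (3 : ℝ) ^ 20 * Real.exp 1 ^ 5 ≤ 2 ^ 39 := by
      have h3 : Real.exp 1 ^ 5 ≤ 2.7182818286 ^ 5 :=
        pow_le_pow_left₀ (Real.exp_pos 1).le Real.exp_one_lt_d9.le 5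
      have h4 : (3 : ℝ) ^ 20 * 2.7182818286 ^ 5 ≤ 2 ^ 39 := by norm_num
      exact (mul_le_mul_of_nonneg_left h3 (by positivity)).trans h4
    have h5 := Real.log_le_log (by positivity) h2
    rw [Real.log_mul (by positivity) (by positivity), Real.log_pow, Real.log_pow, Real.log_pow,
      Real.log_exp] at h5
    push_cast at h5
    linarith
  have h7 : 0 < Real.log 2 := Real.log_pos (by norm_num)
  have h8 : 39 * (m : ℝ) * Real.log 2 ≤ 20 * v.sum * Real.log 2 :=
    mul_le_mul_of_nonneg_right h6 h7.le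
  have h9 : (m : ℝ) * (20 * Real.log 3 + 5) ≤ m * (39 * Real.log 2) :=
    mul_le_mul_of_nonneg_left h1 (Nat.cast_nonneg m)
  linarith

theorem Gib2_step {γ e κ : ℝ} (h1 : γ < 1) (he1 : e ≤ 1 / 20) (hκ : 0 ≤ κ) {K m : ℕ} (hK : 7 ≤ K)
    (hm : 2 ≤ m) {h : ℤ → ℝ} (hh : ∀ x, 0 < h x) (x : ℤ) : 0 < Lg2 K m e κ γ h x ∧
      Real.log (ff2 K m e κ x) + (1 - γ) * m / 4 + (sys2 K m e κ).K (fun y => Real.log (h y)) x
        ≤ Real.log (Lg2 K m e κ γ h x) := by
  have hS := sys2_ok (e := e) hK hm hκ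
  have hff : 0 < ff2 K m e κ x := lt_of_lt_of_le (Real.exp_pos _) (ff2_exp hK (by omega) e hκ x)
  set X : V2 K m e → ℝ := fun v => ww v.1 ^ (γ - 1) * ff2 K m e κ x * h (nd x v.1) with hX
  have hXpos : ∀ v, 0 < X v := fun v =>
    mul_pos (mul_pos (Real.rpow_pos_of_pos (ww_pos _) _) hff) (hh _)
  have hLg : Lg2 K m e κ γ h x = ∑ v : V2 K m e, (sys2 K m e κ).p v x * X v := by
    unfold Lg2
    rw [← Finset.sum_coe_sort (V2 K m e)]
    refine Finset.sum_congr rfl fun v _ => ?_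
    simp only [sys2, hX]
    split_ifs with hal
    · have hw := ww_pos v.1
      have e : ww v.1 ^ γ = ww v.1 * ww v.1 ^ (γ - 1) := by
        rw [Real.rpow_sub_one hw.ne']
        field_simp
      rw [e]
      field_simp
    · simp
  have hpsum := hS.sum x
  have hJ := strictConcaveOn_log_Ioi.concaveOn.le_map_sum (t := univ)
    (w := fun v : V2 K m e => (sys2 K m e κ).p v x) (p := X) (fun v _ => hS.nn v x) hpsum
    (fun v _ => hXpos v)
  simp only [smul_eq_mul] at hJ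
  rw [← hLg] at hJ
  constructor
  · rw [hLg]
    apply Finset.sum_pos'
    · intro v _
      exact mul_nonneg (hS.nn v x) (hXpos v).le
    · by_contra hcon
      push Not at hcon
      have : ∑ v : V2 K m e, (sys2 K m e κ).p v x = 0 := by
        apply Finset.sum_eq_zero
        intro v hv
        have h2 := hcon v hv
        have h3 := hS.nn v x
        by_contra h4
        have h5 : 0 < (sys2 K m e κ).p v x := lt_of_le_of_ne h3 (Ne.symm h4)
        exact absurd (mul_pos h5 (hXpos v)) (not_lt.2 h2)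
      rw [this] at hpsum
      exact zero_ne_one hpsum
  · refine le_trans ?_ hJ
    have e1 : Real.log (ff2 K m e κ x) + (1 - γ) * m / 4
        + (sys2 K m e κ).K (fun y => Real.log (h y)) x
        = ∑ v : V2 K m e, (sys2 K m e κ).p v x * (Real.log (ff2 K m e κ x) + (1 - γ) * m / 4
          + Real.log (h ((sys2 K m e κ).T v x))) := by
      simp only [mul_add, Finset.sum_add_distrib, ← Finset.sum_mul, hpsum, one_mul, Sys.K]
    rw [e1]
    refine Finset.sum_le_sum fun v _ => ?_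
    by_cases hal : Ala x v.1
    · refine mul_le_mul_of_nonneg_left ?_ (hS.nn v x)
      rw [sys2_T v hal]
      simp only [hX]
      rw [Real.log_mul (mul_pos (Real.rpow_pos_of_pos (ww_pos _) _) hff).ne' (hh _).ne',
        Real.log_mul (Real.rpow_pos_of_pos (ww_pos _) _).ne' hff.ne', Real.log_rpow (ww_pos _)]
      have h2 := Gib2_log_ww he1 v.2
      nlinarith
    · have : (sys2 K m e κ).p v x = 0 := by simp only [sys2]; rw [if_neg hal]
      rw [this, zero_mul, zero_mul]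

theorem Gib2_iter {γ e κ : ℝ} (h1 : γ < 1) (he1 : e ≤ 1 / 20) (hκ : 0 ≤ κ) {K m : ℕ} (hK : 7 ≤ K)
    (hm : 2 ≤ m) (T : ℕ) (x : ℤ) : 0 < ((Lg2 K m e κ γ)^[T] (fun _ => 1)) x ∧
      ∑ t ∈ range T, ((sys2 K m e κ).K^[t] (fun y => Real.log (ff2 K m e κ y) + (1 - γ) * m / 4)) x
        ≤ Real.log (((Lg2 K m e κ γ)^[T] (fun _ => 1)) x) := by
  have hS := sys2_ok (e := e) hK hm hκ
  induction T generalizing x with
  | zero => simp
  | succ T ih =>
    have h2 := Gib2_step h1 he1 hκ hK hm (h := (Lg2 K m e κ γ)^[T] (fun _ => 1))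
      (fun y => (ih y).1) x
    rw [Function.iterate_succ_apply']
    refine ⟨h2.1, le_trans ?_ h2.2⟩
    have h3 := Sys.K_mono hS (fun y => (ih y).2) x
    refine le_trans ?_ (add_le_add_right h3 _)
    rw [Finset.sum_range_succ']
    have h4 : (sys2 K m e κ).K (fun y => ∑ t ∈ range T, ((sys2 K m e κ).K^[t]
        (fun y => Real.log (ff2 K m e κ y) + (1 - γ) * m / 4)) y) x
        = ∑ t ∈ range T, ((sys2 K m e κ).K^[t + 1]
        (fun y => Real.log (ff2 K m e κ y) + (1 - γ) * m / 4)) x := by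
      simp only [Function.iterate_succ_apply']
      simp only [Sys.K, Finset.mul_sum]
      rw [Finset.sum_comm]
    rw [h4, add_comm]
    simp

theorem gibbs2 {γ e κ : ℝ} (h0 : 0 < γ) (h1 : γ < 1) (he : 0 < e) (he1 : e ≤ 1 / 20) (hκ : 0 ≤ κ)
    (m0 : ℕ) : ∃ K m T0 : ℕ, 7 ≤ K ∧ 2 ≤ m ∧ m0 ≤ m ∧
      ∀ T ≥ T0, ∀ x : ℤ, 2 ≤ ((Lg2 K m e κ γ)^[T] (fun _ => 1)) x := by
  obtain ⟨K, m, hK, hm, hm0, hδ⟩ := restr2 (δ := (1 - γ) / 16) he hκ (by linarith) m0
  have hS := sys2_ok (e := e) hK hm hκ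
  have hmpos : (0 : ℝ) < m := by
    have : 0 < m := by omega
    exact_mod_cast this
  have hγ : 0 < 1 - γ := by linarith
  have hφ : Per (sys2 K m e κ).m (fun x => Real.log (ff2 K m e κ x)) :=
    per_comp (ff2_per K m e κ) Real.log
  obtain ⟨T0, hT0⟩ := unif hS hφ (ε := (1 - γ) * m / 16) (by positivity)
  have hc : 0 < (1 - γ) * m / 8 := by positivity
  refine ⟨K, m, max T0 ⌈Real.log 2 / ((1 - γ) * m / 8)⌉₊, hK, hm, hm0, fun T hT x => ?_⟩
  obtain ⟨hpos, hlog⟩ := Gib2_iter h1 he1 hκ hK hm T x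
  have h2 := hT0 T ((le_max_left _ _).trans hT) x
  have h3 : ∀ t : ℕ, ((sys2 K m e κ).K^[t]
      (fun y => Real.log (ff2 K m e κ y) + (1 - γ) * m / 4)) x
      = ((sys2 K m e κ).K^[t] (fun y => Real.log (ff2 K m e κ y))) x + (1 - γ) * m / 4 := by
    intro t
    rw [Sys.iter_add (sys2 K m e κ) t (fun y => Real.log (ff2 K m e κ y))
      (fun _ => (1 - γ) * m / 4), Sys.iter_const hS]
  simp only [h3, Finset.sum_add_distrib, Finset.sum_const, card_range, nsmul_eq_mul] at hlog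
  have hm' : (sys2 K m e κ).m = m := rfl
  rw [hm'] at h2
  have h4 : (0 : ℝ) ≤ T := Nat.cast_nonneg T
  have hTl : Real.log 2 ≤ (1 - γ) * m / 8 * T := by
    have h5 : Real.log 2 / ((1 - γ) * m / 8) ≤ T := by
      refine (Nat.le_ceil _).trans ?_
      exact_mod_cast (le_max_right _ _).trans hT
    rwa [div_le_iff₀ hc, mul_comm] at h5
  have h5 : Real.log 2 ≤ Real.log (((Lg2 K m e κ γ)^[T] (fun _ => 1)) x) := by
    refine le_trans hTl (le_trans ?_ hlog)
    have h6 : 0 ≤ (avg m (fun x => Real.log (ff2 K m e κ x)) + (1 - γ) / 16 * m) * T := by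
      apply mul_nonneg _ h4
      linarith
    linarith
  exact (Real.log_le_log_iff (by norm_num) hpos).1 h5

end Pool.Agent.helper14.EX1
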