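import Pool.Agent.helper14.EX1.Law

/-!
# EX1-Haar: uniform digits give the uniform law

`Psi E p 1 = 1/3` and `psi_eq` give `Dev E p 1 B = 0` for all `B < 3 ^ p`, so
`E (ind (p+1) (B + 3 ^ p d)) = E (ind p B) / 3`; by induction `E (ind q c) = 1 / 3 ^ q`; then `law_eq`.
-/

namespace Pool.Agent.helper14.EX1

open Finset

variable {E : (ℤ → ℝ) → ℝ}

theorem Haar_dev (hE : IsLaw E) (h : ∀ p, Psi E p 1 = 1 / 3) (p : ℕ) {B : ℕ}
    (hB : B ∈ range (3 ^ p)) : Dev E p 1 (B : ℤ) = 0 := by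
  have h1 := psi_eq hE p 1
  rw [h p, pow_one] at h1
  have h2 : ∑ B ∈ range (3 ^ p), Dev E p 1 (B : ℤ) = 0 := by linarith
  have h3 : ∀ b ∈ range (3 ^ p), 0 ≤ Dev E p 1 ((b : ℕ) : ℤ) := fun b _ => dev_nn hE p 1 (b : ℤ)
  exact (Finset.sum_eq_zero_iff_of_nonneg h3).mp h2 B hB

theorem Haar_step (hE : IsLaw E) (h : ∀ p, Psi E p 1 = 1 / 3) (p : ℕ) {B : ℕ}
    (hB : B ∈ range (3 ^ p)) {W : ℕ} (hW : W ∈ range (3 ^ 1)) :
    E (ind (p + 1) ((B : ℤ) + 3 ^ p * (W : ℤ))) = E (ind p (B : ℤ)) / 3 := by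
  have h0 := Haar_dev hE h p hB
  have hnn : 0 ≤ E (ind p (B : ℤ)) := law_ind_nn hE p B
  unfold Dev at h0
  have h1 := (Finset.sum_eq_zero_iff_of_nonneg
    (fun W _ => div_nonneg (sq_nonneg _) hnn)).mp h0 W hW
  rcases div_eq_zero_iff.mp h1 with h2 | h2
  · have h3 := pow_eq_zero_iff (two_ne_zero) |>.mp h2
    rw [pow_one] at h3
    linarith
  · have h3 := law_ind_le hE p 1 (B : ℤ) (W : ℤ)
    have h4 := law_ind_nn hE (p + 1) ((B : ℤ) + 3 ^ p * (W : ℤ))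
    rw [h2] at h3 ⊢
    linarith

theorem Haar_mass (hE : IsLaw E) (h : ∀ p, Psi E p 1 = 1 / 3) (q : ℕ) :
    ∀ c ∈ range (3 ^ q), E (ind q (c : ℤ)) = 1 / 3 ^ q := by
  induction q with
  | zero =>
    intro c _
    have : ind 0 (c : ℤ) = fun _ => 1 := by
      funext x
      exact ind_zero _ _
    rw [this, hE.one]
    simp
  | succ q ih =>
    intro c hc
    have hc' : c < 3 ^ q * 3 := by
      rw [← pow_succ]
      exact Finset.mem_range.mp hc
    have hpos : 0 < 3 ^ q := by positivity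
    have hB : c % 3 ^ q ∈ range (3 ^ q) := Finset.mem_range.mpr (Nat.mod_lt _ hpos)
    have hW : c / 3 ^ q ∈ range (3 ^ 1) := by
      rw [Finset.mem_range, pow_one]
      exact Nat.div_lt_of_lt_mul hc'
    have h1 := Haar_step hE h q hB hW
    have h2 : (((c % 3 ^ q : ℕ) : ℤ) + 3 ^ q * ((c / 3 ^ q : ℕ) : ℤ)) = (c : ℤ) := by
      have := Nat.mod_add_div c (3 ^ q)
      exact_mod_cast this
    rw [h2, ih _ hB] at h1
    rw [h1, pow_succ]
    field_simp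

theorem law_avg (hE : IsLaw E) (h : ∀ p, Psi E p 1 = 1 / 3) {q : ℕ} {φ : ℤ → ℝ} (hφ : Per q φ) :
    E φ = avg q φ := by
  rw [law_eq hE hφ, avg, Finset.sum_div]
  refine Finset.sum_congr rfl fun c hc => ?_
  rw [Haar_mass hE h q c hc]
  ring

end Pool.Agent.helper14.EX1
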