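import Pool.Agent.helper14.EX1.Ker
import Pool.Agent.helper14.EX1.InjZ

/-!
# EX1-InsI: injectivity of the system of the restricted words

`sysW_T`: `4 ^ (v.sum / 2) = 2 ^ v.sum` (the sum is even, `mem_filter`), `nd_eq`, `v.1.length = m` (`mem_lw`).
`sysW_flat`: induction on `w`: `path x w ≠ 0` gives `Ala x v.1` for the first letter, so the concatenation
`(w.map Subtype.val).flatten` is allowed at `x` and ends in `nd x w` (`nd_append`, `ala_append`).
`sysW_inj`: the concatenations have the same length `m * w.length`, so they are equal (`nd_inj`), and so are the lists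
(all members have length `m`, induction).
-/

namespace Pool.Agent.helper14.EX1

open Finset

theorem InsI_len {K m : ℕ} (v : Vs K m) : v.1.length = m ∧ ∀ k ∈ v.1, 1 ≤ k := by
  have h : v.1 ∈ (lw K m).filter (fun v => Even v.sum ∧ 39 * m ≤ 20 * v.sum) := v.2
  rw [mem_filter, mem_lw] at h
  exact ⟨h.1.1, fun k hk => (h.1.2 k hk).1⟩

theorem InsI_even {K m : ℕ} (v : Vs K m) : (4 : ℤ) ^ (v.1.sum / 2) = 2 ^ v.1.sum := by
  have h : v.1 ∈ (lw K m).filter (fun v => Even v.sum ∧ 39 * m ≤ 20 * v.sum) := v.2
  rw [mem_filter] at h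
  obtain ⟨t, ht⟩ := h.2.1
  have h1 : v.1.sum / 2 = t := by omega
  have h2 : v.1.sum = 2 * t := by omega
  rw [h1, h2, pow_mul]
  norm_num

theorem sysW_T {K m : ℕ} (v : Vs K m) {x : ℤ} (h : Ala x v.1) : (sysW K m).T v x = nd x v.1 := by
  have h1 := nd_eq h
  rw [(InsI_len v).1] at h1
  show ((4 : ℤ) ^ (v.1.sum / 2) * x + Gw v.1) / 3 ^ m = nd x v.1
  rw [InsI_even, ← h1]
  exact Int.mul_ediv_cancel_left _ (by positivity)

theorem sysW_flat {K m : ℕ} {x : ℤ} {w : List (Vs K m)} (h : (sysW K m).path x w ≠ 0) :
    Ala x (w.map Subtype.val).flatten ∧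
      nd x (w.map Subtype.val).flatten = (sysW K m).nd x w := by
  induction w generalizing x with
  | nil => exact ⟨trivial, rfl⟩
  | cons v w ih =>
    have h1 : (sysW K m).p v x * (sysW K m).path ((sysW K m).T v x) w ≠ 0 := h
    have h2 := left_ne_zero_of_mul h1
    have h3 := right_ne_zero_of_mul h1
    have h4 : Ala x v.1 := by
      by_contra hc
      apply h2
      show (if Ala x v.1 then ww v.1 / ff K m x else 0) = 0
      rw [if_neg hc]
    rw [sysW_T v h4] at h3
    obtain ⟨i1, i2⟩ := ih h3
    have e : ((v :: w).map Subtype.val).flatten = v.1 ++ (w.map Subtype.val).flatten := by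
      rw [List.map_cons, List.flatten_cons]
    have e2 : (sysW K m).nd x (v :: w) = (sysW K m).nd (nd x v.1) w := by
      show (sysW K m).nd ((sysW K m).T v x) w = _
      rw [sysW_T v h4]
    rw [e, e2, ala_append, nd_append]
    exact ⟨⟨h4, i1⟩, i2⟩

theorem InsI_flen {K m : ℕ} (w : List (Vs K m)) :
    (w.map Subtype.val).flatten.length = m * w.length := by
  induction w with
  | nil => simp
  | cons v w ih =>
    rw [List.map_cons, List.flatten_cons, List.length_append, ih, (InsI_len v).1,
      List.length_cons]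
    ring

theorem InsI_one {K m : ℕ} (w : List (Vs K m)) : ∀ k ∈ (w.map Subtype.val).flatten, 1 ≤ k := by
  induction w with
  | nil => simp
  | cons v w ih =>
    rw [List.map_cons, List.flatten_cons]
    intro k hk
    rw [List.mem_append] at hk
    rcases hk with hk | hk
    · exact (InsI_len v).2 k hk
    · exact ih k hk

theorem InsI_eq {K m : ℕ} (w w' : List (Vs K m)) (hl : w.length = w'.length)
    (h : (w.map Subtype.val).flatten = (w'.map Subtype.val).flatten) : w = w' := by
  induction w generalizing w' with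
  | nil =>
    cases w' with
    | nil => rfl
    | cons v' w' => simp at hl
  | cons v w ih =>
    cases w' with
    | nil => simp at hl
    | cons v' w' =>
      rw [List.map_cons, List.map_cons, List.flatten_cons, List.flatten_cons] at h
      obtain ⟨h1, h2⟩ := List.append_inj h (by rw [(InsI_len v).1, (InsI_len v').1])
      rw [List.length_cons, List.length_cons] at hl
      rw [Subtype.ext h1, ih w' (by omega) h2]

theorem sysW_inj {K m : ℕ} (x : ℤ) (w w' : List (Vs K m)) (hl : w.length = w'.length)
    (h : (sysW K m).path x w ≠ 0) (h' : (sysW K m).path x w' ≠ 0)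
    (e : (sysW K m).nd x w = (sysW K m).nd x w') : w = w' := by
  obtain ⟨a1, a2⟩ := sysW_flat h
  obtain ⟨b1, b2⟩ := sysW_flat h'
  refine InsI_eq w w' hl (nd_inj ?_ (InsI_one w) (InsI_one w') a1 b1 (by rw [a2, b2, e]))
  rw [InsI_flen, InsI_flen, hl]

end Pool.Agent.helper14.EX1
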