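import Pool.Agent.helper14.EX1.Law

/-!
# EX1-Ker: the kernel, its iterates, words and paths
-/

namespace Pool.Agent.helper14.EX1

open Finset

namespace Sys

variable {ι : Type} [Fintype ι] {S : Sys ι}

/-- `(a + 3 ^ m * b) / 3 ^ m = a / 3 ^ m + b` (floor division; no hypothesis is needed). -/
theorem T_shift (S : Sys ι) (v : ι) (q : ℕ) (x y : ℤ) :
    S.T v (x + 3 ^ (q + S.m) * y) = S.T v x + 3 ^ q * (4 ^ S.e v * y) := by
  unfold T
  have h : 4 ^ S.e v * (x + 3 ^ (q + S.m) * y) + S.g v
      = (4 ^ S.e v * x + S.g v) + 3 ^ S.m * (3 ^ q * (4 ^ S.e v * y)) := by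
    rw [pow_add]; ring
  rw [h, Int.add_mul_ediv_left _ _ (by positivity)]

theorem K_add (S : Sys ι) (φ ψ : ℤ → ℝ) : S.K (fun x => φ x + ψ x) = fun x => S.K φ x + S.K ψ x := by
  funext x
  simp only [K, mul_add, Finset.sum_add_distrib]

theorem K_smul (S : Sys ι) (c : ℝ) (φ : ℤ → ℝ) : S.K (fun x => c * φ x) = fun x => c * S.K φ x := by
  funext x
  simp only [K, Finset.mul_sum]
  exact Finset.sum_congr rfl (fun v _ => by ring)

theorem K_const (hS : S.Ok) (c : ℝ) : S.K (fun _ => c) = fun _ => c := by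
  funext x
  simp only [K]
  rw [← Finset.sum_mul, hS.sum x, one_mul]

theorem K_mono (hS : S.Ok) {φ ψ : ℤ → ℝ} (h : ∀ x, φ x ≤ ψ x) (x : ℤ) : S.K φ x ≤ S.K ψ x := by
  simp only [K]
  exact Finset.sum_le_sum (fun v _ => mul_le_mul_of_nonneg_left (h _) (hS.nn v x))

theorem K_per (hS : S.Ok) {q : ℕ} {φ : ℤ → ℝ} (hφ : Per q φ) : Per (q + S.m) (S.K φ) := by
  intro x
  simp only [K]
  refine Finset.sum_congr rfl (fun v _ => ?_)
  have h1 : S.p v (x + 3 ^ (q + S.m)) = S.p v x :=
    per_mono (Nat.le_add_left _ _) (hS.per v) x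
  have h2 : S.T v (x + 3 ^ (q + S.m)) = S.T v x + 3 ^ q * (4 ^ S.e v) := by
    have h3 := T_shift S v q x 1
    rw [mul_one, mul_one] at h3
    exact h3
  rw [h1, h2, per_mul hφ]

theorem iter_add (S : Sys ι) (n : ℕ) (φ ψ : ℤ → ℝ) :
    S.K^[n] (fun x => φ x + ψ x) = fun x => (S.K^[n] φ) x + (S.K^[n] ψ) x := by
  induction n generalizing φ ψ with
  | zero => rfl
  | succ n ih =>
    rw [Function.iterate_succ_apply, Function.iterate_succ_apply, Function.iterate_succ_apply,
      K_add, ih]

theorem iter_smul (S : Sys ι) (n : ℕ) (c : ℝ) (φ : ℤ → ℝ) :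
    S.K^[n] (fun x => c * φ x) = fun x => c * (S.K^[n] φ) x := by
  induction n generalizing φ with
  | zero => rfl
  | succ n ih =>
    rw [Function.iterate_succ_apply, Function.iterate_succ_apply, K_smul, ih]

theorem iter_const (hS : S.Ok) (n : ℕ) (c : ℝ) : S.K^[n] (fun _ => c) = fun _ => c := by
  induction n with
  | zero => rfl
  | succ n ih =>
    rw [Function.iterate_succ_apply, K_const hS, ih]

theorem iter_mono (hS : S.Ok) (n : ℕ) {φ ψ : ℤ → ℝ} (h : ∀ x, φ x ≤ ψ x) (x : ℤ) :
    (S.K^[n] φ) x ≤ (S.K^[n] ψ) x := by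
  induction n generalizing φ ψ with
  | zero => exact h x
  | succ n ih =>
    rw [Function.iterate_succ_apply, Function.iterate_succ_apply]
    exact ih (fun y => K_mono hS h y)

theorem iter_per (hS : S.Ok) (n : ℕ) {q : ℕ} {φ : ℤ → ℝ} (hφ : Per q φ) :
    Per (q + S.m * n) (S.K^[n] φ) := by
  induction n generalizing q φ with
  | zero => simpa using hφ
  | succ n ih =>
    rw [Function.iterate_succ_apply]
    have h := ih (K_per hS hφ)
    have e : q + S.m + S.m * n = q + S.m * (n + 1) := by ring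
    rw [e] at h
    exact h

theorem law_push (hS : S.Ok) {E : (ℤ → ℝ) → ℝ} (hE : IsLaw E) (n : ℕ) :
    IsLaw (fun φ => E (S.K^[n] φ)) where
  add := by
    intro q φ ψ hφ hψ
    show E (S.K^[n] (fun x => φ x + ψ x)) = E (S.K^[n] φ) + E (S.K^[n] ψ)
    rw [iter_add]
    exact hE.add (iter_per hS n hφ) (iter_per hS n hψ)
  smul := by
    intro q φ c hφ
    show E (S.K^[n] (fun x => c * φ x)) = c * E (S.K^[n] φ)
    rw [iter_smul]
    exact hE.smul c (iter_per hS n hφ)
  nn := by
    intro q φ hφ h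
    refine hE.nn (iter_per hS n hφ) (fun x => ?_)
    have h1 := iter_mono hS n (φ := fun _ => (0 : ℝ)) (ψ := φ) h x
    rw [iter_const hS] at h1
    exact h1
  one := by
    show E (S.K^[n] (fun _ => 1)) = 1
    rw [iter_const hS]
    exact hE.one

theorem law_pt (hS : S.Ok) (n : ℕ) (x : ℤ) : IsLaw (fun φ => (S.K^[n] φ) x) :=
  law_push hS (law_dirac x) n

theorem mem_wds {n : ℕ} {w : List ι} : w ∈ S.wds n ↔ w.length = n := by
  classical
  induction n generalizing w with
  | zero => simp [wds]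
  | succ n ih =>
    simp only [wds, Finset.mem_image, Finset.mem_product, Finset.mem_univ, true_and, Prod.exists]
    constructor
    · rintro ⟨v, u, hu, rfl⟩
      rw [List.length_cons, ih.mp hu]
    · intro h
      cases w with
      | nil => simp at h
      | cons v u => exact ⟨v, u, ih.mpr (by simpa using h), rfl⟩

theorem sum_wds_succ (S : Sys ι) (n : ℕ) (F : List ι → ℝ) :
    ∑ w ∈ S.wds (n + 1), F w = ∑ v, ∑ w ∈ S.wds n, F (v :: w) := by
  classical
  simp only [wds]
  rw [Finset.sum_image, Finset.sum_product]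
  intro a _ b _ h
  simp only [List.cons.injEq] at h
  exact Prod.ext h.1 h.2

/-- The iterates of the kernel as sums over words. -/
theorem iter_eq (S : Sys ι) (n : ℕ) (φ : ℤ → ℝ) (x : ℤ) :
    (S.K^[n] φ) x = ∑ w ∈ S.wds n, S.path x w * φ (S.nd x w) := by
  induction n generalizing x with
  | zero => simp [wds, path, nd]
  | succ n ih =>
    rw [Function.iterate_succ_apply', sum_wds_succ]
    simp only [K]
    refine Finset.sum_congr rfl (fun v _ => ?_)
    rw [ih, Finset.mul_sum]
    refine Finset.sum_congr rfl (fun w _ => ?_)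
    simp only [path, nd]
    ring

theorem path_nn (hS : S.Ok) (x : ℤ) (w : List ι) : 0 ≤ S.path x w := by
  induction w generalizing x with
  | nil => simp [path]
  | cons v w ih =>
    simp only [path]
    exact mul_nonneg (hS.nn v x) (ih _)

theorem path_sum (hS : S.Ok) (n : ℕ) (x : ℤ) : ∑ w ∈ S.wds n, S.path x w = 1 := by
  have h := iter_eq S n (fun _ => (1 : ℝ)) x
  rw [iter_const hS] at h
  simp only [mul_one] at h
  exact h.symm

theorem path_shift (hS : S.Ok) (w : List ι) (q : ℕ) (x y : ℤ) :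
    S.path (x + 3 ^ (q + S.m * w.length) * y) w = S.path x w := by
  induction w generalizing x y with
  | nil => simp [path]
  | cons v w ih =>
    have e : q + S.m * (v :: w).length = (q + S.m * w.length) + S.m := by
      rw [List.length_cons]; ring
    simp only [path]
    rw [e, T_shift, ih, per_mul (per_mono (Nat.le_add_left _ _) (hS.per v))]

theorem nd_shift (S : Sys ι) (w : List ι) (q : ℕ) (x y : ℤ) :
    S.nd (x + 3 ^ (q + S.m * w.length) * y) w = S.nd x w + 3 ^ q * (4 ^ S.ee w * y) := by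
  induction w generalizing x y with
  | nil => simp [nd, ee]
  | cons v w ih =>
    have e : q + S.m * (v :: w).length = (q + S.m * w.length) + S.m := by
      rw [List.length_cons]; ring
    have e2 : S.ee (v :: w) = S.e v + S.ee w := by simp [ee]
    simp only [nd]
    rw [e, T_shift, ih, e2, pow_add]
    ring

theorem path_le (hS : S.Ok) {ρ : ℝ} (h0 : 0 ≤ ρ) (h : ∀ v x, S.p v x ≤ ρ) (x : ℤ) (w : List ι) :
    S.path x w ≤ ρ ^ w.length := by
  induction w generalizing x with
  | nil => simp [path]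
  | cons v w ih =>
    simp only [path, List.length_cons]
    rw [pow_succ, mul_comm (ρ ^ w.length) ρ]
    exact mul_le_mul (h v x) (ih _) (path_nn hS _ _) h0

/-- The affine form of an allowed word. -/
theorem nd_eq (hS : S.Ok) {x : ℤ} {w : List ι} (h : S.path x w ≠ 0) :
    3 ^ (S.m * w.length) * S.nd x w = 4 ^ S.ee w * x + S.GG w := by
  induction w generalizing x with
  | nil => simp [nd, ee, GG]
  | cons v w ih =>
    simp only [path] at h
    have h1 : S.p v x ≠ 0 := fun h0 => h (by rw [h0, zero_mul])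
    have h2 : S.path (S.T v x) w ≠ 0 := fun h0 => h (by rw [h0, mul_zero])
    have h3 := ih h2
    have h4 : (3 : ℤ) ^ S.m * S.T v x = 4 ^ S.e v * x + S.g v := by
      unfold T
      exact Int.mul_ediv_cancel' (hS.dvd v x h1)
    have e : S.m * (v :: w).length = S.m * w.length + S.m := by
      rw [List.length_cons]; ring
    have e2 : S.ee (v :: w) = S.e v + S.ee w := by simp [ee]
    have e3 : S.GG (v :: w) = 4 ^ S.ee w * S.g v + 3 ^ S.m * S.GG w := rfl
    have e4 : S.nd x (v :: w) = S.nd (S.T v x) w := rfl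
    rw [e, e2, e3, e4, pow_add, pow_add]
    calc (3 : ℤ) ^ (S.m * w.length) * 3 ^ S.m * S.nd (S.T v x) w
        = 3 ^ S.m * (3 ^ (S.m * w.length) * S.nd (S.T v x) w) := by ring
      _ = 3 ^ S.m * (4 ^ S.ee w * S.T v x + S.GG w) := by rw [h3]
      _ = 4 ^ S.ee w * (3 ^ S.m * S.T v x) + 3 ^ S.m * S.GG w := by ring
      _ = 4 ^ S.ee w * (4 ^ S.e v * x + S.g v) + 3 ^ S.m * S.GG w := by rw [h4]
      _ = _ := by ring

end Sys

end Pool.Agent.helper14.EX1
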