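import Pool.Agent.helper14.EX1.Vab
import Pool.Agent.helper14.EX1.Cmp

/-!
# EX1-Key: the key inequality for a stationary law

`hlow` and `vv_K_iter`, `iter_mono`, `iter_const` give `c L ≤ ∑_{n<L} ∑_{r<m} vv (J+r) (n0 + i + n) x` for all `x`
(apply `K^[n0 + i]`).  Put `S(x) = ∑_{n<L} ∑_{r<m} vv (J + r + m i) (n0 + n) x` and
`D(x) = ∑_n ∑_r (vv (J+r) (n0+n+i) x - vv (J+r+m i) (n0+n) x) ≥ 0` (`vv_shift_iter`).  For each `n`, `r`, with
`j = J + r + m i`, `q = j + m (n0 + n)`: `star` for `E` with `n0 + n` steps and stationarity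
(`Psi (fun φ => E (K^[k] φ)) = Psi E`, iterate `hst`) gives `∑_B vv j (n0+n) B * Dev E q R B ≤ 2 * 9 ^ R * ε`; then `cmp`
with `h = vv j (n0 + n)` (`vv_per`): `∑_{C < 3^p} vv j (n0+n) C * Dev E p 1 C ≤ sqrt (3 ^ R * (2 * 9 ^ R * ε))`.
Finally `c L ≤ S(C) + D(C)`, `Psi E p 1 - 1/3 = ∑_C Dev E p 1 C` (`psi_eq`), `Dev E p 1 C ≤ E (ind p C)`, and
`∑_C D(C) E (ind p C) = E D` (`law_eq`; `D` is periodic mod `3 ^ p` by `vv_per`, `hp` (note
`J + r + m (n0 + n + i) ≤ p`)), expanded with `law_sum`, `law_sub`.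
-/

namespace Pool.Agent.helper14.EX1

open Finset

variable {ι : Type} [Fintype ι] {S : Sys ι} {E : (ℤ → ℝ) → ℝ}

theorem Key_iter_sum (S : Sys ι) (N : ℕ) {κ : Type} (s : Finset κ) (F : κ → ℤ → ℝ) (x : ℤ) :
    (S.K^[N] (fun y => ∑ a ∈ s, F a y)) x = ∑ a ∈ s, (S.K^[N] (F a)) x := by
  rw [Sys.iter_eq]
  have h : ∀ a ∈ s, (S.K^[N] (F a)) x = ∑ w ∈ S.wds N, S.path x w * F a (S.nd x w) :=
    fun a _ => Sys.iter_eq S N (F a) x
  rw [Finset.sum_congr rfl h, Finset.sum_comm]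
  refine Finset.sum_congr rfl fun w _ => ?_
  rw [Finset.mul_sum]

theorem Key_stat (hS : S.Ok) (hst : ∀ {q : ℕ} {φ : ℤ → ℝ}, Per q φ → E (S.K φ) = E φ) (k : ℕ)
    {q : ℕ} {φ : ℤ → ℝ} (hφ : Per q φ) : E (S.K^[k] φ) = E φ := by
  induction k with
  | zero => rfl
  | succ k ih =>
    rw [Function.iterate_succ_apply', hst (Sys.iter_per hS k hφ)]
    exact ih

/-- The lower bound after `N` steps. -/
theorem Key_low (hS : S.Ok) {c : ℝ} {L J : ℕ}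
    (hlow : ∀ x : ℤ, c * L ≤ ∑ n ∈ range L, ∑ r ∈ range S.m, S.vv (J + r) n x) (N : ℕ) (x : ℤ) :
    c * L ≤ ∑ n ∈ range L, ∑ r ∈ range S.m, S.vv (J + r) (n + N) x := by
  have h1 := Sys.iter_mono hS N hlow x
  rw [Sys.iter_const hS N] at h1
  refine h1.trans ?_
  have h2 : (S.K^[N] (fun y => ∑ n ∈ range L, ∑ r ∈ range S.m, S.vv (J + r) n y)) x =
      ∑ n ∈ range L, ∑ r ∈ range S.m, (S.K^[N] (S.vv (J + r) n)) x := by
    rw [Key_iter_sum S N (range L) (fun n y => ∑ r ∈ range S.m, S.vv (J + r) n y) x]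
    refine Finset.sum_congr rfl fun n _ => ?_
    exact Key_iter_sum S N (range S.m) (fun r y => S.vv (J + r) n y) x
  rw [h2]
  exact Finset.sum_le_sum fun n _ => Finset.sum_le_sum fun r _ => Sys.vv_K_iter hS (J + r) n N x

/-- One window. -/
theorem Key_one (hS : S.Ok) (hE : IsLaw E)
    (hst : ∀ {q : ℕ} {φ : ℤ → ℝ}, Per q φ → E (S.K φ) = E φ) {ε : ℝ} {j k R p : ℕ}
    (hR : Psi E (j + S.m * k) R - Psi E j R ≤ ε) (hp : j + S.m * k ≤ p)
    (hp' : p < j + S.m * k + R) :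
    ∑ C ∈ range (3 ^ p), S.vv j k (C : ℤ) * Dev E p 1 (C : ℤ) ≤
      Real.sqrt (3 ^ R * (2 * 9 ^ R * ε)) := by
  have h1 := star hS hE j k R
  have h2 : Psi (fun φ => E (S.K^[k] φ)) j R = Psi E j R :=
    psi_congr (fun q c => Key_stat hS hst k (ind_per q c)) j R
  rw [h2] at h1
  have h3 : 1 / 2 * (1 / 9 : ℝ) ^ R * ∑ B ∈ range (3 ^ (j + S.m * k)), S.vv j k (B : ℤ) *
      Dev E (j + S.m * k) R (B : ℤ) ≤ ε := by linarith
  have h4 : ∑ B ∈ range (3 ^ (j + S.m * k)), S.vv j k (B : ℤ) *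
      Dev E (j + S.m * k) R (B : ℤ) ≤ 2 * 9 ^ R * ε := by
    have h5 : (0 : ℝ) ≤ 2 * 9 ^ R := by positivity
    have h6 := mul_le_mul_of_nonneg_left h3 h5
    have h7 : (2 * 9 ^ R : ℝ) * (1 / 2 * (1 / 9) ^ R * ∑ B ∈ range (3 ^ (j + S.m * k)),
        S.vv j k (B : ℤ) * Dev E (j + S.m * k) R (B : ℤ)) =
        ∑ B ∈ range (3 ^ (j + S.m * k)), S.vv j k (B : ℤ) * Dev E (j + S.m * k) R (B : ℤ) := by
      have h8 : (9 : ℝ) ^ R * (1 / 9) ^ R = 1 := by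
        rw [← mul_pow]
        norm_num
      calc (2 * 9 ^ R : ℝ) * (1 / 2 * (1 / 9) ^ R * ∑ B ∈ range (3 ^ (j + S.m * k)),
            S.vv j k (B : ℤ) * Dev E (j + S.m * k) R (B : ℤ))
          = ((9 : ℝ) ^ R * (1 / 9) ^ R) * ∑ B ∈ range (3 ^ (j + S.m * k)),
            S.vv j k (B : ℤ) * Dev E (j + S.m * k) R (B : ℤ) := by ring
        _ = _ := by rw [h8, one_mul]
    rw [h7] at h6
    exact h6
  refine (cmp hE hp hp' (Sys.vv_per hS j k) (Sys.vv_nn hS j k) (Sys.vv_le hS j k)).trans ?_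
  exact Real.sqrt_le_sqrt (mul_le_mul_of_nonneg_left h4 (by positivity))

theorem key (hS : S.Ok) (hE : IsLaw E)
    (hst : ∀ {q : ℕ} {φ : ℤ → ℝ}, Per q φ → E (S.K φ) = E φ)
    {c ε : ℝ} {L J i n0 R p : ℕ} (hε : 0 ≤ ε)
    (hlow : ∀ x : ℤ, c * L ≤ ∑ n ∈ range L, ∑ r ∈ range S.m, S.vv (J + r) n x)
    (hR : ∀ r < S.m, ∀ n < L,
      Psi E (J + r + S.m * i + S.m * (n0 + n)) R - Psi E (J + r + S.m * i) R ≤ ε)
    (hp : ∀ r < S.m, ∀ n < L, J + r + S.m * i + S.m * (n0 + n) ≤ p ∧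
      p < J + r + S.m * i + S.m * (n0 + n) + R) :
    c * L * (Psi E p 1 - 1 / 3) ≤
      L * S.m * Real.sqrt (3 ^ R * (2 * 9 ^ R * ε)) +
        ∑ n ∈ range L, ∑ r ∈ range S.m,
          (E (S.vv (J + r) (n0 + n + i)) - E (S.vv (J + r + S.m * i) (n0 + n))) := by
  have hG : ∀ x : ℤ, c * L ≤ ∑ n ∈ range L, ∑ r ∈ range S.m, S.vv (J + r) (n0 + n + i) x := by
    intro x
    have h1 := Key_low hS hlow (n0 + i) x
    have h2 : ∀ n : ℕ, n + (n0 + i) = n0 + n + i := fun n => by ring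
    simp only [h2] at h1
    exact h1
  have h3 : Psi E p 1 - 1 / 3 = ∑ C ∈ range (3 ^ p), Dev E p 1 (C : ℤ) := by
    have h4 := psi_eq hE p 1
    rw [pow_one] at h4
    linarith
  rw [h3, Finset.mul_sum]
  have h5 : ∀ C : ℕ, c * L * Dev E p 1 (C : ℤ) ≤ ∑ n ∈ range L, ∑ r ∈ range S.m,
      (S.vv (J + r + S.m * i) (n0 + n) (C : ℤ) * Dev E p 1 (C : ℤ) +
        (S.vv (J + r) (n0 + n + i) (C : ℤ) * E (ind p (C : ℤ)) -
          S.vv (J + r + S.m * i) (n0 + n) (C : ℤ) * E (ind p (C : ℤ)))) := by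
    intro C
    have h6 := mul_le_mul_of_nonneg_right (hG C) (dev_nn hE p 1 (C : ℤ))
    refine h6.trans ?_
    rw [Finset.sum_mul]
    refine Finset.sum_le_sum fun n _ => ?_
    rw [Finset.sum_mul]
    refine Finset.sum_le_sum fun r _ => ?_
    have h7 := Sys.vv_shift_iter hS (J + r) (n0 + n) i (C : ℤ)
    have h8 := dev_le hE p 1 (C : ℤ)
    have h9 := mul_le_mul_of_nonneg_left h8 (sub_nonneg.2 h7)
    linarith
  refine (Finset.sum_le_sum fun C _ => h5 C).trans ?_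
  rw [Finset.sum_comm]
  have h10 : (L : ℝ) * S.m * Real.sqrt (3 ^ R * (2 * 9 ^ R * ε)) =
      ∑ n ∈ range L, ∑ r ∈ range S.m, Real.sqrt (3 ^ R * (2 * 9 ^ R * ε)) := by
    simp only [Finset.sum_const, Finset.card_range, nsmul_eq_mul]
    ring
  rw [h10, ← Finset.sum_add_distrib]
  refine Finset.sum_le_sum fun n hn => ?_
  rw [Finset.sum_comm, ← Finset.sum_add_distrib]
  refine Finset.sum_le_sum fun r hr => ?_
  have hn' := Finset.mem_range.1 hn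
  have hr' := Finset.mem_range.1 hr
  obtain ⟨p1, p2⟩ := hp r hr' n hn'
  have h11 := Key_one hS hE hst (hR r hr' n hn') p1 p2
  have e1 : J + r + S.m * (n0 + n + i) ≤ p := by
    have : J + r + S.m * (n0 + n + i) = J + r + S.m * i + S.m * (n0 + n) := by ring
    omega
  have h12 := law_eq hE (per_mono e1 (Sys.vv_per hS (J + r) (n0 + n + i)))
  have h13 := law_eq hE (per_mono p1 (Sys.vv_per hS (J + r + S.m * i) (n0 + n)))
  rw [h12, h13, Finset.sum_add_distrib, Finset.sum_sub_distrib]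
  linarith

end Pool.Agent.helper14.EX1
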