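import Pool.Agent.helper14.EX1.Bas

/-!
# EX1-Law: laws, the energies `Psi` and the deviations `Dev`
-/

namespace Pool.Agent.helper14.EX1

open Finset

variable {E : (ℤ → ℝ) → ℝ}

theorem law_dirac (x : ℤ) : IsLaw (fun φ => φ x) where
  add := fun _ _ => rfl
  smul := fun _ _ => rfl
  nn := fun _ h => h x
  one := rfl

theorem law_const (hE : IsLaw E) (c : ℝ) : E (fun _ => c) = c := by
  have h := hE.smul (q := 0) c (per_const 0 1)
  rw [hE.one, mul_one] at h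
  simpa using h

theorem law_sum (hE : IsLaw E) {κ : Type} (s : Finset κ) {q : ℕ} {F : κ → ℤ → ℝ}
    (hF : ∀ i ∈ s, Per q (F i)) : E (fun x => ∑ i ∈ s, F i x) = ∑ i ∈ s, E (F i) := by
  classical
  induction s using Finset.induction_on with
  | empty => simpa using law_const hE 0
  | insert a s ha ih =>
    have h1 : ∀ i ∈ s, Per q (F i) := fun i hi => hF i (mem_insert_of_mem hi)
    have h2 : (fun x => ∑ i ∈ insert a s, F i x) = fun x => F a x + ∑ i ∈ s, F i x := by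
      funext x
      rw [sum_insert ha]
    rw [h2, sum_insert ha, hE.add (q := q) (hF a (mem_insert_self _ _)) (per_sum s h1), ih h1]

theorem Law_per_sub {q : ℕ} {φ ψ : ℤ → ℝ} (hφ : Per q φ) (hψ : Per q ψ) :
    Per q (fun x => φ x - ψ x) := by
  intro x
  change φ (x + 3 ^ q) - ψ (x + 3 ^ q) = φ x - ψ x
  rw [hφ x, hψ x]

theorem law_sub (hE : IsLaw E) {q : ℕ} {φ ψ : ℤ → ℝ} (hφ : Per q φ) (hψ : Per q ψ) :
    E (fun x => φ x - ψ x) = E φ - E ψ := by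
  have h1 := hE.add (q := q) (Law_per_sub hφ hψ) hψ
  have h2 : (fun x => (φ x - ψ x) + ψ x) = φ := by
    funext x
    ring
  rw [h2] at h1
  linarith

theorem law_mono (hE : IsLaw E) {q : ℕ} {φ ψ : ℤ → ℝ} (hφ : Per q φ) (hψ : Per q ψ)
    (h : ∀ x, φ x ≤ ψ x) : E φ ≤ E ψ := by
  have h1 := law_sub hE hψ hφ
  have h2 := hE.nn (q := q) (Law_per_sub hψ hφ) (fun x => sub_nonneg.mpr (h x))
  linarith

/-- A law is given by its masses. -/
theorem law_eq (hE : IsLaw E) {q : ℕ} {φ : ℤ → ℝ} (hφ : Per q φ) :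
    E φ = ∑ c ∈ range (3 ^ q), φ (c : ℤ) * E (ind q (c : ℤ)) := by
  have h1 : φ = fun x => ∑ c ∈ range (3 ^ q), (fun y => φ (c : ℤ) * ind q (c : ℤ) y) x :=
    funext fun x => per_decomp hφ x
  calc E φ = E (fun x => ∑ c ∈ range (3 ^ q), (fun y => φ (c : ℤ) * ind q (c : ℤ) y) x) :=
        congrArg E h1
    _ = ∑ c ∈ range (3 ^ q), E (fun y => φ (c : ℤ) * ind q (c : ℤ) y) :=
        law_sum hE (range (3 ^ q)) (q := q) (F := fun c y => φ (c : ℤ) * ind q (c : ℤ) y)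
          fun c _ => per_smul _ (ind_per q _)
    _ = ∑ c ∈ range (3 ^ q), φ (c : ℤ) * E (ind q (c : ℤ)) :=
        sum_congr rfl fun c _ => hE.smul (q := q) _ (ind_per q _)

theorem law_ind_nn (hE : IsLaw E) (q : ℕ) (c : ℤ) : 0 ≤ E (ind q c) :=
  hE.nn (ind_per q c) (ind_nn q c)

theorem law_ind_le_one (hE : IsLaw E) (q : ℕ) (c : ℤ) : E (ind q c) ≤ 1 := by
  have h := law_mono hE (ind_per q c) (per_const q 1) (ind_le_one q c)
  rwa [hE.one] at h

theorem law_ind_sum (hE : IsLaw E) (q : ℕ) : ∑ c ∈ range (3 ^ q), E (ind q (c : ℤ)) = 1 := by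
  have h1 := law_sum hE (range (3 ^ q)) (q := q) (F := fun c y => ind q (c : ℤ) y)
    fun c _ => ind_per q _
  have h2 : (fun x => ∑ c ∈ range (3 ^ q), (fun (c : ℕ) y => ind q (c : ℤ) y) c x) = fun _ => 1 :=
    funext fun x => ind_sum_one q x
  rw [h2, hE.one] at h1
  exact h1.symm

theorem law_ind_split (hE : IsLaw E) (q r : ℕ) (c : ℤ) :
    E (ind q c) = ∑ W ∈ range (3 ^ r), E (ind (q + r) (c + 3 ^ q * (W : ℤ))) := by
  have h1 := law_sum hE (range (3 ^ r)) (q := q + r)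
    (F := fun W y => ind (q + r) (c + 3 ^ q * (W : ℤ)) y) fun W _ => ind_per (q + r) _
  have h2 : ind q c = fun x => ∑ W ∈ range (3 ^ r), (fun (W : ℕ) y =>
      ind (q + r) (c + 3 ^ q * (W : ℤ)) y) W x := funext fun x => ind_split q r c x
  calc E (ind q c) = _ := congrArg E h2
    _ = _ := h1

theorem law_ind_le (hE : IsLaw E) (q r : ℕ) (c W : ℤ) :
    E (ind (q + r) (c + 3 ^ q * W)) ≤ E (ind q c) := by
  refine law_mono hE (ind_per (q + r) _) (per_mono (Nat.le_add_right q r) (ind_per q c)) fun x => ?_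
  unfold ind
  by_cases h : (3 : ℤ) ^ (q + r) ∣ x - (c + 3 ^ q * W)
  · have h2 : (3 : ℤ) ^ q ∣ x - c := by
      have h3 : (3 : ℤ) ^ q ∣ x - (c + 3 ^ q * W) :=
        (pow_dvd_pow 3 (Nat.le_add_right q r)).trans h
      have h4 : x - c = (x - (c + 3 ^ q * W)) + 3 ^ q * W := by ring
      rw [h4]
      exact dvd_add h3 (dvd_mul_right _ _)
    rw [if_pos h, if_pos h2]
  · rw [if_neg h]
    split_ifs <;> norm_num

theorem Law_core {N : ℕ} (hN : 0 < N) (a : ℕ → ℝ) {s : ℝ} (hs : s = ∑ W ∈ range N, a W) :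
    ∑ W ∈ range N, a W ^ 2 / s = ∑ W ∈ range N, (a W - s / N) ^ 2 / s + s / N := by
  have hN' : (N : ℝ) ≠ 0 := by exact_mod_cast hN.ne'
  by_cases h0 : s = 0
  · simp [h0]
  · have h1 : ∑ W ∈ range N, (a W - s / N) ^ 2 / s =
        (∑ W ∈ range N, a W ^ 2 / s) - 2 / N * (∑ W ∈ range N, a W) + N * (s / N ^ 2) := by
      rw [mul_sum, ← sum_sub_distrib]
      have h2 : (N : ℝ) * (s / N ^ 2) = ∑ _W ∈ range N, s / (N : ℝ) ^ 2 := by
        rw [sum_const, card_range, nsmul_eq_mul]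
      rw [h2, ← sum_add_distrib]
      refine sum_congr rfl fun W _ => ?_
      field_simp
      ring
    rw [h1, ← hs]
    field_simp
    ring

theorem Law_mass (hE : IsLaw E) (q R : ℕ) (B : ℤ) :
    ∑ W ∈ range (3 ^ R), E (ind (q + R) (B + 3 ^ q * (W : ℤ))) ^ 2 / E (ind q B) =
      Dev E q R B + E (ind q B) / 3 ^ R := by
  have h := Law_core (N := 3 ^ R) (by positivity)
    (fun W => E (ind (q + R) (B + 3 ^ q * (W : ℤ)))) (law_ind_split hE q R B)
  push_cast at h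
  exact h

/-- `Psi = 3 ^ (-R) + ∑ Dev`.  Expand the square; if `E (ind q B) = 0` both sides vanish. -/
theorem psi_eq (hE : IsLaw E) (q R : ℕ) :
    Psi E q R = (1 / 3) ^ R + ∑ B ∈ range (3 ^ q), Dev E q R (B : ℤ) := by
  unfold Psi
  have h : ∑ B ∈ range (3 ^ q), ∑ W ∈ range (3 ^ R),
      E (ind (q + R) ((B : ℤ) + 3 ^ q * (W : ℤ))) ^ 2 / E (ind q (B : ℤ)) =
      ∑ B ∈ range (3 ^ q), (Dev E q R (B : ℤ) + E (ind q (B : ℤ)) / 3 ^ R) :=
    sum_congr rfl fun B _ => Law_mass hE q R (B : ℤ)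
  rw [h, sum_add_distrib, ← sum_div, law_ind_sum hE q, one_div, one_div, inv_pow]
  ring

theorem dev_nn (hE : IsLaw E) (q R : ℕ) (B : ℤ) : 0 ≤ Dev E q R B :=
  sum_nonneg fun _ _ => div_nonneg (sq_nonneg _) (law_ind_nn hE q B)

theorem Law_mass_le (hE : IsLaw E) (q R : ℕ) (B : ℤ) :
    ∑ W ∈ range (3 ^ R), E (ind (q + R) (B + 3 ^ q * (W : ℤ))) ^ 2 / E (ind q B) ≤
      E (ind q B) := by
  calc ∑ W ∈ range (3 ^ R), E (ind (q + R) (B + 3 ^ q * (W : ℤ))) ^ 2 / E (ind q B)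
      ≤ ∑ W ∈ range (3 ^ R), E (ind (q + R) (B + 3 ^ q * (W : ℤ))) := by
        refine sum_le_sum fun W _ => ?_
        have h0 := law_ind_nn hE (q + R) (B + 3 ^ q * (W : ℤ))
        have h1 := law_ind_le hE q R B (W : ℤ)
        refine div_le_of_le_mul₀ (law_ind_nn hE q B) h0 ?_
        rw [sq]
        exact mul_le_mul_of_nonneg_left h1 h0
    _ = E (ind q B) := (law_ind_split hE q R B).symm

/-- `∑ (κ_W - 3 ^ (-R)) ^ 2 ≤ 1` for a probability `κ`. -/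
theorem dev_le (hE : IsLaw E) (q R : ℕ) (B : ℤ) : Dev E q R B ≤ E (ind q B) := by
  have h1 := Law_mass hE q R B
  have h2 := Law_mass_le hE q R B
  have h3 : 0 ≤ E (ind q B) / 3 ^ R := div_nonneg (law_ind_nn hE q B) (by positivity)
  linarith

theorem dev_per (q R : ℕ) : Per q (Dev E q R) := by
  intro B
  unfold Dev
  have h1 : ind q (B + 3 ^ q) = ind q B := by
    have := ind_add q B 1
    rwa [mul_one] at this
  rw [h1]
  have h2 : Per R (fun W : ℤ => (E (ind (q + R) (B + 3 ^ q * W)) - E (ind q B) / 3 ^ R) ^ 2 /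
      E (ind q B)) := by
    intro W
    have h3 : B + 3 ^ q * (W + 3 ^ R) = (B + 3 ^ q * W) + 3 ^ (q + R) * 1 := by
      rw [pow_add]
      ring
    change (E (ind (q + R) (B + 3 ^ q * (W + 3 ^ R))) - E (ind q B) / 3 ^ R) ^ 2 /
      E (ind q B) = _
    rw [h3, ind_add]
  have h4 := sum_shift h2 1
  rw [← h4]
  refine sum_congr rfl fun W _ => ?_
  have h5 : B + 3 ^ q + 3 ^ q * (W : ℤ) = B + 3 ^ q * ((W : ℤ) + 1) := by ring
  rw [h5]

theorem psi_ge (hE : IsLaw E) (q R : ℕ) : (1 / 3) ^ R ≤ Psi E q R := by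
  rw [psi_eq hE q R]
  have h : 0 ≤ ∑ B ∈ range (3 ^ q), Dev E q R (B : ℤ) := sum_nonneg fun B _ => dev_nn hE q R B
  linarith

theorem psi_le_one (hE : IsLaw E) (q R : ℕ) : Psi E q R ≤ 1 := by
  rw [← law_ind_sum hE q]
  exact sum_le_sum fun B _ => Law_mass_le hE q R (B : ℤ)

/-- `Psi` depends only on the masses. -/
theorem psi_congr {E' : (ℤ → ℝ) → ℝ} (h : ∀ (q : ℕ) (c : ℤ), E (ind q c) = E' (ind q c))
    (q R : ℕ) : Psi E q R = Psi E' q R := by
  unfold Psi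
  simp only [h]

theorem Law_titu {κ : Type} (s : Finset κ) {t a b : κ → ℝ} (ht : ∀ v ∈ s, 0 ≤ t v)
    (ha : ∀ v ∈ s, 0 ≤ a v) (hab : ∀ v ∈ s, a v ≤ b v) :
    (∑ v ∈ s, t v * a v) ^ 2 / (∑ v ∈ s, t v * b v) ≤ ∑ v ∈ s, t v * (a v ^ 2 / b v) := by
  have hb : ∀ v ∈ s, 0 ≤ b v := fun v hv => (ha v hv).trans (hab v hv)
  have h1 := Finset.sum_sq_le_sum_mul_sum_of_sq_le_mul s (r := fun v => t v * a v)
    (f := fun v => t v * (a v ^ 2 / b v)) (g := fun v => t v * b v)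
    (fun v hv => mul_nonneg (ht v hv) (div_nonneg (sq_nonneg _) (hb v hv)))
    (fun v hv => mul_nonneg (ht v hv) (hb v hv))
    (fun v hv => by
      by_cases h0 : b v = 0
      · have h2 : a v = 0 := le_antisymm (h0 ▸ hab v hv) (ha v hv)
        simp [h0, h2]
      · apply le_of_eq
        field_simp)
  refine div_le_of_le_mul₀ (sum_nonneg fun v hv => mul_nonneg (ht v hv) (hb v hv))
    (sum_nonneg fun v hv => mul_nonneg (ht v hv) (div_nonneg (sq_nonneg _) (hb v hv))) h1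

/-- Convexity of `Psi`: for laws `F v` and weights `t v ≥ 0` with sum `1`.  Titu's lemma
`(∑ t a) ^ 2 / (∑ t s) ≤ ∑ t * a ^ 2 / s` for `0 ≤ a ≤ s`. -/
theorem psi_convex {κ : Type} (s : Finset κ) {t : κ → ℝ} (ht : ∀ v ∈ s, 0 ≤ t v)
    {F : κ → (ℤ → ℝ) → ℝ} (hF : ∀ v ∈ s, IsLaw (F v)) (q R : ℕ) :
    Psi (fun φ => ∑ v ∈ s, t v * F v φ) q R ≤ ∑ v ∈ s, t v * Psi (F v) q R := by
  unfold Psi
  have h1 : ∑ v ∈ s, t v * ∑ B ∈ range (3 ^ q), ∑ W ∈ range (3 ^ R),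
      F v (ind (q + R) ((B : ℤ) + 3 ^ q * (W : ℤ))) ^ 2 / F v (ind q (B : ℤ)) =
      ∑ B ∈ range (3 ^ q), ∑ W ∈ range (3 ^ R), ∑ v ∈ s,
        t v * (F v (ind (q + R) ((B : ℤ) + 3 ^ q * (W : ℤ))) ^ 2 / F v (ind q (B : ℤ))) := by
    simp only [mul_sum]
    rw [sum_comm]
    refine sum_congr rfl fun B _ => ?_
    rw [sum_comm]
  rw [h1]
  refine sum_le_sum fun B _ => sum_le_sum fun W _ => ?_
  exact Law_titu s ht (fun v hv => law_ind_nn (hF v hv) _ _)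
    (fun v hv => law_ind_le (hF v hv) q R (B : ℤ) (W : ℤ))

end Pool.Agent.helper14.EX1
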