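import Pool.Agent.helper14.EX1.Wrd
import Pool.Agent.helper14.EX1.Defs3

/-!
# EX1-WlkA: the words of the policy and the blocks

Inductions on `n` for all `par`, `x`.  `walk_shift`: the word of length `n` depends on `x` modulo `3 ^ (D + n - 1)`, in particular
modulo `3 ^ (D + n)`: `Tk_shift`.  `rew_eq`: `rew par v = Sc * Rw (par :: v) - A * v.sum + B * v.length` (`rr` depends only on
the parity of the first argument).
-/

namespace Pool.Agent.helper14.EX1

open Finset

variable {D Kp : ℕ} {Sc A B g H : ℤ} {pol : ℕ → ℤ → ℕ} {h : ℕ → ℤ → ℤ}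

theorem WlkA_rr_mod (k k' : ℕ) : rr (k % 2) k' = rr k k' := by
  unfold rr
  rw [Nat.mod_mod]

theorem WlkA_Rw_mod (k : ℕ) (v : List ℕ) : Rw ((k % 2) :: v) = Rw (k :: v) := by
  cases v with
  | nil => rfl
  | cons k' v =>
    change rr (k % 2) k' + Rw (k' :: v) = rr k k' + Rw (k' :: v)
    rw [WlkA_rr_mod]

theorem rew_eq (Sc A B : ℤ) (par : ℕ) (v : List ℕ) :
    rew Sc A B par v = Sc * Rw (par :: v) - A * v.sum + B * v.length := by
  induction v generalizing par with
  | nil => simp [rew, Rw]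
  | cons k v ih =>
    change Sc * rr par k - A * k + B + rew Sc A B (k % 2) v = _
    rw [ih, WlkA_Rw_mod]
    change _ = Sc * ((rr par k + Rw (k :: v) : ℕ) : ℤ) - A * ((k :: v).sum : ℕ) +
      B * ((v.length + 1 : ℕ) : ℤ)
    rw [List.sum_cons]
    push_cast
    ring

theorem walk_length (pol : ℕ → ℤ → ℕ) (n par : ℕ) (x : ℤ) : (walk pol n par x).length = n := by
  induction n generalizing par x with
  | zero => rfl
  | succ n ih =>
    change (walk pol n (pol par x % 2) (Tk (pol par x) x)).length + 1 = n + 1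
    rw [ih]

theorem walk_ala (hp : Pol D Kp Sc A B g H pol h) (n : ℕ) {par : ℕ} (hpar : par < 2) (x : ℤ) :
    Ala x (walk pol n par x) := by
  induction n generalizing par x with
  | zero => exact trivial
  | succ n ih =>
    exact ⟨hp.al par x hpar, ih (Nat.mod_lt _ (by norm_num)) _⟩

theorem walk_letters (hp : Pol D Kp Sc A B g H pol h) (n : ℕ) {par : ℕ} (hpar : par < 2) (x : ℤ) :
    ∀ k ∈ walk pol n par x, 1 ≤ k ∧ k ≤ Kp := by
  induction n generalizing par x with
  | zero =>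
    intro k hk
    exact absurd hk List.not_mem_nil
  | succ n ih =>
    intro k hk
    rcases List.mem_cons.1 (show k ∈ pol par x :: walk pol n (pol par x % 2) (Tk (pol par x) x)
      from hk) with h1 | h1
    · rw [h1]
      exact ⟨hp.one par x hpar, hp.le par x hpar⟩
    · exact ih (Nat.mod_lt _ (by norm_num)) _ k h1

theorem walk_shift (hp : Pol D Kp Sc A B g H pol h) (n par : ℕ) (x y : ℤ) :
    walk pol n par (x + 3 ^ (D + n) * y) = walk pol n par x := by
  induction n generalizing par x y with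
  | zero => rfl
  | succ n ih =>
    have h1 : pol par (x + 3 ^ (D + (n + 1)) * y) = pol par x := by
      have := hp.per par x (3 ^ (n + 1) * y)
      rw [pow_add, mul_assoc]
      exact this
    change pol par (x + 3 ^ (D + (n + 1)) * y) ::
        walk pol n (pol par (x + 3 ^ (D + (n + 1)) * y) % 2)
          (Tk (pol par (x + 3 ^ (D + (n + 1)) * y)) (x + 3 ^ (D + (n + 1)) * y)) =
      pol par x :: walk pol n (pol par x % 2) (Tk (pol par x) x)
    rw [h1]
    have h2 : Tk (pol par x) (x + 3 ^ (D + (n + 1)) * y) =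
        Tk (pol par x) x + 3 ^ (D + n) * (2 ^ pol par x * y) := Tk_shift (pol par x) (D + n) x y
    rw [h2, ih]

theorem WlkA_spe_al (x : ℤ) : Al (spe x) x := by
  have h : x % 3 = 0 ∨ x % 3 = 1 ∨ x % 3 = 2 := by omega
  rcases h with h | h | h
  · rw [show spe x = 2 from if_pos h]
    exact (al_zero h).1
  · rw [show spe x = 4 by unfold spe; rw [if_neg (by omega), if_pos h]]
    exact (al_one h).1
  · rw [show spe x = 6 by unfold spe; rw [if_neg (by omega), if_neg (by omega)]]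
    exact (al_two h).2.1

theorem WlkA_spo_al (x : ℤ) : Al (spo x) x := by
  have h : x % 3 = 0 ∨ x % 3 = 1 ∨ x % 3 = 2 := by omega
  rcases h with h | h | h
  · rw [show spo x = 3 from if_pos h]
    exact (al_zero h).2
  · rw [show spo x = 5 by unfold spo; rw [if_neg (by omega), if_pos h]]
    exact (al_one h).2
  · rw [show spo x = 7 by unfold spo; rw [if_neg (by omega), if_neg (by omega)]]
    exact (al_two h).2.2

theorem WlkA_spe_bd (x : ℤ) : 2 ≤ spe x ∧ spe x ≤ 7 ∧ spe x % 2 = 0 := by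
  unfold spe
  split_ifs <;> omega

theorem WlkA_spo_bd (x : ℤ) : 2 ≤ spo x ∧ spo x ≤ 7 ∧ spo x % 2 = 1 := by
  unfold spo
  split_ifs <;> omega

theorem WlkA_spe_shift (n : ℕ) (x y : ℤ) : spe (x + 3 ^ (n + 1) * y) = spe x := by
  have h : (x + 3 ^ (n + 1) * y) % 3 = x % 3 := by
    have : x + 3 ^ (n + 1) * y = x + 3 * (3 ^ n * y) := by ring
    rw [this, Int.add_mul_emod_self_left]
  unfold spe
  rw [h]

theorem WlkA_spo_shift (n : ℕ) (x y : ℤ) : spo (x + 3 ^ (n + 1) * y) = spo x := by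
  have h : (x + 3 ^ (n + 1) * y) % 3 = x % 3 := by
    have : x + 3 ^ (n + 1) * y = x + 3 * (3 ^ n * y) := by ring
    rw [this, Int.add_mul_emod_self_left]
  unfold spo
  rw [h]

theorem WlkA_swalk_length (n : ℕ) (x : ℤ) : (swalk n x).length = n := by
  induction n generalizing x with
  | zero => rfl
  | succ n ih =>
    change (swalk n (Tk (spe x) x)).length + 1 = n + 1
    rw [ih]

theorem WlkA_swalk_ala (n : ℕ) (x : ℤ) : Ala x (swalk n x) := by
  induction n generalizing x with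
  | zero => exact trivial
  | succ n ih => exact ⟨WlkA_spe_al x, ih _⟩

theorem WlkA_swalk_letters (n : ℕ) (x : ℤ) : ∀ k ∈ swalk n x, 1 ≤ k ∧ k ≤ 7 := by
  induction n generalizing x with
  | zero =>
    intro k hk
    exact absurd hk List.not_mem_nil
  | succ n ih =>
    intro k hk
    rcases List.mem_cons.1 (show k ∈ spe x :: swalk n (Tk (spe x) x) from hk) with h1 | h1
    · rw [h1]
      have := WlkA_spe_bd x
      omega
    · exact ih _ k h1

theorem WlkA_swalk_shift (n m : ℕ) (x y : ℤ) : swalk n (x + 3 ^ (m + n) * y) = swalk n x := by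
  induction n generalizing x y with
  | zero => rfl
  | succ n ih =>
    change spe (x + 3 ^ (m + n + 1) * y) ::
        swalk n (Tk (spe (x + 3 ^ (m + n + 1) * y)) (x + 3 ^ (m + n + 1) * y)) =
      spe x :: swalk n (Tk (spe x) x)
    rw [WlkA_spe_shift, Tk_shift, ih]

/-- the first part of a block -/
def WlkA_u (pol : ℕ → ℤ → ℕ) (D M : ℕ) (x : ℤ) : List ℕ :=
  walk pol M 1 x ++ swalk D (nd x (walk pol M 1 x))

/-- the letter before the last one -/
def WlkA_k1 (pol : ℕ → ℤ → ℕ) (D M : ℕ) (b : Bool) (x : ℤ) : ℕ :=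
  if b then spo (nd x (WlkA_u pol D M x)) else spe (nd x (WlkA_u pol D M x))

/-- the last letter -/
def WlkA_k2 (pol : ℕ → ℤ → ℕ) (D M : ℕ) (b : Bool) (x : ℤ) : ℕ :=
  if ((WlkA_u pol D M x).sum + WlkA_k1 pol D M b x) % 2 = 0 then
    spe (Tk (WlkA_k1 pol D M b x) (nd x (WlkA_u pol D M x)))
  else spo (Tk (WlkA_k1 pol D M b x) (nd x (WlkA_u pol D M x)))

theorem WlkA_blk (pol : ℕ → ℤ → ℕ) (D M : ℕ) (b : Bool) (x : ℤ) :
    blk pol D M b x = WlkA_u pol D M x ++ [WlkA_k1 pol D M b x, WlkA_k2 pol D M b x] := rfl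

theorem WlkA_u_length (pol : ℕ → ℤ → ℕ) (D M : ℕ) (x : ℤ) : (WlkA_u pol D M x).length = M + D := by
  unfold WlkA_u
  rw [List.length_append, walk_length, WlkA_swalk_length]

theorem WlkA_k1_al (pol : ℕ → ℤ → ℕ) (D M : ℕ) (b : Bool) (x : ℤ) :
    Al (WlkA_k1 pol D M b x) (nd x (WlkA_u pol D M x)) := by
  unfold WlkA_k1
  cases b
  · exact WlkA_spe_al _
  · exact WlkA_spo_al _

theorem WlkA_k2_al (pol : ℕ → ℤ → ℕ) (D M : ℕ) (b : Bool) (x : ℤ) :
    Al (WlkA_k2 pol D M b x) (Tk (WlkA_k1 pol D M b x) (nd x (WlkA_u pol D M x))) := by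
  unfold WlkA_k2
  split_ifs
  · exact WlkA_spe_al _
  · exact WlkA_spo_al _

theorem WlkA_k1_bd (pol : ℕ → ℤ → ℕ) (D M : ℕ) (b : Bool) (x : ℤ) :
    1 ≤ WlkA_k1 pol D M b x ∧ WlkA_k1 pol D M b x ≤ 7 := by
  unfold WlkA_k1
  cases b
  · have := WlkA_spe_bd (nd x (WlkA_u pol D M x))
    simp only [Bool.false_eq_true, if_false]
    omega
  · have := WlkA_spo_bd (nd x (WlkA_u pol D M x))
    simp only [if_true]
    omega

theorem WlkA_k2_bd (pol : ℕ → ℤ → ℕ) (D M : ℕ) (b : Bool) (x : ℤ) :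
    1 ≤ WlkA_k2 pol D M b x ∧ WlkA_k2 pol D M b x ≤ 7 := by
  unfold WlkA_k2
  split_ifs
  · have := WlkA_spe_bd (Tk (WlkA_k1 pol D M b x) (nd x (WlkA_u pol D M x)))
    omega
  · have := WlkA_spo_bd (Tk (WlkA_k1 pol D M b x) (nd x (WlkA_u pol D M x)))
    omega

theorem blk_length (pol : ℕ → ℤ → ℕ) (D M : ℕ) (b : Bool) (x : ℤ) :
    (blk pol D M b x).length = M + D + 2 := by
  rw [WlkA_blk, List.length_append, WlkA_u_length]
  rfl

theorem blk_ala (hp : Pol D Kp Sc A B g H pol h) (M : ℕ) (b : Bool) (x : ℤ) :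
    Ala x (blk pol D M b x) := by
  rw [WlkA_blk, ala_append]
  refine ⟨?_, WlkA_k1_al pol D M b x, WlkA_k2_al pol D M b x, trivial⟩
  unfold WlkA_u
  rw [ala_append]
  exact ⟨walk_ala hp M (by norm_num) x, WlkA_swalk_ala D _⟩

theorem blk_letters (hp : Pol D Kp Sc A B g H pol h) (M : ℕ) (b : Bool) (x : ℤ) :
    ∀ k ∈ blk pol D M b x, 1 ≤ k ∧ k ≤ max Kp 7 := by
  intro k hk
  rw [WlkA_blk] at hk
  rcases List.mem_append.1 hk with h1 | h1
  · unfold WlkA_u at h1
    rcases List.mem_append.1 h1 with h2 | h2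
    · have := walk_letters hp M (by norm_num) x k h2
      exact ⟨this.1, le_trans this.2 (le_max_left _ _)⟩
    · have := WlkA_swalk_letters D _ k h2
      exact ⟨this.1, le_trans this.2 (le_max_right _ _)⟩
  · rcases List.mem_cons.1 h1 with h2 | h2
    · rw [h2]
      have := WlkA_k1_bd pol D M b x
      exact ⟨this.1, le_trans this.2 (le_max_right _ _)⟩
    · rw [List.mem_singleton.1 h2]
      have := WlkA_k2_bd pol D M b x
      exact ⟨this.1, le_trans this.2 (le_max_right _ _)⟩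

theorem blk_even (pol : ℕ → ℤ → ℕ) (D M : ℕ) (b : Bool) (x : ℤ) : Even (blk pol D M b x).sum := by
  rw [WlkA_blk, List.sum_append, List.sum_cons, List.sum_singleton, Nat.even_iff]
  unfold WlkA_k2
  split_ifs with h1
  · have := WlkA_spe_bd (Tk (WlkA_k1 pol D M b x) (nd x (WlkA_u pol D M x)))
    omega
  · have := WlkA_spo_bd (Tk (WlkA_k1 pol D M b x) (nd x (WlkA_u pol D M x)))
    omega

theorem blk_ne (pol : ℕ → ℤ → ℕ) (D M : ℕ) (x : ℤ) : blk pol D M false x ≠ blk pol D M true x := by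
  intro h1
  rw [WlkA_blk, WlkA_blk] at h1
  have h2 := List.append_cancel_left h1
  have h3 : WlkA_k1 pol D M false x = WlkA_k1 pol D M true x := (List.cons.injEq _ _ _ _ ▸ h2).1
  unfold WlkA_k1 at h3
  simp only [Bool.false_eq_true, if_false, if_true] at h3
  have h4 := WlkA_spe_bd (nd x (WlkA_u pol D M x))
  have h5 := WlkA_spo_bd (nd x (WlkA_u pol D M x))
  omega

theorem blk_shift (hp : Pol D Kp Sc A B g H pol h) (M : ℕ) (b : Bool) (x y : ℤ) :
    blk pol D M b (x + 3 ^ (M + D + 2) * y) = blk pol D M b x := by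
  have hw : walk pol M 1 (x + 3 ^ (M + D + 2) * y) = walk pol M 1 x := by
    have := walk_shift hp M 1 x (9 * y)
    have h2 : x + 3 ^ (M + D + 2) * y = x + 3 ^ (D + M) * (9 * y) := by
      rw [show M + D + 2 = D + M + 2 by ring, pow_add]
      ring
    rw [h2]
    exact this
  have hu : WlkA_u pol D M (x + 3 ^ (M + D + 2) * y) = WlkA_u pol D M x := by
    unfold WlkA_u
    rw [hw]
    have h1 := nd_shift (walk pol M 1 x) (2 + D) x y
    rw [walk_length] at h1
    rw [show M + D + 2 = 2 + D + M by ring, h1, WlkA_swalk_shift]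
  have hz : nd (x + 3 ^ (M + D + 2) * y) (WlkA_u pol D M x) =
      nd x (WlkA_u pol D M x) + 3 ^ (1 + 1) * (2 ^ (WlkA_u pol D M x).sum * y) := by
    have h1 := nd_shift (WlkA_u pol D M x) 2 x y
    rw [WlkA_u_length] at h1
    rw [show M + D + 2 = 2 + (M + D) by ring, h1]
  have hk1 : WlkA_k1 pol D M b (x + 3 ^ (M + D + 2) * y) = WlkA_k1 pol D M b x := by
    unfold WlkA_k1
    rw [hu, hz, WlkA_spe_shift, WlkA_spo_shift]
  have hk2 : WlkA_k2 pol D M b (x + 3 ^ (M + D + 2) * y) = WlkA_k2 pol D M b x := by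
    unfold WlkA_k2
    rw [hk1, hu, hz, Tk_shift]
    have h3 : ∀ z w : ℤ, spe (z + 3 ^ 1 * w) = spe z := fun z w => WlkA_spe_shift 0 z w
    have h4 : ∀ z w : ℤ, spo (z + 3 ^ 1 * w) = spo z := fun z w => WlkA_spo_shift 0 z w
    rw [h3, h4]
  rw [WlkA_blk, WlkA_blk, hu, hk1, hk2]

theorem WlkA_rr_le (k k' : ℕ) : rr k k' ≤ 1 := by
  unfold rr
  split_ifs <;> omega

theorem WlkA_Rw_cons_le (k : ℕ) (v : List ℕ) : Rw (k :: v) ≤ Rw v + 1 := by
  cases v with
  | nil => exact Nat.zero_le _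
  | cons k' v =>
    change rr k k' + Rw (k' :: v) ≤ Rw (k' :: v) + 1
    have := WlkA_rr_le k k'
    omega

theorem WlkA_le_Rw_cons (k : ℕ) (v : List ℕ) : Rw v ≤ Rw (k :: v) := by
  cases v with
  | nil => exact Nat.zero_le _
  | cons k' v => exact Nat.le_add_left _ _

theorem WlkA_Rw_append (v w : List ℕ) : Rw v ≤ Rw (v ++ w) := by
  induction v with
  | nil => exact Nat.zero_le _
  | cons k v ih =>
    cases v with
    | nil => exact Nat.zero_le _
    | cons k' v =>
      change rr k k' + Rw (k' :: v) ≤ rr k k' + Rw ((k' :: v) ++ w)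
      exact Nat.add_le_add_left ih _

theorem WlkA_sum_le (v : List ℕ) (hv : ∀ k ∈ v, 1 ≤ k ∧ k ≤ 7) : v.sum ≤ 7 * v.length := by
  induction v with
  | nil => simp
  | cons k v ih =>
    rw [List.sum_cons, List.length_cons]
    have h1 := ih fun j hj => hv j (List.mem_cons_of_mem _ hj)
    have h2 := hv k List.mem_cons_self
    omega

/-- `Rw` of the block is at least `Rw` of its first part, and the other letters are at most `7`. -/
theorem blk_rin (hp : Pol D Kp Sc A B g H pol h) (hSc : 0 ≤ Sc) (hA : 0 ≤ A) (hB : 0 ≤ B) (M : ℕ)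
    (b : Bool) (x : ℤ) :
    (rew Sc A B 1 (walk pol M 1 x) : ℝ) - Sc - 7 * A * (D + 2) ≤ rin Sc A B (blk pol D M b x) := by
  have hSc' : (0 : ℝ) ≤ Sc := by exact_mod_cast hSc
  have hA' : (0 : ℝ) ≤ A := by exact_mod_cast hA
  have hB' : (0 : ℝ) ≤ B := by exact_mod_cast hB
  set w := walk pol M 1 x with hw
  have hblk : blk pol D M b x = w ++ (swalk D (nd x w) ++
      [WlkA_k1 pol D M b x, WlkA_k2 pol D M b x]) := by
    rw [WlkA_blk]
    unfold WlkA_u
    rw [List.append_assoc]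
  have h1 : Rw w ≤ Rw (blk pol D M b x) := by
    rw [hblk]
    exact WlkA_Rw_append _ _
  have h2 : Rw (1 :: w) ≤ Rw w + 1 := WlkA_Rw_cons_le 1 w
  have hs : (blk pol D M b x).sum ≤ w.sum + 7 * (D + 2) := by
    rw [hblk, List.sum_append, List.sum_append, List.sum_cons, List.sum_singleton]
    have h3 := WlkA_sum_le _ (WlkA_swalk_letters D (nd x w))
    rw [WlkA_swalk_length] at h3
    have h4 := WlkA_k1_bd pol D M b x
    have h5 := WlkA_k2_bd pol D M b x
    omega
  have hl : w.length ≤ (blk pol D M b x).length := by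
    rw [hblk, List.length_append]
    exact Nat.le_add_right _ _
  have h1' : (Rw w : ℝ) ≤ Rw (blk pol D M b x) := by exact_mod_cast h1
  have h2' : (Rw (1 :: w) : ℝ) ≤ Rw w + 1 := by exact_mod_cast h2
  have hs' : ((blk pol D M b x).sum : ℝ) ≤ w.sum + 7 * (D + 2) := by exact_mod_cast hs
  have hl' : (w.length : ℝ) ≤ (blk pol D M b x).length := by exact_mod_cast hl
  rw [rew_eq]
  unfold rin
  generalize hS1 : w.sum = S1 at hs' ⊢
  generalize hS2 : (blk pol D M b x).sum = S2 at hs' ⊢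
  push_cast
  have e1 : (Sc : ℝ) * Rw (1 :: w) ≤ Sc * (Rw (blk pol D M b x) + 1) :=
    mul_le_mul_of_nonneg_left (by linarith) hSc'
  have e2 : (A : ℝ) * S2 ≤ A * (S1 + 7 * (D + 2)) :=
    mul_le_mul_of_nonneg_left hs' hA'
  have e3 : (B : ℝ) * w.length ≤ B * (blk pol D M b x).length :=
    mul_le_mul_of_nonneg_left hl' hB'
  linarith

end Pool.Agent.helper14.EX1
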