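import Pool.Agent.helper14.EX1.Ker
import Pool.Agent.helper14.EX1.InjZ
import Pool.Agent.helper14.EX1.WlkA

/-!
# EX1-Sys3: the blocks form a system (as InsI, Ins)

`K = max Kp 7`.  `ρ = 1/2` (`blk_ne`); `sum`: both blocks are in `V3` (`blk_length`, `blk_letters`, `blk_even`); `per`: `blk_shift`;
`dvd`: `nd_eq`, `blk_ala`; `inj`: concatenate, `nd_inj`.
-/

namespace Pool.Agent.helper14.EX1

open Finset

variable {D Kp : ℕ} {Sc A B g H : ℤ} {pol : ℕ → ℤ → ℕ} {h : ℕ → ℤ → ℤ}

theorem Sys3_len {K m : ℕ} (v : V3 K m) : v.1.length = m ∧ ∀ k ∈ v.1, 1 ≤ k := by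
  have h : v.1 ∈ (lw K m).filter (fun v => Even v.sum) := v.2
  rw [mem_filter, mem_lw] at h
  exact ⟨h.1.1, fun k hk => (h.1.2 k hk).1⟩

theorem Sys3_even {K m : ℕ} (v : V3 K m) : (4 : ℤ) ^ (v.1.sum / 2) = 2 ^ v.1.sum := by
  have h : v.1 ∈ (lw K m).filter (fun v => Even v.sum) := v.2
  rw [mem_filter] at h
  obtain ⟨t, ht⟩ := h.2
  have h1 : v.1.sum / 2 = t := by omega
  have h2 : v.1.sum = 2 * t := by omega
  rw [h1, h2, pow_mul]
  norm_num

theorem Sys3_eq {K m : ℕ} (v : V3 K m) {x : ℤ} (h : Ala x v.1) :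
    (4 : ℤ) ^ (v.1.sum / 2) * x + Gw v.1 = 3 ^ m * nd x v.1 := by
  have h1 := nd_eq h
  rw [(Sys3_len v).1] at h1
  rw [Sys3_even, h1]

theorem Sys3_mem (hp : Pol D Kp Sc A B g H pol h) (M : ℕ) (b : Bool) (x : ℤ) :
    blk pol D M b x ∈ V3 (max Kp 7) (M + D + 2) := by
  rw [V3, mem_filter, mem_lw]
  exact ⟨⟨blk_length pol D M b x, blk_letters hp M b x⟩, blk_even pol D M b x⟩

theorem Sys3_p (hp : Pol D Kp Sc A B g H pol h) (M : ℕ) {K : ℕ} {x : ℤ} {v : V3 K (M + D + 2)}
    (h0 : (sys3 pol K D M).p v x ≠ 0) : Ala x v.1 := by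
  by_contra hc
  apply h0
  have e : ∀ b : Bool, v.1 ≠ blk pol D M b x := by
    intro b hb
    apply hc
    rw [hb]
    exact blk_ala hp M b x
  show (if v.1 = blk pol D M false x then (1 : ℝ) / 2 else 0) +
    (if v.1 = blk pol D M true x then 1 / 2 else 0) = 0
  rw [if_neg (e false), if_neg (e true), add_zero]

theorem Sys3_T (pol : ℕ → ℤ → ℕ) (D M : ℕ) {K : ℕ} {x : ℤ} {v : V3 K (M + D + 2)}
    (h : Ala x v.1) : (sys3 pol K D M).T v x = nd x v.1 := by
  show ((4 : ℤ) ^ (v.1.sum / 2) * x + Gw v.1) / 3 ^ (M + D + 2) = nd x v.1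
  rw [Sys3_eq v h]
  exact Int.mul_ediv_cancel_left _ (by positivity)

/-- A path with positive probability is an allowed word of letters. -/
theorem Sys3_fl (hp : Pol D Kp Sc A B g H pol h) (M : ℕ) {K : ℕ} {x : ℤ}
    {w : List (V3 K (M + D + 2))} (h0 : (sys3 pol K D M).path x w ≠ 0) :
    Ala x (w.map Subtype.val).flatten ∧
      nd x (w.map Subtype.val).flatten = (sys3 pol K D M).nd x w := by
  induction w generalizing x with
  | nil => exact ⟨trivial, rfl⟩
  | cons v w ih =>
    have h1 : (sys3 pol K D M).p v x * (sys3 pol K D M).path ((sys3 pol K D M).T v x) w ≠ 0 := h0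
    have h2 := left_ne_zero_of_mul h1
    have h3 := right_ne_zero_of_mul h1
    have h4 : Ala x v.1 := Sys3_p hp M h2
    rw [Sys3_T pol D M h4] at h3
    obtain ⟨i1, i2⟩ := ih h3
    have e : ((v :: w).map Subtype.val).flatten = v.1 ++ (w.map Subtype.val).flatten := by
      rw [List.map_cons, List.flatten_cons]
    have e2 : (sys3 pol K D M).nd x (v :: w) = (sys3 pol K D M).nd (nd x v.1) w := by
      show (sys3 pol K D M).nd ((sys3 pol K D M).T v x) w = _
      rw [Sys3_T pol D M h4]
    rw [e, e2, ala_append, nd_append]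
    exact ⟨⟨h4, i1⟩, i2⟩

theorem Sys3_flen {K m : ℕ} (w : List (V3 K m)) :
    (w.map Subtype.val).flatten.length = m * w.length := by
  induction w with
  | nil => simp
  | cons v w ih =>
    rw [List.map_cons, List.flatten_cons, List.length_append, ih, (Sys3_len v).1,
      List.length_cons]
    ring

theorem Sys3_one {K m : ℕ} (w : List (V3 K m)) : ∀ k ∈ (w.map Subtype.val).flatten, 1 ≤ k := by
  induction w with
  | nil => simp
  | cons v w ih =>
    rw [List.map_cons, List.flatten_cons]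
    intro k hk
    rw [List.mem_append] at hk
    rcases hk with hk | hk
    · exact (Sys3_len v).2 k hk
    · exact ih k hk

theorem Sys3_leq {K m : ℕ} (w w' : List (V3 K m)) (hl : w.length = w'.length)
    (h : (w.map Subtype.val).flatten = (w'.map Subtype.val).flatten) : w = w' := by
  induction w generalizing w' with
  | nil =>
    cases w' with
    | nil => rfl
    | cons v' w' => simp at hl
  | cons v w ih =>
    cases w' with
    | nil => simp at hl
    | cons v' w' =>
      rw [List.map_cons, List.map_cons, List.flatten_cons, List.flatten_cons] at h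
      obtain ⟨h1, h2⟩ := List.append_inj h (by rw [(Sys3_len v).1, (Sys3_len v').1])
      rw [List.length_cons, List.length_cons] at hl
      rw [Subtype.ext h1, ih w' (by omega) h2]

theorem Sys3_sum {α : Type} [DecidableEq α] (F : Finset α) {a : α} (ha : a ∈ F) :
    ∑ v : F, (if v.1 = a then (1 : ℝ) / 2 else 0) = 1 / 2 := by
  rw [Finset.sum_coe_sort F (fun v => if v = a then (1 : ℝ) / 2 else 0), Finset.sum_ite_eq' F a,
    if_pos ha]

theorem sys3_ok (hp : Pol D Kp Sc A B g H pol h) (M : ℕ) : (sys3 pol (max Kp 7) D M).Ok where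
  m1 := by
    show 1 ≤ M + D + 2
    omega
  nn v x := by
    show 0 ≤ (if v.1 = blk pol D M false x then (1 : ℝ) / 2 else 0) +
      (if v.1 = blk pol D M true x then 1 / 2 else 0)
    positivity
  per v x := by
    show (if v.1 = blk pol D M false (x + 3 ^ (M + D + 2)) then (1 : ℝ) / 2 else 0) +
      (if v.1 = blk pol D M true (x + 3 ^ (M + D + 2)) then 1 / 2 else 0) =
      (if v.1 = blk pol D M false x then (1 : ℝ) / 2 else 0) +
      (if v.1 = blk pol D M true x then 1 / 2 else 0)
    have e : ∀ b : Bool, blk pol D M b (x + 3 ^ (M + D + 2)) = blk pol D M b x := by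
      intro b
      have := blk_shift hp M b x 1
      rwa [mul_one] at this
    rw [e, e]
  dvd v x h0 := by
    have h1 := Sys3_eq v (Sys3_p hp M h0)
    show (3 : ℤ) ^ (M + D + 2) ∣ 4 ^ (v.1.sum / 2) * x + Gw v.1
    rw [h1]
    exact dvd_mul_right _ _
  sum x := by
    show ∑ v : V3 (max Kp 7) (M + D + 2), ((if v.1 = blk pol D M false x then (1 : ℝ) / 2 else 0) +
      (if v.1 = blk pol D M true x then 1 / 2 else 0)) = 1
    rw [Finset.sum_add_distrib, Sys3_sum _ (Sys3_mem hp M false x),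
      Sys3_sum _ (Sys3_mem hp M true x)]
    norm_num
  rho := by
    refine ⟨1 / 2, by norm_num, by norm_num, fun v x => ?_⟩
    show (if v.1 = blk pol D M false x then (1 : ℝ) / 2 else 0) +
      (if v.1 = blk pol D M true x then 1 / 2 else 0) ≤ 1 / 2
    by_cases h1 : v.1 = blk pol D M false x
    · have h2 : ¬ v.1 = blk pol D M true x := by
        intro h2
        exact blk_ne pol D M x (h1.symm.trans h2)
      rw [if_pos h1, if_neg h2]
      norm_num
    · rw [if_neg h1]
      split_ifs <;> norm_num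
  inj x w w' hl h0 h0' e := by
    obtain ⟨a1, a2⟩ := Sys3_fl hp M h0
    obtain ⟨b1, b2⟩ := Sys3_fl hp M h0'
    refine Sys3_leq w w' hl (nd_inj ?_ (Sys3_one w) (Sys3_one w') a1 b1 (by rw [a2, b2, e]))
    rw [Sys3_flen, Sys3_flen, hl]

/-- A path with positive probability is an allowed word of letters. -/
theorem sys3_flat (hp : Pol D Kp Sc A B g H pol h) (M : ℕ) {x : ℤ}
    {w : List (V3 (max Kp 7) (M + D + 2))} (h0 : (sys3 pol (max Kp 7) D M).path x w ≠ 0) :
    Ala x (w.map Subtype.val).flatten ∧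
      nd x (w.map Subtype.val).flatten = (sys3 pol (max Kp 7) D M).nd x w :=
  Sys3_fl hp M h0

end Pool.Agent.helper14.EX1
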