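import Pool.Agent.helper14.EX1.WlkA

/-!
# EX1-WlkB: the average reward of the policy

`I(n)`: for all `s`, `par < 2`:
`3 ^ n * (h par s + n g) ≤ ∑_{y < 3^n} (rew par (walk n par (s + 3^D y)) + h (end parity) (nd .. (walk ..)))`, where the end parity is
the parity of the last letter (of `par` for `n = 0`).  `I(n) → I(n+1)`: `y = d + 3 y'` (`sum_split 1 n`), `k = pol par s`,
`Tk k (s + 3^D (d + 3 y')) = Tk k (s + 3^D d) + 3^D (2^k y')`, and `y' ↦ 2^k y'` permutes the residues modulo `3 ^ n` (`sum_affine`;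
the summand depends on `y'` modulo `3 ^ n` by `walk_shift`, `nd_shift`, `hper`); then `I(n)` at `Tk k (s + 3^D d)` and `Pol.sub`.
Sum over `s < 3^D`: `∑_{x < 3^(D+n)} rew ≥ 3^(D+n) (n g - 2 H)`.
-/

namespace Pool.Agent.helper14.EX1

open Finset

variable {D Kp : ℕ} {Sc A B g H : ℤ} {pol : ℕ → ℤ → ℕ} {h : ℕ → ℤ → ℤ}

/-- the reward of the first `n` letters of the policy plus the potential at the end -/
def WlkB_Q (Sc A B : ℤ) (pol : ℕ → ℤ → ℕ) (h : ℕ → ℤ → ℤ) : ℕ → ℕ → ℤ → ℤ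
  | 0, par, x => h par x
  | n + 1, par, x => Sc * rr par (pol par x) - A * pol par x + B +
      WlkB_Q Sc A B pol h n (pol par x % 2) (Tk (pol par x) x)

theorem WlkB_shift (hp : Pol D Kp Sc A B g H pol h) (n : ℕ) : ∀ (par : ℕ) (x y : ℤ),
    WlkB_Q Sc A B pol h n par (x + 3 ^ (D + n) * y) = WlkB_Q Sc A B pol h n par x := by
  induction n with
  | zero =>
    intro par x y
    exact hp.hper par x y
  | succ n ih =>
    intro par x y
    have h1 : pol par (x + 3 ^ (D + (n + 1)) * y) = pol par x := by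
      have h2 : x + 3 ^ (D + (n + 1)) * y = x + 3 ^ D * (3 ^ (n + 1) * y) := by ring
      rw [h2]
      exact hp.per par x _
    simp only [WlkB_Q]
    rw [h1, show D + (n + 1) = (D + n) + 1 by ring, Tk_shift, ih]

theorem WlkB_le (hp : Pol D Kp Sc A B g H pol h) (n : ℕ) : ∀ {par : ℕ} (_ : par < 2) (x : ℤ),
    WlkB_Q Sc A B pol h n par x ≤ rew Sc A B par (walk pol n par x) + H := by
  induction n with
  | zero =>
    intro par hpar x
    have h1 := (abs_le.mp (hp.bd par x hpar)).2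
    simp only [WlkB_Q, walk, rew]
    linarith
  | succ n ih =>
    intro par hpar x
    have h1 := ih (par := pol par x % 2) (Nat.mod_lt _ two_pos) (Tk (pol par x) x)
    simp only [WlkB_Q, walk, rew]
    linarith

theorem WlkB_main (hp : Pol D Kp Sc A B g H pol h) (n : ℕ) : ∀ {par : ℕ} (_ : par < 2) (s : ℤ),
    (3 : ℝ) ^ n * (h par s + n * g) ≤
      ∑ y ∈ range (3 ^ n), (WlkB_Q Sc A B pol h n par (s + 3 ^ D * (y : ℤ)) : ℝ) := by
  induction n with
  | zero =>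
    intro par hpar s
    simp [WlkB_Q]
  | succ n ih =>
    intro par hpar s
    set k := pol par s with hk
    have hk2 : k % 2 < 2 := Nat.mod_lt _ two_pos
    set c : ℝ := Sc * rr par k - A * k + B with hc
    have hstep : ∀ z : ℤ, (WlkB_Q Sc A B pol h (n + 1) par (s + 3 ^ D * z) : ℝ) =
        c + WlkB_Q Sc A B pol h n (k % 2) (Tk k (s + 3 ^ D * z)) := by
      intro z
      simp only [WlkB_Q]
      rw [hp.per par s z, ← hk, hc]
      push_cast
      ring
    have h1 : ∑ y ∈ range (3 ^ (n + 1)),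
        (WlkB_Q Sc A B pol h (n + 1) par (s + 3 ^ D * (y : ℤ)) : ℝ) =
        ∑ d ∈ range (3 ^ 1), ∑ W ∈ range (3 ^ n),
          (WlkB_Q Sc A B pol h (n + 1) par (s + 3 ^ D * ((d : ℤ) + 3 ^ 1 * (W : ℤ))) : ℝ) := by
      rw [show n + 1 = 1 + n by ring]
      exact sum_split 1 n (fun z => (WlkB_Q Sc A B pol h (1 + n) par (s + 3 ^ D * z) : ℝ))
    have hu : ¬ (3 : ℤ) ∣ 2 ^ k := by
      intro hcon
      have := Int.prime_three.dvd_of_dvd_pow hcon
      norm_num at this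
    have h2 : ∀ d : ℕ, (3 : ℝ) ^ n * (c + h (k % 2) (Tk k (s + 3 ^ D * (d : ℤ))) + n * g) ≤
        ∑ W ∈ range (3 ^ n),
          (WlkB_Q Sc A B pol h (n + 1) par (s + 3 ^ D * ((d : ℤ) + 3 ^ 1 * (W : ℤ))) : ℝ) := by
      intro d
      set t : ℤ := Tk k (s + 3 ^ D * (d : ℤ)) with ht
      have h3 : ∀ W : ℕ,
          (WlkB_Q Sc A B pol h (n + 1) par (s + 3 ^ D * ((d : ℤ) + 3 ^ 1 * (W : ℤ))) : ℝ) =
          c + (fun z : ℤ => (WlkB_Q Sc A B pol h n (k % 2) (t + 3 ^ D * z) : ℝ))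
            (2 ^ k * (W : ℤ) + 0) := by
        intro W
        rw [hstep]
        have h4 : s + 3 ^ D * ((d : ℤ) + 3 ^ 1 * (W : ℤ)) =
            s + 3 ^ D * (d : ℤ) + 3 ^ (D + 1) * (W : ℤ) := by ring
        rw [h4, Tk_shift, ← ht, add_zero]
      have hper : Per n (fun z : ℤ => (WlkB_Q Sc A B pol h n (k % 2) (t + 3 ^ D * z) : ℝ)) := by
        intro z
        show (WlkB_Q Sc A B pol h n (k % 2) (t + 3 ^ D * (z + 3 ^ n)) : ℝ) =
          WlkB_Q Sc A B pol h n (k % 2) (t + 3 ^ D * z)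
        have h6 : t + 3 ^ D * (z + 3 ^ n) = t + 3 ^ D * z + 3 ^ (D + n) * 1 := by ring
        rw [h6, WlkB_shift hp]
      rw [Finset.sum_congr rfl (fun W _ => h3 W), Finset.sum_add_distrib]
      have h9 := sum_affine hper hu 0
      rw [h9]
      have h5 := ih hk2 t
      rw [Finset.sum_const, card_range, nsmul_eq_mul]
      push_cast
      nlinarith
    have h7 : (3 : ℝ) * (h par s + g) ≤ ∑ d ∈ range 3, (c + h (k % 2) (Tk k (s + 3 ^ D * (d : ℤ)))) := by
      have := hp.sub par s hpar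
      rw [← hk] at this
      have h8 : ((3 * (h par s + g) : ℤ) : ℝ) ≤ ((∑ d ∈ range 3,
        (Sc * rr par k - A * k + B + h (k % 2) (Tk k (s + 3 ^ D * (d : ℤ)))) : ℤ) : ℝ) := by
        exact_mod_cast this
      push_cast at h8
      rw [hc]
      exact h8
    rw [h1]
    calc (3 : ℝ) ^ (n + 1) * (h par s + ((n + 1 : ℕ) : ℝ) * g)
        = 3 ^ n * (3 * (h par s + g) + 3 * (n * g)) := by push_cast; ring
      _ ≤ 3 ^ n * (∑ d ∈ range 3, (c + h (k % 2) (Tk k (s + 3 ^ D * (d : ℤ)))) + 3 * (n * g)) := by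
          have : (0 : ℝ) ≤ 3 ^ n := by positivity
          nlinarith
      _ = ∑ d ∈ range (3 ^ 1),
          (3 : ℝ) ^ n * (c + h (k % 2) (Tk k (s + 3 ^ D * (d : ℤ))) + n * g) := by
          rw [pow_one]
          simp only [Finset.sum_range_succ, Finset.sum_range_zero]
          ring
      _ ≤ _ := Finset.sum_le_sum fun d _ => h2 d

theorem walk_avg (hp : Pol D Kp Sc A B g H pol h) (n : ℕ) {par : ℕ} (hpar : par < 2) :
    (n : ℝ) * g - 2 * H ≤ avg (D + n) (fun x => (rew Sc A B par (walk pol n par x) : ℝ)) := by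
  have h0 : (0 : ℝ) < 3 ^ (D + n) := by positivity
  rw [avg, le_div_iff₀ h0]
  have h1 : ∀ x : ℤ, (WlkB_Q Sc A B pol h n par x : ℝ) - H ≤
      (rew Sc A B par (walk pol n par x) : ℝ) := by
    intro x
    have h2 := WlkB_le hp n hpar x
    have h3 : ((WlkB_Q Sc A B pol h n par x : ℤ) : ℝ) ≤
      ((rew Sc A B par (walk pol n par x) + H : ℤ) : ℝ) := by exact_mod_cast h2
    push_cast at h3
    linarith
  have h4 : ∑ x ∈ range (3 ^ (D + n)), (WlkB_Q Sc A B pol h n par (x : ℤ) : ℝ) =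
      ∑ s ∈ range (3 ^ D), ∑ W ∈ range (3 ^ n),
        (WlkB_Q Sc A B pol h n par ((s : ℤ) + 3 ^ D * (W : ℤ)) : ℝ) :=
    sum_split D n (fun z => (WlkB_Q Sc A B pol h n par z : ℝ))
  have h5 : ∀ s ∈ range (3 ^ D), (3 : ℝ) ^ n * (n * g - H) ≤ ∑ W ∈ range (3 ^ n),
        (WlkB_Q Sc A B pol h n par ((s : ℤ) + 3 ^ D * (W : ℤ)) : ℝ) := by
    intro s _
    refine le_trans ?_ (WlkB_main hp n hpar (s : ℤ))
    have h6 : -(H : ℝ) ≤ h par (s : ℤ) := by
      have := (abs_le.mp (hp.bd par (s : ℤ) hpar)).1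
      exact_mod_cast this
    have : (0 : ℝ) ≤ 3 ^ n := by positivity
    nlinarith
  have h7 : ∑ _s ∈ range (3 ^ D), (3 : ℝ) ^ n * (n * g - H) ≤
      ∑ x ∈ range (3 ^ (D + n)), (WlkB_Q Sc A B pol h n par (x : ℤ) : ℝ) := by
    rw [h4]
    exact Finset.sum_le_sum h5
  have h8 : ∑ x ∈ range (3 ^ (D + n)), ((WlkB_Q Sc A B pol h n par (x : ℤ) : ℝ) - H) ≤
      ∑ x ∈ range (3 ^ (D + n)), (rew Sc A B par (walk pol n par (x : ℤ)) : ℝ) :=
    Finset.sum_le_sum fun x _ => h1 x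
  refine le_trans ?_ h8
  rw [Finset.sum_sub_distrib, Finset.sum_const, card_range, nsmul_eq_mul]
  rw [Finset.sum_const, card_range, nsmul_eq_mul] at h7
  push_cast at h7 ⊢
  have h9 : (3 : ℝ) ^ (D + n) = 3 ^ D * 3 ^ n := pow_add _ _ _
  have h10 : (n * g - 2 * H : ℝ) * 3 ^ (D + n) =
      3 ^ D * (3 ^ n * (n * g - H)) - 3 ^ (D + n) * H := by rw [h9]; ring
  rw [h10]
  linarith

end Pool.Agent.helper14.EX1
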