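import Pool.Agent.helper14.EX1.Unif
import Pool.Agent.helper14.EX1.WlkB
import Pool.Agent.helper14.EX1.Sys3
import Pool.Agent.helper14.EX1.CirG
import Pool.Agent.helper14.EX1.BaseG

/-!
# EX1-Low3: many circuits

`φ x = ∑_v p v x * rin v ≥ rew 1 (walk M 1 x) - Sc - 7 A (D+2)` (`blk_rin`), so `avg φ ≥ M g - 2 H - Sc - 7 A (D+2) ≥ 1` for large `M`
(`walk_avg`, `avg_up`).  `unif` with `ε = 1/2`: `∑_{t<T} (K^[t] φ) x0 ≥ T/2` for `T ≥ T0`.  By induction on `T`:
`∑_{t<T} (K^[t] φ) x = ∑_{w ∈ wds T} path x w * ∑_{v ∈ w} rin v`; so there is `w` of length `T` with `path x0 w ≠ 0` and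
`∑_{v ∈ w} rin v ≥ T/2`.  `V = (w.map val).flatten`: allowed from `x0` (`sys3_flat`), length `(M+D+2) T`, `Rw V ≥ ∑ Rw v`, so
`Sc * Rw V ≥ A V.sum - B V.length + T/2 ≥ Sc c0 (V.sum log 2 - V.length log 3) + T/2 ≥ Sc c0 (log n - log (3 x0 + 2)) + T/2`
(`nd_le`), `n = 3 nd x0 V + 2`, and `C(n) ≥ Rw V` (`circG`).  So `C(n) ≥ c0 log n` for large `T`; different `T` give words of different
lengths, so different `n` (`injG`); `f^[V.sum] n = 3 x0 + 2` (`hitG`), whose trajectory contains `m` (`startG`).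
-/

namespace Pool.Agent.helper14.EX1

open Finset Pool.Agent.helper41.Coll

variable {D Kp : ℕ} {Sc A B g H : ℤ} {pol : ℕ → ℤ → ℕ} {h : ℕ → ℤ → ℤ}

/-- Sums along the walk as sums over words. -/
theorem low3_iter {ι : Type} [Fintype ι] {S : Sys ι} (hS : S.Ok) (r : ι → ℝ) (T : ℕ) : ∀ x : ℤ,
    ∑ t ∈ range T, (S.K^[t] (fun x => ∑ v, S.p v x * r v)) x =
      ∑ w ∈ S.wds T, S.path x w * (w.map r).sum := by
  induction T with
  | zero => intro x; simp [Sys.wds]
  | succ T ih =>
    intro x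
    rw [Finset.sum_range_succ', Sys.sum_wds_succ]
    have h1 : ∀ t, (S.K^[t + 1] (fun x => ∑ v, S.p v x * r v)) x =
        ∑ v, S.p v x * (S.K^[t] (fun x => ∑ v, S.p v x * r v)) (S.T v x) := fun t => by
      rw [Function.iterate_succ_apply']
      rfl
    simp only [h1]
    rw [Finset.sum_comm]
    simp only [Function.iterate_zero, id]
    rw [← Finset.sum_add_distrib]
    refine Finset.sum_congr rfl fun v _ => ?_
    rw [← Finset.mul_sum, ih (S.T v x), ← mul_add]
    have h2 : ∑ w ∈ S.wds T, S.path x (v :: w) * ((v :: w).map r).sum =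
        ∑ w ∈ S.wds T, (S.p v x * (S.path (S.T v x) w * (w.map r).sum) +
          S.p v x * r v * S.path (S.T v x) w) := by
      refine Finset.sum_congr rfl fun w _ => ?_
      rw [List.map_cons, List.sum_cons, Sys.path]
      ring
    rw [h2, Finset.sum_add_distrib, ← Finset.mul_sum, ← Finset.mul_sum, Sys.path_sum hS T]
    ring

theorem low3_word {ι : Type} [Fintype ι] {S : Sys ι} (hS : S.Ok) (r : ι → ℝ) (T : ℕ) (x : ℤ) {a : ℝ}
    (ha : a ≤ ∑ t ∈ range T, (S.K^[t] (fun x => ∑ v, S.p v x * r v)) x) :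
    ∃ w : List ι, w.length = T ∧ S.path x w ≠ 0 ∧ a ≤ (w.map r).sum := by
  by_contra hcon
  push Not at hcon
  rw [low3_iter hS] at ha
  have hex : ∃ w ∈ S.wds T, S.path x w ≠ 0 := by
    by_contra h0
    push Not at h0
    have := Sys.path_sum hS T x
    rw [Finset.sum_eq_zero h0] at this
    exact zero_ne_one this
  obtain ⟨w0, hw0, hw1⟩ := hex
  have h2 : ∑ w ∈ S.wds T, S.path x w * (w.map r).sum < ∑ w ∈ S.wds T, S.path x w * a := by
    refine Finset.sum_lt_sum (fun w hw => ?_) ⟨w0, hw0, ?_⟩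
    · by_cases h3 : S.path x w = 0
      · rw [h3, zero_mul, zero_mul]
      · exact mul_le_mul_of_nonneg_left (hcon w (Sys.mem_wds.1 hw) h3).le (Sys.path_nn hS x w)
    · exact mul_lt_mul_of_pos_left (hcon w0 (Sys.mem_wds.1 hw0) hw1)
        (lt_of_le_of_ne (Sys.path_nn hS x w0) (Ne.symm hw1))
  rw [← Finset.sum_mul, Sys.path_sum hS T, one_mul] at h2
  linarith

theorem low3_app (u v : List ℕ) : Rw u + Rw v ≤ Rw (u ++ v) := by
  induction u with
  | nil => simp [Rw]
  | cons k u ih =>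
    cases u with
    | nil =>
      cases v with
      | nil => simp [Rw]
      | cons k' v => simp [Rw]
    | cons k' u =>
      simp only [List.cons_append, Rw] at ih ⊢
      omega

theorem low3_flat (l : List (List ℕ)) : (l.map Rw).sum ≤ Rw l.flatten := by
  induction l with
  | nil => simp [Rw]
  | cons v l ih =>
    rw [List.map_cons, List.sum_cons, List.flatten_cons]
    exact (Nat.add_le_add_left ih _).trans (low3_app _ _)

/-- The reward of a word of blocks. -/
theorem low3_rin (l : List (List ℕ)) (hSc : 0 ≤ Sc) :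
    (l.map (rin Sc A B)).sum ≤ Sc * Rw l.flatten - A * l.flatten.sum + B * l.flatten.length := by
  have h1 : (l.map (rin Sc A B)).sum =
      Sc * (l.map Rw).sum - A * l.flatten.sum + B * l.flatten.length := by
    induction l with
    | nil => simp
    | cons v l ih =>
      simp only [List.map_cons, List.sum_cons, List.flatten_cons, List.sum_append,
        List.length_append, ih, rin]
      push_cast
      ring
  have h2 : (((l.map Rw).sum : ℕ) : ℝ) ≤ Rw l.flatten := by exact_mod_cast low3_flat l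
  have h3 : (0 : ℝ) ≤ Sc := by exact_mod_cast hSc
  rw [h1]
  have h4 := mul_le_mul_of_nonneg_left h2 h3
  linarith

/-- The mean reward. -/
theorem low3_mean (hp : Pol D Kp Sc A B g H pol h) (hSc : 0 < Sc) (hg : 0 < g) (hA : 0 ≤ A)
    (hB : 0 ≤ B) : ∃ M : ℕ, 1 ≤ avg (M + D + 2) (fun x => ∑ v, (sys3 pol (max Kp 7) D M).p v x *
      rin Sc A B v.1) := by
  obtain ⟨M, hM⟩ : ∃ M : ℕ, 2 * H + Sc + 7 * A * (D + 2) + 1 ≤ M :=
    ⟨(2 * H + Sc + 7 * A * (D + 2) + 1).toNat, Int.self_le_toNat _⟩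
  refine ⟨M, ?_⟩
  have hS := sys3_ok hp M
  have h1 : ∀ x : ℤ, (rew Sc A B 1 (walk pol M 1 x) : ℝ) + (-(Sc + 7 * A * (D + 2))) ≤
      ∑ v, (sys3 pol (max Kp 7) D M).p v x * rin Sc A B v.1 := by
    intro x
    have h2 : ∑ v, (sys3 pol (max Kp 7) D M).p v x *
        ((rew Sc A B 1 (walk pol M 1 x) : ℝ) + (-(Sc + 7 * A * (D + 2)))) ≤
        ∑ v, (sys3 pol (max Kp 7) D M).p v x * rin Sc A B v.1 := by
      refine Finset.sum_le_sum fun v _ => ?_
      by_cases h0 : (sys3 pol (max Kp 7) D M).p v x = 0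
      · rw [h0, zero_mul, zero_mul]
      · refine mul_le_mul_of_nonneg_left ?_ (hS.nn v x)
        have h3 : ∃ b, v.1 = blk pol D M b x := by
          by_contra hcon
          push Not at hcon
          apply h0
          show (if v.1 = blk pol D M false x then (1 / 2 : ℝ) else 0) +
            (if v.1 = blk pol D M true x then 1 / 2 else 0) = 0
          rw [if_neg (hcon false), if_neg (hcon true), add_zero]
        obtain ⟨b, hb⟩ := h3
        rw [hb]
        have := blk_rin hp hSc.le hA hB M b x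
        linarith
    rw [← Finset.sum_mul, hS.sum x, one_mul] at h2
    exact h2
  have hper : Per (D + M) (fun x => (rew Sc A B 1 (walk pol M 1 x) : ℝ)) := by
    intro x
    have := walk_shift hp M 1 x 1
    rw [mul_one] at this
    show ((rew Sc A B 1 (walk pol M 1 (x + 3 ^ (D + M))) : ℤ) : ℝ) = _
    rw [this]
  have h4 := avg_mono (q := M + D + 2) h1
  rw [avg_add, avg_const, avg_up (q := D + M) (by omega) hper] at h4
  have h5 := walk_avg hp M (par := 1) (by norm_num)
  have h6 : (2 * H + Sc + 7 * A * (D + 2) + 1 : ℝ) ≤ M := by exact_mod_cast hM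
  have h7 : (M : ℝ) ≤ M * g := by
    have : (1 : ℝ) ≤ g := by exact_mod_cast hg
    have hM0 : (0 : ℝ) ≤ M := Nat.cast_nonneg _
    nlinarith
  linarith

theorem low3 (hp : Pol D Kp Sc A B g H pol h) (hSc : 0 < Sc) (hg : 0 < g) {c0 : ℝ} (hc : 0 < c0)
    (hA : Sc * c0 * Real.log 2 ≤ A) (hB0 : 0 ≤ B) (hB : (B : ℝ) ≤ Sc * c0 * Real.log 3)
    {m : ℕ} (h3 : ¬ 3 ∣ m) (h1 : ∃ i, f^[i] m = 1) :
    {n : ℕ | (∃ i, f^[i] n = m) ∧ ∃ c : ℕ, HasC n c ∧ c0 * Real.log n ≤ (c : ℝ)}.Infinite := by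
  have hScR : (0 : ℝ) < Sc := by exact_mod_cast hSc
  have hA0 : 0 ≤ A := by
    have h2 : (0 : ℝ) ≤ A := by
      have := Real.log_pos (by norm_num : (1 : ℝ) < 2)
      refine le_trans ?_ hA
      positivity
    exact_mod_cast h2
  obtain ⟨M, hM⟩ := low3_mean hp hSc hg hA0 hB0
  have hS := sys3_ok hp M
  obtain ⟨x0, hx0, ⟨im, him⟩, hi1, cc, hcc⟩ := startG h3 h1
  have hper : Per (sys3 pol (max Kp 7) D M).m (fun x => ∑ v, (sys3 pol (max Kp 7) D M).p v x *
      rin Sc A B v.1) := by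
    intro x
    refine Finset.sum_congr rfl fun v _ => ?_
    rw [hS.per v x]
  obtain ⟨T0, hT0⟩ := unif hS hper (ε := 1 / 2) (by norm_num)
  obtain ⟨T1, hT1⟩ := exists_nat_ge (2 * Sc * c0 * Real.log (3 * x0 + 2))
  -- the words
  have hw : ∀ T : ℕ, ∃ w : List (V3 (max Kp 7) (M + D + 2)), w.length = max T0 T1 + T ∧
      (sys3 pol (max Kp 7) D M).path x0 w ≠ 0 ∧
      ((max T0 T1 + T : ℕ) : ℝ) / 2 ≤ (w.map fun v => rin Sc A B v.1).sum := by
    intro T
    refine low3_word hS (fun v => rin Sc A B v.1) _ x0 ?_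
    have h2 := hT0 (max T0 T1 + T) ((le_max_left _ _).trans (Nat.le_add_right _ _)) x0
    refine le_trans ?_ h2
    have h4 : (1 : ℝ) / 2 ≤ avg (sys3 pol (max Kp 7) D M).m (fun x =>
        ∑ v, (sys3 pol (max Kp 7) D M).p v x * rin Sc A B v.1) - 1 / 2 := by
      have : (1 : ℝ) ≤ avg (sys3 pol (max Kp 7) D M).m (fun x =>
        ∑ v, (sys3 pol (max Kp 7) D M).p v x * rin Sc A B v.1) := hM
      linarith
    have h5 := mul_le_mul_of_nonneg_right h4 (Nat.cast_nonneg (α := ℝ) (max T0 T1 + T))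
    linarith
  choose w hwl hwp hwr using hw
  set V : ℕ → List ℕ := fun T => ((w T).map Subtype.val).flatten with hV
  have hVa : ∀ T, Ala x0 (V T) := fun T => (sys3_flat hp M (hwp T)).1
  have hmem : ∀ T, ∀ u ∈ (w T).map Subtype.val, u.length = M + D + 2 ∧ ∀ k ∈ u, 1 ≤ k := by
    intro T u hu
    obtain ⟨v, _, rfl⟩ := List.mem_map.1 hu
    have h2 := v.2
    unfold V3 at h2
    rw [Finset.mem_filter, mem_lw] at h2
    exact ⟨h2.1.1, fun k hk => (h2.1.2 k hk).1⟩
  have hV1 : ∀ T, ∀ k ∈ V T, 1 ≤ k := by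
    intro T k hk
    obtain ⟨u, hu, hku⟩ := List.mem_flatten.1 hk
    exact (hmem T u hu).2 k hku
  have hVl : ∀ T, (V T).length = (max T0 T1 + T) * (M + D + 2) := by
    intro T
    have h2 : ∀ l : List (List ℕ), (∀ u ∈ l, u.length = M + D + 2) →
        l.flatten.length = l.length * (M + D + 2) := by
      intro l
      induction l with
      | nil => simp
      | cons a l ih =>
        intro hl
        rw [List.flatten_cons, List.length_append, ih fun u hu => hl u (List.mem_cons_of_mem _ hu),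
          hl a List.mem_cons_self, List.length_cons]
        ring
    have h4 := h2 ((w T).map Subtype.val) fun u hu => (hmem T u hu).1
    rw [List.length_map, hwl T] at h4
    exact h4
  have hnn : ∀ T, 0 ≤ nd x0 (V T) := fun T => nd_nn (by omega) (hV1 T) (hVa T)
  refine Set.infinite_of_injective_forall_mem (f := fun T => (3 * nd x0 (V T) + 2).toNat) ?_ ?_
  · intro T T' e
    have e1 : nd x0 (V T) = nd x0 (V T') := by
      have h2 := hnn T
      have h4 := hnn T'
      simp only at e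
      omega
    have e2 := injG hx0 hi1 (hV1 T) (hV1 T') (hVa T) (hVa T') e1
    have e3 := congrArg List.length e2
    rw [hVl, hVl] at e3
    have e4 := Nat.eq_of_mul_eq_mul_right (by omega) e3
    omega
  · intro T
    refine ⟨⟨im + (V T).sum, ?_⟩, ?_⟩
    · rw [Function.iterate_add_apply, hitG hx0 (hV1 T) (hVa T), him]
    · obtain ⟨c, hc1, hc2, _⟩ := circG hx0 hcc (hV1 T) (hVa T)
      refine ⟨c, hc1, ?_⟩
      have hn := hnn T
      have hnR : (0 : ℝ) ≤ nd x0 (V T) := by exact_mod_cast hn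
      have hcast : (((3 * nd x0 (V T) + 2).toNat : ℕ) : ℝ) = 3 * nd x0 (V T) + 2 := by
        have h2 : (((3 * nd x0 (V T) + 2).toNat : ℕ) : ℤ) = 3 * nd x0 (V T) + 2 :=
          Int.toNat_of_nonneg (by omega)
        have h4 : ((((3 * nd x0 (V T) + 2).toNat : ℕ) : ℤ) : ℝ) = ((3 * nd x0 (V T) + 2 : ℤ) : ℝ) := by
          rw [h2]
        push_cast at h4
        exact h4
      show c0 * Real.log (((3 * nd x0 (V T) + 2).toNat : ℕ) : ℝ) ≤ (c : ℝ)
      rw [hcast]
      have hx0R : (1 : ℝ) ≤ x0 := by exact_mod_cast hx0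
      -- logarithms
      have hlog : (V T).length * Real.log 3 + Real.log (3 * nd x0 (V T) + 2) ≤
          (V T).sum * Real.log 2 + Real.log (3 * x0 + 2) := by
        have h2 := nd_le (hV1 T) (hVa T)
        have h4 : ((3 : ℝ) ^ (V T).length * (3 * nd x0 (V T) + 2)) ≤ 2 ^ (V T).sum * (3 * x0 + 2) := by
          exact_mod_cast h2
        have h5 := Real.log_le_log (by positivity) h4
        rw [Real.log_mul (by positivity) (by positivity), Real.log_mul (by positivity) (by positivity),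
          Real.log_pow, Real.log_pow] at h5
        exact h5
      have hrin := low3_rin (Sc := Sc) (A := A) (B := B) ((w T).map Subtype.val) hSc.le
      rw [List.map_map] at hrin
      have hr2 : ((max T0 T1 + T : ℕ) : ℝ) / 2 ≤ Sc * Rw (V T) - A * (V T).sum + B * (V T).length :=
        (hwr T).trans hrin
      have hA2 := mul_le_mul_of_nonneg_right hA (Nat.cast_nonneg (α := ℝ) (V T).sum)
      have hB2 := mul_le_mul_of_nonneg_right hB (Nat.cast_nonneg (α := ℝ) (V T).length)
      have hT2 : 2 * Sc * c0 * Real.log (3 * x0 + 2) ≤ ((max T0 T1 + T : ℕ) : ℝ) := by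
        refine hT1.trans ?_
        exact_mod_cast (le_max_right T0 T1).trans (Nat.le_add_right _ _)
      have hlog2 := mul_le_mul_of_nonneg_left hlog (by positivity : (0 : ℝ) ≤ Sc * c0)
      have hfin : Sc * (c0 * Real.log (3 * nd x0 (V T) + 2)) ≤ Sc * (Rw (V T) : ℝ) := by
        nlinarith
      have h6 := le_of_mul_le_mul_left hfin hScR
      refine h6.trans ?_
      have h7 : Rw (V T) ≤ c := by omega
      exact_mod_cast h7

end Pool.Agent.helper14.EX1
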