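import Pool.Agent.helper14.EX1.Law

/-!
# EX1-Tree: a bound for the masses gives nondegenerate digits (chain rule of the entropy)

For `κ ∈ [0,1]`: `-κ log κ ≤ 2 sqrt (κ (1 - κ))`, since `-log κ ≤ 2 (1 / sqrt κ - 1)`.  So a probability on 3 points has
entropy `≤ 2 sqrt 3 sqrt (1 - ∑ κ ^ 2)` (Cauchy-Schwarz).  Let `H_i = -∑_{c < 3^i} m_i(c) log m_i(c)` for the masses
`m_i(c) = E (ind i c)` (`Real.negMulLog`).  Chain rule: `H_{i+1} = H_i + ∑_B m_i(B) H(κ_B)`; Jensen for `sqrt`: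
`∑_B m_i(B) H(κ_B) ≤ 2 sqrt 3 sqrt (1 - Psi E i 1)`.  `H_j ≤ j log 3` and `H_{j+s} ≥ - log M`
(all masses are `≤ M` and have sum `1`).  At the end Cauchy-Schwarz over `i < s`.
-/

namespace Pool.Agent.helper14.EX1

open Finset

section Tree

open Real

theorem Tree_negMulLog_le (k : ℝ) (h0 : 0 ≤ k) (h1 : k ≤ 1) : negMulLog k ≤ 2 * √(k * (1 - k)) := by
  rcases h0.eq_or_lt with rfl | hk
  · simp
  have hs : 0 < √k := Real.sqrt_pos.2 hk
  have hs1 : √k ≤ 1 := Real.sqrt_le_one.2 h1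
  have hss : √k * √k = k := Real.mul_self_sqrt h0
  have hlog : -Real.log k ≤ 2 * ((√k)⁻¹ - 1) := by
    have h2 : Real.log ((√k)⁻¹) ≤ (√k)⁻¹ - 1 := Real.log_le_sub_one_of_pos (inv_pos.2 hs)
    have h3 : Real.log k = 2 * Real.log (√k) := by
      rw [Real.log_sqrt h0]
      ring
    rw [Real.log_inv] at h2
    rw [h3]
    linarith
  have h4 : negMulLog k ≤ 2 * (√k - k) := by
    have h5 : negMulLog k = k * (-Real.log k) := by
      rw [negMulLog]
      ring
    rw [h5]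
    have h6 : k * (-Real.log k) ≤ k * (2 * ((√k)⁻¹ - 1)) := mul_le_mul_of_nonneg_left hlog h0
    have h7 : k * (√k)⁻¹ = √k := by
      rw [← div_eq_mul_inv, div_eq_iff hs.ne', hss]
    calc k * (-Real.log k) ≤ k * (2 * ((√k)⁻¹ - 1)) := h6
      _ = 2 * (k * (√k)⁻¹ - k) := by ring
      _ = 2 * (√k - k) := by rw [h7]
  have h8 : √k - k ≤ √(k * (1 - k)) := by
    rw [Real.sqrt_mul h0]
    have h9 : √k - k = √k * (1 - √k) := by
      rw [mul_sub, mul_one, hss]
    rw [h9]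
    refine mul_le_mul_of_nonneg_left ?_ hs.le
    refine Real.le_sqrt_of_sq_le ?_
    have : k ≤ √k := by
      calc k = √k * √k := hss.symm
        _ ≤ 1 * √k := by gcongr
        _ = √k := one_mul _
    calc (1 - √k) ^ 2 = 1 - 2 * √k + √k * √k := by ring
      _ = 1 - 2 * √k + k := by rw [hss]
      _ ≤ 1 - k := by linarith
  linarith

/-- three points -/
theorem Tree_three_le (a : ℕ → ℝ) (ha : ∀ d ∈ range 3, 0 ≤ a d) {s : ℝ} (hs : s = ∑ d ∈ range 3, a d) :
    ∑ d ∈ range 3, negMulLog (a d) ≤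
      negMulLog s + 2 * (s * √(3 * (1 - ∑ d ∈ range 3, (a d / s) ^ 2))) := by
  have hs0 : 0 ≤ s := by
    rw [hs]
    exact sum_nonneg ha
  rcases hs0.eq_or_lt with h0 | hpos
  · have h1 : ∀ d ∈ range 3, a d = 0 := by
      have := (sum_eq_zero_iff_of_nonneg ha).1 (hs.symm.trans h0.symm)
      exact this
    rw [sum_congr rfl fun d hd => by rw [h1 d hd]]
    simp [← h0]
  have hk : ∑ d ∈ range 3, a d / s = 1 := by
    rw [← sum_div, ← hs, div_self hpos.ne']
  have hk0 : ∀ d ∈ range 3, 0 ≤ a d / s := fun d hd => div_nonneg (ha d hd) hs0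
  have hk1 : ∀ d ∈ range 3, a d / s ≤ 1 := fun d hd => by
    rw [← hk]
    exact single_le_sum hk0 hd
  have h1 : ∀ d ∈ range 3, negMulLog (a d) = s * negMulLog (a d / s) + a d / s * negMulLog s := by
    intro d _
    have h2 : a d = a d / s * s := by
      rw [div_mul_cancel₀ _ hpos.ne']
    conv_lhs => rw [h2]
    rw [negMulLog_mul]
  rw [sum_congr rfl h1, sum_add_distrib, ← mul_sum, ← sum_mul, hk, one_mul]
  have h3 : ∑ d ∈ range 3, negMulLog (a d / s) ≤
      2 * √(3 * (1 - ∑ d ∈ range 3, (a d / s) ^ 2)) := by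
    have h4 : ∑ d ∈ range 3, negMulLog (a d / s) ≤
        ∑ d ∈ range 3, 2 * √(a d / s * (1 - a d / s)) :=
      sum_le_sum fun d hd => Tree_negMulLog_le _ (hk0 d hd) (hk1 d hd)
    refine h4.trans ?_
    rw [← mul_sum]
    refine mul_le_mul_of_nonneg_left ?_ (by norm_num)
    refine Real.le_sqrt_of_sq_le ?_
    have h5 : (∑ d ∈ range 3, √(a d / s * (1 - a d / s))) ^ 2 ≤
        3 * ∑ d ∈ range 3, (√(a d / s * (1 - a d / s))) ^ 2 := by
      have := sq_sum_le_card_mul_sum_sq (s := range 3)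
        (f := fun d => √(a d / s * (1 - a d / s)))
      simpa using this
    refine h5.trans (le_of_eq ?_)
    congr 1
    have h6 : ∀ d ∈ range 3, (√(a d / s * (1 - a d / s))) ^ 2 = a d / s - (a d / s) ^ 2 := by
      intro d hd
      rw [Real.sq_sqrt (mul_nonneg (hk0 d hd) (by linarith [hk1 d hd]))]
      ring
    rw [sum_congr rfl h6, sum_sub_distrib, hk]
  have h7 := mul_le_mul_of_nonneg_left h3 hs0
  linarith

theorem Tree_sum_range_split (f : ℕ → ℝ) (a b : ℕ) :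
    ∑ c ∈ range (a * b), f c = ∑ B ∈ range a, ∑ d ∈ range b, f (B + a * d) := by
  induction b with
  | zero => simp
  | succ b ih =>
    rw [Nat.mul_succ, sum_range_add, ih, ← sum_add_distrib]
    refine sum_congr rfl fun B _ => ?_
    rw [sum_range_succ, Nat.add_comm B (a * b)]

/-- masses of a law on the 3-adic integers: `m q c` is the mass of the class of `c` modulo `3^q` -/
structure Tree_IsMass (m : ℕ → ℕ → ℝ) : Prop where
  nn : ∀ q c, 0 ≤ m q c
  split : ∀ q, ∀ B < 3 ^ q, m q B = ∑ d ∈ range 3, m (q + 1) (B + 3 ^ q * d)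
  tot : ∀ q, ∑ c ∈ range (3 ^ q), m q c = 1

/-- mean of the squared norm of the conditional law of the digit `q` -/
noncomputable def Tree_psi (m : ℕ → ℕ → ℝ) (q : ℕ) : ℝ :=
  ∑ B ∈ range (3 ^ q), ∑ d ∈ range 3, m (q + 1) (B + 3 ^ q * d) ^ 2 / m q B

/-- entropy of the lowest `q` digits -/
noncomputable def Tree_ent (m : ℕ → ℕ → ℝ) (q : ℕ) : ℝ := ∑ c ∈ range (3 ^ q), negMulLog (m q c)

variable {m : ℕ → ℕ → ℝ}

theorem Tree_ent_succ (h : Tree_IsMass m) (q : ℕ) :
    Tree_ent m (q + 1) ≤ Tree_ent m q + 2 * √(3 * (1 - Tree_psi m q)) ∧ 0 ≤ 1 - Tree_psi m q := by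
  set t : ℕ → ℝ := fun B => 1 - ∑ d ∈ range 3, (m (q + 1) (B + 3 ^ q * d) / m q B) ^ 2 with ht
  have hst : ∀ B ∈ range (3 ^ q), m q B * t B =
      m q B - ∑ d ∈ range 3, m (q + 1) (B + 3 ^ q * d) ^ 2 / m q B := by
    intro B _
    rw [ht]
    show m q B * (1 - ∑ d ∈ range 3, (m (q + 1) (B + 3 ^ q * d) / m q B) ^ 2) = _
    rw [mul_sub, mul_one, mul_sum]
    congr 1
    refine sum_congr rfl fun d _ => ?_
    rcases eq_or_ne (m q B) 0 with h0 | h0
    · rw [h0]
      simp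
    · field_simp
  have htn : ∀ B ∈ range (3 ^ q), 0 ≤ m q B * t B := by
    intro B hB
    rcases (h.nn q B).eq_or_lt with h0 | hp
    · rw [← h0, zero_mul]
    refine mul_nonneg hp.le ?_
    have e1 : ∑ d ∈ range 3, m (q + 1) (B + 3 ^ q * d) / m q B = 1 := by
      rw [← sum_div, ← h.split q B (mem_range.1 hB), div_self hp.ne']
    have e0 : ∀ d ∈ range 3, 0 ≤ m (q + 1) (B + 3 ^ q * d) / m q B :=
      fun d _ => div_nonneg (h.nn _ _) hp.le
    have e2 : ∑ d ∈ range 3, (m (q + 1) (B + 3 ^ q * d) / m q B) ^ 2 ≤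
        ∑ d ∈ range 3, m (q + 1) (B + 3 ^ q * d) / m q B := by
      refine sum_le_sum fun d hd => ?_
      have e3 : m (q + 1) (B + 3 ^ q * d) / m q B ≤ 1 := by
        rw [← e1]
        exact single_le_sum e0 hd
      have e4 := e0 d hd
      nlinarith
    show 0 ≤ 1 - _
    linarith
  have hsum : ∑ B ∈ range (3 ^ q), m q B * t B = 1 - Tree_psi m q := by
    rw [sum_congr rfl hst, sum_sub_distrib, h.tot q]
    rfl
  have hnn : 0 ≤ 1 - Tree_psi m q := by
    rw [← hsum]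
    exact sum_nonneg htn
  refine ⟨?_, hnn⟩
  have h1 : Tree_ent m (q + 1) ≤ ∑ B ∈ range (3 ^ q), (negMulLog (m q B) + 2 * (m q B * √(3 * t B))) := by
    unfold Tree_ent
    rw [pow_succ, Tree_sum_range_split]
    refine sum_le_sum fun B hB => ?_
    exact Tree_three_le (fun d => m (q + 1) (B + 3 ^ q * d)) (fun d _ => h.nn _ _)
      (h.split q B (mem_range.1 hB))
  rw [sum_add_distrib, ← mul_sum] at h1
  refine h1.trans ?_
  show Tree_ent m q + _ ≤ _
  refine add_le_add le_rfl (mul_le_mul_of_nonneg_left ?_ (by norm_num))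
  refine Real.le_sqrt_of_sq_le ?_
  have h2 : ∀ B ∈ range (3 ^ q), m q B * √(3 * t B) = √(m q B) * √(3 * (m q B * t B)) := by
    intro B hB
    have e5 : 3 * (m q B * t B) = m q B * (3 * t B) := by ring
    rw [e5, Real.sqrt_mul (h.nn q B), ← mul_assoc, Real.mul_self_sqrt (h.nn q B)]
  rw [sum_congr rfl h2]
  refine (sum_mul_sq_le_sq_mul_sq _ _ _).trans ?_
  have h3 : ∑ B ∈ range (3 ^ q), √(m q B) ^ 2 = 1 := by
    rw [sum_congr rfl fun B _ => Real.sq_sqrt (h.nn q B), h.tot q]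
  have h4 : ∑ B ∈ range (3 ^ q), √(3 * (m q B * t B)) ^ 2 = 3 * (1 - Tree_psi m q) := by
    rw [sum_congr rfl fun B hB => Real.sq_sqrt (mul_nonneg (by norm_num) (htn B hB)), ← mul_sum,
      hsum]
  rw [h3, h4, one_mul]

theorem Tree_ent_le_log (h : Tree_IsMass m) (q : ℕ) : Tree_ent m q ≤ q * Real.log 3 := by
  have hN : (0 : ℝ) < 3 ^ q := by positivity
  have h1 : ∀ c ∈ range (3 ^ q), negMulLog (m q c) - m q c * (q * Real.log 3) ≤ 1 / 3 ^ q - m q c := by
    intro c _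
    rcases (h.nn q c).eq_or_lt with h0 | hp
    · rw [← h0]
      simp
    have h2 : Real.log (1 / (3 ^ q * m q c)) ≤ 1 / (3 ^ q * m q c) - 1 :=
      Real.log_le_sub_one_of_pos (by positivity)
    have h3 : Real.log (1 / (3 ^ q * m q c)) = -(q * Real.log 3) - Real.log (m q c) := by
      rw [one_div, Real.log_inv, Real.log_mul hN.ne' hp.ne', Real.log_pow]
      ring
    rw [h3] at h2
    have h4 := mul_le_mul_of_nonneg_left h2 hp.le
    have h5 : m q c * (1 / (3 ^ q * m q c) - 1) = 1 / 3 ^ q - m q c := by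
      field_simp
    rw [h5] at h4
    rw [negMulLog]
    linarith
  have h2 := sum_le_sum h1
  rw [sum_sub_distrib, sum_sub_distrib, ← sum_mul, h.tot q, sum_const, card_range] at h2
  have h3 : (3 ^ q : ℕ) • (1 / 3 ^ q : ℝ) = 1 := by
    rw [nsmul_eq_mul]
    push_cast
    field_simp
  rw [h3] at h2
  show Tree_ent m q ≤ _
  have h4 : Tree_ent m q - 1 * (q * Real.log 3) ≤ 1 - 1 := h2
  linarith

theorem Tree_neg_log_le_ent (h : Tree_IsMass m) (q : ℕ) {M : ℝ} (hM : ∀ c < 3 ^ q, m q c ≤ M) :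
    -Real.log M ≤ Tree_ent m q := by
  have h1 : ∀ c ∈ range (3 ^ q), m q c * (-Real.log M) ≤ negMulLog (m q c) := by
    intro c hc
    rcases (h.nn q c).eq_or_lt with h0 | hp
    · rw [← h0]
      simp
    have h2 : Real.log (m q c) ≤ Real.log M := Real.log_le_log hp (hM c (mem_range.1 hc))
    have h3 := mul_le_mul_of_nonneg_left h2 hp.le
    rw [negMulLog]
    linarith
  have h2 := sum_le_sum h1
  rw [← sum_mul, h.tot q, one_mul] at h2
  exact h2

theorem Tree_ent_add (h : Tree_IsMass m) (j s : ℕ) :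
    Tree_ent m (j + s) ≤ Tree_ent m j + ∑ i ∈ range s, 2 * √(3 * (1 - Tree_psi m (j + i))) := by
  induction s with
  | zero => simp
  | succ s ih =>
    rw [sum_range_succ, ← add_assoc, ← add_assoc]
    exact ((Tree_ent_succ h (j + s)).1).trans (by linarith)

/-- (B5) TREE -/
theorem Tree_tree (h : Tree_IsMass m) (j s : ℕ) {M : ℝ} (hM : ∀ c < 3 ^ (j + s), m (j + s) c ≤ M) :
    -Real.log M - j * Real.log 3 ≤ 4 * √(s * ∑ i ∈ range s, (1 - Tree_psi m (j + i))) := by
  have h1 := Tree_neg_log_le_ent h (j + s) hM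
  have h2 := Tree_ent_add h j s
  have h3 := Tree_ent_le_log h j
  have h4 : ∑ i ∈ range s, √(3 * (1 - Tree_psi m (j + i))) ≤
      √(s * ∑ i ∈ range s, 3 * (1 - Tree_psi m (j + i))) := by
    refine Real.le_sqrt_of_sq_le ?_
    have h5 := sq_sum_le_card_mul_sum_sq (s := range s)
      (f := fun i => √(3 * (1 - Tree_psi m (j + i))))
    rw [card_range] at h5
    refine h5.trans (le_of_eq ?_)
    congr 1
    exact sum_congr rfl fun i _ =>
      Real.sq_sqrt (mul_nonneg (by norm_num) (Tree_ent_succ h (j + i)).2)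
  have h6 : √(s * ∑ i ∈ range s, 3 * (1 - Tree_psi m (j + i))) ≤
      2 * √(s * ∑ i ∈ range s, (1 - Tree_psi m (j + i))) := by
    have h0 : 0 ≤ s * ∑ i ∈ range s, (1 - Tree_psi m (j + i)) :=
      mul_nonneg (Nat.cast_nonneg s) (sum_nonneg fun i _ => (Tree_ent_succ h (j + i)).2)
    rw [← mul_sum]
    refine Real.sqrt_le_iff.2 ⟨by positivity, ?_⟩
    rw [mul_pow, Real.sq_sqrt h0]
    nlinarith
  rw [← mul_sum] at h2
  linarith

end Tree

variable {E : (ℤ → ℝ) → ℝ}

theorem Tree_mass (hE : IsLaw E) : Tree_IsMass (fun q c => E (ind q (c : ℤ))) where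
  nn q c := law_ind_nn hE q c
  split q B _ := by
    have h := law_ind_split hE q 1 (B : ℤ)
    rw [pow_one] at h
    rw [h]
    refine sum_congr rfl fun d _ => ?_
    push_cast
    rfl
  tot q := law_ind_sum hE q

theorem Tree_psi_eq (E : (ℤ → ℝ) → ℝ) (q : ℕ) :
    Tree_psi (fun q c => E (ind q (c : ℤ))) q = Psi E q 1 := by
  unfold Tree_psi Psi
  refine sum_congr rfl fun B _ => ?_
  rw [pow_one]
  refine sum_congr rfl fun d _ => ?_
  push_cast
  rfl

theorem tree (hE : IsLaw E) (j s : ℕ) {M : ℝ} (hM : 0 < M) (h : ∀ c : ℤ, E (ind (j + s) c) ≤ M) :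
    -Real.log M - j * Real.log 3 ≤ 4 * Real.sqrt (s * ∑ i ∈ range s, (1 - Psi E (j + i) 1)) := by
  have _ := hM
  have h1 := Tree_tree (Tree_mass hE) j s (M := M) (fun c _ => h c)
  rw [sum_congr rfl fun i _ => by rw [Tree_psi_eq]] at h1
  exact h1

end Pool.Agent.helper14.EX1
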