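import Pool.Agent.helper14.EX1.Vab
import Pool.Agent.helper14.EX1.Tree
import Pool.Agent.helper14.EX1.Atom

/-!
# EX1-LowV: the digits are nondegenerate in windows, from every starting point

`A, B, ρ` from `atom`, `lam = -log ρ > 0`.  Given `j` take `n1 ≥ max 1 j` so large that
`n1 * lam - log (B n1 + 1) - j log 3 ≥ n1 * lam / 2`.  `tree` for the law `φ ↦ (K^[n1] φ) x` with `j + s = A n1` and
`M = (B n1 + 1) ρ ^ n1`: `n1 lam / 2 ≤ 4 sqrt (s Σ)`, `Σ = ∑_{i<s} vv (j+i) n1 x`, so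
`Σ ≥ (n1 lam / 8) ^ 2 / (A n1) = n1 lam ^ 2 / (64 A)`.  Write `i = r + m i'` (`r < m`, `i' < A n1`):
`vv (j + r + m i') n1 x ≤ vv (j + r) (n1 + i') x`.  With `L = (1 + A) n1`:
`∑_{n<L} ∑_{r<m} vv (j+r) n x ≥ Σ ≥ c L`, `c = lam ^ 2 / (64 A (1 + A))`.
-/

namespace Pool.Agent.helper14.EX1

open Finset

variable {ι : Type} [Fintype ι] {S : Sys ι}

/-- the choice of the number of steps -/
private theorem LowV_choice (A B : ℕ) (hA : 1 ≤ A) {lam : ℝ} (hl : 0 < lam) (j : ℕ) :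
    ∃ n : ℕ, 1 ≤ n ∧ j ≤ A * n ∧
      n * lam / 2 ≤ n * lam - Real.log (B * n + 1) - j * Real.log 3 := by
  set ε : ℝ := lam / (4 * (B + 1)) with hε
  have hB : (0 : ℝ) < 4 * (B + 1) := by positivity
  have hε0 : 0 < ε := div_pos hl hB
  set D : ℝ := lam / 4 - Real.log ε + j * Real.log 3 with hD
  obtain ⟨N, hN⟩ := exists_nat_ge (4 * D / lam)
  set n := N + j + 1 with hn
  have hn1 : 1 ≤ n := by omega
  refine ⟨n, hn1, ?_, ?_⟩
  · calc j ≤ n := by omega
      _ ≤ A * n := Nat.le_mul_of_pos_left n hA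
  have h1 : D ≤ n * lam / 4 := by
    have h2 : 4 * D / lam ≤ (n : ℝ) := hN.trans (by rw [hn]; push_cast; linarith [(Nat.cast_nonneg j : (0:ℝ) ≤ j)])
    rw [div_le_iff₀ hl] at h2
    linarith
  have hn0 : (0 : ℝ) ≤ n := Nat.cast_nonneg n
  have hB0 : (0 : ℝ) ≤ B := Nat.cast_nonneg B
  have hy : (0 : ℝ) < B * n + 1 := by positivity
  have h3 : Real.log (B * n + 1) ≤ ε * (B * n + 1) - 1 - Real.log ε := by
    have h4 := Real.log_le_sub_one_of_pos (mul_pos hε0 hy)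
    rw [Real.log_mul hε0.ne' hy.ne'] at h4
    linarith
  have h5 : ε * (B * n + 1) ≤ lam / 4 * (n + 1) := by
    have h6 : ε * (4 * (B + 1)) = lam := by rw [hε]; field_simp
    have h7 : ε * (B * n + 1) ≤ ε * ((B + 1) * (n + 1)) := by
      apply mul_le_mul_of_nonneg_left _ hε0.le
      nlinarith
    have h8 : ε * ((B + 1) * (n + 1)) = lam / 4 * (n + 1) := by
      rw [← h6]; ring
    linarith
  nlinarith

/-- reindexing of the digits -/
private theorem LowV_reindex (hS : S.Ok) (j n1 s : ℕ) (x : ℤ) :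
    ∑ i ∈ range s, S.vv (j + i) n1 x ≤
      ∑ n ∈ range (n1 + s), ∑ r ∈ range S.m, S.vv (j + r) n x := by
  classical
  have hm : 0 < S.m := hS.m1
  have h1 : ∀ i ∈ range s, S.vv (j + i) n1 x ≤ S.vv (j + i % S.m) (n1 + i / S.m) x := by
    intro i _
    have h2 := Sys.vv_shift_iter hS (j + i % S.m) n1 (i / S.m) x
    have e : j + i % S.m + S.m * (i / S.m) = j + i := by
      have := Nat.mod_add_div i S.m
      omega
    rwa [e] at h2
  refine (sum_le_sum h1).trans ?_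
  rw [← sum_product' (range (n1 + s)) (range S.m) (fun n r => S.vv (j + r) n x)]
  let g : ℕ → ℕ × ℕ := fun i => (n1 + i / S.m, i % S.m)
  have hg : Set.InjOn g (range s : Set ℕ) := by
    intro a _ b _ hab
    simp only [g, Prod.mk.injEq] at hab
    have h3 : a / S.m = b / S.m := by omega
    rw [← Nat.mod_add_div a S.m, ← Nat.mod_add_div b S.m, hab.2, h3]
  have h4 : ∑ i ∈ range s, S.vv (j + i % S.m) (n1 + i / S.m) x =
      ∑ p ∈ (range s).image g, S.vv (j + p.2) p.1 x := by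
    rw [sum_image hg]
  rw [h4]
  apply sum_le_sum_of_subset_of_nonneg
  · intro p hp
    obtain ⟨i, hi, rfl⟩ := mem_image.1 hp
    have hi' := mem_range.1 hi
    simp only [g, mem_product, mem_range]
    refine ⟨?_, Nat.mod_lt _ hm⟩
    have := Nat.div_le_self i S.m
    omega
  · intro p _ _
    exact Sys.vv_nn hS _ _ _

theorem vv_low (hS : S.Ok) : ∃ c : ℝ, 0 < c ∧ ∀ j : ℕ, ∃ L : ℕ, 1 ≤ L ∧
    ∀ x : ℤ, c * L ≤ ∑ n ∈ range L, ∑ r ∈ range S.m, S.vv (j + r) n x := by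
  obtain ⟨A, B, ρ, hρ0, hρ1, hA, hat⟩ := atom hS
  set lam := -Real.log ρ with hlam
  have hl : 0 < lam := by
    rw [hlam]
    linarith [Real.log_neg hρ0 hρ1]
  have hA' : (0 : ℝ) < A := by exact_mod_cast hA
  refine ⟨lam ^ 2 / (64 * A * (1 + A)), by positivity, fun j => ?_⟩
  obtain ⟨n1, hn1, hj, hch⟩ := LowV_choice A B hA hl j
  obtain ⟨s, hs⟩ := Nat.exists_eq_add_of_le hj
  have hn0 : (0 : ℝ) < n1 := by exact_mod_cast hn1
  refine ⟨(1 + A) * n1, Nat.one_le_iff_ne_zero.2 (by positivity), fun x => ?_⟩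
  have hM : (0 : ℝ) < (B * n1 + 1) * ρ ^ n1 := by positivity
  have ht := tree (Sys.law_pt hS n1 x) j s hM (fun c => by
    rw [← hs]
    exact hat n1 x c)
  have e1 : Real.log ((B * n1 + 1) * ρ ^ n1) = Real.log (B * n1 + 1) - n1 * lam := by
    rw [Real.log_mul (by positivity) (by positivity), Real.log_pow, hlam]
    ring
  have e2 : ∑ i ∈ range s, (1 - Psi (fun φ => (S.K^[n1] φ) x) (j + i) 1) =
      ∑ i ∈ range s, S.vv (j + i) n1 x := rfl
  rw [e1, e2] at ht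
  set Sg := ∑ i ∈ range s, S.vv (j + i) n1 x with hSg
  have hSg0 : 0 ≤ Sg := sum_nonneg fun i _ => Sys.vv_nn hS _ _ _
  have hs' : (s : ℝ) ≤ A * n1 := by
    have : s ≤ A * n1 := by omega
    exact_mod_cast this
  have h1 : n1 * lam / 8 ≤ Real.sqrt (s * Sg) := by linarith
  have h2 : (n1 * lam / 8) ^ 2 ≤ s * Sg := by
    have h3 : 0 ≤ (s : ℝ) * Sg := mul_nonneg (Nat.cast_nonneg s) hSg0
    calc (n1 * lam / 8) ^ 2 ≤ Real.sqrt (s * Sg) ^ 2 := by
          apply pow_le_pow_left₀ _ h1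
          positivity
      _ = s * Sg := Real.sq_sqrt h3
  have h4 : (n1 * lam / 8) ^ 2 ≤ A * n1 * Sg :=
    h2.trans (mul_le_mul_of_nonneg_right hs' hSg0)
  have h5 : n1 * lam ^ 2 / (64 * A) ≤ Sg := by
    rw [div_le_iff₀ (by positivity)]
    have h6 : n1 * (n1 * lam ^ 2) ≤ n1 * (Sg * (64 * A)) := by nlinarith
    exact le_of_mul_le_mul_left h6 hn0
  have h7 : lam ^ 2 / (64 * A * (1 + A)) * ((1 + A) * n1 : ℕ) = n1 * lam ^ 2 / (64 * A) := by
    push_cast
    field_simp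
  rw [h7]
  refine h5.trans ((LowV_reindex hS j n1 s x).trans ?_)
  apply sum_le_sum_of_subset_of_nonneg
  · apply range_subset_range.2
    have : (1 + A) * n1 = n1 + A * n1 := by ring
    omega
  · intro n _ _
    exact sum_nonneg fun r _ => Sys.vv_nn hS _ _ _

end Pool.Agent.helper14.EX1
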