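import Mathlib

/-!
# EX1-Mix: the gain of energy by mixing

Proof.  For one `b` with `a = ∑_w π b w > 0` and `M b > 0` and every `z`:
`(∑_w π u) ^ 2 + (1/2) ∑_{w,w'} π π' (u - u') ^ 2 = a ∑_w π u ^ 2` (exact identity); divide by `a * M b`.
Then Titu over `b`: `(∑_b A_b) ^ 2 / (∑_b S_b) ≤ ∑_b A_b ^ 2 / S_b` with `A_b = ∑_w π b w u b w z` and
`S_b = ∑_w π b w * M b = a M b` (if `S_b = 0` then `A_b = 0` and the quotient is `0` in Lean).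
-/

namespace Pool.Agent.helper14.EX1

open Finset

theorem titu {κ : Type} (s : Finset κ) {A S : κ → ℝ} (hS : ∀ b ∈ s, 0 ≤ S b)
    (h0 : ∀ b ∈ s, S b = 0 → A b = 0) :
    (∑ b ∈ s, A b) ^ 2 / (∑ b ∈ s, S b) ≤ ∑ b ∈ s, A b ^ 2 / S b := by
  classical
  have h1 : ∑ b ∈ s, A b = ∑ b ∈ s with S b ≠ 0, A b := by
    rw [Finset.sum_filter]
    refine Finset.sum_congr rfl fun b hb => ?_
    by_cases h : S b = 0
    · simp [h, h0 b hb h]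
    · simp [h]
  have h2 : ∑ b ∈ s, S b = ∑ b ∈ s with S b ≠ 0, S b := by
    rw [Finset.sum_filter]
    refine Finset.sum_congr rfl fun b hb => ?_
    by_cases h : S b = 0
    · simp [h]
    · simp [h]
  have h3 : ∑ b ∈ s, A b ^ 2 / S b = ∑ b ∈ s with S b ≠ 0, A b ^ 2 / S b := by
    rw [Finset.sum_filter]
    refine Finset.sum_congr rfl fun b hb => ?_
    by_cases h : S b = 0
    · simp [h]
    · simp [h]
  rw [h1, h2, h3]
  refine Finset.sq_sum_div_le_sum_sq_div _ _ fun b hb => ?_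
  rw [Finset.mem_filter] at hb
  exact lt_of_le_of_ne (hS b hb.1) (Ne.symm hb.2)

/-- The exact identity for one mixture. -/
theorem Mix_var {ω : Type} (t : Finset ω) (π : ω → ℝ) (u : ω → ℝ) :
    (∑ w ∈ t, π w * u w) ^ 2 + 1 / 2 * (∑ w ∈ t, ∑ w' ∈ t, π w * π w' * (u w - u w') ^ 2) =
      (∑ w ∈ t, π w) * ∑ w ∈ t, π w * u w ^ 2 := by
  have e1 : ∑ w ∈ t, ∑ w' ∈ t, π w * π w' * (u w - u w') ^ 2 =
      ∑ w ∈ t, ∑ w' ∈ t, (π w * u w ^ 2) * π w' + ∑ w ∈ t, ∑ w' ∈ t, π w * (π w' * u w' ^ 2) -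
        2 * ∑ w ∈ t, ∑ w' ∈ t, (π w * u w) * (π w' * u w') := by
    rw [Finset.mul_sum, ← Finset.sum_add_distrib, ← Finset.sum_sub_distrib]
    refine Finset.sum_congr rfl fun w _ => ?_
    rw [Finset.mul_sum, ← Finset.sum_add_distrib, ← Finset.sum_sub_distrib]
    refine Finset.sum_congr rfl fun w' _ => ?_
    ring
  rw [e1, ← Finset.sum_mul_sum, ← Finset.sum_mul_sum, ← Finset.sum_mul_sum]
  ring

theorem mix {β ω κ : Type} (s : Finset β) (t : Finset ω) (Z : Finset κ) {π : β → ω → ℝ}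
    (hπ : ∀ b ∈ s, ∀ w ∈ t, 0 ≤ π b w) {M : β → ℝ} (hM : ∀ b ∈ s, 0 ≤ M b)
    {u : β → ω → κ → ℝ} (hu : ∀ b ∈ s, ∀ w ∈ t, ∀ z ∈ Z, M b = 0 → u b w z = 0) :
    (∑ z ∈ Z, (∑ b ∈ s, ∑ w ∈ t, π b w * u b w z) ^ 2) / (∑ b ∈ s, ∑ w ∈ t, π b w * M b) +
      ∑ b ∈ s, 1 / 2 * (∑ w ∈ t, ∑ w' ∈ t, π b w * π b w' * ∑ z ∈ Z, (u b w z - u b w' z) ^ 2) /
        ((∑ w ∈ t, π b w) * M b) ≤
      ∑ b ∈ s, ∑ w ∈ t, π b w * ((∑ z ∈ Z, u b w z ^ 2) / M b) := by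
  classical
  have hS : ∀ b ∈ s, 0 ≤ ∑ w ∈ t, π b w * M b := fun b hb =>
    Finset.sum_nonneg fun w hw => mul_nonneg (hπ b hb w hw) (hM b hb)
  have hz : ∀ z ∈ Z, ∀ b ∈ s, (∑ w ∈ t, π b w * M b) = 0 → ∑ w ∈ t, π b w * u b w z = 0 := by
    intro z hz b hb h
    refine Finset.sum_eq_zero fun w hw => ?_
    have h1 := (Finset.sum_eq_zero_iff_of_nonneg
      (fun w hw => mul_nonneg (hπ b hb w hw) (hM b hb))).1 h w hw
    rcases mul_eq_zero.1 h1 with h2 | h2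
    · rw [h2, zero_mul]
    · rw [hu b hb w hw z hz h2, mul_zero]
  have step1 : (∑ z ∈ Z, (∑ b ∈ s, ∑ w ∈ t, π b w * u b w z) ^ 2) /
      (∑ b ∈ s, ∑ w ∈ t, π b w * M b) ≤
      ∑ b ∈ s, (∑ z ∈ Z, (∑ w ∈ t, π b w * u b w z) ^ 2) / (∑ w ∈ t, π b w * M b) := by
    rw [Finset.sum_div]
    have e : ∑ b ∈ s, (∑ z ∈ Z, (∑ w ∈ t, π b w * u b w z) ^ 2) / (∑ w ∈ t, π b w * M b) =
        ∑ z ∈ Z, ∑ b ∈ s, (∑ w ∈ t, π b w * u b w z) ^ 2 / (∑ w ∈ t, π b w * M b) := by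
      rw [Finset.sum_comm]
      refine Finset.sum_congr rfl fun b _ => ?_
      rw [Finset.sum_div]
    rw [e]
    exact Finset.sum_le_sum fun z hzz => titu s hS (hz z hzz)
  have step2 : ∀ b ∈ s, (∑ z ∈ Z, (∑ w ∈ t, π b w * u b w z) ^ 2) / (∑ w ∈ t, π b w * M b) +
      1 / 2 * (∑ w ∈ t, ∑ w' ∈ t, π b w * π b w' * ∑ z ∈ Z, (u b w z - u b w' z) ^ 2) /
        ((∑ w ∈ t, π b w) * M b) ≤ ∑ w ∈ t, π b w * ((∑ z ∈ Z, u b w z ^ 2) / M b) := by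
    intro b hb
    by_cases hMb : M b = 0
    · simp [hMb]
    by_cases ha : ∑ w ∈ t, π b w = 0
    · have h1 := (Finset.sum_eq_zero_iff_of_nonneg (fun w hw => hπ b hb w hw)).1 ha
      have h2 : ∑ w ∈ t, π b w * M b = 0 :=
        Finset.sum_eq_zero fun w hw => by rw [h1 w hw, zero_mul]
      have h3 : ∑ w ∈ t, π b w * ((∑ z ∈ Z, u b w z ^ 2) / M b) = 0 :=
        Finset.sum_eq_zero fun w hw => by rw [h1 w hw, zero_mul]
      rw [h2, h3, ha]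
      simp
    have hMp : 0 < M b := lt_of_le_of_ne (hM b hb) (Ne.symm hMb)
    have hap : 0 < ∑ w ∈ t, π b w :=
      lt_of_le_of_ne (Finset.sum_nonneg fun w hw => hπ b hb w hw) (Ne.symm ha)
    have e1 : ∑ w ∈ t, π b w * M b = (∑ w ∈ t, π b w) * M b := by rw [Finset.sum_mul]
    have e2 : ∑ w ∈ t, π b w * ((∑ z ∈ Z, u b w z ^ 2) / M b) =
        (∑ w ∈ t, π b w) * (∑ w ∈ t, π b w * ∑ z ∈ Z, u b w z ^ 2) /
          ((∑ w ∈ t, π b w) * M b) := by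
      rw [mul_div_mul_left _ _ ha, Finset.sum_div]
      refine Finset.sum_congr rfl fun w _ => ?_
      rw [mul_div_assoc]
    have e3 : ∑ w ∈ t, ∑ w' ∈ t, π b w * π b w' * ∑ z ∈ Z, (u b w z - u b w' z) ^ 2 =
        ∑ z ∈ Z, ∑ w ∈ t, ∑ w' ∈ t, π b w * π b w' * (u b w z - u b w' z) ^ 2 := by
      rw [Finset.sum_comm' (s := Z) (t := fun _ => t) (t' := t) (s' := fun _ => Z)
        (h := by intro x y; tauto)]
      refine Finset.sum_congr rfl fun w _ => ?_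
      rw [Finset.sum_comm]
      refine Finset.sum_congr rfl fun w' _ => ?_
      rw [Finset.mul_sum]
    have e4 : ∑ w ∈ t, π b w * ∑ z ∈ Z, u b w z ^ 2 = ∑ z ∈ Z, ∑ w ∈ t, π b w * u b w z ^ 2 := by
      rw [Finset.sum_comm]
      refine Finset.sum_congr rfl fun w _ => ?_
      rw [Finset.mul_sum]
    rw [e1, e2, ← add_div, e3, e4]
    refine le_of_eq ?_
    congr 1
    rw [Finset.mul_sum, Finset.mul_sum, ← Finset.sum_add_distrib]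
    refine Finset.sum_congr rfl fun z _ => ?_
    exact Mix_var t (π b) (fun w => u b w z)
  calc _ ≤ (∑ b ∈ s, (∑ z ∈ Z, (∑ w ∈ t, π b w * u b w z) ^ 2) / (∑ w ∈ t, π b w * M b)) +
      ∑ b ∈ s, 1 / 2 * (∑ w ∈ t, ∑ w' ∈ t, π b w * π b w' * ∑ z ∈ Z, (u b w z - u b w' z) ^ 2) /
        ((∑ w ∈ t, π b w) * M b) := by gcongr
    _ = ∑ b ∈ s, ((∑ z ∈ Z, (∑ w ∈ t, π b w * u b w z) ^ 2) / (∑ w ∈ t, π b w * M b) +
      1 / 2 * (∑ w ∈ t, ∑ w' ∈ t, π b w * π b w' * ∑ z ∈ Z, (u b w z - u b w' z) ^ 2) /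
        ((∑ w ∈ t, π b w) * M b)) := by rw [Finset.sum_add_distrib]
    _ ≤ _ := Finset.sum_le_sum step2

end Pool.Agent.helper14.EX1
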