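import Pool.Agent.helper14.EX1.Vil

/-!
# EX1-Rec: the recursion for the mean of the logarithm

Let `D_j` (`1 ≤ j ≤ n - 1`) be the set `alive (j-1)`, not `alive j`, and `D_n` the set `alive (n-1)`: they partition the
integers, `D_j` is periodic mod `3 ^ j` and has the proportion `al (j-1) - al j`, resp. `al (n-1)`; on `D_j`:
`fn j ≥ fn (j-1) / 4 ≥ 1/8` (`fn_quarter`; `fn 0 = 1`).  For `x ∈ D_j`, `fn M x = (L^j h) x` with `h = fn (M-j)` (`fn_add`), and
by `log y ≤ log a + (y - a) / a` with `a = (L^j h) x / fn j x`: `(L^j (log h)) x / fn j x ≤ log a`, i.e.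
`log (fn M x) ≥ log (fn j x) + (L^j (log h)) x / fn j x`.  Sum over `x = B + 3 ^ j y < 3 ^ M` for fixed `B ∈ D_j`, using
`avc`: `∑_y (L^j (log h)) (B + 3^j y) = fn j B * ∑_z log (h z)`, and `fn j (B + 3^j y) = fn j B`.
-/

namespace Pool.Agent.helper14.EX1

open Finset

/-- The mean of the logarithm of the partition function. -/
noncomputable def psi (K M : ℕ) : ℝ := avg M (fun x => Real.log (fn K M x))

theorem Rec_th_nn (K : ℕ) : 0 ≤ th K := by
  unfold th
  have : ((1 : ℝ) / 2) ^ K ≤ 1 := pow_le_one₀ (by norm_num) (by norm_num)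
  linarith

theorem Rec_qn_nn (K k : ℕ) : 0 ≤ qn K k := by
  unfold qn
  exact div_nonneg (by positivity) (Rec_th_nn K)

theorem Rec_avg_sum {κ : Type} (q : ℕ) (s : Finset κ) (F : κ → ℤ → ℝ) :
    avg q (fun x => ∑ i ∈ s, F i x) = ∑ i ∈ s, avg q (F i) := by
  unfold avg
  rw [Finset.sum_comm, Finset.sum_div]

theorem Rec_Icc (N : ℕ) (f : ℕ → ℝ) : ∑ j ∈ Icc 1 N, f j = ∑ i ∈ range N, f (i + 1) := by
  induction N with
  | zero => simp
  | succ N ih => rw [Finset.sum_Icc_succ_top (by omega), ih, Finset.sum_range_succ]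

/-- Jensen for the transfer operator and the logarithm. -/
theorem Rec_jensen {K : ℕ} (hK : 5 ≤ K) {j M : ℕ} (hM : j ≤ M) (x : ℤ) :
    Real.log (fn K j x) +
      ((L K (qn K))^[j] (fun y => Real.log (fn K (M - j) y))) x / fn K j x ≤
      Real.log (fn K M x) := by
  have hf : 0 < fn K j x := fn_pos hK j x
  have hF : 0 < fn K M x := fn_pos hK M x
  set a : ℝ := fn K M x / fn K j x with ha
  have ha0 : 0 < a := div_pos hF hf
  have hq : ∀ k, 0 ≤ qn K k := Rec_qn_nn K
  have h1 : ∀ y, Real.log (fn K (M - j) y) ≤ (Real.log a - 1) * 1 + a⁻¹ * fn K (M - j) y := by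
    intro y
    have hy : 0 < fn K (M - j) y := fn_pos hK _ y
    have h2 := Real.log_le_sub_one_of_pos (div_pos hy ha0)
    rw [Real.log_div hy.ne' ha0.ne'] at h2
    have h3 : fn K (M - j) y / a = a⁻¹ * fn K (M - j) y := by rw [div_eq_inv_mul]
    rw [h3] at h2
    linarith
  have h4 := iterL_mono (K := K) hq j h1 x
  rw [iterL_add, iterL_smul, iterL_smul] at h4
  have h5 : ((L K (qn K))^[j] (fun _ => (1 : ℝ))) x = fn K j x := rfl
  have h6 : ((L K (qn K))^[j] (fun y => fn K (M - j) y)) x = fn K M x := by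
    have := fn_add K j (M - j)
    rw [Nat.add_sub_cancel' hM] at this
    rw [this]
  rw [h5, h6] at h4
  have h7 : a⁻¹ * fn K M x = fn K j x := by
    rw [ha]
    field_simp
  rw [h7] at h4
  have h8 : ((L K (qn K))^[j] (fun y => Real.log (fn K (M - j) y))) x / fn K j x ≤
      Real.log a := by
    rw [div_le_iff₀ hf]
    linarith
  have h9 : Real.log a = Real.log (fn K M x) - Real.log (fn K j x) := by
    rw [ha, Real.log_div hF.ne' hf.ne']
  linarith

theorem Rec_piece {K : ℕ} (hK : 5 ≤ K) {j M : ℕ} (hM : j ≤ M) {D : ℤ → ℝ}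
    (hD : Per j D) (h0 : ∀ x, 0 ≤ D x) (h8 : ∀ x, D x ≠ 0 → 1 / 8 ≤ fn K j x) :
    -Real.log 8 * avg j D + avg j D * psi K (M - j) ≤
      avg M (fun x => D x * Real.log (fn K M x)) := by
  set h : ℤ → ℝ := fun y => Real.log (fn K (M - j) y) with hh
  have hhper : Per (M - j) h := per_comp (fn_per K (M - j)) Real.log
  have e1 : avg M (fun x => D x / fn K j x * ((L K (qn K))^[j] h) x) =
      avg j D * psi K (M - j) := by
    have hφ : ∀ x y : ℤ, D (x + 3 ^ j * y) / fn K j (x + 3 ^ j * y) = D x / fn K j x := by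
      intro x y
      rw [per_mul hD, per_mul (fn_per K j)]
    have e2 : ∑ x ∈ range (3 ^ M), D (x : ℤ) / fn K j (x : ℤ) * ((L K (qn K))^[j] h) (x : ℤ) =
        (∑ B ∈ range (3 ^ j), D (B : ℤ)) * ∑ z ∈ range (3 ^ (M - j)), h (z : ℤ) := by
      have e3 := sum_split j (M - j) (fun x => D x / fn K j x * ((L K (qn K))^[j] h) x)
      rw [Nat.add_sub_cancel' hM] at e3
      rw [e3, Finset.sum_mul]
      refine Finset.sum_congr rfl fun B _ => ?_
      have e4 : ∑ W ∈ range (3 ^ (M - j)), D ((B : ℤ) + 3 ^ j * (W : ℤ)) /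
          fn K j ((B : ℤ) + 3 ^ j * (W : ℤ)) *
          ((L K (qn K))^[j] h) ((B : ℤ) + 3 ^ j * (W : ℤ)) =
          D (B : ℤ) / fn K j (B : ℤ) *
            ∑ W ∈ range (3 ^ (M - j)), ((L K (qn K))^[j] h) ((B : ℤ) + 3 ^ j * (W : ℤ)) := by
        rw [Finset.mul_sum]
        exact Finset.sum_congr rfl fun W _ => by rw [hφ]
      rw [e4, avc K (qn K) j (M - j) hhper (B : ℤ)]
      have h5 : ((L K (qn K))^[j] (fun _ => (1 : ℝ))) (B : ℤ) = fn K j (B : ℤ) := rfl
      rw [h5, ← mul_assoc, div_mul_cancel₀ _ (fn_pos hK j (B : ℤ)).ne']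
    unfold psi avg
    rw [e2]
    have h3 : (3 : ℝ) ^ M = 3 ^ j * 3 ^ (M - j) := by
      rw [← pow_add, Nat.add_sub_cancel' hM]
    rw [h3]
    field_simp
    rfl
  rw [← e1, ← avg_up hM hD, ← avg_smul, ← avg_add]
  refine avg_mono fun x => ?_
  rcases eq_or_ne (D x) 0 with hx | hx
  · simp [hx]
  · have h9 := h8 x hx
    have hf : 0 < fn K j x := fn_pos hK j x
    have h10 := Rec_jensen hK hM x
    have h11 : -Real.log 8 ≤ Real.log (fn K j x) := by
      have := Real.log_le_log (by norm_num) h9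
      rw [one_div, Real.log_inv] at this
      exact this
    have h12 : -Real.log 8 + ((L K (qn K))^[j] h) x / fn K j x ≤ Real.log (fn K M x) := by
      linarith
    have h13 := mul_le_mul_of_nonneg_left h12 (h0 x)
    calc -Real.log 8 * D x + D x / fn K j x * ((L K (qn K))^[j] h) x =
        D x * (-Real.log 8 + ((L K (qn K))^[j] h) x / fn K j x) := by ring
      _ ≤ _ := h13

theorem Rec_alive_low {K : ℕ} (hK : 5 ≤ K) {j : ℕ} (hj : 1 ≤ j) {x : ℤ}
    (h : alive K (j - 1) x) : 1 / 8 ≤ fn K j x := by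
  obtain ⟨i, rfl⟩ := Nat.exists_eq_add_of_le hj
  rw [Nat.add_sub_cancel_left] at h
  have h1 := fn_quarter hK i x
  rw [add_comm i 1] at h1
  have h2 : 1 / 2 ≤ fn K i x := by
    rcases Nat.eq_zero_or_pos i with rfl | hi
    · rw [fn_zero]; norm_num
    · exact h i hi le_rfl
  linarith

theorem Rec_alive_anti {K j : ℕ} {x : ℤ} (h : alive K j x) : alive K (j - 1) x :=
  fun i h1 h2 => h i h1 (h2.trans (Nat.sub_le _ _))

theorem psi_crude {K : ℕ} (hK : 5 ≤ K) (M : ℕ) : -(M : ℝ) * Real.log 4 ≤ psi K M := by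
  have h : avg M (fun _ => -(M : ℝ) * Real.log 4) ≤ avg M (fun x => Real.log (fn K M x)) := by
    refine avg_mono fun x => ?_
    have h1 := fn_low hK M x
    have h2 := Real.log_le_log (by positivity) h1
    rw [Real.log_pow, one_div, Real.log_inv] at h2
    linarith
  rw [avg_const] at h
  exact h

theorem psi_rec {K n M : ℕ} (hK : 5 ≤ K) (hn : 1 ≤ n) (hM : n ≤ M) :
    -Real.log 8 + ∑ j ∈ Icc 1 (n - 1), (al K (j - 1) - al K j) * psi K (M - j) +
      al K (n - 1) * psi K (M - n) ≤ psi K M := by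
  classical
  set I : ℕ → ℤ → ℝ := fun i x => if alive K i x then (1 : ℝ) else 0 with hI
  have hIper : ∀ i, Per i (I i) := fun i => alive_per K i
  have hI0 : ∀ i x, 0 ≤ I i x := fun i x => by
    simp only [hI]
    split_ifs <;> norm_num
  have hIanti : ∀ i x, I i x ≤ I (i - 1) x := fun i x => by
    simp only [hI]
    by_cases h1 : alive K i x
    · rw [if_pos h1, if_pos (Rec_alive_anti h1)]
    · rw [if_neg h1]
      split_ifs <;> norm_num
  have hal : ∀ i, avg i (I i) = al K i := fun i => rfl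
  have hzero : ∀ x, I 0 x = 1 := fun x => by
    simp only [hI]
    rw [if_pos]
    intro i h1 h2
    omega
  -- the pieces
  have piece : ∀ j ∈ Icc 1 (n - 1), -Real.log 8 * (al K (j - 1) - al K j) +
      (al K (j - 1) - al K j) * psi K (M - j) ≤
        avg M (fun x => (I (j - 1) x - I j x) * Real.log (fn K M x)) := by
    intro j hj
    rw [mem_Icc] at hj
    have hDper : Per j (fun x => I (j - 1) x - I j x) := by
      have h1 : Per j (I (j - 1)) := per_mono (Nat.sub_le _ _) (hIper _)
      intro x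
      change I (j - 1) (x + 3 ^ j) - I j (x + 3 ^ j) = _
      rw [h1 x, hIper j x]
    have e : avg j (fun x => I (j - 1) x - I j x) = al K (j - 1) - al K j := by
      have h1 : avg j (fun x => I (j - 1) x + (-1) * I j x) = al K (j - 1) - al K j := by
        rw [avg_add, avg_smul, avg_up (Nat.sub_le j 1) (hIper _), hal, hal]
        ring
      rw [← h1]
      congr 1
      funext x
      ring
    have h := Rec_piece hK (by omega : j ≤ M) hDper (fun x => sub_nonneg.2 (hIanti j x))
      (fun x hx => Rec_alive_low hK hj.1 (by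
        by_contra h1
        apply hx
        have h2 : ¬ alive K j x := fun h3 => h1 (Rec_alive_anti h3)
        simp only [hI]
        rw [if_neg h1, if_neg h2, sub_zero]))
    rw [e] at h
    exact h
  have last : -Real.log 8 * al K (n - 1) + al K (n - 1) * psi K (M - n) ≤
      avg M (fun x => I (n - 1) x * Real.log (fn K M x)) := by
    have h := Rec_piece hK hM (per_mono (Nat.sub_le n 1) (hIper (n - 1)))
      (fun x => hI0 (n - 1) x) (fun x hx => Rec_alive_low hK hn (by
        by_contra h1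
        apply hx
        simp only [hI]
        rw [if_neg h1]))
    rw [avg_up (Nat.sub_le n 1) (hIper _), hal] at h
    exact h
  have total : psi K M = ∑ j ∈ Icc 1 (n - 1),
      avg M (fun x => (I (j - 1) x - I j x) * Real.log (fn K M x)) +
        avg M (fun x => I (n - 1) x * Real.log (fn K M x)) := by
    rw [← Rec_avg_sum, ← avg_add]
    unfold psi
    congr 1
    funext x
    rw [← Finset.sum_mul, ← add_mul, Rec_Icc]
    have h1 : ∑ i ∈ range (n - 1), (I (i + 1 - 1) x - I (i + 1) x) + I (n - 1) x = 1 := by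
      simp only [Nat.add_sub_cancel]
      rw [Finset.sum_range_sub' (fun i => I i x), hzero]
      ring
    rw [h1, one_mul]
  have hsum : ∑ j ∈ Icc 1 (n - 1), (al K (j - 1) - al K j) + al K (n - 1) = 1 := by
    rw [Rec_Icc]
    simp only [Nat.add_sub_cancel]
    rw [Finset.sum_range_sub' (fun i => al K i), al_zero_eq]
    ring
  rw [total]
  have h1 := Finset.sum_le_sum piece
  rw [Finset.sum_add_distrib, ← Finset.mul_sum] at h1
  have h2 : -Real.log 8 = -Real.log 8 * (∑ j ∈ Icc 1 (n - 1), (al K (j - 1) - al K j)) +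
      -Real.log 8 * al K (n - 1) := by
    rw [← mul_add, hsum, mul_one]
  linarith

end Pool.Agent.helper14.EX1
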