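import Pool.Agent.helper14.EX1.StarB
import Pool.Agent.helper14.EX1.Mix
import Pool.Agent.helper14.EX1.Cyc

/-!
# EX1-Star: the main inequality of the rigidity theorem

`Q = q + m n`.  For each `A < 3 ^ q` use `mix` with `s = range (3 ^ Q)`, `t = wds n`, `Z = range (3 ^ R)`,
`π B w = pw A B w`, `M B = E (ind Q B)`, `u B w z = uu B w z` (`uu` vanishes when `M B = 0`: `uu_sum`, `uu_nn`, `uu_per`); by `mass0`, `mass1` the
first term is the contribution of `A` to `Psi (fun φ => E (K^[n] φ)) q R`.  Sum over `A`: the right side becomes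
`∑_B ∑_w path B w (∑_z uu ^ 2) / M B = ∑_B (∑_W lam ^ 2) / M B = Psi E Q R` (`pw_sum`, `uu_sq`, `path_sum`).  Gain: for the pairs
with incongruent digits `∑_z (uu w - uu w') ^ 2 ≥ 9 ^ (-R) ∑_W (lam W - avg) ^ 2 = 9 ^ (-R) M B * Dev E Q R B` (`cyc`, `uu_spec`,
`avg R (lam E Q R B) = M B / 3 ^ R`); for the other pairs `≥ 0`; so the gain of `B` is at least
`∑_A (1/2) (∑_{pairs incongruent} pw pw') 9 ^ (-R) M B Dev / ((∑_w pw) M B) = (1/2) 9 ^ (-R) vv q n B * Dev E Q R B`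
(`vv_pairs`; if `M B = 0` then `Dev = 0`).
-/

namespace Pool.Agent.helper14.EX1

open Finset

variable {ι : Type} [Fintype ι] {S : Sys ι} {E : (ℤ → ℝ) → ℝ}

theorem Star_avg (hE : IsLaw E) (Q R : ℕ) (B : ℤ) :
    avg R (lam E Q R B) = E (ind Q B) / 3 ^ R := by
  unfold avg lam
  rw [← law_ind_split hE Q R B]

theorem Star_MDev (hE : IsLaw E) (Q R : ℕ) (B : ℤ) :
    E (ind Q B) * Dev E Q R B ≤
      ∑ W ∈ range (3 ^ R), (lam E Q R B (W : ℤ) - avg R (lam E Q R B)) ^ 2 := by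
  rw [Star_avg hE]
  unfold Dev lam
  rcases eq_or_ne (E (ind Q B)) 0 with h | h
  · rw [h, zero_mul]
    exact Finset.sum_nonneg fun _ _ => sq_nonneg _
  · rw [Finset.mul_sum]
    apply le_of_eq
    refine Finset.sum_congr rfl fun W _ => ?_
    field_simp

theorem Star_pair (hS : S.Ok) (hE : IsLaw E) (q n R A : ℕ) (B : ℤ) (w w' : List ι) :
    (if (3 : ℤ) ∣ S.nd B w / 3 ^ q - S.nd B w' / 3 ^ q then 0 else pw S q A B w * pw S q A B w') *
        ((1 / 9) ^ R * (E (ind (q + S.m * n) B) * Dev E (q + S.m * n) R B)) ≤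
      pw S q A B w * pw S q A B w' *
        ∑ z ∈ range (3 ^ R), (uu S E q n R B w (z : ℤ) - uu S E q n R B w' (z : ℤ)) ^ 2 := by
  have hp : 0 ≤ pw S q A B w * pw S q A B w' := mul_nonneg (pw_nn hS _ _ _ _) (pw_nn hS _ _ _ _)
  split_ifs with h
  · rw [zero_mul]
    exact mul_nonneg hp (Finset.sum_nonneg fun _ _ => sq_nonneg _)
  · refine mul_le_mul_of_nonneg_left ?_ hp
    have h1 := Star_MDev hE (q + S.m * n) R B
    have h2 := cyc R (lam_per (E := E) (q + S.m * n) R B) (uu_per (S := S) (E := E) q n R B w)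
      (uu_per (S := S) (E := E) q n R B w') (uu_spec q n R B w) (uu_spec q n R B w') h
    have h3 : E (ind (q + S.m * n) B) * Dev E (q + S.m * n) R B ≤
        9 ^ R * ∑ z ∈ range (3 ^ R), (uu S E q n R B w (z : ℤ) - uu S E q n R B w' (z : ℤ)) ^ 2 :=
      h1.trans h2
    calc (1 / 9 : ℝ) ^ R * (E (ind (q + S.m * n) B) * Dev E (q + S.m * n) R B)
        ≤ (1 / 9) ^ R * (9 ^ R *
          ∑ z ∈ range (3 ^ R), (uu S E q n R B w (z : ℤ) - uu S E q n R B w' (z : ℤ)) ^ 2) :=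
          mul_le_mul_of_nonneg_left h3 (by positivity)
      _ = ∑ z ∈ range (3 ^ R), (uu S E q n R B w (z : ℤ) - uu S E q n R B w' (z : ℤ)) ^ 2 := by
          rw [← mul_assoc, ← mul_pow]
          norm_num

theorem Star_gain (hS : S.Ok) (hE : IsLaw E) (q n R A : ℕ) (B : ℤ) :
    1 / 2 * (1 / 9) ^ R * ((∑ w ∈ S.wds n, ∑ w' ∈ S.wds n,
        if (3 : ℤ) ∣ S.nd B w / 3 ^ q - S.nd B w' / 3 ^ q then 0 else pw S q A B w * pw S q A B w') /
      (∑ w ∈ S.wds n, pw S q A B w) * Dev E (q + S.m * n) R B) ≤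
    1 / 2 * (∑ w ∈ S.wds n, ∑ w' ∈ S.wds n, pw S q A B w * pw S q A B w' *
        ∑ z ∈ range (3 ^ R), (uu S E q n R B w (z : ℤ) - uu S E q n R B w' (z : ℤ)) ^ 2) /
        ((∑ w ∈ S.wds n, pw S q A B w) * E (ind (q + S.m * n) B)) := by
  set M := E (ind (q + S.m * n) B) with hM
  set D := Dev E (q + S.m * n) R B with hD
  set a := ∑ w ∈ S.wds n, pw S q A B w with ha
  have ha0 : 0 ≤ a := Finset.sum_nonneg fun w _ => pw_nn hS _ _ _ _
  have hM0 : 0 ≤ M := law_ind_nn hE _ _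
  rcases eq_or_ne M 0 with h | h
  · have hD0 : D = 0 := by
      rw [hD]
      unfold Dev
      refine Finset.sum_eq_zero fun W _ => ?_
      rw [← hM, h, div_zero]
    rw [hD0, h]
    simp
  rcases eq_or_ne a 0 with h' | h'
  · rw [h']
    simp
  have hMp : 0 < M := lt_of_le_of_ne hM0 (Ne.symm h)
  have hap : 0 < a := lt_of_le_of_ne ha0 (Ne.symm h')
  rw [le_div_iff₀ (mul_pos hap hMp)]
  have key : (∑ w ∈ S.wds n, ∑ w' ∈ S.wds n,
        if (3 : ℤ) ∣ S.nd B w / 3 ^ q - S.nd B w' / 3 ^ q then 0 else pw S q A B w * pw S q A B w') *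
        ((1 / 9) ^ R * (M * D)) ≤
      ∑ w ∈ S.wds n, ∑ w' ∈ S.wds n, pw S q A B w * pw S q A B w' *
        ∑ z ∈ range (3 ^ R), (uu S E q n R B w (z : ℤ) - uu S E q n R B w' (z : ℤ)) ^ 2 := by
    rw [Finset.sum_mul]
    refine Finset.sum_le_sum fun w _ => ?_
    rw [Finset.sum_mul]
    refine Finset.sum_le_sum fun w' _ => ?_
    exact Star_pair hS hE q n R A B w w'
  set P := ∑ w ∈ S.wds n, ∑ w' ∈ S.wds n,
        if (3 : ℤ) ∣ S.nd B w / 3 ^ q - S.nd B w' / 3 ^ q then 0 else pw S q A B w * pw S q A B w'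
    with hP
  have e : 1 / 2 * (1 / 9) ^ R * (P / a * D) * (a * M) = 1 / 2 * (P * ((1 / 9) ^ R * (M * D))) := by
    field_simp
  rw [e]
  linarith

theorem star (hS : S.Ok) (hE : IsLaw E) (q n R : ℕ) :
    Psi (fun φ => E (S.K^[n] φ)) q R +
      1 / 2 * (1 / 9) ^ R *
        ∑ B ∈ range (3 ^ (q + S.m * n)), S.vv q n (B : ℤ) * Dev E (q + S.m * n) R (B : ℤ) ≤
      Psi E (q + S.m * n) R := by
  have hzero : ∀ (B : ℤ) (w : List ι) (z : ℕ), z ∈ range (3 ^ R) → E (ind (q + S.m * n) B) = 0 →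
      uu S E q n R B w (z : ℤ) = 0 := by
    intro B w z hz h
    have h1 := uu_sum (S := S) hE q n R B w
    rw [h] at h1
    exact (Finset.sum_eq_zero_iff_of_nonneg (s := range (3 ^ R))
      (f := fun z : ℕ => uu S E q n R B w (z : ℤ)) (fun z _ => uu_nn hE q n R B w (z : ℤ))).1 h1 z hz
  have hmix : ∀ A ∈ range (3 ^ q),
      (∑ z ∈ range (3 ^ R), E (S.K^[n] (ind (q + R) ((A : ℤ) + 3 ^ q * (z : ℤ)))) ^ 2 /
        E (S.K^[n] (ind q (A : ℤ)))) +
      ∑ B ∈ range (3 ^ (q + S.m * n)), 1 / 2 * (1 / 9) ^ R * ((∑ w ∈ S.wds n, ∑ w' ∈ S.wds n,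
        if (3 : ℤ) ∣ S.nd (B : ℤ) w / 3 ^ q - S.nd (B : ℤ) w' / 3 ^ q then 0
          else pw S q A (B : ℤ) w * pw S q A (B : ℤ) w') /
        (∑ w ∈ S.wds n, pw S q A (B : ℤ) w) * Dev E (q + S.m * n) R (B : ℤ)) ≤
      ∑ B ∈ range (3 ^ (q + S.m * n)), ∑ w ∈ S.wds n, pw S q A (B : ℤ) w *
        ((∑ W ∈ range (3 ^ R), lam E (q + S.m * n) R (B : ℤ) (W : ℤ) ^ 2) /
          E (ind (q + S.m * n) (B : ℤ))) := by
    intro A hA
    have hA' : A < 3 ^ q := mem_range.1 hA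
    have hm := mix (range (3 ^ (q + S.m * n))) (S.wds n) (range (3 ^ R))
      (π := fun (B : ℕ) w => pw S q A (B : ℤ) w) (fun B _ w _ => pw_nn hS _ _ _ _)
      (M := fun (B : ℕ) => E (ind (q + S.m * n) (B : ℤ))) (fun B _ => law_ind_nn hE _ _)
      (u := fun (B : ℕ) w (z : ℕ) => uu S E q n R (B : ℤ) w (z : ℤ))
      (fun B _ w _ z hz h => hzero (B : ℤ) w z hz h)
    have e1 : (∑ z ∈ range (3 ^ R), E (S.K^[n] (ind (q + R) ((A : ℤ) + 3 ^ q * (z : ℤ)))) ^ 2 /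
        E (S.K^[n] (ind q (A : ℤ)))) =
        (∑ z ∈ range (3 ^ R), (∑ B ∈ range (3 ^ (q + S.m * n)), ∑ w ∈ S.wds n,
          pw S q A (B : ℤ) w * uu S E q n R (B : ℤ) w (z : ℤ)) ^ 2) /
          (∑ B ∈ range (3 ^ (q + S.m * n)), ∑ w ∈ S.wds n,
            pw S q A (B : ℤ) w * E (ind (q + S.m * n) (B : ℤ))) := by
      rw [← Finset.sum_div, mass0 hS hE q n hA']
      congr 1
      refine Finset.sum_congr rfl fun z _ => ?_
      rw [mass1 hS hE q n R hA' (z : ℤ)]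
    have e2 : (∑ B ∈ range (3 ^ (q + S.m * n)), ∑ w ∈ S.wds n, pw S q A (B : ℤ) w *
        ((∑ z ∈ range (3 ^ R), uu S E q n R (B : ℤ) w (z : ℤ) ^ 2) /
          E (ind (q + S.m * n) (B : ℤ)))) =
        ∑ B ∈ range (3 ^ (q + S.m * n)), ∑ w ∈ S.wds n, pw S q A (B : ℤ) w *
        ((∑ W ∈ range (3 ^ R), lam E (q + S.m * n) R (B : ℤ) (W : ℤ) ^ 2) /
          E (ind (q + S.m * n) (B : ℤ))) := by
      refine Finset.sum_congr rfl fun B _ => Finset.sum_congr rfl fun w _ => ?_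
      rw [uu_sq]
    rw [e1, ← e2]
    refine le_trans ?_ hm
    refine add_le_add le_rfl ?_
    refine Finset.sum_le_sum fun B _ => ?_
    exact Star_gain hS hE q n R A (B : ℤ)
  have hsum := Finset.sum_le_sum hmix
  rw [Finset.sum_add_distrib] at hsum
  have eR : (∑ A ∈ range (3 ^ q), ∑ B ∈ range (3 ^ (q + S.m * n)), ∑ w ∈ S.wds n,
      pw S q A (B : ℤ) w *
        ((∑ W ∈ range (3 ^ R), lam E (q + S.m * n) R (B : ℤ) (W : ℤ) ^ 2) /
          E (ind (q + S.m * n) (B : ℤ)))) = Psi E (q + S.m * n) R := by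
    rw [Finset.sum_comm]
    unfold Psi
    refine Finset.sum_congr rfl fun B _ => ?_
    rw [Finset.sum_comm]
    have : ∀ w ∈ S.wds n, (∑ A ∈ range (3 ^ q), pw S q A (B : ℤ) w *
        ((∑ W ∈ range (3 ^ R), lam E (q + S.m * n) R (B : ℤ) (W : ℤ) ^ 2) /
          E (ind (q + S.m * n) (B : ℤ)))) = S.path (B : ℤ) w *
        ((∑ W ∈ range (3 ^ R), lam E (q + S.m * n) R (B : ℤ) (W : ℤ) ^ 2) /
          E (ind (q + S.m * n) (B : ℤ))) := by
      intro w _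
      rw [← Finset.sum_mul, pw_sum]
    rw [Finset.sum_congr rfl this, ← Finset.sum_mul, Sys.path_sum hS, one_mul, Finset.sum_div]
    rfl
  rw [eR] at hsum
  refine le_trans (add_le_add (le_of_eq rfl) (le_of_eq ?_)) hsum
  rw [Finset.sum_comm, Finset.mul_sum]
  refine Finset.sum_congr rfl fun B _ => ?_
  rw [vv_pairs hS, Finset.sum_mul, Finset.mul_sum]

end Pool.Agent.helper14.EX1
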