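import Pool.Agent.helper14.EX1.Ker

/-!
# EX1-StarA: the masses after `n` steps

Notation: `Q = q + m n`, `B` a residue modulo `3 ^ Q`, `w` a word of length `n`, `A_w = nd B w % 3 ^ q`,
`e_w = nd B w / 3 ^ q`.  `X = B + 3 ^ Q W`: `path X w = path B w` (`path_shift`), `nd X w = nd B w + 3 ^ q (4 ^ ee w W) =
A_w + 3 ^ q (e_w + 4 ^ ee w W)` (`nd_shift`).  So for `0 ≤ A < 3 ^ q` and all `z`:
`ind (q + R) (A + 3 ^ q z) (nd X w) = 1` iff `A_w = A` and `3 ^ R ∣ e_w + 4 ^ ee w W - z`, iff `A_w = A` and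
`W ≡ inv4 (ee w) (z - e_w) mod 3 ^ R`.  `mass1`: `K^[n] (ind (q + R) (A + 3 ^ q z)) X = ∑_w path X w * ind .. (nd X w)`
(`iter_eq`) is periodic modulo `3 ^ (Q + R)` (`iter_per`); `law_eq`, `sum_split Q R`, exchange the sums; for
fixed `B`, `w` with `A_w = A` exactly one `W < 3 ^ R` contributes and gives `uu`.
-/

namespace Pool.Agent.helper14.EX1

open Finset

variable {ι : Type} [Fintype ι] {S : Sys ι} {E : (ℤ → ℝ) → ℝ}

/-- The mass of the class `B` modulo `3 ^ Q` with the window `W`. -/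
noncomputable def lam (E : (ℤ → ℝ) → ℝ) (Q R : ℕ) (B W : ℤ) : ℝ := E (ind (Q + R) (B + 3 ^ Q * W))

/-- The inverse of `4 ^ k` modulo `3 ^ R` (`4 ^ (3 ^ R) ≡ 1`). -/
def inv4 (R k : ℕ) : ℤ := 4 ^ (k * (3 ^ R - 1))

/-- The image of the window of the class `B` under the word `w`. -/
noncomputable def uu (S : Sys ι) (E : (ℤ → ℝ) → ℝ) (q n R : ℕ) (B : ℤ) (w : List ι) (z : ℤ) : ℝ :=
  lam E (q + S.m * n) R B (inv4 R (S.ee w) * (z - S.nd B w / 3 ^ q))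

/-- The weight of the word `w` from `B` if it leads to the class `A` modulo `3 ^ q`. -/
noncomputable def pw (S : Sys ι) (q : ℕ) (A : ℕ) (B : ℤ) (w : List ι) : ℝ :=
  if S.nd B w % 3 ^ q = (A : ℤ) then S.path B w else 0

theorem StarA_four (R : ℕ) : (3 : ℤ) ^ R ∣ 4 ^ 3 ^ R - 1 := by
  induction R with
  | zero => simp
  | succ R ih =>
    have h1 : (3 : ℤ) ∣ 4 ^ 3 ^ R - 1 := by
      have : (4 : ℤ) - 1 ∣ 4 ^ 3 ^ R - 1 := by
        simpa using sub_dvd_pow_sub_pow (4 : ℤ) 1 (3 ^ R)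
      have h43 : (4 : ℤ) - 1 = 3 := by norm_num
      rwa [h43] at this
    obtain ⟨t, ht⟩ := h1
    have e : (4 : ℤ) ^ 3 ^ (R + 1) - 1 =
        (4 ^ 3 ^ R - 1) * (((4 : ℤ) ^ 3 ^ R) ^ 2 + 4 ^ 3 ^ R + 1) := by
      rw [pow_succ, pow_mul]
      ring
    rw [e, pow_succ]
    refine mul_dvd_mul ih ?_
    have e2 : (4 : ℤ) ^ 3 ^ R = 1 + 3 * t := by linarith
    rw [e2]
    exact ⟨1 + 3 * t + 3 * t ^ 2, by ring⟩

theorem inv4_spec (R k : ℕ) : (3 : ℤ) ^ R ∣ 4 ^ k * inv4 R k - 1 := by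
  unfold inv4
  have h3 : 1 ≤ 3 ^ R := Nat.one_le_pow _ _ (by norm_num)
  have e : k + k * (3 ^ R - 1) = 3 ^ R * k := by
    obtain ⟨t, ht⟩ := Nat.exists_eq_add_of_le h3
    rw [ht, Nat.add_sub_cancel_left]
    ring
  rw [← pow_add, e, pow_mul]
  have h := sub_dvd_pow_sub_pow ((4 : ℤ) ^ 3 ^ R) 1 k
  rw [one_pow] at h
  exact (StarA_four R).trans h

theorem lam_per (Q R : ℕ) (B : ℤ) : Per R (lam E Q R B) := by
  intro W
  unfold lam
  congr 1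
  have e : B + 3 ^ Q * (W + 3 ^ R) = (B + 3 ^ Q * W) + 3 ^ (Q + R) * 1 := by ring
  rw [e, ind_add]

theorem uu_per (q n R : ℕ) (B : ℤ) (w : List ι) : Per R (uu S E q n R B w) := by
  intro z
  unfold uu
  have e : inv4 R (S.ee w) * (z + 3 ^ R - S.nd B w / 3 ^ q) =
      inv4 R (S.ee w) * (z - S.nd B w / 3 ^ q) + 3 ^ R * inv4 R (S.ee w) := by ring
  rw [e, per_mul (lam_per _ _ _)]

theorem uu_spec (q n R : ℕ) (B : ℤ) (w : List ι) (W : ℤ) :
    uu S E q n R B w (S.nd B w / 3 ^ q + 4 ^ S.ee w * W) = lam E (q + S.m * n) R B W := by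
  unfold uu
  apply per_dvd (lam_per _ _ _)
  have e : inv4 R (S.ee w) * (S.nd B w / 3 ^ q + 4 ^ S.ee w * W - S.nd B w / 3 ^ q) - W =
      (4 ^ S.ee w * inv4 R (S.ee w) - 1) * W := by ring
  rw [e]
  exact (inv4_spec R (S.ee w)).mul_right W

theorem StarA_nd (R k : ℕ) : ¬ (3 : ℤ) ∣ inv4 R k := by
  unfold inv4
  intro h
  have h2 := Int.prime_three.dvd_of_dvd_pow h
  omega

theorem uu_sum (hE : IsLaw E) (q n R : ℕ) (B : ℤ) (w : List ι) :
    ∑ z ∈ range (3 ^ R), uu S E q n R B w (z : ℤ) = E (ind (q + S.m * n) B) := by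
  have h := sum_affine (lam_per (E := E) (q + S.m * n) R B) (StarA_nd R (S.ee w))
    (-(inv4 R (S.ee w) * (S.nd B w / 3 ^ q)))
  rw [law_ind_split hE (q + S.m * n) R B]
  refine Eq.trans ?_ h
  refine Finset.sum_congr rfl fun z _ => ?_
  unfold uu
  congr 1
  ring

theorem uu_sq (q n R : ℕ) (B : ℤ) (w : List ι) :
    ∑ z ∈ range (3 ^ R), uu S E q n R B w (z : ℤ) ^ 2 =
      ∑ W ∈ range (3 ^ R), lam E (q + S.m * n) R B (W : ℤ) ^ 2 := by
  have hp : Per R (fun W => lam E (q + S.m * n) R B W ^ 2) :=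
    per_comp (lam_per (E := E) (q + S.m * n) R B) (fun t => t ^ 2)
  have h := sum_affine hp (StarA_nd R (S.ee w)) (-(inv4 R (S.ee w) * (S.nd B w / 3 ^ q)))
  refine Eq.trans ?_ h
  refine Finset.sum_congr rfl fun z _ => ?_
  unfold uu
  congr 2
  ring

theorem uu_nn (hE : IsLaw E) (q n R : ℕ) (B : ℤ) (w : List ι) (z : ℤ) : 0 ≤ uu S E q n R B w z :=
  law_ind_nn hE _ _

theorem StarA_iff0 (q A : ℕ) (hA : A < 3 ^ q) (x : ℤ) :
    (3 : ℤ) ^ q ∣ x - (A : ℤ) ↔ x % 3 ^ q = (A : ℤ) := by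
  have hA' : (A : ℤ) < 3 ^ q := by exact_mod_cast hA
  have h1 : (A : ℤ) % 3 ^ q = A := Int.emod_eq_of_lt (by positivity) hA'
  constructor
  · intro h
    have h3 : (A : ℤ) ≡ x [ZMOD 3 ^ q] := (Int.modEq_iff_dvd).2 h
    unfold Int.ModEq at h3
    rw [← h3, h1]
  · intro h
    have h3 : (A : ℤ) ≡ x [ZMOD 3 ^ q] := by
      unfold Int.ModEq
      rw [h, h1]
    exact (Int.modEq_iff_dvd).1 h3

theorem mass0 (hS : S.Ok) (hE : IsLaw E) (q n : ℕ) {A : ℕ} (hA : A < 3 ^ q) :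
    E (S.K^[n] (ind q (A : ℤ))) = ∑ B ∈ range (3 ^ (q + S.m * n)), ∑ w ∈ S.wds n,
      pw S q A (B : ℤ) w * E (ind (q + S.m * n) (B : ℤ)) := by
  rw [law_eq hE (Sys.iter_per hS n (ind_per q (A : ℤ)))]
  refine Finset.sum_congr rfl fun B _ => ?_
  rw [Sys.iter_eq, Finset.sum_mul]
  refine Finset.sum_congr rfl fun w _ => ?_
  congr 1
  unfold pw ind
  simp only [StarA_iff0 q A hA]
  split_ifs <;> simp

theorem StarA_iff1 (q R A : ℕ) (hA : A < 3 ^ q) (z x t : ℤ) :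
    (3 : ℤ) ^ (q + R) ∣ x + 3 ^ q * t - ((A : ℤ) + 3 ^ q * z) ↔
      x % 3 ^ q = (A : ℤ) ∧ (3 : ℤ) ^ R ∣ x / 3 ^ q + t - z := by
  have h3 : (3 : ℤ) ^ q ≠ 0 := by positivity
  have h0 : 3 ^ q * (x / 3 ^ q) + x % 3 ^ q = x := Int.mul_ediv_add_emod x (3 ^ q)
  constructor
  · intro h
    have h1 : x % 3 ^ q = (A : ℤ) := by
      rw [← StarA_iff0 q A hA]
      have h2 : (3 : ℤ) ^ q ∣ x + 3 ^ q * t - ((A : ℤ) + 3 ^ q * z) :=
        dvd_trans (pow_dvd_pow 3 (Nat.le_add_right q R)) h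
      have h4 : x - (A : ℤ) = (x + 3 ^ q * t - ((A : ℤ) + 3 ^ q * z)) + 3 ^ q * (z - t) := by ring
      rw [h4]
      exact dvd_add h2 (dvd_mul_right _ _)
    refine ⟨h1, ?_⟩
    have h5 : x + 3 ^ q * t - ((A : ℤ) + 3 ^ q * z) = 3 ^ q * (x / 3 ^ q + t - z) := by
      rw [h1] at h0
      linear_combination -h0
    rw [h5, pow_add] at h
    exact (mul_dvd_mul_iff_left h3).1 h
  · rintro ⟨h1, h2⟩
    have h5 : x + 3 ^ q * t - ((A : ℤ) + 3 ^ q * z) = 3 ^ q * (x / 3 ^ q + t - z) := by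
      rw [h1] at h0
      linear_combination -h0
    rw [h5, pow_add]
    exact mul_dvd_mul_left _ h2

theorem StarA_iff2 (R k : ℕ) (e z W : ℤ) :
    (3 : ℤ) ^ R ∣ e + 4 ^ k * W - z ↔ (3 : ℤ) ^ R ∣ inv4 R k * (z - e) - W := by
  have hcop : IsCoprime ((3 : ℤ) ^ R) (4 ^ k) := by
    apply IsCoprime.pow
    norm_num
  have h1 : (4 : ℤ) ^ k * (inv4 R k * (z - e) - W) =
      (4 ^ k * inv4 R k - 1) * (z - e) + -(e + 4 ^ k * W - z) := by ring
  constructor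
  · intro h
    apply hcop.dvd_of_dvd_mul_left
    rw [h1]
    exact dvd_add ((inv4_spec R k).mul_right _) ((dvd_neg).2 h)
  · intro h
    have h2 := h.mul_left ((4 : ℤ) ^ k)
    rw [h1] at h2
    have h3 := (dvd_add_right ((inv4_spec R k).mul_right (z - e))).1 h2
    exact (dvd_neg).1 h3

theorem mass1 (hS : S.Ok) (hE : IsLaw E) (q n R : ℕ) {A : ℕ} (hA : A < 3 ^ q) (z : ℤ) :
    E (S.K^[n] (ind (q + R) ((A : ℤ) + 3 ^ q * z))) =
      ∑ B ∈ range (3 ^ (q + S.m * n)), ∑ w ∈ S.wds n,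
        pw S q A (B : ℤ) w * uu S E q n R (B : ℤ) w z := by
  have hper : Per ((q + S.m * n) + R) (S.K^[n] (ind (q + R) ((A : ℤ) + 3 ^ q * z))) := by
    have h := Sys.iter_per hS n (ind_per (q + R) ((A : ℤ) + 3 ^ q * z))
    have e : q + R + S.m * n = (q + S.m * n) + R := by ring
    rwa [e] at h
  rw [law_eq hE hper, sum_split (q + S.m * n) R (fun x =>
    (S.K^[n] (ind (q + R) ((A : ℤ) + 3 ^ q * z))) x * E (ind (q + S.m * n + R) x))]
  refine Finset.sum_congr rfl fun B _ => ?_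
  have h1 : ∀ W ∈ range (3 ^ R), (S.K^[n] (ind (q + R) ((A : ℤ) + 3 ^ q * z)))
        ((B : ℤ) + 3 ^ (q + S.m * n) * (W : ℤ)) *
        E (ind (q + S.m * n + R) ((B : ℤ) + 3 ^ (q + S.m * n) * (W : ℤ))) =
      ∑ w ∈ S.wds n, pw S q A (B : ℤ) w *
        (lam E (q + S.m * n) R B (W : ℤ) *
          ind R (W : ℤ) (inv4 R (S.ee w) * (z - S.nd (B : ℤ) w / 3 ^ q))) := by
    intro W _
    rw [Sys.iter_eq, Finset.sum_mul]
    refine Finset.sum_congr rfl fun w hw => ?_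
    have hl : w.length = n := Sys.mem_wds.1 hw
    have e1 : S.path ((B : ℤ) + 3 ^ (q + S.m * n) * (W : ℤ)) w = S.path (B : ℤ) w := by
      rw [← hl]
      exact Sys.path_shift hS w q _ _
    have e2 : S.nd ((B : ℤ) + 3 ^ (q + S.m * n) * (W : ℤ)) w =
        S.nd (B : ℤ) w + 3 ^ q * (4 ^ S.ee w * (W : ℤ)) := by
      rw [← hl]
      exact Sys.nd_shift S w q _ _
    rw [e1, e2]
    have e3 : ind (q + R) ((A : ℤ) + 3 ^ q * z)
          (S.nd (B : ℤ) w + 3 ^ q * (4 ^ S.ee w * (W : ℤ))) =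
        (if S.nd (B : ℤ) w % 3 ^ q = (A : ℤ) then 1 else 0) *
          ind R (W : ℤ) (inv4 R (S.ee w) * (z - S.nd (B : ℤ) w / 3 ^ q)) := by
      unfold ind
      simp only [StarA_iff1 q R A hA, StarA_iff2]
      by_cases h1 : S.nd (B : ℤ) w % 3 ^ q = (A : ℤ) <;>
        by_cases h2 : (3 : ℤ) ^ R ∣ inv4 R (S.ee w) * (z - S.nd (B : ℤ) w / 3 ^ q) - (W : ℤ) <;>
        simp [h1, h2]
    rw [e3]
    unfold pw lam
    split_ifs
    · ring
    · ring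
  rw [Finset.sum_congr rfl h1, Finset.sum_comm]
  refine Finset.sum_congr rfl fun w _ => ?_
  rw [← Finset.mul_sum]
  congr 1
  unfold uu
  rw [per_decomp (lam_per (E := E) (q + S.m * n) R (B : ℤ))
    (inv4 R (S.ee w) * (z - S.nd (B : ℤ) w / 3 ^ q))]

end Pool.Agent.helper14.EX1
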