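import Pool.Agent.helper14.EX1.StarA

/-!
# EX1-StarB: the nondegeneracy as a sum over pairs of words

With `x = B` in `iter_eq`: `(K^[n] (ind q A)) B = ∑_w pw A B w =: P_A` and
`(K^[n] (ind (q+1) (A + 3 ^ q r))) B = ∑_w pw A B w [nd B w / 3 ^ q ≡ r mod 3] =: P_{A,r}` (`A < 3 ^ q`, `r < 3`),
`P_A = ∑_r P_{A,r}`, `∑_A P_A = 1`.  `vv q n B = 1 - ∑_A ∑_r P_{A,r} ^ 2 / P_A = ∑_A (P_A ^ 2 - ∑_r P_{A,r} ^ 2) / P_A`, and
`P_A ^ 2 - ∑_r P_{A,r} ^ 2` is the sum over the pairs of words whose digits `nd B w / 3 ^ q` are not congruent mod `3`.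
-/

namespace Pool.Agent.helper14.EX1

open Finset

variable {ι : Type} [Fintype ι] {S : Sys ι}

theorem StarB_iff0 (q A : ℕ) (hA : A < 3 ^ q) (x : ℤ) :
    (3 : ℤ) ^ q ∣ x - (A : ℤ) ↔ x % 3 ^ q = (A : ℤ) := by
  have hA' : (A : ℤ) < 3 ^ q := by exact_mod_cast hA
  have h1 : (A : ℤ) % 3 ^ q = A := Int.emod_eq_of_lt (by positivity) hA'
  constructor
  · intro h
    have h3 : (A : ℤ) ≡ x [ZMOD 3 ^ q] := (Int.modEq_iff_dvd).2 h
    unfold Int.ModEq at h3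
    rw [← h3, h1]
  · intro h
    have h3 : (A : ℤ) ≡ x [ZMOD 3 ^ q] := by
      unfold Int.ModEq
      rw [h, h1]
    exact (Int.modEq_iff_dvd).1 h3

theorem StarB_iff1 (q A : ℕ) (hA : A < 3 ^ q) (r x : ℤ) :
    (3 : ℤ) ^ (q + 1) ∣ x - ((A : ℤ) + 3 ^ q * r) ↔ x % 3 ^ q = (A : ℤ) ∧ (3 : ℤ) ∣ x / 3 ^ q - r := by
  have h3 : (3 : ℤ) ^ q ≠ 0 := by positivity
  have h0 : 3 ^ q * (x / 3 ^ q) + x % 3 ^ q = x := Int.mul_ediv_add_emod x (3 ^ q)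
  constructor
  · intro h
    have h1 : x % 3 ^ q = (A : ℤ) := by
      rw [← StarB_iff0 q A hA]
      have h2 : (3 : ℤ) ^ q ∣ x - ((A : ℤ) + 3 ^ q * r) := dvd_trans (pow_dvd_pow 3 (Nat.le_succ q)) h
      have h4 : x - (A : ℤ) = (x - ((A : ℤ) + 3 ^ q * r)) + 3 ^ q * r := by ring
      rw [h4]
      exact dvd_add h2 (dvd_mul_right _ _)
    refine ⟨h1, ?_⟩
    have h5 : x - ((A : ℤ) + 3 ^ q * r) = 3 ^ q * (x / 3 ^ q - r) := by
      rw [h1] at h0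
      linear_combination -h0
    rw [h5, pow_succ] at h
    exact (mul_dvd_mul_iff_left h3).1 h
  · rintro ⟨h1, h2⟩
    have h5 : x - ((A : ℤ) + 3 ^ q * r) = 3 ^ q * (x / 3 ^ q - r) := by
      rw [h1] at h0
      linear_combination -h0
    rw [h5, pow_succ]
    exact mul_dvd_mul_left _ h2

theorem StarB_three (e e' : ℤ) :
    ∑ r ∈ range (3 ^ 1), ((if (3 : ℤ) ∣ e - (r : ℤ) then (1 : ℝ) else 0) *
      (if (3 : ℤ) ∣ e' - (r : ℤ) then (1 : ℝ) else 0)) = if (3 : ℤ) ∣ e - e' then 1 else 0 := by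
  have h1 : e % 3 = 0 ∨ e % 3 = 1 ∨ e % 3 = 2 := by omega
  have h2 : e' % 3 = 0 ∨ e' % 3 = 1 ∨ e' % 3 = 2 := by omega
  rw [pow_one, sum_range_succ, sum_range_succ, sum_range_succ, sum_range_zero]
  simp only [Int.dvd_iff_emod_eq_zero, Nat.cast_zero, Nat.cast_one, Nat.cast_ofNat, sub_zero]
  have k0 : (e % 3 = 0) ∨ ¬ (e % 3 = 0) := em _
  rcases h1 with h1 | h1 | h1 <;> rcases h2 with h2 | h2 | h2
  all_goals
    have a1 : ((e - 1) % 3 = 0) = (e % 3 = 1) := by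
      apply propext; omega
    have a2 : ((e - 2) % 3 = 0) = (e % 3 = 2) := by
      apply propext; omega
    have b1 : ((e' - 1) % 3 = 0) = (e' % 3 = 1) := by
      apply propext; omega
    have b2 : ((e' - 2) % 3 = 0) = (e' % 3 = 2) := by
      apply propext; omega
    have c : ((e - e') % 3 = 0) = (e % 3 = e' % 3) := by
      apply propext; omega
    simp [a1, a2, b1, b2, c, h1, h2]

theorem pw_nn (hS : S.Ok) (q A : ℕ) (B : ℤ) (w : List ι) : 0 ≤ pw S q A B w := by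
  unfold pw
  split_ifs
  · exact Sys.path_nn hS B w
  · exact le_refl 0

/-- `nd B w % 3 ^ q` is exactly one `A < 3 ^ q`. -/
theorem pw_sum (q : ℕ) (B : ℤ) (w : List ι) : ∑ A ∈ range (3 ^ q), pw S q A B w = S.path B w := by
  unfold pw
  have h3 : (0 : ℤ) < 3 ^ q := by positivity
  have h1 : 0 ≤ S.nd B w % 3 ^ q := Int.emod_nonneg _ (ne_of_gt h3)
  have h2 : S.nd B w % 3 ^ q < 3 ^ q := Int.emod_lt_of_pos _ h3
  obtain ⟨a, ha⟩ := Int.eq_ofNat_of_zero_le h1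
  have ha' : a < 3 ^ q := by
    rw [ha] at h2
    exact_mod_cast h2
  rw [sum_eq_single_of_mem a (mem_range.2 ha')]
  · rw [if_pos ha]
  · intro b _ hb
    rw [if_neg]
    intro h
    rw [ha] at h
    exact hb (by exact_mod_cast h.symm)

theorem StarB_P (q n : ℕ) (A : ℕ) (hA : A < 3 ^ q) (B : ℤ) :
    (S.K^[n] (ind q (A : ℤ))) B = ∑ w ∈ S.wds n, pw S q A B w := by
  rw [Sys.iter_eq]
  apply sum_congr rfl
  intro w _
  unfold ind pw
  by_cases h : S.nd B w % 3 ^ q = (A : ℤ)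
  · rw [if_pos h, if_pos ((StarB_iff0 q A hA _).2 h), mul_one]
  · rw [if_neg h, if_neg (fun h' => h ((StarB_iff0 q A hA _).1 h')), mul_zero]

theorem StarB_Pr (q n : ℕ) (A : ℕ) (hA : A < 3 ^ q) (B r : ℤ) :
    (S.K^[n] (ind (q + 1) ((A : ℤ) + 3 ^ q * r))) B =
      ∑ w ∈ S.wds n, pw S q A B w * (if (3 : ℤ) ∣ S.nd B w / 3 ^ q - r then (1 : ℝ) else 0) := by
  rw [Sys.iter_eq]
  apply sum_congr rfl
  intro w _
  unfold ind pw
  by_cases h : S.nd B w % 3 ^ q = (A : ℤ)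
  · by_cases h' : (3 : ℤ) ∣ S.nd B w / 3 ^ q - r
    · rw [if_pos h, if_pos h', if_pos ((StarB_iff1 q A hA r _).2 ⟨h, h'⟩)]
    · rw [if_pos h, if_neg h', if_neg (fun h2 => h' ((StarB_iff1 q A hA r _).1 h2).2)]
  · rw [if_neg h, if_neg (fun h2 => h ((StarB_iff1 q A hA r _).1 h2).1), mul_zero, zero_mul]

theorem StarB_alg (q n : ℕ) (A : ℕ) (B : ℤ) :
    (∑ w ∈ S.wds n, pw S q A B w) ^ 2 - ∑ r ∈ range (3 ^ 1), (∑ w ∈ S.wds n,
      pw S q A B w * (if (3 : ℤ) ∣ S.nd B w / 3 ^ q - (r : ℤ) then (1 : ℝ) else 0)) ^ 2 =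
    ∑ w ∈ S.wds n, ∑ w' ∈ S.wds n,
        if (3 : ℤ) ∣ S.nd B w / 3 ^ q - S.nd B w' / 3 ^ q then 0 else pw S q A B w * pw S q A B w' := by
  have h1 : ∑ r ∈ range (3 ^ 1), (∑ w ∈ S.wds n,
      pw S q A B w * (if (3 : ℤ) ∣ S.nd B w / 3 ^ q - (r : ℤ) then (1 : ℝ) else 0)) ^ 2 =
      ∑ w ∈ S.wds n, ∑ w' ∈ S.wds n, pw S q A B w * pw S q A B w' *
        (if (3 : ℤ) ∣ S.nd B w / 3 ^ q - S.nd B w' / 3 ^ q then (1 : ℝ) else 0) := by
    simp only [sq, sum_mul_sum]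
    rw [sum_comm]
    apply sum_congr rfl
    intro w _
    rw [sum_comm]
    apply sum_congr rfl
    intro w' _
    rw [← StarB_three, mul_sum]
    apply sum_congr rfl
    intro r _
    ring
  rw [h1, sq, sum_mul_sum, ← sum_sub_distrib]
  apply sum_congr rfl
  intro w _
  rw [← sum_sub_distrib]
  apply sum_congr rfl
  intro w' _
  split_ifs
  · ring
  · ring

theorem vv_pairs (hS : S.Ok) (q n : ℕ) (B : ℤ) :
    S.vv q n B = ∑ A ∈ range (3 ^ q),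
      (∑ w ∈ S.wds n, ∑ w' ∈ S.wds n,
        if (3 : ℤ) ∣ S.nd B w / 3 ^ q - S.nd B w' / 3 ^ q then 0 else pw S q A B w * pw S q A B w') /
      (∑ w ∈ S.wds n, pw S q A B w) := by
  have h1 : (1 : ℝ) = ∑ A ∈ range (3 ^ q), ∑ w ∈ S.wds n, pw S q A B w := by
    rw [sum_comm, ← Sys.path_sum hS n B]
    apply sum_congr rfl
    intro w _
    rw [pw_sum]
  unfold Sys.vv Psi
  rw [h1, ← sum_sub_distrib]
  apply sum_congr rfl
  intro A hA
  have hA' : A < 3 ^ q := mem_range.1 hA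
  beta_reduce
  rw [← sum_div, StarB_P q n A hA' B, ← StarB_alg]
  have h2 : ∑ r ∈ range (3 ^ 1), (S.K^[n] (ind (q + 1) ((A : ℤ) + 3 ^ q * (r : ℤ)))) B ^ 2 =
      ∑ r ∈ range (3 ^ 1), (∑ w ∈ S.wds n,
      pw S q A B w * (if (3 : ℤ) ∣ S.nd B w / 3 ^ q - (r : ℤ) then (1 : ℝ) else 0)) ^ 2 := by
    apply sum_congr rfl
    intro r _
    rw [StarB_Pr q n A hA' B r]
  rw [h2]
  by_cases h : ∑ w ∈ S.wds n, pw S q A B w = 0
  · rw [h]
    simp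
  · rw [sub_div, sq, mul_div_assoc, div_self h, mul_one]

end Pool.Agent.helper14.EX1
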