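import Pool.Agent.helper14.EX1.Key
import Pool.Agent.helper14.EX1.LowV

/-!
# EX1-Thm: a stationary law has uniform digits

`c` from `vv_low`.  Facts: `β(p) = Psi E p 1 - 1/3 ≥ 0`, and `Psi E q R ≤ Psi E (q + m) R` (`star` with `n = 1`, gain
`≥ 0`, stationarity); `Φ(j,n) = E (vv j n) ∈ [0,1]`, `Φ(j,n) ≤ Φ(j,n+1)` (`vv_K`, `law_mono`, `hst`),
`Φ(j+m,n) ≤ Φ(j,n+1)` (`vv_shift`); `Φ∞(j) = ⨆ n, Φ(j,n)`, `Φ∞(j+m) ≤ Φ∞(j)`.

Suppose `β(p0) > 0`.  Choose `η > 0` with `2 m η / c < β(p0) / 2`.  The sequences `i ↦ Φ∞(r + m i)` (`r < m`) are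
nonincreasing and `≥ 0`: there is `i1` with `Φ∞(r + m i1) - Φ∞(r + m i1 + m i) ≤ η` for all `i` and `r < m`; `J = m i1`.
`L` from `vv_low` for `J`, `R = m (L + 2)`.  Choose `ε > 0` with `(m / c) sqrt (3 ^ R (2 * 9 ^ R ε)) < β(p0) / 2`.  The sequences
`i ↦ Psi E (J + r + m i) R` are nondecreasing and `≤ 1`: there is `i` with `hR` of `key` for all `n0`.  Choose `n0` with
`Φ(J + r + m i, n) ≥ Φ∞(J + r + m i) - η` for all `n ≥ n0`, `r < m`, and so large that `p0 ≤ p`, where
`p = J + m i + m (n0 + L) + p0 % m` (then `hp` holds and `p ≡ p0 mod m`, so `β(p0) ≤ β(p)`).  `key`: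
`c L β(p) ≤ L m sqrt (..) + L m * 2 η`, because
`E (vv (J+r) (n0+n+i)) ≤ Φ∞(J+r) ≤ Φ∞(J+r+m i) + η ≤ E (vv (J+r+m i) (n0+n)) + 2 η`.  Contradiction.
-/

namespace Pool.Agent.helper14.EX1

open Finset

variable {ι : Type} [Fintype ι] {S : Sys ι} {E : (ℤ → ℝ) → ℝ}

/-- Tails of a finite family of bounded monotone sequences. -/
theorem Thm_tail (m : ℕ) (u : ℕ → ℕ → ℝ) (hu : ∀ r, Monotone (u r)) (B : ℝ)
    (hB : ∀ r i, u r i ≤ B) {η : ℝ} (hη : 0 < η) :
    ∃ N : ℕ, ∀ r < m, ∀ i, N ≤ i → ∀ k, u r k ≤ u r i + η := by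
  have h1 : ∀ r, ∃ N : ℕ, ∀ k, u r k ≤ u r N + η := by
    intro r
    have hbdd : BddAbove (Set.range (u r)) := ⟨B, by rintro _ ⟨i, rfl⟩; exact hB r i⟩
    obtain ⟨N, hN⟩ := exists_lt_of_lt_ciSup (show (⨆ i, u r i) - η < ⨆ i, u r i by linarith)
    refine ⟨N, fun k => ?_⟩
    have := le_ciSup hbdd k
    linarith
  choose N hN using h1
  refine ⟨(range m).sup N, ?_⟩
  intro r hr i hi k
  have h2 : N r ≤ i := (Finset.le_sup (mem_range.2 hr)).trans hi
  exact (hN r k).trans (by linarith [hu r h2])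

theorem Thm_step (hS : S.Ok) (hE : IsLaw E)
    (hst : ∀ {q : ℕ} {φ : ℤ → ℝ}, Per q φ → E (S.K φ) = E φ) (q R : ℕ) :
    Psi E q R ≤ Psi E (q + S.m) R := by
  have h := star hS hE q 1 R
  have h1 : Psi (fun φ => E (S.K^[1] φ)) q R = Psi E q R := by
    apply psi_congr
    intro q' c
    exact hst (ind_per q' c)
  have h2 : 0 ≤ 1 / 2 * (1 / 9 : ℝ) ^ R *
        ∑ B ∈ range (3 ^ (q + S.m * 1)), S.vv q 1 (B : ℤ) * Dev E (q + S.m * 1) R (B : ℤ) := by
    apply mul_nonneg (by positivity)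
    exact Finset.sum_nonneg fun B _ => mul_nonneg (Sys.vv_nn hS _ _ _) (dev_nn hE _ _ _)
  rw [h1, mul_one] at h
  rw [mul_one] at h2
  linarith

theorem Thm_steps (hS : S.Ok) (hE : IsLaw E)
    (hst : ∀ {q : ℕ} {φ : ℤ → ℝ}, Per q φ → E (S.K φ) = E φ) (q R : ℕ) :
    Monotone fun i : ℕ => Psi E (q + S.m * i) R := by
  apply monotone_nat_of_le_succ
  intro i
  have := Thm_step hS hE hst (q + S.m * i) R
  rw [show q + S.m * (i + 1) = q + S.m * i + S.m by ring]
  exact this

theorem psi_third (hS : S.Ok) (hE : IsLaw E)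
    (hst : ∀ {q : ℕ} {φ : ℤ → ℝ}, Per q φ → E (S.K φ) = E φ) (p : ℕ) : Psi E p 1 = 1 / 3 := by
  by_contra hne
  obtain ⟨c, hc, hlow⟩ := vv_low hS
  set m := S.m with hm
  have hm1 : 1 ≤ m := hS.m1
  have hm0 : (0 : ℝ) < m := by exact_mod_cast hm1
  set β : ℝ := Psi E p 1 - 1 / 3 with hβdef
  have hβ : 0 < β := by
    have h1 := psi_ge hE p 1
    rw [pow_one] at h1
    rcases lt_or_eq_of_le h1 with h2 | h2
    · rw [hβdef]; linarith
    · exact absurd h2.symm hne
  -- the function Φ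
  let Φ : ℕ → ℕ → ℝ := fun j n => E (S.vv j n)
  have hΦ0 : ∀ j n, 0 ≤ Φ j n := fun j n => hE.nn (Sys.vv_per hS j n) (Sys.vv_nn hS j n)
  have hΦ1 : ∀ j n, Φ j n ≤ 1 := by
    intro j n
    have h := law_mono hE (Sys.vv_per hS j n) (per_const (j + S.m * n) 1) (Sys.vv_le hS j n)
    rwa [law_const hE 1] at h
  have hΦs : ∀ j, Monotone (Φ j) := by
    intro j
    apply monotone_nat_of_le_succ
    intro n
    change E (S.vv j n) ≤ E (S.vv j (n + 1))
    rw [← hst (Sys.vv_per hS j n)]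
    have hp2 : Per (j + S.m * n + S.m) (S.vv j (n + 1)) := by
      have := Sys.vv_per hS j (n + 1)
      rwa [show j + S.m * (n + 1) = j + S.m * n + S.m by ring] at this
    exact law_mono hE (Sys.K_per hS (Sys.vv_per hS j n)) hp2 (Sys.vv_K hS j n)
  have hΦm : ∀ j n, Φ (j + m) n ≤ Φ j (n + 1) := by
    intro j n
    have hp1 : Per (j + S.m * n + S.m) (S.vv (j + m) n) := by
      have := Sys.vv_per hS (j + m) n
      rwa [show j + m + S.m * n = j + S.m * n + S.m by rw [hm]; ring] at this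
    have hp2 : Per (j + S.m * n + S.m) (S.vv j (n + 1)) := by
      have := Sys.vv_per hS j (n + 1)
      rwa [show j + S.m * (n + 1) = j + S.m * n + S.m by ring] at this
    exact law_mono hE hp1 hp2 (Sys.vv_shift hS j n)
  let F : ℕ → ℝ := fun j => ⨆ n, Φ j n
  have hbdd : ∀ j, BddAbove (Set.range (Φ j)) := fun j => ⟨1, by rintro _ ⟨i, rfl⟩; exact hΦ1 j i⟩
  have hleF : ∀ j n, Φ j n ≤ F j := fun j n => le_ciSup (hbdd j) n
  have hF0 : ∀ j, 0 ≤ F j := fun j => (hΦ0 j 0).trans (hleF j 0)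
  have hFm : ∀ j, F (j + m) ≤ F j := fun j => ciSup_le fun n => (hΦm j n).trans (hleF j (n + 1))
  -- constants
  set η : ℝ := c * β / (8 * m) with hη
  have hηpos : 0 < η := by positivity
  -- choice of i1
  obtain ⟨i1, hi1⟩ := Thm_tail m (fun r i => -F (r + m * i))
    (by
      intro r
      apply monotone_nat_of_le_succ
      intro i
      have := hFm (r + m * i)
      rw [show r + m * (i + 1) = r + m * i + m by ring]
      linarith) 0 (by intro r i; have := hF0 (r + m * i); linarith) hηpos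
  obtain ⟨L, hL1, hL⟩ := hlow (m * i1)
  have hL0 : (0 : ℝ) < L := by exact_mod_cast hL1
  set J := m * i1 with hJ
  set R := m * (L + 2) with hR
  set ε : ℝ := (c * β / (4 * m)) ^ 2 / (3 ^ R * (2 * 9 ^ R)) with hε
  have hεpos : 0 < ε := by positivity
  -- choice of i
  obtain ⟨i, hi⟩ := Thm_tail m (fun r i => Psi E (J + r + m * i) R)
    (fun r => Thm_steps hS hE hst (J + r) R) 1 (fun r i => psi_le_one hE _ _) hεpos
  -- choice of n0
  obtain ⟨N, hN⟩ := Thm_tail m (fun r n => Φ (J + r + m * i) n)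
    (fun r => hΦs _) 1 (fun r n => hΦ1 _ _) hηpos
  set n0 := N + p with hn0
  have hFn : ∀ r < m, ∀ n, F (J + r + m * i) ≤ Φ (J + r + m * i) (n0 + n) + η := by
    intro r hr n
    exact ciSup_le fun k => hN r hr (n0 + n) (by omega) k
  have hFi : ∀ r < m, F (J + r) ≤ F (J + r + m * i) + η := by
    intro r hr
    have h1 : -F (r + m * (i1 + i)) ≤ -F (r + m * i1) + η := hi1 r hr i1 le_rfl (i1 + i)
    have h2 : r + m * (i1 + i) = J + r + m * i := by rw [hJ]; ring
    have h3 : r + m * i1 = J + r := by rw [hJ]; ring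
    rw [h2, h3] at h1
    linarith
  -- choice of the level
  set P := J + m * i + m * (n0 + L) + p % m with hP
  have hpm : p % m < m := Nat.mod_lt _ hm1
  have hkey := key hS hE hst (c := c) (ε := ε) (L := L) (J := J) (i := i) (n0 := n0) (R := R)
    (p := P) hεpos.le hL
    (by
      intro r hr n hn
      have h1 : Psi E (J + r + m * (i + (n0 + n))) R ≤ Psi E (J + r + m * i) R + ε :=
        hi r hr i le_rfl (i + (n0 + n))
      rw [show J + r + S.m * i + S.m * (n0 + n) = J + r + m * (i + (n0 + n)) by rw [hm]; ring]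
      linarith)
    (by
      intro r hr n hn
      have hr' : r < m := hr
      have h1 : m * n + m ≤ m * L := by
        calc m * n + m = m * (n + 1) := by ring
          _ ≤ m * L := Nat.mul_le_mul_left _ hn
      have h2 : m * (n0 + L) = m * n0 + m * L := by ring
      have h3 : S.m * (n0 + n) = m * n0 + m * n := by rw [hm]; ring
      have h4 : S.m * i = m * i := rfl
      have h5 : R = m * L + 2 * m := by rw [hR]; ring
      constructor
      · rw [hP, h2, h3, h4]; omega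
      · rw [hP, h2, h3, h4, h5]; omega)
  -- comparison of the levels
  have hle : p ≤ P ∧ Psi E p 1 ≤ Psi E P 1 := by
    have h1 : p / m ≤ n0 := (Nat.div_le_self p m).trans (by omega)
    have h2 : P = p + m * (i1 + i + (n0 - p / m) + L) := by
      have h3 : p = m * (p / m) + p % m := (Nat.div_add_mod p m).symm
      obtain ⟨d, hd⟩ := Nat.exists_eq_add_of_le h1
      have h4 : n0 - p / m = d := by omega
      rw [h4, hP, hJ, hd]
      nth_rewrite 3 [h3]
      ring
    have h3 := Thm_steps hS hE hst p 1 (Nat.zero_le (i1 + i + (n0 - p / m) + L))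
    simp only [mul_zero, add_zero] at h3
    rw [h2]
    exact ⟨Nat.le_add_right _ _, h3⟩
  -- the sum
  have hsum : ∑ n ∈ range L, ∑ r ∈ range S.m,
      (E (S.vv (J + r) (n0 + n + i)) - E (S.vv (J + r + S.m * i) (n0 + n))) ≤
      L * (m * (2 * η)) := by
    have h1 : ∀ n ∈ range L, ∑ r ∈ range S.m,
        (E (S.vv (J + r) (n0 + n + i)) - E (S.vv (J + r + S.m * i) (n0 + n))) ≤ m * (2 * η) := by
      intro n _
      have h2 : ∀ r ∈ range S.m,
          (E (S.vv (J + r) (n0 + n + i)) - E (S.vv (J + r + S.m * i) (n0 + n))) ≤ 2 * η := by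
        intro r hr
        have hr' : r < m := mem_range.1 hr
        have h3 : E (S.vv (J + r) (n0 + n + i)) ≤ F (J + r) := hleF _ _
        have h4 := hFi r hr'
        have h5 : F (J + r + m * i) ≤ E (S.vv (J + r + S.m * i) (n0 + n)) + η := hFn r hr' n
        linarith
      have h6 := Finset.sum_le_card_nsmul _ _ _ h2
      rwa [card_range, nsmul_eq_mul] at h6
    have h7 := Finset.sum_le_card_nsmul _ _ _ h1
    rwa [card_range, nsmul_eq_mul] at h7
  have hsqrt : Real.sqrt (3 ^ R * (2 * 9 ^ R * ε)) = c * β / (4 * m) := by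
    have h1 : (3 : ℝ) ^ R * (2 * 9 ^ R * ε) = (c * β / (4 * m)) ^ 2 := by
      rw [hε]
      field_simp
    rw [h1, Real.sqrt_sq (by positivity)]
  rw [hsqrt] at hkey
  have h1 : c * L * β ≤ c * L * (Psi E P 1 - 1 / 3) := by
    apply mul_le_mul_of_nonneg_left _ (by positivity)
    rw [hβdef]
    linarith [hle.2]
  have h2 : c * L * β ≤ L * m * (c * β / (4 * m)) + L * (m * (2 * η)) :=
    h1.trans (hkey.trans (by
      have : (L : ℝ) * (S.m : ℝ) * (c * β / (4 * m)) = L * m * (c * β / (4 * m)) := rfl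
      linarith))
  have h3 : (L : ℝ) * m * (c * β / (4 * m)) + L * (m * (2 * η)) = c * L * β / 2 := by
    rw [hη]
    field_simp
    ring
  have h4 : 0 < c * L * β := by positivity
  linarith

end Pool.Agent.helper14.EX1
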