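import Mathlib

/-!
# EX1-Ulim: limits of bounded sequences along an ultrafilter

Take `ulim a = limUnder (Filter.hyperfilter ℕ : Filter ℕ) a` (or a choice); a bounded sequence converges along an
ultrafilter (`IsCompact.ultrafilter_le_nhds` for `Set.Icc (-C) C` and the ultrafilter `(Filter.hyperfilter ℕ).map a`).
You may change the definition of `ulim`, not the statements.
-/

namespace Pool.Agent.helper14.EX1

open Filter Topology

/-- The limit along a nonprincipal ultrafilter. -/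
noncomputable def ulim (a : ℕ → ℝ) : ℝ := limUnder (hyperfilter ℕ : Filter ℕ) a

theorem Ulim_tendsto {a : ℕ → ℝ} {C : ℝ} (ha : ∀ i, |a i| ≤ C) :
    Tendsto a (hyperfilter ℕ : Filter ℕ) (𝓝 (ulim a)) := by
  have hc : IsCompact (Set.Icc (-C) C) := isCompact_Icc
  have hm : Set.Icc (-C) C ∈ (hyperfilter ℕ).map a :=
    Filter.mem_map.2 (Filter.univ_mem' fun i => abs_le.1 (ha i))
  obtain ⟨x, -, hx⟩ := hc.ultrafilter_le_nhds ((hyperfilter ℕ).map a)
    (Filter.le_principal_iff.2 hm)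
  have h1 : Tendsto a (hyperfilter ℕ : Filter ℕ) (𝓝 x) := hx
  exact tendsto_nhds_limUnder ⟨x, h1⟩

theorem ulim_add {a b : ℕ → ℝ} {C : ℝ} (ha : ∀ i, |a i| ≤ C) (hb : ∀ i, |b i| ≤ C) :
    ulim (fun i => a i + b i) = ulim a + ulim b :=
  ((Ulim_tendsto ha).add (Ulim_tendsto hb)).limUnder_eq

theorem ulim_smul {a : ℕ → ℝ} {C : ℝ} (c : ℝ) (ha : ∀ i, |a i| ≤ C) :
    ulim (fun i => c * a i) = c * ulim a :=
  ((Ulim_tendsto ha).const_mul c).limUnder_eq

theorem ulim_nn {a : ℕ → ℝ} {C : ℝ} (ha : ∀ i, |a i| ≤ C) (h : ∀ i, 0 ≤ a i) : 0 ≤ ulim a :=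
  ge_of_tendsto' (Ulim_tendsto ha) h

theorem ulim_le {a : ℕ → ℝ} {C b : ℝ} (ha : ∀ i, |a i| ≤ C) (h : ∀ i, a i ≤ b) : ulim a ≤ b :=
  le_of_tendsto' (Ulim_tendsto ha) h

theorem ulim_const (c : ℝ) : ulim (fun _ => c) = c :=
  (tendsto_const_nhds (x := c) (f := (hyperfilter ℕ : Filter ℕ))).limUnder_eq

/-- If the difference tends to `0`, the limits agree. -/
theorem ulim_congr {a b : ℕ → ℝ} {C : ℝ} (ha : ∀ i, |a i| ≤ C) (hb : ∀ i, |b i| ≤ C)
    (h : Tendsto (fun i => a i - b i) atTop (𝓝 0)) : ulim a = ulim b := by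
  have hle : (hyperfilter ℕ : Filter ℕ) ≤ atTop := Nat.hyperfilter_le_atTop
  have h1 := (Ulim_tendsto ha).sub (Ulim_tendsto hb)
  have h2 := h.mono_left hle
  have h3 := tendsto_nhds_unique h1 h2
  linarith

end Pool.Agent.helper14.EX1
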