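import Pool.Agent.helper14.EX1.Thm
import Pool.Agent.helper14.EX1.Haar
import Pool.Agent.helper14.EX1.Ulim

/-!
# EX1-Unif: the averages along the walk tend to the mean, uniformly in the starting point

By contradiction: for every `i` there are `T_i ≥ i + 1` and `x_i` with
`∑_{t<T_i} (K^[t] φ) x_i < (avg m φ - ε) T_i`.  Let `E ψ = ulim (fun i => (∑_{t<T_i} (K^[t] ψ) x_i) / T_i)`.  For `ψ`
periodic, `|ψ| ≤ C`, the averages are in `[-C, C]` (`iter_mono`, `iter_const`), so `E` is a law (`ulim_add`, ...).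
Stationary: `(1/T) ∑_{t<T} (K^[t] (K ψ)) x - (1/T) ∑_{t<T} (K^[t] ψ) x = ((K^[T] ψ) x - ψ x) / T → 0` (`ulim_congr`).
So `E φ = avg m φ` (`psi_third`, `law_avg`), but `E φ ≤ avg m φ - ε` (`ulim_le`).
-/

namespace Pool.Agent.helper14.EX1

open Finset

variable {ι : Type} [Fintype ι] {S : Sys ι}

/-- periodic functions are bounded -/
theorem Unif_bdd {q : ℕ} {φ : ℤ → ℝ} (hφ : Per q φ) : ∃ C : ℝ, 0 ≤ C ∧ ∀ x, |φ x| ≤ C := by
  refine ⟨∑ c ∈ range (3 ^ q), |φ (c : ℤ)|, Finset.sum_nonneg fun _ _ => abs_nonneg _, fun x => ?_⟩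
  rw [per_decomp hφ x]
  refine (Finset.abs_sum_le_sum_abs _ _).trans (Finset.sum_le_sum fun c _ => ?_)
  rw [abs_mul, abs_of_nonneg (ind_nn q _ x)]
  exact mul_le_of_le_one_right (abs_nonneg _) (ind_le_one q _ x)

/-- the iterates of the kernel do not increase the supremum -/
theorem Unif_iter (hS : S.Ok) {φ : ℤ → ℝ} {C : ℝ} (h : ∀ x, |φ x| ≤ C) (n : ℕ) (x : ℤ) :
    |(S.K^[n] φ) x| ≤ C := by
  rw [abs_le]
  constructor
  · have h1 := Sys.iter_mono hS n (φ := fun _ => -C) (ψ := φ) (fun x => (abs_le.1 (h x)).1) x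
    rw [Sys.iter_const hS] at h1
    exact h1
  · have h1 := Sys.iter_mono hS n (φ := φ) (ψ := fun _ => C) (fun x => (abs_le.1 (h x)).2) x
    rw [Sys.iter_const hS] at h1
    exact h1

/-- the average along the walk -/
noncomputable def Unif_A (S : Sys ι) (T : ℕ) (x : ℤ) (φ : ℤ → ℝ) : ℝ :=
  (∑ t ∈ range T, (S.K^[t] φ) x) / T

theorem Unif_A_bdd (hS : S.Ok) {φ : ℤ → ℝ} {C : ℝ} (hC : 0 ≤ C) (h : ∀ x, |φ x| ≤ C) (T : ℕ) (x : ℤ) :
    |Unif_A S T x φ| ≤ C := by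
  unfold Unif_A
  rw [abs_div, Nat.abs_cast]
  refine div_le_of_le_mul₀ (Nat.cast_nonneg _) hC ?_
  refine (Finset.abs_sum_le_sum_abs _ _).trans ?_
  calc ∑ t ∈ range T, |(S.K^[t] φ) x| ≤ ∑ _t ∈ range T, C :=
        Finset.sum_le_sum fun t _ => Unif_iter hS h t x
    _ = C * T := by rw [Finset.sum_const, card_range, nsmul_eq_mul, mul_comm]

theorem Unif_A_add (T : ℕ) (x : ℤ) (φ ψ : ℤ → ℝ) :
    Unif_A S T x (fun x => φ x + ψ x) = Unif_A S T x φ + Unif_A S T x ψ := by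
  unfold Unif_A
  rw [← add_div, ← Finset.sum_add_distrib]
  congr 1
  refine Finset.sum_congr rfl fun t _ => ?_
  rw [Sys.iter_add]

theorem Unif_A_smul (T : ℕ) (x : ℤ) (c : ℝ) (φ : ℤ → ℝ) :
    Unif_A S T x (fun x => c * φ x) = c * Unif_A S T x φ := by
  unfold Unif_A
  rw [← mul_div_assoc, Finset.mul_sum]
  congr 1
  refine Finset.sum_congr rfl fun t _ => ?_
  rw [Sys.iter_smul]

theorem Unif_A_nn (hS : S.Ok) (T : ℕ) (x : ℤ) {φ : ℤ → ℝ} (h : ∀ x, 0 ≤ φ x) :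
    0 ≤ Unif_A S T x φ := by
  unfold Unif_A
  refine div_nonneg (Finset.sum_nonneg fun t _ => ?_) (Nat.cast_nonneg _)
  have h1 := Sys.iter_mono hS t (φ := fun _ => 0) (ψ := φ) h x
  rw [Sys.iter_const hS] at h1
  exact h1

theorem Unif_A_one (hS : S.Ok) {T : ℕ} (hT : 1 ≤ T) (x : ℤ) : Unif_A S T x (fun _ => 1) = 1 := by
  unfold Unif_A
  have h1 : ∀ t ∈ range T, (S.K^[t] (fun _ => (1 : ℝ))) x = 1 := fun t _ => by rw [Sys.iter_const hS]
  rw [Finset.sum_congr rfl h1, Finset.sum_const, card_range, nsmul_eq_mul, mul_one]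
  exact div_self (by exact_mod_cast (by omega : T ≠ 0))

theorem Unif_A_K (T : ℕ) (x : ℤ) (φ : ℤ → ℝ) :
    Unif_A S T x (S.K φ) - Unif_A S T x φ = ((S.K^[T] φ) x - φ x) / T := by
  unfold Unif_A
  rw [← sub_div]
  congr 1
  have h1 : ∀ t ∈ range T, (S.K^[t] (S.K φ)) x = (S.K^[t + 1] φ) x := fun t _ => by
    rw [Function.iterate_succ_apply]
  rw [Finset.sum_congr rfl h1]
  have h2 := Finset.sum_range_succ (fun t => (S.K^[t] φ) x) T
  have h3 := Finset.sum_range_succ' (fun t => (S.K^[t] φ) x) T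
  simp only [Function.iterate_zero, id] at h3
  linarith

theorem unif (hS : S.Ok) {φ : ℤ → ℝ} (hφ : Per S.m φ) {ε : ℝ} (hε : 0 < ε) :
    ∃ T0 : ℕ, ∀ T ≥ T0, ∀ x : ℤ,
      (avg S.m φ - ε) * T ≤ ∑ t ∈ range T, (S.K^[t] φ) x := by
  by_contra hcon
  push Not at hcon
  choose T hT x hx using fun i : ℕ => hcon (i + 1)
  have hT1 : ∀ i, 1 ≤ T i := fun i => by have := hT i; omega
  have hE : IsLaw (fun ψ : ℤ → ℝ => ulim (fun i => Unif_A S (T i) (x i) ψ)) := by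
    refine ⟨?_, ?_, ?_, ?_⟩
    · intro q φ ψ hφ hψ
      obtain ⟨C, hC0, hC⟩ := Unif_bdd hφ
      obtain ⟨D, hD0, hD⟩ := Unif_bdd hψ
      simp only [Unif_A_add]
      exact ulim_add (C := max C D)
        (fun i => (Unif_A_bdd hS hC0 hC (T i) (x i)).trans (le_max_left _ _))
        (fun i => (Unif_A_bdd hS hD0 hD (T i) (x i)).trans (le_max_right _ _))
    · intro q φ c hφ
      obtain ⟨C, hC0, hC⟩ := Unif_bdd hφ
      simp only [Unif_A_smul]
      exact ulim_smul (C := C) c (fun i => Unif_A_bdd hS hC0 hC (T i) (x i))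
    · intro q φ hφ h
      obtain ⟨C, hC0, hC⟩ := Unif_bdd hφ
      exact ulim_nn (C := C) (fun i => Unif_A_bdd hS hC0 hC (T i) (x i))
        (fun i => Unif_A_nn hS (T i) (x i) h)
    · have h1 : (fun i => Unif_A S (T i) (x i) (fun _ => 1)) = fun _ => (1 : ℝ) :=
        funext fun i => Unif_A_one hS (hT1 i) (x i)
      simp only [h1]
      exact ulim_const 1
  have hst : ∀ {q : ℕ} {ψ : ℤ → ℝ}, Per q ψ →
      (fun ψ : ℤ → ℝ => ulim (fun i => Unif_A S (T i) (x i) ψ)) (S.K ψ) =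
        (fun ψ : ℤ → ℝ => ulim (fun i => Unif_A S (T i) (x i) ψ)) ψ := by
    intro q ψ hψ
    obtain ⟨C, hC0, hC⟩ := Unif_bdd hψ
    have hK : ∀ y, |S.K ψ y| ≤ C := fun y => by
      have := Unif_iter hS hC 1 y
      simpa using this
    refine ulim_congr (C := C) (fun i => Unif_A_bdd hS hC0 hK (T i) (x i))
      (fun i => Unif_A_bdd hS hC0 hC (T i) (x i)) ?_
    simp only [Unif_A_K]
    rw [tendsto_zero_iff_norm_tendsto_zero]
    refine squeeze_zero (fun i => norm_nonneg _) (g := fun i : ℕ => 2 * C / ((i : ℝ) + 1)) (fun i => ?_) ?_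
    · rw [norm_div, Real.norm_eq_abs, Real.norm_eq_abs, Nat.abs_cast]
      have h1 : |(S.K^[T i] ψ) (x i) - ψ (x i)| ≤ 2 * C := by
        have h2 := Unif_iter hS hC (T i) (x i)
        have h3 := hC (x i)
        calc |(S.K^[T i] ψ) (x i) - ψ (x i)| ≤ |(S.K^[T i] ψ) (x i)| + |ψ (x i)| := abs_sub _ _
          _ ≤ 2 * C := by linarith
      have h4 : ((i : ℝ) + 1) ≤ (T i : ℝ) := by exact_mod_cast hT i
      have h5 : (0 : ℝ) < (i : ℝ) + 1 := by positivity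
      exact div_le_div₀ (by positivity) h1 h5 h4
    · have h6 := tendsto_one_div_add_atTop_nhds_zero_nat (𝕜 := ℝ)
      have h7 := h6.const_mul (2 * C)
      simp only [mul_zero] at h7
      refine h7.congr fun i => ?_
      rw [mul_one_div]
  have h1 : ulim (fun i => Unif_A S (T i) (x i) φ) = avg S.m φ :=
    law_avg hE (psi_third hS hE hst) hφ
  obtain ⟨C, hC0, hC⟩ := Unif_bdd hφ
  have h2 : ulim (fun i => Unif_A S (T i) (x i) φ) ≤ avg S.m φ - ε := by
    refine ulim_le (C := C) (fun i => Unif_A_bdd hS hC0 hC (T i) (x i)) fun i => ?_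
    unfold Unif_A
    have h3 : (0 : ℝ) < (T i : ℝ) := by exact_mod_cast hT1 i
    rw [div_le_iff₀ h3]
    exact (hx i).le
  linarith

end Pool.Agent.helper14.EX1
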