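import Pool.Agent.helper14.EX1.Star

/-!
# EX1-Vab: the nondegeneracies `vv`
-/

namespace Pool.Agent.helper14.EX1

open Finset

namespace Sys

variable {ι : Type} [Fintype ι] {S : Sys ι}

theorem vv_nn (hS : S.Ok) (j n : ℕ) (x : ℤ) : 0 ≤ S.vv j n x := by
  have h := psi_le_one (law_pt hS n x) j 1
  unfold vv
  linarith

theorem vv_le (hS : S.Ok) (j n : ℕ) (x : ℤ) : S.vv j n x ≤ 1 := by
  have h := psi_ge (law_pt hS n x) j 1
  unfold vv
  norm_num at h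
  linarith

/-- `star` with `n = 1`, `R = 1` for the law `φ ↦ (K^[n] φ) x` (drop the gain, it is `≥ 0`);
`K^[n] (K φ) = K^[n+1] φ`. -/
theorem vv_shift (hS : S.Ok) (j n : ℕ) (x : ℤ) : S.vv (j + S.m) n x ≤ S.vv j (n + 1) x := by
  have h := star hS (law_pt hS n x) j 1 1
  have h1 : 0 ≤ ∑ B ∈ range (3 ^ (j + S.m * 1)), S.vv j 1 (B : ℤ) *
      Dev (fun φ => (S.K^[n] φ) x) (j + S.m * 1) 1 (B : ℤ) :=
    Finset.sum_nonneg fun B _ => mul_nonneg (vv_nn hS j 1 B) (dev_nn (law_pt hS n x) _ _ _)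
  have h2 : 0 ≤ 1 / 2 * (1 / 9 : ℝ) ^ 1 * ∑ B ∈ range (3 ^ (j + S.m * 1)), S.vv j 1 (B : ℤ) *
      Dev (fun φ => (S.K^[n] φ) x) (j + S.m * 1) 1 (B : ℤ) :=
    mul_nonneg (by norm_num) h1
  have h3 : Psi (fun φ => (S.K^[n + 1] φ) x) j 1 ≤ Psi (fun φ => (S.K^[n] φ) x) (j + S.m * 1) 1 :=
    le_trans (le_add_of_nonneg_right h2) h
  rw [mul_one] at h3
  unfold vv
  linarith

theorem vv_shift_iter (hS : S.Ok) (j n i : ℕ) (x : ℤ) :
    S.vv (j + S.m * i) n x ≤ S.vv j (n + i) x := by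
  induction i generalizing n with
  | zero => exact le_rfl
  | succ i ih =>
    have h1 : j + S.m * (i + 1) = j + S.m * i + S.m := by ring
    have h2 : n + (i + 1) = n + 1 + i := by ring
    rw [h1, h2]
    exact (vv_shift hS _ n x).trans (ih (n + 1))

/-- `psi_convex` with `t v = p v x`, `F v φ = (K^[n] φ) (T v x)`; `(K^[n+1] φ) x = ∑ p v x (K^[n] φ) (T v x)`
(`Function.iterate_succ_apply'`). -/
theorem vv_K (hS : S.Ok) (j n : ℕ) (x : ℤ) : S.K (S.vv j n) x ≤ S.vv j (n + 1) x := by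
  have h := psi_convex univ (t := fun v => S.p v x) (fun v _ => hS.nn v x)
    (F := fun v φ => (S.K^[n] φ) (S.T v x)) (fun v _ => law_pt hS n (S.T v x)) j 1
  have h1 : (fun φ : ℤ → ℝ => ∑ v ∈ univ, S.p v x * (S.K^[n] φ) (S.T v x)) =
      fun φ => (S.K^[n + 1] φ) x := by
    funext φ
    rw [Function.iterate_succ_apply']
    rfl
  have h2 : S.K (S.vv j n) x = ∑ v, S.p v x -
      ∑ v, S.p v x * Psi (fun φ => (S.K^[n] φ) (S.T v x)) j 1 := by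
    rw [← Finset.sum_sub_distrib]
    show ∑ v, S.p v x * S.vv j n (S.T v x) = _
    refine Finset.sum_congr rfl fun v _ => ?_
    unfold vv
    ring
  rw [h2, hS.sum x]
  unfold vv
  rw [← h1]
  have h3 : Psi (fun φ : ℤ → ℝ => ∑ v ∈ univ, S.p v x * (S.K^[n] φ) (S.T v x)) j 1 ≤
      ∑ v, S.p v x * Psi (fun φ => (S.K^[n] φ) (S.T v x)) j 1 := h
  linarith

theorem vv_K_iter (hS : S.Ok) (j n k : ℕ) (x : ℤ) :
    (S.K^[k] (S.vv j n)) x ≤ S.vv j (n + k) x := by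
  induction k generalizing n with
  | zero => exact le_rfl
  | succ k ih =>
    have h2 : n + (k + 1) = n + 1 + k := by ring
    rw [h2, Function.iterate_succ_apply]
    exact (iter_mono hS k (vv_K hS j n) x).trans (ih (n + 1))

theorem Vab_four (e : ℕ) : ∃ c : ℤ, (4 : ℤ) ^ e = 1 + 3 * c := by
  induction e with
  | zero => exact ⟨0, by norm_num⟩
  | succ e ih =>
    obtain ⟨c, hc⟩ := ih
    exact ⟨1 + 4 * c, by rw [pow_succ, hc]; ring⟩

/-- The masses at level `j + 1` are shifted. -/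
theorem Vab_shift (hS : S.Ok) (j n : ℕ) (x c : ℤ) :
    (S.K^[n] (ind (j + 1) c)) (x + 3 ^ (j + S.m * n)) = (S.K^[n] (ind (j + 1) (c - 3 ^ j))) x := by
  rw [iter_eq, iter_eq]
  refine Finset.sum_congr rfl fun w hw => ?_
  have hl : w.length = n := mem_wds.1 hw
  have h1 := path_shift hS w j x 1
  have h2 := nd_shift S w j x 1
  rw [hl, mul_one] at h1 h2
  rw [h1, h2]
  congr 1
  obtain ⟨d, hd⟩ := Vab_four (S.ee w)
  unfold ind
  have h3 : S.nd x w + 3 ^ j * (4 ^ S.ee w * 1) - c =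
      (S.nd x w - (c - 3 ^ j)) + 3 ^ (j + 1) * d := by
    rw [hd, pow_succ]
    ring
  rw [h3]
  have h4 : ((3 : ℤ) ^ (j + 1) ∣ (S.nd x w - (c - 3 ^ j)) + 3 ^ (j + 1) * d) ↔
      (3 : ℤ) ^ (j + 1) ∣ S.nd x w - (c - 3 ^ j) :=
    (dvd_add_left (dvd_mul_right _ _))
  by_cases h5 : (3 : ℤ) ^ (j + 1) ∣ S.nd x w - (c - 3 ^ j)
  · rw [if_pos h5, if_pos (h4.2 h5)]
  · rw [if_neg h5, if_neg (fun h => h5 (h4.1 h))]

/-- The masses of the law at time `n` from `x + 3 ^ (j + m n)` at level `j` are those from `x`, and at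
level `j + 1` the class `c + 3 ^ j` takes the place of `c` (`4 ^ e ≡ 1 mod 3`): the sum over the third digit
`W < 3` in `Psi _ j 1` is only permuted cyclically. -/
theorem vv_per (hS : S.Ok) (j n : ℕ) : Per (j + S.m * n) (S.vv j n) := by
  intro x
  unfold vv
  congr 1
  unfold Psi
  refine Finset.sum_congr rfl fun B _ => ?_
  have h1 : (S.K^[n] (ind j (B : ℤ))) (x + 3 ^ (j + S.m * n)) = (S.K^[n] (ind j (B : ℤ))) x :=
    iter_per hS n (ind_per j B) x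
  have h2 : ∀ W : ℤ, (S.K^[n] (ind (j + 1) ((B : ℤ) + 3 ^ j * W))) (x + 3 ^ (j + S.m * n)) =
      (S.K^[n] (ind (j + 1) ((B : ℤ) + 3 ^ j * (W + -1)))) x := by
    intro W
    have h4 : (B : ℤ) + 3 ^ j * W - 3 ^ j = (B : ℤ) + 3 ^ j * (W + -1) := by ring
    rw [Vab_shift hS, h4]
  have h3 : Per 1 fun W : ℤ => (S.K^[n] (ind (j + 1) ((B : ℤ) + 3 ^ j * W))) x ^ 2 /
      (S.K^[n] (ind j (B : ℤ))) x := by
    intro W
    show (S.K^[n] (ind (j + 1) ((B : ℤ) + 3 ^ j * (W + 3 ^ 1)))) x ^ 2 /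
      (S.K^[n] (ind j (B : ℤ))) x = (S.K^[n] (ind (j + 1) ((B : ℤ) + 3 ^ j * W))) x ^ 2 /
      (S.K^[n] (ind j (B : ℤ))) x
    have h4 : (B : ℤ) + 3 ^ j * (W + 3 ^ 1) = (B : ℤ) + 3 ^ j * W + 3 ^ (j + 1) * 1 := by
      rw [pow_succ]
      ring
    rw [h4, ind_add]
  have h5 := sum_shift h3 (-1)
  calc ∑ W ∈ range (3 ^ 1), (S.K^[n] (ind (j + 1) ((B : ℤ) + 3 ^ j * (W : ℤ))))
          (x + 3 ^ (j + S.m * n)) ^ 2 / (S.K^[n] (ind j (B : ℤ))) (x + 3 ^ (j + S.m * n))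
      = ∑ W ∈ range (3 ^ 1), (S.K^[n] (ind (j + 1) ((B : ℤ) + 3 ^ j * ((W : ℤ) + -1)))) x ^ 2 /
          (S.K^[n] (ind j (B : ℤ))) x := by
        refine Finset.sum_congr rfl fun W _ => ?_
        rw [h1, h2]
    _ = ∑ W ∈ range (3 ^ 1), (S.K^[n] (ind (j + 1) ((B : ℤ) + 3 ^ j * (W : ℤ)))) x ^ 2 /
          (S.K^[n] (ind j (B : ℤ))) x := h5

end Sys

end Pool.Agent.helper14.EX1
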