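import Pool.Agent.helper14.EX1.Avc

/-!
# EX1-Vil: Ville's inequality for the martingale `fn`

`A_n = avg n (fn n * 1_{alive n})`, `A_0 = 1`.  `avg (n+1) (fn (n+1) * 1_{alive n}) = A_n` (write `x = B + 3 ^ n d`,
`alive n` is periodic mod `3 ^ n` (`alive_per`), `fn_mart`), and on `alive n`, not `alive (n+1)`: `fn (n+1) < 1/2`.  So
`A_{n+1} ≥ A_n - (1/2) (al n - al (n+1))`, and `A_n ≥ 1 - (1/2) (1 - al n) ≥ 1/2`.
-/

namespace Pool.Agent.helper14.EX1

open Finset

theorem Vil_alive_iff (K n : ℕ) (x : ℤ) : alive K n (x + 3 ^ n) ↔ alive K n x := by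
  unfold alive
  constructor
  · intro h i h1 h2
    have := h i h1 h2
    rwa [per_mono h2 (fn_per K i) x] at this
  · intro h i h1 h2
    rw [per_mono h2 (fn_per K i) x]
    exact h i h1 h2

open Classical in
theorem alive_per (K n : ℕ) : Per n (fun x => if alive K n x then (1 : ℝ) else 0) := by
  intro x
  simp only [Vil_alive_iff K n x]

theorem al_zero_eq (K : ℕ) : al K 0 = 1 := by
  unfold al avg
  have h : alive K 0 ((0 : ℕ) : ℤ) := by
    intro i h1 h2
    omega
  simp only [pow_zero, range_one, sum_singleton, h, if_true, div_one]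

theorem al_nn (K n : ℕ) : 0 ≤ al K n := by
  unfold al
  apply avg_nn
  intro x
  split_ifs
  · exact zero_le_one
  · exact le_refl 0

theorem Vil_alive_succ {K n : ℕ} {x : ℤ} (h : alive K (n + 1) x) : alive K n x :=
  fun i h1 h2 => h i h1 (by omega)

theorem al_anti (K n : ℕ) : al K (n + 1) ≤ al K n := by
  classical
  unfold al
  rw [← avg_up (Nat.le_succ n) (alive_per K n)]
  apply avg_mono
  intro x
  by_cases h : alive K (n + 1) x
  · simp only [h, Vil_alive_succ h, if_true]
    exact le_refl 1
  · simp only [h, if_false]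
    split_ifs
    · exact zero_le_one
    · exact le_refl 0

open Classical in
theorem Vil_step {K : ℕ} (hK : 1 ≤ K) (n : ℕ) :
    avg (n + 1) (fun x => if alive K n x then fn K (n + 1) x else 0) =
      avg n (fun x => if alive K n x then fn K n x else 0) := by
  unfold avg
  beta_reduce
  have h0 := sum_split n 1 (fun x => if alive K n x then fn K (n + 1) x else 0)
  beta_reduce at h0
  rw [h0]
  have h1 : ∀ B ∈ range (3 ^ n), (∑ W ∈ range (3 ^ 1),
      (if alive K n ((B : ℤ) + 3 ^ n * (W : ℤ)) then fn K (n + 1) ((B : ℤ) + 3 ^ n * (W : ℤ)) else 0)) =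
        3 * (if alive K n (B : ℤ) then fn K n (B : ℤ) else 0) := by
    intro B _
    have h2 : ∀ W : ℕ, (if alive K n ((B : ℤ) + 3 ^ n * (W : ℤ)) then
        fn K (n + 1) ((B : ℤ) + 3 ^ n * (W : ℤ)) else 0) =
        (if alive K n (B : ℤ) then (1 : ℝ) else 0) * fn K (n + 1) ((B : ℤ) + 3 ^ n * (W : ℤ)) := by
      intro W
      have h3 : (if alive K n ((B : ℤ) + 3 ^ n * (W : ℤ)) then (1 : ℝ) else 0) =
          (if alive K n (B : ℤ) then (1 : ℝ) else 0) := per_mul (alive_per K n) (B : ℤ) (W : ℤ)
      rw [← h3]
      split_ifs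
      · rw [one_mul]
      · rw [zero_mul]
    rw [sum_congr rfl (fun W _ => h2 W), ← mul_sum, pow_one, fn_mart hK n (B : ℤ)]
    split_ifs
    · ring
    · ring
  rw [sum_congr rfl h1, ← mul_sum, pow_succ]
  have h4 : (3 : ℝ) ^ n ≠ 0 := by positivity
  field_simp

open Classical in
theorem Vil_low {K : ℕ} (hK : 1 ≤ K) (n : ℕ) :
    1 - 1 / 2 * (1 - al K n) ≤ avg n (fun x => if alive K n x then fn K n x else 0) := by
  induction n with
  | zero =>
    rw [al_zero_eq]
    have h : avg 0 (fun x => if alive K 0 x then fn K 0 x else 0) = 1 := by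
      unfold avg
      have h : alive K 0 ((0 : ℕ) : ℤ) := by
        intro i h1 h2
        omega
      simp only [pow_zero, range_one, sum_singleton, h, if_true, div_one, fn_zero]
    rw [h]
    norm_num
  | succ n ih =>
    have h1 : avg (n + 1) (fun x => (if alive K n x then fn K (n + 1) x else 0) +
        ((-(1 / 2)) * (if alive K n x then (1 : ℝ) else 0) +
          (1 / 2) * (if alive K (n + 1) x then (1 : ℝ) else 0))) ≤
        avg (n + 1) (fun x => if alive K (n + 1) x then fn K (n + 1) x else 0) := by
      apply avg_mono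
      intro x
      by_cases h2 : alive K (n + 1) x
      · simp only [h2, Vil_alive_succ h2, if_true]
        linarith
      · by_cases h3 : alive K n x
        · have h4 : fn K (n + 1) x < 1 / 2 := by
            by_contra h5
            apply h2
            intro i hi1 hi2
            rcases Nat.lt_or_ge i (n + 1) with h6 | h6
            · exact h3 i hi1 (by omega)
            · have : i = n + 1 := by omega
              subst this
              exact not_lt.mp h5
          simp only [h2, h3, if_true, if_false]
          linarith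
        · simp only [h2, h3, if_false]
          linarith
    rw [avg_add, avg_add, avg_smul, avg_smul, Vil_step hK n,
      avg_up (Nat.le_succ n) (alive_per K n)] at h1
    have h2 : avg n (fun x => if alive K n x then (1 : ℝ) else 0) = al K n := rfl
    have h3 : avg (n + 1) (fun x => if alive K (n + 1) x then (1 : ℝ) else 0) = al K (n + 1) := rfl
    rw [h2, h3] at h1
    linarith

open Classical in
theorem ville {K : ℕ} (hK : 1 ≤ K) (n : ℕ) :
    1 / 2 ≤ avg n (fun x => if alive K n x then fn K n x else 0) := by
  have h1 := Vil_low hK n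
  have h2 := al_nn K n
  linarith

end Pool.Agent.helper14.EX1
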