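import Pool.Agent.helper14.EX1.Lett

/-!
# EX1-Wrd: words
-/

namespace Pool.Agent.helper14.EX1

open Finset

theorem mem_lw {K n : ℕ} {v : List ℕ} :
    v ∈ lw K n ↔ v.length = n ∧ ∀ k ∈ v, 1 ≤ k ∧ k ≤ K := by
  induction n generalizing v with
  | zero =>
    simp only [lw, mem_singleton, List.length_eq_zero_iff]
    constructor
    · rintro rfl
      simp
    · exact fun h => h.1
  | succ n ih =>
    cases v with
    | nil => simp [lw]
    | cons k v =>
      simp only [lw, mem_image, mem_product, mem_Icc, Prod.exists, List.cons.injEq, ih,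
        List.length_cons, List.mem_cons, forall_eq_or_imp]
      constructor
      · rintro ⟨a, b, ⟨⟨h1, h2⟩, h3, h4⟩, rfl, rfl⟩
        exact ⟨by omega, ⟨h1, h2⟩, h4⟩
      · rintro ⟨h1, h2, h3⟩
        exact ⟨k, v, ⟨h2, by omega, h3⟩, rfl, rfl⟩

theorem sum_lw_succ (K n : ℕ) (F : List ℕ → ℝ) :
    ∑ v ∈ lw K (n + 1), F v = ∑ k ∈ Icc 1 K, ∑ v ∈ lw K n, F (k :: v) := by
  rw [lw, sum_image, sum_product]
  rintro ⟨a, b⟩ _ ⟨c, d⟩ _ h
  simp only [List.cons.injEq] at h
  exact Prod.ext h.1 h.2

/-- Last letter. -/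
theorem sum_lw_snoc (K n : ℕ) (F : List ℕ → ℝ) :
    ∑ v ∈ lw K (n + 1), F v = ∑ v ∈ lw K n, ∑ k ∈ Icc 1 K, F (v ++ [k]) := by
  induction n generalizing F with
  | zero =>
    rw [sum_lw_succ]
    simp [lw]
  | succ n ih =>
    rw [sum_lw_succ, sum_lw_succ]
    refine sum_congr rfl fun k _ => ?_
    rw [ih (fun v => F (k :: v))]
    simp only [List.cons_append]

theorem nd_append (x : ℤ) (u v : List ℕ) : nd x (u ++ v) = nd (nd x u) v := by
  induction u generalizing x with
  | nil => rfl
  | cons k u ih =>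
    rw [List.cons_append]
    exact ih (Tk k x)

theorem ala_append (x : ℤ) (u v : List ℕ) : Ala x (u ++ v) ↔ Ala x u ∧ Ala (nd x u) v := by
  induction u generalizing x with
  | nil => exact ⟨fun h => ⟨trivial, h⟩, fun h => h.2⟩
  | cons k u ih =>
    rw [List.cons_append]
    change (Al k x ∧ Ala (Tk k x) (u ++ v)) ↔ (Al k x ∧ Ala (Tk k x) u) ∧ Ala (nd (Tk k x) u) v
    rw [ih (Tk k x), and_assoc]

theorem ww_pos (v : List ℕ) : 0 < ww v := by
  unfold ww
  positivity

theorem ww_nil : ww [] = 1 := by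
  simp [ww]

theorem ww_cons (k : ℕ) (v : List ℕ) : ww (k :: v) = 3 / 2 ^ k * ww v := by
  unfold ww
  rw [List.length_cons, List.sum_cons, pow_succ, pow_add, div_mul_div_comm, mul_comm (3 : ℝ)]

theorem ww_append (u v : List ℕ) : ww (u ++ v) = ww u * ww v := by
  unfold ww
  rw [List.length_append, List.sum_append, pow_add, pow_add, div_mul_div_comm]

/-- The iterates of the transfer operator as sums over words. -/
theorem L_iter (K : ℕ) (q : ℕ → ℝ) (n : ℕ) (φ : ℤ → ℝ) (x : ℤ) :
    ((L K q)^[n] φ) x = ∑ v ∈ lw K n, if Ala x v then (v.map q).prod * φ (nd x v) else 0 := by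
  induction n generalizing x with
  | zero =>
    simp [lw, Ala, nd]
  | succ n ih =>
    rw [Function.iterate_succ_apply', sum_lw_succ]
    unfold L
    refine sum_congr rfl fun k _ => ?_
    by_cases hk : Al k x
    · rw [if_pos hk]
      have h1 := ih (Tk k x)
      unfold L at h1
      rw [h1, mul_sum]
      refine sum_congr rfl fun v _ => ?_
      by_cases hv : Ala (Tk k x) v
      · rw [if_pos hv, if_pos (show Ala x (k :: v) from ⟨hk, hv⟩), List.map_cons, List.prod_cons,
          mul_assoc]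
        rfl
      · rw [if_neg hv, if_neg (show ¬ Ala x (k :: v) from fun h => hv h.2), mul_zero]
    · rw [if_neg hk]
      refine (sum_eq_zero fun v _ => ?_).symm
      exact if_neg (show ¬ Ala x (k :: v) from fun h => hk h.1)

theorem Wrd_prod (K : ℕ) (v : List ℕ) : (v.map (qn K)).prod = ww v / th K ^ v.length := by
  induction v with
  | nil => simp [ww]
  | cons k v ih =>
    rw [List.map_cons, List.prod_cons, ih, ww_cons, List.length_cons, pow_succ]
    unfold qn
    rw [div_mul_div_comm, mul_comm (th K)]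

theorem fn_eq (K n : ℕ) (x : ℤ) :
    fn K n x = ∑ v ∈ lw K n, if Ala x v then ww v / th K ^ n else 0 := by
  unfold fn
  rw [L_iter]
  refine sum_congr rfl fun v hv => ?_
  rw [mul_one, Wrd_prod, (mem_lw.1 hv).1]

theorem FF_eq {K : ℕ} (hK : 1 ≤ K) (n : ℕ) (x : ℤ) : FF K n x = th K ^ n * fn K n x := by
  rw [fn_eq, mul_sum]
  unfold FF
  refine sum_congr rfl fun v _ => ?_
  have h : th K ^ n ≠ 0 := pow_ne_zero _ (th_pos hK).ne'
  split_ifs
  · rw [mul_div_cancel₀ _ h]
  · rw [mul_zero]

theorem nd_eq {x : ℤ} {v : List ℕ} (h : Ala x v) : 3 ^ v.length * nd x v = 2 ^ v.sum * x + Gw v := by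
  induction v generalizing x with
  | nil => simp [nd, Gw]
  | cons k v ih =>
    have h1 : Al k x := h.1
    have h2 : Ala (Tk k x) v := h.2
    have h3 := ih h2
    have h4 := Tk_eq h1
    change 3 ^ (v.length + 1) * nd (Tk k x) v = 2 ^ (k :: v).sum * x + (2 ^ v.sum * tk k + 3 * Gw v)
    rw [List.sum_cons, pow_succ, pow_add]
    linear_combination 3 * h3 + 2 ^ v.sum * h4

theorem nd_shift (v : List ℕ) (q : ℕ) (x y : ℤ) :
    nd (x + 3 ^ (q + v.length) * y) v = nd x v + 3 ^ q * (2 ^ v.sum * y) := by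
  induction v generalizing x y with
  | nil => simp [nd]
  | cons k v ih =>
    change nd (Tk k (x + 3 ^ (q + v.length + 1) * y)) v =
      nd (Tk k x) v + 3 ^ q * (2 ^ (k :: v).sum * y)
    rw [Tk_shift, ih, List.sum_cons, pow_add]
    ring

theorem ala_shift (v : List ℕ) (x y : ℤ) : Ala (x + 3 ^ v.length * y) v ↔ Ala x v := by
  induction v generalizing x y with
  | nil => exact Iff.rfl
  | cons k v ih =>
    change (Al k (x + 3 ^ (v.length + 1) * y) ∧ Ala (Tk k (x + 3 ^ (v.length + 1) * y)) v) ↔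
      (Al k x ∧ Ala (Tk k x) v)
    rw [Tk_shift, ih, al_congr k (x := x + 3 ^ (v.length + 1) * y) (y := x)]
    rw [add_sub_cancel_left, pow_succ]
    exact Dvd.dvd.mul_right (Dvd.intro_left _ rfl) _

/-- Each word is allowed for exactly one residue modulo `3 ^ length`.  Induction on the length: write
`x = B + 3 y` (`sum_split 1 n`), the first letter fixes `B`, and `Tk k (B + 3 y) = Tk k B + 2 ^ k y`;
then `sum_affine`. -/
theorem ala_count (v : List ℕ) (hv : ∀ k ∈ v, 1 ≤ k) :
    ∑ x ∈ range (3 ^ v.length), (if Ala (x : ℤ) v then (1 : ℝ) else 0) = 1 := by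
  induction v with
  | nil => simp [Ala]
  | cons k v ih =>
    have hk : 1 ≤ k := hv k List.mem_cons_self
    have hv' : ∀ j ∈ v, 1 ≤ j := fun j hj => hv j (List.mem_cons_of_mem _ hj)
    have h1 := ih hv'
    have hper : Per v.length (fun x => if Ala x v then (1 : ℝ) else 0) := by
      intro x
      have := ala_shift v x 1
      rw [mul_one] at this
      simp only [this]
    have hu : ¬ (3 : ℤ) ∣ 2 ^ k := by
      intro h
      have := Int.Prime.dvd_pow' Nat.prime_three h
      omega
    have hs := sum_split 1 v.length (fun x => if Ala x (k :: v) then (1 : ℝ) else 0)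
    have key : ∀ B ∈ range (3 ^ 1), (∑ W ∈ range (3 ^ v.length),
        (if Ala ((B : ℤ) + 3 ^ 1 * (W : ℤ)) (k :: v) then (1 : ℝ) else 0)) =
        if Al k (B : ℤ) then (1 : ℝ) else 0 := by
      intro B _
      have hT : ∀ W : ℤ, Tk k ((B : ℤ) + 3 ^ 1 * W) = 2 ^ k * W + Tk k B := by
        intro W
        have := Tk_shift k 0 B W
        rw [zero_add] at this
        rw [this]
        ring
      have hA : ∀ W : ℤ, Al k ((B : ℤ) + 3 ^ 1 * W) ↔ Al k B := by
        intro W
        refine al_congr k ?_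
        rw [add_sub_cancel_left, pow_one]
        exact Dvd.intro _ rfl
      by_cases hB : Al k (B : ℤ)
      · rw [if_pos hB]
        refine Eq.trans ?_ ((sum_affine hper hu (Tk k B)).trans h1)
        refine sum_congr rfl fun W _ => ?_
        have : Ala ((B : ℤ) + 3 ^ 1 * (W : ℤ)) (k :: v) ↔ Ala (2 ^ k * (W : ℤ) + Tk k B) v := by
          change (Al k ((B : ℤ) + 3 ^ 1 * (W : ℤ)) ∧ Ala (Tk k ((B : ℤ) + 3 ^ 1 * (W : ℤ))) v) ↔ _
          rw [hT, hA]
          exact ⟨fun h => h.2, fun h => ⟨hB, h⟩⟩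
        by_cases hW : Ala (2 ^ k * (W : ℤ) + Tk k B) v
        · rw [if_pos (this.2 hW), if_pos hW]
        · rw [if_neg (fun h => hW (this.1 h)), if_neg hW]
      · rw [if_neg hB]
        refine sum_eq_zero fun W _ => ?_
        exact if_neg (fun h => hB ((hA W).1 h.1))
    rw [List.length_cons, add_comm v.length 1]
    refine hs.trans ((sum_congr rfl key).trans ?_)
    rw [pow_one]
    exact al_sum hk

/-- The same at a higher level. -/
theorem avg_ala (v : List ℕ) (hv : ∀ k ∈ v, 1 ≤ k) :
    avg v.length (fun x => if Ala x v then (1 : ℝ) else 0) = 1 / 3 ^ v.length := by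
  unfold avg
  rw [ala_count v hv]

end Pool.Agent.helper14.EX1
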